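import Pool.Agent.RFq.Idf

/-! MP_ae1fc5_gt, Q1: algebra at the touching points (helper75) -/

open Set

noncomputable section

namespace Pool.Agent.RFq

open Pool.Agent.MP_ae1fc5_gt

/-- drift terms at a maximum -/
theorem drift {a k r f1 f2 y : ℝ} (hy : y ∈ Icc (-1 : ℝ) 1) (ha : 0 ≤ a) (hk : 0 ≤ k)
    (h1 : y < 1 → f1 ≤ 0) (h2 : -1 < y → 0 ≤ f1) (h3 : -1 < y → y < 1 → f2 ≤ 0) :
    a * ((1 - y ^ 2) * f2 - k * y * f1) - (1 - y ^ 2) * r * f1 ≤ 0 := by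
  rcases hy.2.eq_or_lt with h | h
  · subst h
    have h5 := h2 (by norm_num)
    have : 0 ≤ a * (k * f1) := mul_nonneg ha (mul_nonneg hk h5)
    nlinarith
  · rcases hy.1.eq_or_lt with h' | h'
    · subst h'
      have h5 := h1 (by norm_num)
      have : a * (k * f1) ≤ 0 :=
        mul_nonpos_of_nonneg_of_nonpos ha (mul_nonpos_of_nonneg_of_nonpos hk h5)
      nlinarith
    · have h5 : f1 = 0 := le_antisymm (h1 h) (h2 h')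
      have h6 := h3 h' h
      have h7 : 0 ≤ 1 - y ^ 2 := by nlinarith
      have : a * ((1 - y ^ 2) * f2) ≤ 0 :=
        mul_nonpos_of_nonneg_of_nonpos ha (mul_nonpos_of_nonneg_of_nonpos h7 h6)
      rw [h5]; linarith

/-- the touching point computation for `H` -/
theorem alg_H (V V1 V2 V3 V4 J y b r : ℝ) (hb : 0 < b) (hV : 0 < V)
    (hs : 0 ≤ 1 - y ^ 2)
    (hv : 0 < V ^ 2 - 2 * y * V * V1 - (1 - y ^ 2) * V1 ^ 2)
    (hF : -V2 * (1 - y ^ 2) ^ 2 * r - b * V ^ 2 = 0)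
    (hF1 : -V3 * (1 - y ^ 2) ^ 2 * r + 5 * y * V2 * (1 - y ^ 2) * r - 2 * b * (V * V1) = 0)
    (hF2 : -V4 * (1 - y ^ 2) ^ 2 * r + 10 * y * V3 * (1 - y ^ 2) * r
      + 5 * V2 * (1 - y ^ 2) * r - 15 * y ^ 2 * V2 * r - 2 * b * (V1 ^ 2 + V * V2) ≤ 0) :
    -rhs2 V V1 V2 V3 V4 J y * (1 - y ^ 2) ^ 2 * r - 3 * b * V ^ 2
      - 2 * b * (V * rhs V V1 V2 J y) < 0 := by
  have key : -rhs2 V V1 V2 V3 V4 J y * (1 - y ^ 2) ^ 2 * r - 3 * b * V ^ 2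
      - 2 * b * (V * rhs V V1 V2 J y) =
      V ^ 2 * (1 - y ^ 2) * (-V4 * (1 - y ^ 2) ^ 2 * r + 10 * y * V3 * (1 - y ^ 2) * r
      + 5 * V2 * (1 - y ^ 2) * r - 15 * y ^ 2 * V2 * r - 2 * b * (V1 ^ 2 + V * V2))
      + (3 * y * V ^ 2 + (1 - y ^ 2) * (2 * V * V1 - J)) *
        (-V3 * (1 - y ^ 2) ^ 2 * r + 5 * y * V2 * (1 - y ^ 2) * r - 2 * b * (V * V1))
      + (-8 * (1 - y ^ 2) * V1 ^ 2 - 12 * y * V * V1
        - (V ^ 2 - 2 * y * V * V1 - (1 - y ^ 2) * V1 ^ 2) - 2 - 2 * y * J + 4 * V ^ 2) *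
        (-V2 * (1 - y ^ 2) ^ 2 * r - b * V ^ 2)
      - ((V ^ 2 - 2 * y * V * V1 - (1 - y ^ 2) * V1 ^ 2) + 1) * (b * V ^ 2) := by
    unfold rhs rhs2
    ring
  rw [key, hF, hF1, mul_zero, mul_zero, add_zero, add_zero]
  have h1 : V ^ 2 * (1 - y ^ 2) * (-V4 * (1 - y ^ 2) ^ 2 * r + 10 * y * V3 * (1 - y ^ 2) * r
      + 5 * V2 * (1 - y ^ 2) * r - 15 * y ^ 2 * V2 * r - 2 * b * (V1 ^ 2 + V * V2)) ≤ 0 :=
    mul_nonpos_of_nonneg_of_nonpos (mul_nonneg (sq_nonneg _) hs) hF2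
  have h2 : 0 < b * V ^ 2 := by positivity
  nlinarith

/-- the touching point computation for `X`, interior -/
theorem alg_X (V V1 V2 J y c0 β v w1 w2 : ℝ) (hV : 0 < V) (hc0 : 0 < c0) (hβ : 0 < β)
    (hs : 0 < 1 - y ^ 2)
    (hv : v = V ^ 2 - 2 * y * V * V1 - (1 - y ^ 2) * V1 ^ 2) (hvp : 0 < v)
    (hw1 : w1 = -2 * (y * V + (1 - y ^ 2) * V1) * V2)
    (hF : v * (1 - y ^ 2 + c0 * V ^ 2) - (1 - β) * V ^ 2 = 0)
    (hF1 : w1 * (1 - y ^ 2 + c0 * V ^ 2) + v * (-2 * y + 2 * c0 * (V * V1))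
      - 2 * (1 - β) * (V * V1) = 0)
    (hF2 : w2 * (1 - y ^ 2 + c0 * V ^ 2) + 2 * w1 * (-2 * y + 2 * c0 * (V * V1))
      + v * (-2 + 2 * c0 * (V1 ^ 2 + V * V2)) - 2 * (1 - β) * (V1 ^ 2 + V * V2) ≤ 0) :
    (V ^ 2 * ((1 - y ^ 2) * w2 - 5 * y * w1) - (1 - y ^ 2) * (2 * V * V1 + J) * w1 + 2 * v ^ 2
        + 2 * (v + V * (1 - y ^ 2) * V2) ^ 2 - 4 * v) * (1 - y ^ 2 + c0 * V ^ 2)
      + v * (2 * c0 * (V * rhs V V1 V2 J y)) - 2 * (1 - β) * (V * rhs V V1 V2 J y) < 0 := by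
  obtain ⟨s, hsd⟩ : ∃ s, s = 1 - y ^ 2 := ⟨_, rfl⟩
  obtain ⟨Ω, hΩ⟩ : ∃ Ω, Ω = s + c0 * V ^ 2 := ⟨_, rfl⟩
  obtain ⟨P, hP⟩ : ∃ P, P = y * V + s * V1 := ⟨_, rfl⟩
  have hy2 : y ^ 2 = 1 - s := by rw [hsd]; ring
  rw [← hsd] at hs hv hw1 hF hF1 hF2 ⊢
  rw [← hΩ] at hF hF1 hF2 ⊢
  rw [← hP] at hw1
  have hΩp : 0 < Ω := by rw [hΩ]; positivity
  have hVP : V ^ 2 - P ^ 2 = s * v := by
    rw [hP, hv]
    have : (y * V + s * V1) ^ 2 = y ^ 2 * V ^ 2 + 2 * y * s * V * V1 + s ^ 2 * V1 ^ 2 := by ring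
    rw [this, hy2]; ring
  -- P is nonzero
  have hP2 : Ω * P ^ 2 = V ^ 2 * (c0 * V ^ 2 + β * s) := by
    have h1 : Ω * P ^ 2 = Ω * V ^ 2 - s * (v * Ω) := by
      have : P ^ 2 = V ^ 2 - s * v := by linarith
      rw [this]; ring
    have h2 : v * Ω = (1 - β) * V ^ 2 := by linarith
    rw [h1, h2, hΩ]; ring
  have hPne : P ≠ 0 := by
    intro h0
    rw [h0] at hP2
    have : 0 < V ^ 2 * (c0 * V ^ 2 + β * s) := by positivity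
    nlinarith
  -- V2
  have hb : (1 - β) * V ^ 2 = v * Ω := by linarith
  have hV2 : V2 * (Ω * V) = -v := by
    have h1 : P * (V2 * (Ω * V) + v) = 0 := by
      have h2 : V * (w1 * Ω + v * (-2 * y + 2 * c0 * (V * V1)) - 2 * (1 - β) * (V * V1)) = 0 := by
        rw [hF1, mul_zero]
      have h3 : V * (w1 * Ω + v * (-2 * y + 2 * c0 * (V * V1)) - 2 * (1 - β) * (V * V1)) =
          V * w1 * Ω + v * (-2 * y * V + 2 * c0 * (V ^ 2 * V1)) - 2 * ((1 - β) * V ^ 2) * V1 := by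
        ring
      rw [h3, hb, hw1] at h2
      have h4 : -2 * (P * (V2 * (Ω * V) + v)) =
          V * (-2 * P * V2) * Ω + v * (-2 * y * V + 2 * c0 * (V ^ 2 * V1)) - 2 * (v * Ω) * V1 := by
        rw [hP, hΩ]; ring
      rw [h2] at h4
      linarith
    have h5 := (mul_eq_zero.1 h1).resolve_left hPne
    linarith
  have e1 : V ^ 2 - P ^ 2 - s * v = 0 := by linarith
  have e2 : 1 - y ^ 2 - s = 0 := by linarith
  have hr : rhs V V1 V2 J y = V ^ 2 * (s * V2 - 3 * y * V1) - V * s * V1 ^ 2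
      + 2 * V * (V ^ 2 - 1) - P * J := by unfold rhs; rw [← hsd, hP]
  have r1 : Ω * V * w1 - 2 * P * v = 0 := by
    rw [hw1]; linear_combination (-2 * P) * hV2
  have r2 : Ω * (v + V * s * V2) - v * (Ω - s) = 0 := by
    linear_combination s * hV2
  have r5 : c0 * V ^ 2 - (Ω - s) = 0 := by rw [hΩ]; ring
  have r3 : V ^ 2 * (c0 * v - (1 - β)) + v * s = 0 := by
    linear_combination v * r5 - hb
  obtain ⟨R, hR⟩ : ∃ R, R = rhs V V1 V2 J y := ⟨_, rfl⟩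
  rw [← hR] at hr ⊢
  obtain ⟨Ft, hFt⟩ : ∃ Ft, Ft = (V ^ 2 * (s * w2 - 5 * y * w1) - s * (2 * V * V1 + J) * w1
        + 2 * v ^ 2 + 2 * (v + V * s * V2) ^ 2 - 4 * v) * Ω
      + v * (2 * c0 * (V * R)) - 2 * (1 - β) * (V * R) := ⟨_, rfl⟩
  obtain ⟨F2, hF2'⟩ : ∃ F2, F2 = w2 * Ω + 2 * w1 * (-2 * y + 2 * c0 * (V * V1))
      + v * (-2 + 2 * c0 * (V1 ^ 2 + V * V2)) - 2 * (1 - β) * (V1 ^ 2 + V * V2) := ⟨_, rfl⟩
  rw [← hFt]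
  rw [← hF2'] at hF2
  obtain ⟨Br, hBr⟩ : ∃ Br, Br = -10 * y * V * Ω * P - 4 * s * Ω * P * V1 + 2 * v * Ω ^ 2
      + 2 * v * (Ω - s) ^ 2 - 4 * Ω ^ 2 + 6 * y * Ω * s * V * V1 + 4 * Ω * s ^ 2 * V1 ^ 2
      - 2 * Ω * s * V ^ 2 + 4 * Ω * s - 8 * s * P * (Ω - s) * V1 + 8 * s * P * y * V := ⟨_, rfl⟩
  have k1 : V ^ 2 * Ω * Ft = V ^ 2 * s * (V ^ 2 * Ω * F2) + v * V ^ 2 * Br := by
    rw [hFt, hF2', hBr]
    have hr0 : R - (V ^ 2 * (s * V2 - 3 * y * V1) - V * s * V1 ^ 2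
      + 2 * V * (V ^ 2 - 1) - P * J) = 0 := by linarith
    linear_combination (V * Ω * (-5 * y * V ^ 2 - s * (2 * V * V1 + J))
      - 2 * V ^ 3 * s * (-2 * y + 2 * c0 * (V * V1))) * r1
      + 2 * V ^ 2 * (Ω * (v + V * s * V2) + v * (Ω - s)) * r2
      + (2 * V * Ω * R - 2 * V ^ 2 * s * Ω * (V1 ^ 2 + V * V2)) * r3
      + (-8 * V ^ 2 * s * P * v * V1) * r5 - 2 * V * Ω * v * s * hr0
  have k2 : Br = -8 * (Ω - s) * (V ^ 2 - s * v) - 2 * Ω * V ^ 2 - 4 * Ω * (Ω - s)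
      + 2 * v * (Ω ^ 2 + (Ω - s) ^ 2) := by
    have k3 : Br = -8 * (Ω - s) * (V ^ 2 - s * v) - 2 * Ω * V ^ 2 - 4 * Ω * (Ω - s)
      + 2 * v * (Ω ^ 2 + (Ω - s) ^ 2) + 8 * (Ω - s) * (V ^ 2 - P ^ 2 - s * v)
      + 2 * Ω * V ^ 2 * (1 - y ^ 2 - s) := by rw [hBr, hP]; ring
    rw [k3, e1, e2]; ring
  have hΩs : 0 < Ω - s := by
    rw [hΩ]
    have : 0 < c0 * V ^ 2 := by positivity
    linarith
  have k4 : Ω * Br = -8 * (Ω - s) * V ^ 2 * (Ω - s * (1 - β)) - 2 * Ω ^ 2 * V ^ 2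
      - 4 * Ω ^ 2 * (Ω - s) + 2 * (1 - β) * V ^ 2 * (Ω ^ 2 + (Ω - s) ^ 2) := by
    rw [k2]
    linear_combination (8 * (Ω - s) * s + 2 * (Ω ^ 2 + (Ω - s) ^ 2)) * (-hb)
  have k5 : Ω * Br < 0 := by
    rw [k4]
    have a1 : (Ω - s) * V ^ 2 * (Ω - s) ≤ (Ω - s) * V ^ 2 * (Ω - s * (1 - β)) := by
      refine mul_le_mul_of_nonneg_left ?_ (by positivity)
      have h := mul_pos hs hβ
      linarith
    have a2 : 0 < Ω ^ 2 * V ^ 2 * β := by positivity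
    have a3 : 0 < Ω ^ 2 * (Ω - s) := by positivity
    have a4 : 0 < V ^ 2 * (Ω - s) ^ 2 := by positivity
    have a5 : 0 < V ^ 2 * (Ω - s) ^ 2 * β := by positivity
    linarith
  have k6 : Br < 0 := by
    by_contra hc
    have := mul_nonneg hΩp.le (not_lt.1 hc)
    linarith
  have k7 : V ^ 2 * Ω * Ft < 0 := by
    rw [k1]
    have b1 : V ^ 2 * s * (V ^ 2 * Ω * F2) ≤ 0 :=
      mul_nonpos_of_nonneg_of_nonpos (by positivity)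
        (mul_nonpos_of_nonneg_of_nonpos (by positivity) hF2)
    have b2 : v * V ^ 2 * Br < 0 := mul_neg_of_pos_of_neg (by positivity) k6
    linarith
  by_contra hc
  have := mul_nonneg (by positivity : (0 : ℝ) ≤ V ^ 2 * Ω) (not_lt.1 hc)
  linarith

/-- the touching point computation for `X` at `y = 1` -/
theorem alg_X1 (V V1 V2 J c0 β v w1 w2 : ℝ) (hV : 0 < V) (hc0 : 0 < c0) (hβ : 0 < β)
    (hvp : 0 < v)
    (hF : v * (1 - (1 : ℝ) ^ 2 + c0 * V ^ 2) - (1 - β) * V ^ 2 = 0)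
    (hF1 : 0 ≤ w1 * (1 - (1 : ℝ) ^ 2 + c0 * V ^ 2) + v * (-2 * 1 + 2 * c0 * (V * V1))
      - 2 * (1 - β) * (V * V1)) :
    (V ^ 2 * ((1 - (1 : ℝ) ^ 2) * w2 - 5 * 1 * w1) - (1 - (1 : ℝ) ^ 2) * (2 * V * V1 + J) * w1
        + 2 * v ^ 2 + 2 * (v + V * (1 - (1 : ℝ) ^ 2) * V2) ^ 2 - 4 * v)
        * (1 - (1 : ℝ) ^ 2 + c0 * V ^ 2)
      + v * (2 * c0 * (V * rhs V V1 V2 J 1)) - 2 * (1 - β) * (V * rhs V V1 V2 J 1) < 0 := by
  have h1 : c0 * v = 1 - β := by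
    have h2 : V ^ 2 * (c0 * v - (1 - β)) = 0 := by linarith
    have h3 := (mul_eq_zero.1 h2).resolve_left (by positivity)
    linarith
  have h2 : 2 * v ≤ w1 * (c0 * V ^ 2) := by
    have : w1 * (1 - (1 : ℝ) ^ 2 + c0 * V ^ 2) + v * (-2 * 1 + 2 * c0 * (V * V1))
      - 2 * (1 - β) * (V * V1) = w1 * (c0 * V ^ 2) - 2 * v + 2 * (V * V1) * (c0 * v - (1 - β)) := by
      ring
    rw [this, h1, sub_self, mul_zero, add_zero] at hF1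
    linarith
  have key : (V ^ 2 * ((1 - (1 : ℝ) ^ 2) * w2 - 5 * 1 * w1) - (1 - (1 : ℝ) ^ 2) * (2 * V * V1 + J) * w1
        + 2 * v ^ 2 + 2 * (v + V * (1 - (1 : ℝ) ^ 2) * V2) ^ 2 - 4 * v)
        * (1 - (1 : ℝ) ^ 2 + c0 * V ^ 2)
      + v * (2 * c0 * (V * rhs V V1 V2 J 1)) - 2 * (1 - β) * (V * rhs V V1 V2 J 1) =
      V ^ 2 * (-5 * (w1 * (c0 * V ^ 2)) + 4 * v * (c0 * v) - 4 * v * c0)
        + 2 * (V * rhs V V1 V2 J 1) * (c0 * v - (1 - β)) := by ring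
  rw [key, h1, sub_self, mul_zero, add_zero]
  have h3 : -5 * (w1 * (c0 * V ^ 2)) + 4 * v * (1 - β) - 4 * v * c0 < 0 := by
    have h4 : 0 < v * c0 := by positivity
    have h5 : 0 < v * β := by positivity
    nlinarith
  exact mul_neg_of_pos_of_neg (by positivity) h3

end Pool.Agent.RFq
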