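import Pool.Agent.RFq.N0
import Pool.Agent.MP_ae1fc5_gt.ArrId

/-!
# MP_ae1fc5_gt, Q1, section 4: the Bessel bound and the continuation of coefficient solutions
-/

set_option autoImplicit false

open scoped Quaternion ContDiff Matrix Real
open Set

noncomputable section

namespace Pool.Agent.RFq

open Pool.Agent.MP_ae1fc5_gt Pool.Agent.MP_ae1fc5_gt.Pde

namespace Cont

/-! ### The Bessel bound -/

theorem lap0 (n : ℕ) (y : ℝ) : (1 - y ^ 2) * dU 2 (2 * n) y - 3 * y * dU 1 (2 * n) y =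
    -lam n * dU 0 (2 * n) y := by
  have h := laplace_cU n y
  rw [deriv_deriv_cU, deriv_cU] at h
  rw [dU_zero]
  exact h

theorem lap1 (n : ℕ) (y : ℝ) : (1 - y ^ 2) * dU 3 (2 * n) y - 5 * y * dU 2 (2 * n) y
    - 3 * dU 1 (2 * n) y = -lam n * dU 1 (2 * n) y := by
  have e : (fun y => (1 - y ^ 2) * dU 2 (2 * n) y - 3 * y * dU 1 (2 * n) y) =
      fun y => -lam n * dU 0 (2 * n) y := funext fun y => lap0 n y
  have h0 : HasDerivAt (fun y : ℝ => 1 - y ^ 2) (-(2 * y)) y := by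
    have := (hasDerivAt_pow 2 y).const_sub 1
    simpa using this
  have h1 : HasDerivAt (fun y : ℝ => 3 * y) 3 y := by
    simpa using (hasDerivAt_id y).const_mul 3
  have hl := (h0.mul (dU_hasDerivAt 2 (2 * n) y)).sub (h1.mul (dU_hasDerivAt 1 (2 * n) y))
  have hr := (dU_hasDerivAt 0 (2 * n) y).const_mul (-lam n)
  have hl' : HasDerivAt (fun y => (1 - y ^ 2) * dU 2 (2 * n) y - 3 * y * dU 1 (2 * n) y) _ y := hl
  rw [e] at hl'
  have := hl'.unique hr
  norm_num at this ⊢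
  linarith

theorem lap2 (n : ℕ) (y : ℝ) : (1 - y ^ 2) * dU 4 (2 * n) y - 7 * y * dU 3 (2 * n) y
    - 8 * dU 2 (2 * n) y = -lam n * dU 2 (2 * n) y := by
  have e : (fun y => (1 - y ^ 2) * dU 3 (2 * n) y - 5 * y * dU 2 (2 * n) y
      - 3 * dU 1 (2 * n) y) = fun y => -lam n * dU 1 (2 * n) y := funext fun y => lap1 n y
  have h0 : HasDerivAt (fun y : ℝ => 1 - y ^ 2) (-(2 * y)) y := by
    have := (hasDerivAt_pow 2 y).const_sub 1
    simpa using this
  have h1 : HasDerivAt (fun y : ℝ => 5 * y) 5 y := by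
    simpa using (hasDerivAt_id y).const_mul 5
  have hl := ((h0.mul (dU_hasDerivAt 3 (2 * n) y)).sub (h1.mul (dU_hasDerivAt 2 (2 * n) y))).sub
    ((dU_hasDerivAt 1 (2 * n) y).const_mul 3)
  have hr := (dU_hasDerivAt 1 (2 * n) y).const_mul (-lam n)
  have hl' : HasDerivAt (fun y => (1 - y ^ 2) * dU 3 (2 * n) y - 5 * y * dU 2 (2 * n) y
      - 3 * dU 1 (2 * n) y) _ y := hl
  rw [e] at hl'
  have := hl'.unique hr
  norm_num at this ⊢
  linarith

theorem wt4 (n : ℕ) (y : ℝ) : wt n ^ 4 * dU 0 (2 * n) y = dU 0 (2 * n) y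
    - 2 * ((1 - y ^ 2) * dU 2 (2 * n) y - 3 * y * dU 1 (2 * n) y)
    + (1 - y ^ 2) * ((1 - y ^ 2) * dU 4 (2 * n) y - 7 * y * dU 3 (2 * n) y - 8 * dU 2 (2 * n) y)
    - 3 * y * ((1 - y ^ 2) * dU 3 (2 * n) y - 5 * y * dU 2 (2 * n) y - 3 * dU 1 (2 * n) y) := by
  have h0 := lap0 n y
  rw [lap0, lap1, lap2]
  have e : wt n ^ 4 = (lam n + 1) ^ 2 := by rw [lam_wt]; ring
  rw [e]
  linear_combination lam n * h0

theorem wt_inv_summable : Summable fun n : ℕ => (wt n ^ 2)⁻¹ := by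
  have h1 : Summable fun n : ℕ => (((n : ℝ) + 1) ^ 2)⁻¹ := by
    have := (summable_nat_add_iff 1).2 (Real.summable_one_div_nat_pow.2 (by norm_num : 1 < 2))
    simpa [one_div] using this
  refine Summable.of_nonneg_of_le (fun n => by have := wt_pos n; positivity) (fun n => ?_) h1
  apply inv_anti₀ (by positivity)
  have : (n : ℝ) + 1 ≤ wt n := by
    unfold wt
    have : (0 : ℝ) ≤ n := Nat.cast_nonneg n
    linarith
  exact pow_le_pow_left₀ (by positivity) this 2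

/-- Rapidly decreasing coefficients. -/
def Rd (a : ℕ → ℝ) : Prop := ∀ m : ℕ, ∃ C : ℝ, ∀ n, wt n ^ m * |a n| ≤ C

theorem Rd.summable {a : ℕ → ℝ} (ha : Rd a) (m : ℕ) : Summable fun n => wt n ^ m * |a n| := by
  obtain ⟨C, hC⟩ := ha (m + 2)
  refine Summable.of_nonneg_of_le
    (fun n => mul_nonneg (pow_nonneg (wt_pos n).le _) (abs_nonneg _)) (fun n => ?_)
    (wt_inv_summable.mul_left C)
  have h1 := hC n
  have h2 : 0 < wt n ^ 2 := pow_pos (wt_pos n) 2
  rw [← div_eq_mul_inv, le_div_iff₀ h2]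
  calc wt n ^ m * |a n| * wt n ^ 2 = wt n ^ (m + 2) * |a n| := by ring
    _ ≤ C := h1

theorem Rd.mul {a : ℕ → ℝ} (ha : Rd a) (q : ℕ) : Rd fun n => wt n ^ q * a n := by
  intro m
  obtain ⟨C, hC⟩ := ha (m + q)
  refine ⟨C, fun n => ?_⟩
  rw [abs_mul, abs_of_nonneg (pow_nonneg (wt_pos n).le q), ← mul_assoc, ← pow_add]
  exact hC n

theorem dU_le (j n : ℕ) (y : ℝ) (hy : y ∈ I1) : |dU j (2 * n) y| ≤ wt n ^ (2 * j + 1) := by
  have h := dU_bound2 1 le_rfl y (by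
    have := abs_le.2 hy
    norm_num
    exact this) j n
  rw [one_pow, one_pow, mul_one] at h
  exact h

theorem Rd.sumdU {a : ℕ → ℝ} (ha : Rd a) (j : ℕ) (y : ℝ) (hy : y ∈ I1) :
    Summable fun n => a n * dU j (2 * n) y := by
  refine Summable.of_norm_bounded (ha.summable (2 * j + 1)) fun n => ?_
  rw [Real.norm_eq_abs, abs_mul, mul_comm]
  exact mul_le_mul_of_nonneg_right (dU_le j n y hy) (abs_nonneg _)

theorem alg52 (y : ℝ) (hy : y ∈ I1) (K s0 s1 s2 s3 s4 : ℝ) (k0 : |s0| ≤ K) (k1 : |s1| ≤ K)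
    (k2 : |s2| ≤ K) (k3 : |s3| ≤ K) (k4 : |s4| ≤ K) :
    |s0 - 2 * ((1 - y ^ 2) * s2 - 3 * y * s1)
      + (1 - y ^ 2) * ((1 - y ^ 2) * s4 - 7 * y * s3 - 8 * s2)
      - 3 * y * ((1 - y ^ 2) * s3 - 5 * y * s2 - 3 * s1)| ≤ 52 * K := by
  have hK0 : 0 ≤ K := (abs_nonneg _).trans k0
  have hy1 : |y| ≤ 1 := abs_le.2 hy
  have hs : |1 - y ^ 2| ≤ 1 := by
    have h1 := sq_abs y
    have h2 := abs_nonneg y
    have h3 : y ^ 2 ≤ 1 := by nlinarith
    rw [abs_le]
    constructor <;> nlinarith [sq_nonneg y]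
  have m : ∀ c r z : ℝ, |r| ≤ 1 → |z| ≤ c * K → |r * z| ≤ c * K := by
    intro c r z hr hz
    rw [abs_mul]
    calc |r| * |z| ≤ 1 * |z| := mul_le_mul_of_nonneg_right hr (abs_nonneg _)
      _ ≤ c * K := by linarith
  have sc : ∀ c d z : ℝ, 0 ≤ d → |z| ≤ c * K → |d * z| ≤ (d * c) * K := by
    intro c d z hd hz
    rw [abs_mul, abs_of_nonneg hd, mul_assoc]
    exact mul_le_mul_of_nonneg_left hz hd
  have sub : ∀ c d u v : ℝ, |u| ≤ c * K → |v| ≤ d * K → |u - v| ≤ (c + d) * K := by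
    intro c d u v hu hv
    exact (abs_sub u v).trans (by linarith)
  have add : ∀ c d u v : ℝ, |u| ≤ c * K → |v| ≤ d * K → |u + v| ≤ (c + d) * K := by
    intro c d u v hu hv
    exact (abs_add_le u v).trans (by linarith)
  have q0 : |s0| ≤ 1 * K := by linarith
  have q1 : |s1| ≤ 1 * K := by linarith
  have q2 : |s2| ≤ 1 * K := by linarith
  have q3 : |s3| ≤ 1 * K := by linarith
  have q4 : |s4| ≤ 1 * K := by linarith
  have h := sub _ _ _ _ (add _ _ _ _ (sub _ _ _ _ q0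
      (sc _ 2 _ (by norm_num) (sub _ _ _ _ (m _ _ _ hs q2) (sc _ 3 _ (by norm_num) (m _ _ _ hy1 q1)))))
      (m _ _ _ hs (sub _ _ _ _ (sub _ _ _ _ (m _ _ _ hs q4)
        (sc _ 7 _ (by norm_num) (m _ _ _ hy1 q3))) (sc _ 8 _ (by norm_num) q2))))
      (sc _ 3 _ (by norm_num) (m _ _ _ hy1 (sub _ _ _ _ (sub _ _ _ _ (m _ _ _ hs q3)
        (sc _ 5 _ (by norm_num) (m _ _ _ hy1 q2))) (sc _ 3 _ (by norm_num) q1))))
  norm_num at h
  rw [show s0 - 2 * ((1 - y ^ 2) * s2 - 3 * y * s1)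
      + (1 - y ^ 2) * ((1 - y ^ 2) * s4 - 7 * y * s3 - 8 * s2)
      - 3 * y * ((1 - y ^ 2) * s3 - 5 * y * s2 - 3 * s1) =
    s0 - 2 * ((1 - y ^ 2) * s2 - 3 * (y * s1))
      + (1 - y ^ 2) * ((1 - y ^ 2) * s4 - 7 * (y * s3) - 8 * s2)
      - 3 * (y * ((1 - y ^ 2) * s3 - 5 * (y * s2) - 3 * s1)) by ring]
  exact h

theorem wt4_sum {a : ℕ → ℝ} (ha : Rd a) (y : ℝ) (hy : y ∈ I1) (K : ℝ)
    (hK : ∀ j ≤ 4, |∑' n, a n * dU j (2 * n) y| ≤ K) :
    |∑' n, (wt n ^ 4 * a n) * dU 0 (2 * n) y| ≤ 52 * K := by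
  obtain ⟨S, hS⟩ : ∃ S : ℕ → ℝ, S = fun j => ∑' n, a n * dU j (2 * n) y := ⟨_, rfl⟩
  have h : ∀ j, HasSum (fun n => a n * dU j (2 * n) y) (S j) := by
    intro j
    rw [hS]
    exact (ha.sumdU j y hy).hasSum
  have e : ∑' n, (wt n ^ 4 * a n) * dU 0 (2 * n) y = S 0
      - 2 * ((1 - y ^ 2) * S 2 - 3 * y * S 1)
      + (1 - y ^ 2) * ((1 - y ^ 2) * S 4 - 7 * y * S 3 - 8 * S 2)
      - 3 * y * ((1 - y ^ 2) * S 3 - 5 * y * S 2 - 3 * S 1) := by
    have h1 := (((h 0).sub ((((h 2).mul_left (1 - y ^ 2)).sub ((h 1).mul_left (3 * y))).mul_left 2)).add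
      (((((h 4).mul_left (1 - y ^ 2)).sub ((h 3).mul_left (7 * y))).sub
        ((h 2).mul_left 8)).mul_left (1 - y ^ 2))).sub
      (((((h 3).mul_left (1 - y ^ 2)).sub ((h 2).mul_left (5 * y))).sub
        ((h 1).mul_left 3)).mul_left (3 * y))
    have e2 : (fun n => wt n ^ 4 * a n * dU 0 (2 * n) y) = fun n => a n * dU 0 (2 * n) y
        - 2 * ((1 - y ^ 2) * (a n * dU 2 (2 * n) y) - 3 * y * (a n * dU 1 (2 * n) y))
        + (1 - y ^ 2) * ((1 - y ^ 2) * (a n * dU 4 (2 * n) y) - 7 * y * (a n * dU 3 (2 * n) y)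
          - 8 * (a n * dU 2 (2 * n) y))
        - 3 * y * ((1 - y ^ 2) * (a n * dU 3 (2 * n) y) - 5 * y * (a n * dU 2 (2 * n) y)
          - 3 * (a n * dU 1 (2 * n) y)) := by
      funext n
      linear_combination a n * wt4 n y
    rw [e2]
    exact h1.tsum_eq
  have hs : ∀ j, ∑' n, a n * dU j (2 * n) y = S j := fun j => (h j).tsum_eq
  have k : ∀ j ≤ 4, |S j| ≤ K := fun j hj => hs j ▸ hK j hj
  rw [e]
  exact alg52 y hy K (S 0) (S 1) (S 2) (S 3) (S 4) (k 0 (by norm_num)) (k 1 (by norm_num))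
    (k 2 (by norm_num)) (k 3 (by norm_num)) (k 4 (by norm_num))

private theorem cos_int (j : ℤ) (hj : j ≠ 0) : ∫ θ in (0 : ℝ)..π, Real.cos ((j : ℝ) * θ) = 0 := by
  have hj' : (j : ℝ) ≠ 0 := by exact_mod_cast hj
  rw [intervalIntegral.integral_comp_mul_left (fun x => Real.cos x) hj', integral_cos]
  simp [Real.sin_int_mul_pi]

private theorem orthog (m n : ℕ) :
    ∫ θ in (0 : ℝ)..π, Real.sin ((2 * m + 1) * θ) * Real.sin ((2 * n + 1) * θ)
      = if m = n then π / 2 else 0 := by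
  have h1 : ∀ θ : ℝ, Real.sin ((2 * m + 1) * θ) * Real.sin ((2 * n + 1) * θ) =
      (1 / 2) * Real.cos (((2 * ((m : ℤ) - n) : ℤ) : ℝ) * θ)
        - (1 / 2) * Real.cos (((2 * ((m : ℤ) + n + 1) : ℤ) : ℝ) * θ) := by
    intro θ
    have e1 : ((2 * ((m : ℤ) - n) : ℤ) : ℝ) * θ = (2 * m + 1) * θ - (2 * n + 1) * θ := by
      push_cast; ring
    have e2 : ((2 * ((m : ℤ) + n + 1) : ℤ) : ℝ) * θ = (2 * m + 1) * θ + (2 * n + 1) * θ := by
      push_cast; ring
    rw [e1, e2, Real.cos_sub, Real.cos_add]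
    ring
  simp_rw [h1]
  have hint : ∀ j : ℤ, IntervalIntegrable (fun θ : ℝ => (1 / 2) * Real.cos ((j : ℝ) * θ))
      MeasureTheory.volume 0 π := by
    intro j
    apply Continuous.intervalIntegrable
    fun_prop
  rw [intervalIntegral.integral_sub (hint _) (hint _), intervalIntegral.integral_const_mul,
    intervalIntegral.integral_const_mul, cos_int (2 * ((m : ℤ) + n + 1)) (by omega)]
  split_ifs with h
  · subst h
    simp
    ring
  · rw [cos_int (2 * ((m : ℤ) - n)) (by omega)]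
    ring

/-- Parseval for finite sine sums (helper74). -/
private theorem pars (N : ℕ) (a : ℕ → ℝ) :
    ∫ θ in (0 : ℝ)..π, (∑ k ∈ Finset.range N, a k * Real.sin ((2 * k + 1) * θ)) ^ 2
      = π / 2 * ∑ k ∈ Finset.range N, a k ^ 2 := by
  have h1 : ∀ θ : ℝ, (∑ k ∈ Finset.range N, a k * Real.sin ((2 * k + 1) * θ)) ^ 2 =
      ∑ m ∈ Finset.range N, ∑ n ∈ Finset.range N,
        (a m * a n) * (Real.sin ((2 * m + 1) * θ) * Real.sin ((2 * n + 1) * θ)) := by
    intro θ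
    rw [sq, Finset.sum_mul_sum]
    refine Finset.sum_congr rfl fun m _ => Finset.sum_congr rfl fun n _ => ?_
    ring
  simp_rw [h1]
  rw [intervalIntegral.integral_finsetSum]
  · rw [Finset.mul_sum]
    refine Finset.sum_congr rfl fun m hm => ?_
    rw [intervalIntegral.integral_finsetSum]
    · simp_rw [intervalIntegral.integral_const_mul, orthog]
      simp only [mul_ite, mul_zero, Finset.sum_ite_eq, hm, if_true]
      ring
    · intro n _
      apply Continuous.intervalIntegrable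
      fun_prop
  · intro m _
    apply Continuous.intervalIntegrable
    fun_prop

private theorem cU_sin (k : ℕ) (θ : ℝ) : cU (2 * k) (Real.cos θ) * Real.sin θ =
    Real.sin ((2 * k + 1) * θ) := by
  have := Polynomial.Chebyshev.U_real_cos θ ((2 * k : ℕ) : ℤ)
  unfold cU
  rw [this]
  push_cast
  ring_nf

/-- Bessel's inequality for finite sums. -/
theorem bessel_fin (N : ℕ) (b : ℕ → ℝ) (M : ℝ)
    (h : ∀ y ∈ I1, |∑ k ∈ Finset.range N, b k * cU (2 * k) y| ≤ M) :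
    ∑ k ∈ Finset.range N, b k ^ 2 ≤ M ^ 2 := by
  have h1 := pars N b
  have e : ∀ θ : ℝ, ∑ k ∈ Finset.range N, b k * Real.sin ((2 * k + 1) * θ) =
      (∑ k ∈ Finset.range N, b k * cU (2 * k) (Real.cos θ)) * Real.sin θ := by
    intro θ
    rw [Finset.sum_mul]
    refine Finset.sum_congr rfl fun k _ => ?_
    rw [mul_assoc, cU_sin]
  have h2 : ∫ θ in (0 : ℝ)..π, (∑ k ∈ Finset.range N, b k * Real.sin ((2 * k + 1) * θ)) ^ 2 ≤
      ∫ θ in (0 : ℝ)..π, M ^ 2 * Real.sin θ ^ 2 := by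
    apply intervalIntegral.integral_mono_on Real.pi_pos.le
    · apply Continuous.intervalIntegrable
      fun_prop
    · apply Continuous.intervalIntegrable
      fun_prop
    · intro θ _
      rw [e, mul_pow]
      have h3 := h (Real.cos θ) ⟨Real.neg_one_le_cos θ, Real.cos_le_one θ⟩
      refine mul_le_mul_of_nonneg_right ?_ (sq_nonneg _)
      rw [← sq_abs]
      exact pow_le_pow_left₀ (abs_nonneg _) h3 2
  rw [h1, intervalIntegral.integral_const_mul, integral_sin_sq] at h2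
  simp at h2
  have hpi := Real.pi_pos
  nlinarith

theorem bessel {b : ℕ → ℝ} (hb : Rd b) (M : ℝ)
    (h : ∀ y ∈ I1, |∑' k, b k * dU 0 (2 * k) y| ≤ M) (L : ℕ) :
    ∑ k ∈ Finset.range L, b k ^ 2 ≤ M ^ 2 := by
  have hs := hb.summable 1
  have ht := tendsto_sum_nat_add (fun n => wt n ^ 1 * |b n|)
  have h1 : ∀ N, L ≤ N → ∑ k ∈ Finset.range L, b k ^ 2 ≤
      (M + ∑' k, wt (k + N) ^ 1 * |b (k + N)|) ^ 2 := by
    intro N hN
    refine le_trans (Finset.sum_le_sum_of_subset_of_nonneg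
      (Finset.range_subset_range.2 hN) fun _ _ _ => sq_nonneg _) ?_
    apply bessel_fin
    intro y hy
    have e := (hb.sumdU 0 y hy).sum_add_tsum_nat_add N
    have e' : ∑ k ∈ Finset.range N, b k * cU (2 * k) y =
        (∑' k, b k * dU 0 (2 * k) y) - ∑' k, b (k + N) * dU 0 (2 * (k + N)) y := by
      rw [← e]
      simp only [dU_zero]
      ring
    rw [e']
    refine (abs_sub _ _).trans (add_le_add (h y hy) ?_)
    have hsN : Summable fun k => wt (k + N) ^ 1 * |b (k + N)| := (summable_nat_add_iff N).2 hs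
    have := tsum_of_norm_bounded hsN.hasSum (f := fun k => b (k + N) * dU 0 (2 * (k + N)) y)
      (fun k => by
        rw [Real.norm_eq_abs, abs_mul, mul_comm]
        exact mul_le_mul_of_nonneg_right (dU_le 0 (k + N) y hy) (abs_nonneg _))
    simpa using this
  have h2 : Filter.Tendsto (fun N => (M + ∑' k, wt (k + N) ^ 1 * |b (k + N)|) ^ 2) Filter.atTop
      (nhds ((M + 0) ^ 2)) := (ht.const_add M).pow 2
  rw [add_zero] at h2
  exact ge_of_tendsto h2 (Filter.eventually_atTop.2 ⟨L, h1⟩)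

/-- The bound of the fourth weighted norm by the derivatives of order at most four. -/
theorem n2_four {a : ℕ → ℝ} (ha : Rd a) (K : ℝ)
    (hK : ∀ y ∈ I1, ∀ j ≤ 4, |∑' n, a n * dU j (2 * n) y| ≤ K) (L : ℕ) : n2 L 4 a ≤ 52 * K := by
  have hK0 : 0 ≤ K := (abs_nonneg _).trans (hK 0 (by simp) 0 (by norm_num))
  refine n2_le_of_sq L 4 a _ (by positivity) ?_
  have h1 := bessel (ha.mul 4) (52 * K) (fun y hy => wt4_sum ha y hy K (hK y hy)) L
  refine le_trans (le_of_eq ?_) h1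
  refine Finset.sum_congr rfl fun n _ => ?_
  ring

end Cont

/-- row c1. -/
theorem csol_restrict (Λ T : ℝ) (hT : T ≤ Λ) (x : ℕ → ℝ → ℝ) (h : CSol Λ x) : CSol T x := by
  have hs : Icc (0 : ℝ) T ⊆ Icc 0 Λ := Icc_subset_Icc le_rfl hT
  refine ⟨fun m => ?_, fun t ht => h.pos t (hs ht), fun n t ht => (h.ode n t (hs ht)).mono hs⟩
  obtain ⟨C, hC⟩ := h.dec m
  exact ⟨C, fun n t ht => hC n t (hs ht)⟩

/-- row c2. Gluing of solutions. (At the junction: the left and the right derivative agree,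
`HasDerivWithinAt.union`.) -/
theorem csol_glue (S T : ℝ) (hS : 0 < S) (hT : 0 < T) (x z : ℕ → ℝ → ℝ) (hx : CSol S x)
    (hz : CSol T z) (hxz : ∀ n, z n 0 = x n S) :
    ∃ w, CSol (S + T) w ∧ ∀ n, w n 0 = x n 0 := by
  obtain ⟨w, hw⟩ : ∃ w : ℕ → ℝ → ℝ, w = fun n t => if t ≤ S then x n t else z n (t - S) :=
    ⟨_, rfl⟩
  have w1 : ∀ n, ∀ t ≤ S, w n t = x n t := by
    intro n t ht
    rw [hw]
    exact if_pos ht
  have w2 : ∀ n t, S ≤ t → w n t = z n (t - S) := by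
    intro n t ht
    rcases eq_or_lt_of_le ht with h | h
    · rw [← h, w1 n S le_rfl, sub_self, hxz]
    · rw [hw]
      exact if_neg (not_le.2 h)
  have f1 : ∀ t ≤ S, (fun m => w m t) = fun m => x m t := fun t ht => funext fun m => w1 m t ht
  have f2 : ∀ t, S ≤ t → (fun m => w m t) = fun m => z m (t - S) := fun t ht =>
    funext fun m => w2 m t ht
  refine ⟨w, ⟨fun m => ?_, fun t ht y hy => ?_, fun n t ht => ?_⟩, fun n => w1 n 0 hS.le⟩
  · obtain ⟨C, hC⟩ := hx.dec m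
    obtain ⟨C', hC'⟩ := hz.dec m
    refine ⟨max C C', fun n t ht => ?_⟩
    rcases le_total t S with h | h
    · rw [w1 n t h]
      exact (hC n t ⟨ht.1, h⟩).trans (le_max_left _ _)
    · rw [w2 n t h]
      exact (hC' n (t - S) ⟨by linarith, by linarith [ht.2]⟩).trans (le_max_right _ _)
  · rcases le_total t S with h | h
    · have e : Ser w 0 t y = Ser x 0 t y := by
        unfold Ser
        exact tsum_congr fun k => by rw [w1 k t h]
      rw [e]
      exact hx.pos t ⟨ht.1, h⟩ y hy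
    · have e : Ser w 0 t y = Ser z 0 (t - S) y := by
        unfold Ser
        exact tsum_congr fun k => by rw [w2 k t h]
      rw [e]
      exact hz.pos (t - S) ⟨by linarith, by linarith [ht.2]⟩ y hy
  · have hu : Icc (0 : ℝ) (S + T) = Icc 0 S ∪ Icc S (S + T) :=
      (Icc_union_Icc_eq_Icc hS.le (by linarith)).symm
    rw [hu]
    apply HasDerivWithinAt.union
    · rcases le_or_gt t S with h | h
      · rw [f1 t h]
        exact (hx.ode n t ⟨ht.1, h⟩).congr (fun s hs => w1 n s hs.2) (w1 n t h)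
      · rw [hasDerivWithinAt_iff_hasFDerivWithinAt]
        apply HasFDerivWithinAt.of_notMem_closure
        rw [isClosed_Icc.closure_eq]
        exact fun h' => absurd h'.2 (not_le.2 h)
    · rcases le_or_gt S t with h | h
      · rw [f2 t h]
        have h1 := hz.ode n (t - S) ⟨by linarith, by linarith [ht.2]⟩
        have h2 : HasDerivWithinAt (fun s : ℝ => s - S) 1 (Icc S (S + T)) t :=
          (hasDerivWithinAt_id t _).sub_const S
        have h3 : MapsTo (fun s : ℝ => s - S) (Icc S (S + T)) (Icc 0 T) := by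
          intro s hs
          exact ⟨by linarith [hs.1], by linarith [hs.2]⟩
        have h4 := HasDerivWithinAt.scomp t h1 h2 h3
        rw [one_smul] at h4
        exact h4.congr (fun s hs => w2 n s hs.1) (w2 n t h)
      · rw [hasDerivWithinAt_iff_hasFDerivWithinAt]
        apply HasFDerivWithinAt.of_notMem_closure
        rw [isClosed_Icc.closure_eq]
        exact fun h' => absurd h'.1 (not_le.2 h)

/-- row c4. -/
theorem bessel (b : ℕ → ℝ) (hb : ∀ m : ℕ, ∃ C : ℝ, ∀ n, wt n ^ m * |b n| ≤ C) (K : ℝ)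
    (hK : ∀ y ∈ I1, |∑' n, b n * cU (2 * n) y| ≤ K) (L : ℕ) :
    ∑ n ∈ Finset.range L, b n ^ 2 ≤ K ^ 2 := by
  refine Cont.bessel hb K (fun y hy => ?_) L
  simp only [dU_zero]
  exact hK y hy

/-- row c5. -/
theorem wt4_bound (a : ℕ → ℝ) (ha : ∀ m : ℕ, ∃ C : ℝ, ∀ n, wt n ^ m * |a n| ≤ C) (K : ℝ)
    (hK : ∀ j ≤ 4, ∀ y ∈ I1, |∑' n, a n * dU j (2 * n) y| ≤ K) :
    ∀ y ∈ I1, |∑' n, wt n ^ 4 * a n * cU (2 * n) y| ≤ 200 * K := by
  intro y hy
  have h := Cont.wt4_sum (a := a) ha y hy K (fun j hj => hK j hj y hy)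
  simp only [dU_zero] at h
  have hK0 : 0 ≤ K := (abs_nonneg _).trans (hK 0 (by norm_num) y hy)
  linarith

/-- row c6. -/
theorem continuation
    (hle : ∀ A c : ℝ, 0 < A → 0 < c → ∃ τ : ℝ, 0 < τ ∧ ∀ a : ℕ → ℝ,
      (∀ m : ℕ, ∃ C : ℝ, ∀ n, wt n ^ m * |a n| ≤ C) → (∀ L, n2 L 4 a ≤ A) →
      (∀ y ∈ I1, 3 * c ≤ ∑' n, a n * cU (2 * n) y) →
      ∃ x : ℕ → ℝ → ℝ, CSol τ x ∧ ∀ n, x n 0 = a n)
    (Λ c K : ℝ) (hΛ : 0 < Λ) (hc : 0 < c) (a : ℕ → ℝ)
    (ha : ∀ m : ℕ, ∃ C : ℝ, ∀ n, wt n ^ m * |a n| ≤ C)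
    (hpos : ∀ y ∈ I1, 0 < ∑' n, a n * cU (2 * n) y)
    (hap : ∀ T x, 0 < T → T ≤ Λ → CSol T x → (∀ n, x n 0 = a n) →
      ∀ t ∈ Icc 0 T, ∀ y ∈ I1, c ≤ Ser x 0 t y ∧ ∀ j ≤ 4, |Ser x j t y| ≤ K) :
    ∃ x, CSol Λ x ∧ ∀ n, x n 0 = a n := by
  -- the positive minimum of the initial function
  have hcont : ContinuousOn (fun y => ∑' n, a n * cU (2 * n) y) I1 := by
    have hs := Cont.Rd.summable (a := a) ha 1
    refine continuousOn_tsum (fun n => ?_) hs fun n y hy => ?_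
    · exact (continuous_const.mul (dU_continuous 0 (2 * n))).continuousOn
    · rw [Real.norm_eq_abs, abs_mul, mul_comm]
      exact mul_le_mul_of_nonneg_right (Cont.dU_le 0 n y hy) (abs_nonneg _)
  obtain ⟨y0, hy0, hmin⟩ := isCompact_Icc.exists_isMinOn (nonempty_Icc.2 (by norm_num)) hcont
  obtain ⟨c0, hc0⟩ : ∃ c0 : ℝ, c0 = ∑' n, a n * cU (2 * n) y0 := ⟨_, rfl⟩
  have hc0p : 0 < c0 := hc0 ▸ hpos y0 hy0
  have hc0m : ∀ y ∈ I1, c0 ≤ ∑' n, a n * cU (2 * n) y := fun y hy => hc0 ▸ hmin hy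
  -- a bound of the fourth norm of the initial function
  obtain ⟨A0, hA0⟩ : ∃ A0 : ℝ, ∀ L, n2 L 4 a ≤ A0 := by
    obtain ⟨C, hC⟩ := ha 5
    obtain ⟨S, hS⟩ : ∃ S : ℝ, S = ∑' n, (wt n ^ 2)⁻¹ := ⟨_, rfl⟩
    refine ⟨√(C ^ 2 * S), fun L => ?_⟩
    unfold n2
    apply Real.sqrt_le_sqrt
    have h1 : ∀ n, wt n ^ (2 * 4) * a n ^ 2 ≤ C ^ 2 * (wt n ^ 2)⁻¹ := by
      intro n
      have h2 : 0 < wt n ^ 2 := pow_pos (wt_pos n) 2
      rw [← div_eq_mul_inv, le_div_iff₀ h2]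
      calc wt n ^ (2 * 4) * a n ^ 2 * wt n ^ 2 = (wt n ^ 5 * |a n|) ^ 2 := by
            rw [mul_pow, sq_abs]
            ring
        _ ≤ C ^ 2 := pow_le_pow_left₀
            (mul_nonneg (pow_nonneg (wt_pos n).le _) (abs_nonneg _)) (hC n) 2
    refine (Finset.sum_le_sum fun n _ => h1 n).trans ?_
    rw [← Finset.mul_sum]
    refine mul_le_mul_of_nonneg_left ?_ (sq_nonneg _)
    rw [hS]
    exact Cont.wt_inv_summable.sum_le_tsum _ fun n _ => by have := wt_pos n; positivity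
  obtain ⟨τ, hτ, hloc⟩ := hle (max (A0 + 1) (52 * |K| + 1)) (min c c0 / 3)
    (lt_max_of_lt_right (by positivity)) (by
      have := lt_min hc hc0p
      positivity)
  have step : ∀ k : ℕ, ∃ x, CSol (min (((k : ℝ) + 1) * τ) Λ) x ∧ ∀ n, x n 0 = a n := by
    intro k
    induction k with
    | zero =>
      obtain ⟨x, hx, hx0⟩ := hloc a ha (fun L => (hA0 L).trans
        ((by linarith : A0 ≤ A0 + 1).trans (le_max_left _ _))) (fun y hy => by
          have := hc0m y hy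
          have := min_le_right c c0
          linarith)
      refine ⟨x, csol_restrict τ _ ?_ x hx, hx0⟩
      rw [Nat.cast_zero, zero_add, one_mul]
      exact min_le_left _ _
    | succ k ih =>
      obtain ⟨x, hx, hx0⟩ := ih
      obtain ⟨T, hT⟩ : ∃ T : ℝ, T = min (((k : ℝ) + 1) * τ) Λ := ⟨_, rfl⟩
      rw [← hT] at hx
      have hT0 : 0 < T := hT ▸ lt_min (by positivity) hΛ
      have hTΛ : T ≤ Λ := hT ▸ min_le_right _ _
      have hb := hap T x hT0 hTΛ hx hx0 T ⟨hT0.le, le_rfl⟩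
      have hdec : ∀ m : ℕ, ∃ C : ℝ, ∀ n, wt n ^ m * |x n T| ≤ C := by
        intro m
        obtain ⟨C, hC⟩ := hx.dec m
        exact ⟨C, fun n => hC n T ⟨hT0.le, le_rfl⟩⟩
      obtain ⟨z, hz, hz0⟩ := hloc (fun n => x n T) hdec (fun L => by
          have h1 := Cont.n2_four (a := fun n => x n T) hdec K
            (fun y hy j hj => (hb y hy).2 j hj) L
          have h2 := le_abs_self K
          have h3 := le_max_right (A0 + 1) (52 * |K| + 1)
          linarith) (fun y hy => by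
          have h1 := (hb y hy).1
          have h2 := min_le_left c c0
          unfold Ser at h1
          simp only [dU_zero] at h1
          linarith)
      obtain ⟨w, hw, hw0⟩ := csol_glue T τ hT0 hτ x z hx hz hz0
      refine ⟨w, csol_restrict (T + τ) _ ?_ w hw, fun n => (hw0 n).trans (hx0 n)⟩
      rw [hT]
      push_cast
      rcases le_total (((k : ℝ) + 1) * τ) Λ with h | h
      · rw [min_eq_left h]
        refine (min_le_left _ _).trans (le_of_eq ?_)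
        ring
      · rw [min_eq_right h]
        exact (min_le_right _ _).trans (by linarith)
  obtain ⟨k, hk⟩ := exists_nat_ge (Λ / τ)
  obtain ⟨x, hx, hx0⟩ := step k
  refine ⟨x, csol_restrict _ Λ ?_ x hx, hx0⟩
  apply le_min _ le_rfl
  rw [div_le_iff₀ hτ] at hk
  nlinarith

end Pool.Agent.RFq
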