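import Pool.Agent.MP_ae1fc5_gt.PdeC

/-!
# MP_ae1fc5_gt, Q1: auxiliary definitions (coefficient norms, solutions)
-/

open scoped Quaternion ContDiff Matrix
open Set

noncomputable section

namespace Pool.Agent.RFq

open Pool.Agent.MP_ae1fc5_gt Pool.Agent.MP_ae1fc5_gt.Pde

/-- The weight `2n+1`; `lam n + 1 = wt n ^ 2`. -/
def wt (n : ℕ) : ℝ := 2 * (n : ℝ) + 1

/-- Weighted l^2 norm of the coefficients with index less than `L`. -/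
def n2 (L s : ℕ) (x : ℕ → ℝ) : ℝ := √(∑ n ∈ Finset.range L, wt n ^ (2 * s) * x n ^ 2)

/-- Weighted l^1 norm of the coefficients with index less than `L`. -/
def n1 (L s : ℕ) (x : ℕ → ℝ) : ℝ := ∑ n ∈ Finset.range L, wt n ^ s * |x n|

/-- The truncated bilinear map with kernel `κ`. -/
def bil (κ : ℕ → ℕ → ℕ → ℝ) (L : ℕ) (x z : ℕ → ℝ) (k : ℕ) : ℝ :=
  ∑ m ∈ Finset.range L, ∑ n ∈ Finset.range L, κ m n k * x m * z n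

/-- The (slightly enlarged) triangle condition. -/
def fs (m n k : ℕ) : Prop := k ≤ m + n + 1 ∧ m ≤ n + k + 1 ∧ n ≤ m + k + 1

/-- Kernel of the product of gradients: coefficients of `(1-y^2) U_(2m)' U_(2n)'`. -/
def gr (m n k : ℕ) : ℝ := chi m n k * ((lam m + lam n - lam k) / 2)

/-- Coefficients of the right-hand side `rhs` for `V = sum_n x n U_(2n)`. -/
def Dv (x : ℕ → ℝ) (k : ℕ) : ℝ :=
  (∑' p : ℕ × ℕ × ℕ, tq p.1 p.2.1 p.2.2 k * (x p.1 * (x p.2.1 * x p.2.2))) - 2 * x k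

/-- The part of `Dv` of lower order. -/
def Rr (L : ℕ) (x : ℕ → ℝ) (k : ℕ) : ℝ :=
  bil chi L x (fun p => 2 * bil chi L x x p - bil gr L x x p - bil yj L x x p) k
    - bil sc L x (bil jc L x x) k - 2 * x k

/-- Solutions of the conformal Ricci flow equation in terms of the coefficients. -/
structure CSol (Λ : ℝ) (x : ℕ → ℝ → ℝ) : Prop where
  dec : ∀ m : ℕ, ∃ C : ℝ, ∀ n, ∀ t ∈ Icc 0 Λ, wt n ^ m * |x n t| ≤ C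
  pos : ∀ t ∈ Icc 0 Λ, ∀ y ∈ I1, 0 < Ser x 0 t y
  ode : ∀ n, ∀ t ∈ Icc 0 Λ, HasDerivWithinAt (x n) (Dv (fun m => x m t) n) (Icc 0 Λ) t

/-- Smooth positive even solutions together with all their derivatives:
`F j` is the `j`-th derivative in `y`, `G j` the time derivative of `F j`, `J = int_0^y V_y^2`. -/
structure Sol (Λ : ℝ) (F G : ℕ → ℝ → ℝ → ℝ) (J : ℝ → ℝ → ℝ) : Prop where
  cF : ∀ j, ContinuousOn (fun p : ℝ × ℝ => F j p.1 p.2) (Icc 0 Λ ×ˢ I1)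
  cG : ∀ j, ContinuousOn (fun p : ℝ × ℝ => G j p.1 p.2) (Icc 0 Λ ×ˢ I1)
  cJ : ContinuousOn (fun p : ℝ × ℝ => J p.1 p.2) (Icc 0 Λ ×ˢ I1)
  dF : ∀ j, ∀ t ∈ Icc 0 Λ, ∀ y ∈ I1, HasDerivWithinAt (F j t) (F (j + 1) t y) I1 y
  dG : ∀ j, ∀ t ∈ Icc 0 Λ, ∀ y ∈ I1, HasDerivWithinAt (G j t) (G (j + 1) t y) I1 y
  dt : ∀ j, ∀ t ∈ Icc 0 Λ, ∀ y ∈ I1, HasDerivWithinAt (fun s => F j s y) (G j t y) (Icc 0 Λ) t
  G0 : ∀ t ∈ Icc 0 Λ, ∀ y ∈ I1, G 0 t y = rhs (F 0 t y) (F 1 t y) (F 2 t y) (J t y) y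
  J0 : ∀ t ∈ Icc 0 Λ, J t 0 = 0
  dJ : ∀ t ∈ Icc 0 Λ, ∀ y ∈ I1, HasDerivWithinAt (J t) (F 1 t y ^ 2) I1 y
  even : ∀ t ∈ Icc 0 Λ, ∀ y ∈ I1, F 0 t (-y) = F 0 t y
  pos : ∀ t ∈ Icc 0 Λ, ∀ y ∈ I1, 0 < F 0 t y

/-- `V` solves the normalised Ricci flow in the conformal gauge on `[0,Λ] × [-1,1]`. -/
structure IsSol1 (Λ : ℝ) (V : ℝ → ℝ → ℝ) : Prop where
  smooth : ContDiffOn ℝ ∞ (fun p : ℝ × ℝ => V p.1 p.2) (Icc 0 Λ ×ˢ I1)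
  pos : ∀ t ∈ Icc 0 Λ, ∀ y ∈ I1, 0 < V t y
  pde : ∀ t ∈ Icc 0 Λ, ∀ y ∈ I1,
    HasDerivWithinAt (fun s => V s y)
      (rhs (V t y) (derivWithin (V t) I1 y) (derivWithin (derivWithin (V t) I1) I1 y)
        (∫ z in (0 : ℝ)..y, derivWithin (V t) I1 z ^ 2) y)
      (Icc 0 Λ) t

end Pool.Agent.RFq
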