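import Pool.Agent.RFq.Defs

/-! MP_ae1fc5_gt, Q1: the outer region `[0, y1]`, `y1 = sqrt 15 / 4` (helper25) -/

open scoped ContDiff
open Set

noncomputable section

namespace Pool.Agent.RFq

open Pool.Agent.MP_ae1fc5_gt

/-- a derivative bound gives a linear bound. -/
theorem out_lin {f f' : ℝ → ℝ} {a b C : ℝ}
    (hd : ∀ z ∈ Icc a b, HasDerivWithinAt f (f' z) (Icc a b) z)
    (hb : ∀ z ∈ Icc a b, f' z ≤ C) : ∀ y ∈ Icc a b, f y ≤ f a + C * (y - a) := by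
  have hB : ∀ z : ℝ, HasDerivAt (fun z => f a + C * (z - a)) C z := by
    intro z
    simpa using (((hasDerivAt_id z).sub_const a).const_mul C).const_add (f a)
  have key := image_le_of_deriv_right_le_deriv_boundary (f := f) (f' := f') (a := a) (b := b)
    (fun z hz => (hd z hz).continuousWithinAt)
    (fun z hz => (hd z ⟨hz.1, hz.2.le⟩).mono_of_mem_nhdsWithin (Icc_mem_nhdsGE_of_mem hz))
    (B := fun z => f a + C * (z - a)) (B' := fun _ => C) (by simp)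
    (fun z _ => (hB z).continuousAt.continuousWithinAt)
    (fun z _ => (hB z).hasDerivWithinAt) (fun z hz => hb z ⟨hz.1, hz.2.le⟩)
  exact fun y hy => key hy

/-- the derivative of an even function vanishes at `0`. -/
theorem out_even {f : ℝ → ℝ} {d : ℝ} (hd : HasDerivWithinAt f d I1 0)
    (he : ∀ y ∈ I1, f (-y) = f y) : d = 0 := by
  have hn : I1 ∈ nhds (0 : ℝ) := Icc_mem_nhds (by norm_num) (by norm_num)
  have h1 : HasDerivAt f d 0 := hd.hasDerivAt hn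
  have h2 : HasDerivAt (fun y => f (-y)) (-d) 0 := by
    have h3 : HasDerivAt f d (-0) := by simpa using h1
    have h5 := h3.comp (0 : ℝ) (hasDerivAt_neg (0 : ℝ))
    have h6 : f ∘ Neg.neg = fun y => f (-y) := rfl
    rw [h6, mul_neg, mul_one] at h5
    exact h5
  have h4 : HasDerivAt f (-d) 0 := by
    refine h2.congr_of_eventuallyEq ?_
    filter_upwards [hn] with y hy using (he y hy).symm
  have := h1.unique h4
  linarith

theorem out_num {L B t : ℝ} (hL : 0 < L) (hB : 0 < B)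
    (hBL : B * Real.exp (8 * L) * (1 + L) ≤ 1 / 100000) (_ht : 0 ≤ t) (htL : t ≤ L) :
    B * Real.exp (5 * t) ≤ 1 / 100000 ∧
      (B + 2 * (B * Real.exp (3 * L)) * t) * Real.exp (5 * t) ≤ 3 / 100000 ∧
      B * Real.exp (3 * t) ≤ 1 / 100000 ∧ B ≤ 1 / 100000 := by
  have e1 : B * Real.exp (8 * L) ≤ 1 / 100000 := by
    have : B * Real.exp (8 * L) * 1 ≤ B * Real.exp (8 * L) * (1 + L) := by
      have : 0 ≤ B * Real.exp (8 * L) := by positivity
      nlinarith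
    linarith
  have e2 : B * Real.exp (8 * L) * L ≤ 1 / 100000 := by
    have : B * Real.exp (8 * L) * L ≤ B * Real.exp (8 * L) * (1 + L) := by
      have : 0 ≤ B * Real.exp (8 * L) := by positivity
      nlinarith
    linarith
  have h5 : Real.exp (5 * t) ≤ Real.exp (5 * L) := Real.exp_le_exp.2 (by linarith)
  have h58 : Real.exp (5 * L) ≤ Real.exp (8 * L) := Real.exp_le_exp.2 (by linarith)
  have h3 : Real.exp (3 * t) ≤ Real.exp (8 * L) := Real.exp_le_exp.2 (by linarith)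
  have h35 : Real.exp (3 * L) * Real.exp (5 * L) = Real.exp (8 * L) := by
    rw [← Real.exp_add]; congr 1; ring
  have h1 : 1 ≤ Real.exp (8 * L) := Real.one_le_exp (by linarith)
  refine ⟨(mul_le_mul_of_nonneg_left (h5.trans h58) hB.le).trans e1, ?_,
    (mul_le_mul_of_nonneg_left h3 hB.le).trans e1, ?_⟩
  · have hA : (B + 2 * (B * Real.exp (3 * L)) * t) * Real.exp (5 * t) ≤
        (B + 2 * (B * Real.exp (3 * L)) * L) * Real.exp (5 * L) := by
      have : B + 2 * (B * Real.exp (3 * L)) * t ≤ B + 2 * (B * Real.exp (3 * L)) * L := by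
        have : 0 ≤ B * Real.exp (3 * L) := by positivity
        nlinarith
      exact mul_le_mul this h5 (Real.exp_pos _).le (by positivity)
    have hC : (B + 2 * (B * Real.exp (3 * L)) * L) * Real.exp (5 * L) =
        B * Real.exp (5 * L) + 2 * (B * Real.exp (8 * L) * L) := by
      rw [← h35]; ring
    have hD : B * Real.exp (5 * L) ≤ B * Real.exp (8 * L) := mul_le_mul_of_nonneg_left h58 hB.le
    rw [hC] at hA
    linarith
  · have : B * 1 ≤ B * Real.exp (8 * L) := mul_le_mul_of_nonneg_left h1 hB.le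
    linarith

/-- `1 - 3/100000 ≤ V(t,0) ≤ 1 + 1/100000`. -/
theorem out_center {L B T : ℝ} {F G : ℕ → ℝ → ℝ → ℝ} {J : ℝ → ℝ → ℝ} (hL : 0 < L) (hB : 0 < B)
    (hBL : B * Real.exp (8 * L) * (1 + L) ≤ 1 / 100000) (hTL : T ≤ L)
    (S : Sol T F G J) (h2 : ∀ t ∈ Icc 0 T, F 2 t 0 ≤ 0)
    (hH : ∀ t ∈ Icc 0 T, -(F 2 t 0) ≤ B * Real.exp (3 * t) * F 0 t 0 ^ 2)
    (h0 : |F 0 0 0 - 1| < B) (hF1 : ∀ t ∈ Icc 0 T, F 1 t 0 = 0) :
    ∀ t ∈ Icc 0 T, 1 - 3 / 100000 ≤ F 0 t 0 ∧ F 0 t 0 ≤ 1 + 1 / 100000 := by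
  have m0 : (0 : ℝ) ∈ I1 := ⟨by norm_num, by norm_num⟩
  have hg : ∀ t ∈ Icc 0 T, G 0 t 0 = F 0 t 0 ^ 2 * F 2 t 0
      + 2 * F 0 t 0 * (F 0 t 0 ^ 2 - 1) := by
    intro t ht
    rw [S.G0 t ht 0 m0, S.J0 t ht, hF1 t ht]
    simp [rhs]
  have hp : ∀ t ∈ Icc 0 T, 0 < F 0 t 0 := fun t ht => S.pos t ht 0 m0
  have hcont : ContinuousOn (fun s => F 0 s 0) (Icc 0 T) := fun t ht =>
    (S.dt 0 t ht 0 m0).continuousWithinAt
  have hder : ∀ t ∈ Ico 0 T, HasDerivWithinAt (fun s => F 0 s 0) (G 0 t 0) (Ici t) t := fun t ht =>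
    (S.dt 0 t ⟨ht.1, ht.2.le⟩ 0 m0).mono_of_mem_nhdsWithin (Icc_mem_nhdsGE_of_mem ht)
  have hexp : ∀ t : ℝ, HasDerivAt (fun τ : ℝ => Real.exp (5 * τ)) (Real.exp (5 * t) * 5) t := by
    intro t
    have h2 : HasDerivAt (fun τ : ℝ => 5 * τ) 5 t := by
      simpa only [id_eq, mul_one] using (hasDerivAt_id t).const_mul (5 : ℝ)
    exact h2.exp
  rw [abs_lt] at h0
  -- upper bound
  have hU : ∀ ⦃t⦄, t ∈ Icc 0 T → F 0 t 0 ≤ 1 + B * Real.exp (5 * t) := by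
    have hBd : ∀ t : ℝ, HasDerivAt (fun τ : ℝ => 1 + B * Real.exp (5 * τ))
        (B * (Real.exp (5 * t) * 5)) t := fun t => ((hexp t).const_mul B).const_add 1
    refine image_le_of_deriv_right_lt_deriv_boundary' (f' := fun t => G 0 t 0) hcont hder
      (by simp; linarith [h0.2]) (fun t _ => (hBd t).continuousAt.continuousWithinAt)
      (fun t _ => (hBd t).hasDerivWithinAt) ?_
    intro t ht heq
    have ht' : t ∈ Icc 0 T := ⟨ht.1, ht.2.le⟩
    obtain ⟨n1, -, -, -⟩ := out_num hL hB hBL ht.1 (ht.2.le.trans hTL)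
    show G 0 t 0 < B * (Real.exp (5 * t) * 5)
    have heq' : F 0 t 0 = 1 + B * Real.exp (5 * t) := heq
    have hb : 0 < B * Real.exp (5 * t) := by positivity
    have hneg : F 0 t 0 ^ 2 * F 2 t 0 ≤ 0 := mul_nonpos_of_nonneg_of_nonpos (sq_nonneg _) (h2 t ht')
    have hx : B * (Real.exp (5 * t) * 5) = B * Real.exp (5 * t) * 5 := by ring
    rw [hg t ht', hx]
    generalize B * Real.exp (5 * t) = b at *
    have : 2 * F 0 t 0 * (F 0 t 0 ^ 2 - 1) < 5 * b := by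
      rw [heq']
      nlinarith [mul_pos hb hb, mul_pos (mul_pos hb hb) hb]
    linarith
  have hLo : ∀ ⦃t⦄, t ∈ Icc 0 T → -F 0 t 0 ≤
      -1 + (B + 2 * (B * Real.exp (3 * L)) * t) * Real.exp (5 * t) := by
    have hBd : ∀ t : ℝ, HasDerivAt
        (fun τ : ℝ => -1 + (B + 2 * (B * Real.exp (3 * L)) * τ) * Real.exp (5 * τ))
        (2 * (B * Real.exp (3 * L)) * Real.exp (5 * t)
          + (B + 2 * (B * Real.exp (3 * L)) * t) * (Real.exp (5 * t) * 5)) t := by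
      intro t
      have h1 : HasDerivAt (fun τ : ℝ => B + 2 * (B * Real.exp (3 * L)) * τ)
          (2 * (B * Real.exp (3 * L))) t := by
        simpa only [id_eq, mul_one] using
          ((hasDerivAt_id t).const_mul (2 * (B * Real.exp (3 * L)))).const_add B
      exact (h1.mul (hexp t)).const_add (-1)
    refine image_le_of_deriv_right_lt_deriv_boundary' (f' := fun t => -G 0 t 0) hcont.neg
      (fun t ht => (hder t ht).neg)
      (by simp; linarith [h0.1]) (fun t _ => (hBd t).continuousAt.continuousWithinAt)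
      (fun t _ => (hBd t).hasDerivWithinAt) ?_
    intro t ht heq
    have ht' : t ∈ Icc 0 T := ⟨ht.1, ht.2.le⟩
    obtain ⟨-, n2, n3, -⟩ := out_num hL hB hBL ht.1 (ht.2.le.trans hTL)
    have heq' : -F 0 t 0 = -1 + (B + 2 * (B * Real.exp (3 * L)) * t) * Real.exp (5 * t) := heq
    have hK : 0 < (B + 2 * (B * Real.exp (3 * L)) * t) * Real.exp (5 * t) := by
      have := ht.1
      positivity
    have h35 : B * Real.exp (3 * t) ≤ B * Real.exp (3 * L) :=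
      mul_le_mul_of_nonneg_left (Real.exp_le_exp.2 (by linarith [ht.2.le.trans hTL])) hB.le
    have h55 : 1 ≤ Real.exp (5 * t) := Real.one_le_exp (by linarith [ht.1])
    have he1 : 0 < B * Real.exp (3 * L) := by positivity
    have hh := hH t ht'
    have hpp := hp t ht'
    have hpos2 : B * Real.exp (3 * L) ≤ B * Real.exp (3 * L) * Real.exp (5 * t) :=
      le_mul_of_one_le_right he1.le h55
    show -G 0 t 0 < 2 * (B * Real.exp (3 * L)) * Real.exp (5 * t)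
          + (B + 2 * (B * Real.exp (3 * L)) * t) * (Real.exp (5 * t) * 5)
    rw [hg t ht']
    have hxx : (B + 2 * (B * Real.exp (3 * L)) * t) * (Real.exp (5 * t) * 5)
      = ((B + 2 * (B * Real.exp (3 * L)) * t) * Real.exp (5 * t)) * 5 := by ring
    rw [hxx]
    generalize (B + 2 * (B * Real.exp (3 * L)) * t) * Real.exp (5 * t) = K at *
    have hu : F 0 t 0 = 1 - K := by linarith
    have hu1 : F 0 t 0 < 1 := by linarith
    have hsq : F 0 t 0 ^ 2 ≤ 1 := by nlinarith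
    have hA : F 0 t 0 ^ 2 * (-(F 2 t 0)) ≤ B * Real.exp (3 * L) := by
      have a1 : F 0 t 0 ^ 2 * (-(F 2 t 0)) ≤ F 0 t 0 ^ 2 * (B * Real.exp (3 * t) * F 0 t 0 ^ 2) :=
        mul_le_mul_of_nonneg_left hh (sq_nonneg _)
      have a2 : F 0 t 0 ^ 2 * (B * Real.exp (3 * t) * F 0 t 0 ^ 2) ≤
          B * Real.exp (3 * t) := by
        have b1 : 0 < B * Real.exp (3 * t) := by positivity
        have b2 : F 0 t 0 ^ 2 * F 0 t 0 ^ 2 ≤ 1 := by nlinarith [sq_nonneg (F 0 t 0)]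
        nlinarith
      linarith
    have hC : -(2 * F 0 t 0 * (F 0 t 0 ^ 2 - 1)) ≤ 4 * K := by
      rw [hu]
      nlinarith [mul_pos hK hK, mul_pos (mul_pos hK hK) hK]
    nlinarith
  intro t ht
  obtain ⟨n1, n2, -, -⟩ := out_num hL hB hBL ht.1 (ht.2.trans hTL)
  have a := hU ht
  have b := hLo ht
  constructor <;> linarith

theorem outer {L B T : ℝ} {F G : ℕ → ℝ → ℝ → ℝ} {J : ℝ → ℝ → ℝ} (hL : 0 < L) (hB : 0 < B)
    (hBL : B * Real.exp (8 * L) * (1 + L) ≤ 1 / 100000) (_hT : 0 < T) (hTL : T ≤ L)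
    (S : Sol T F G J) (h2 : ∀ t ∈ Icc 0 T, ∀ y ∈ I1, F 2 t y ≤ 0)
    (hH : ∀ t ∈ Icc 0 T, ∀ y ∈ I1, -(F 2 t y) * (1 - y ^ 2) ^ 2 * √(1 - y ^ 2) ≤
      B * Real.exp (3 * t) * F 0 t y ^ 2)
    (h0 : |F 0 0 0 - 1| < B) :
    ∀ t ∈ Icc 0 T, 7 / 8 ≤ F 0 t 0 ∧ F 0 t 0 ≤ 9 / 8 ∧
      (∀ y ∈ Icc 0 (√15 / 4), F 1 t y ≤ 0 ∧ -(13 / 1000) * y ≤ F 1 t y ∧ 86 / 100 ≤ F 0 t y ∧
        98 / 100 * (y * F 0 t y) ≤ y * F 0 t y + (1 - y ^ 2) * F 1 t y ∧
        F 0 t y ^ 2 - 2 * y * F 0 t y * F 1 t y - (1 - y ^ 2) * F 1 t y ^ 2 ≤ 13 / 10) ∧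
      (∀ y ∈ Icc 0 1, F 1 t y ≤ 0 ∧ F 0 t y ≤ F 0 t 0) := by
  have m0 : (0 : ℝ) ∈ I1 := ⟨by norm_num, by norm_num⟩
  have hsub : ∀ {b : ℝ}, b ≤ 1 → Icc 0 b ⊆ I1 := fun hb z hz =>
    ⟨by linarith [hz.1], hz.2.trans hb⟩
  have hF1 : ∀ t ∈ Icc 0 T, F 1 t 0 = 0 := fun t ht =>
    out_even (S.dF 0 t ht 0 m0) (S.even t ht)
  have hcen := out_center hL hB hBL hTL S (fun t ht => h2 t ht 0 m0)
    (fun t ht => by simpa using hH t ht 0 m0) h0 hF1
  have h15 : √15 ^ 2 = 15 := Real.sq_sqrt (by norm_num)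
  have h15p : 0 < √15 := Real.sqrt_pos.2 (by norm_num)
  have hy1 : √15 / 4 ≤ 1 := by nlinarith
  intro t ht
  obtain ⟨c1, c2⟩ := hcen t ht
  have hA : ∀ y ∈ Icc (0 : ℝ) 1, F 1 t y ≤ 0 := by
    intro y hy
    have := out_lin (f := F 1 t) (f' := F 2 t) (C := 0)
      (fun z hz => (S.dF 1 t ht z (hsub le_rfl hz)).mono (hsub le_rfl))
      (fun z hz => h2 t ht z (hsub le_rfl hz)) y hy
    rw [hF1 t ht] at this
    linarith
  have hB' : ∀ y ∈ Icc (0 : ℝ) 1, F 0 t y ≤ F 0 t 0 := by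
    intro y hy
    have := out_lin (f := F 0 t) (f' := F 1 t) (C := 0)
      (fun z hz => (S.dF 0 t ht z (hsub le_rfl hz)).mono (hsub le_rfl)) hA y hy
    linarith
  refine ⟨by linarith, by linarith, ?_, fun y hy => ⟨hA y hy, hB' y hy⟩⟩
  obtain ⟨-, -, n3, -⟩ := out_num hL hB hBL ht.1 (ht.2.trans hTL)
  -- second derivative bound
  have hF2 : ∀ z ∈ Icc (0 : ℝ) (√15 / 4), -F 2 t z ≤ 13 / 1000 := by
    intro z hz
    have hz1 : z ∈ Icc (0 : ℝ) 1 := ⟨hz.1, hz.2.trans hy1⟩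
    have hs : 1 / 16 ≤ 1 - z ^ 2 := by
      have : z ^ 2 ≤ (√15 / 4) ^ 2 := pow_le_pow_left₀ hz.1 hz.2 2
      nlinarith
    have hq : 1 / 4 ≤ √(1 - z ^ 2) := by
      rw [Real.le_sqrt (by norm_num) (by linarith)]
      linarith
    have hv := hH t ht z (hsub le_rfl hz1)
    have hV0 : 0 < F 0 t z := S.pos t ht z (hsub le_rfl hz1)
    have hV1 : F 0 t z ≤ 1 + 1 / 100000 := (hB' z hz1).trans c2
    have hVs : F 0 t z ^ 2 ≤ (1 + 1 / 100000) ^ 2 := pow_le_pow_left₀ hV0.le hV1 2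
    have hr : B * Real.exp (3 * t) * F 0 t z ^ 2 ≤ 1 / 100000 * (1 + 1 / 100000) ^ 2 :=
      mul_le_mul n3 hVs (sq_nonneg _) (by norm_num)
    have h2z : 0 ≤ -F 2 t z := by linarith [h2 t ht z (hsub le_rfl hz1)]
    have hs2 : (1 / 16) ^ 2 ≤ (1 - z ^ 2) ^ 2 := pow_le_pow_left₀ (by norm_num) hs 2
    have hl : -F 2 t z * ((1 / 16) ^ 2 * (1 / 4)) ≤ -(F 2 t z) * (1 - z ^ 2) ^ 2 * √(1 - z ^ 2) := by
      have : (1 / 16) ^ 2 * (1 / 4) ≤ (1 - z ^ 2) ^ 2 * √(1 - z ^ 2) :=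
        mul_le_mul hs2 hq (by norm_num) (by positivity)
      calc -F 2 t z * ((1 / 16) ^ 2 * (1 / 4)) ≤ -F 2 t z * ((1 - z ^ 2) ^ 2 * √(1 - z ^ 2)) :=
            mul_le_mul_of_nonneg_left this h2z
        _ = _ := by ring
    norm_num at hl hr ⊢
    linarith
  have hC : ∀ y ∈ Icc (0 : ℝ) (√15 / 4), -(13 / 1000) * y ≤ F 1 t y := by
    intro y hy
    have := out_lin (f := fun z => -F 1 t z) (f' := fun z => -F 2 t z) (C := 13 / 1000)
      (fun z hz => ((S.dF 1 t ht z (hsub hy1 hz)).mono (hsub hy1)).neg) hF2 y hy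
    simp only [hF1 t ht] at this
    linarith
  intro y hy
  have hy' : y ∈ Icc (0 : ℝ) 1 := ⟨hy.1, hy.2.trans hy1⟩
  have hD : 86 / 100 ≤ F 0 t y := by
    have := out_lin (f := fun z => -F 0 t z) (f' := fun z => -F 1 t z) (C := 13 / 1000)
      (fun z hz => ((S.dF 0 t ht z (hsub hy1 hz)).mono (hsub hy1)).neg)
      (fun z hz => by
        have := hC z hz
        have : z ≤ 1 := hz.2.trans hy1
        nlinarith) y hy
    have h1 : y ≤ 1 := hy'.2
    linarith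
  have e1 := hA y hy'
  have e2 := hC y hy
  have e3 := (hB' y hy').trans c2
  have y0 := hy'.1
  have y1 := hy'.2
  refine ⟨e1, e2, hD, ?_, ?_⟩
  · have hs : 0 ≤ 1 - y ^ 2 := by nlinarith
    have hs1 : 1 - y ^ 2 ≤ 1 := by nlinarith
    have : -(13 / 1000) * y ≤ (1 - y ^ 2) * F 1 t y := by nlinarith
    nlinarith
  · have hs : 0 ≤ 1 - y ^ 2 := by nlinarith
    have p1 : F 0 t y ^ 2 ≤ (1 + 1 / 100000) ^ 2 := pow_le_pow_left₀ (by linarith) e3 2
    have p2 : y * F 0 t y * (-F 1 t y) ≤ 1 * (1 + 1 / 100000) * (13 / 1000) := by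
      have q1 : y * F 0 t y ≤ 1 * (1 + 1 / 100000) := mul_le_mul y1 e3 (by linarith) (by norm_num)
      exact mul_le_mul q1 (by nlinarith) (by linarith) (by norm_num)
    have p3 : 0 ≤ (1 - y ^ 2) * F 1 t y ^ 2 := by positivity
    nlinarith

end Pool.Agent.RFq
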