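import Pool.Agent.RFq.Idf
import Pool.Agent.RFq.EstOut

/-! MP_ae1fc5_gt, Q1: (E4), lower bound of `V(t, 1)` (helper25, second hand) -/

open scoped ContDiff
open Set

noncomputable section

namespace Pool.Agent.RFq

open Pool.Agent.MP_ae1fc5_gt

theorem e4 {T N b : ℝ} {F G : ℕ → ℝ → ℝ → ℝ} {J : ℝ → ℝ → ℝ} (_hT : 0 < T) (S : Sol T F G J)
    (hN : 0 ≤ N) (hb : 0 < b)
    (_h2 : ∀ t ∈ Icc 0 T, ∀ y ∈ I1, F 2 t y ≤ 0)
    (h1 : ∀ t ∈ Icc 0 T, ∀ y ∈ Icc (0 : ℝ) 1, F 1 t y ≤ 0)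
    (hQ : ∀ t ∈ Icc 0 T, ∀ y ∈ I1, -N ≤ Q0 F t y)
    (hP : ∀ t ∈ Icc 0 T, ∀ y ∈ Icc (√15 / 4) 1, b * F 0 t y ≤ PP F t y)
    (hlow : ∀ t ∈ Icc 0 T, ∀ y ∈ Icc 0 (√15 / 4), 86 / 100 ≤ F 0 t y) :
    ∀ t ∈ Icc 0 T, F 0 0 1 * Real.exp (-(2 + 2 * N + N / (2 * b)) * t) ≤ F 0 t 1 := by
  have m0 : (0 : ℝ) ∈ I1 := ⟨by norm_num, by norm_num⟩
  have m1 : (1 : ℝ) ∈ I1 := ⟨by norm_num, by norm_num⟩
  have h15 : √15 ^ 2 = 15 := Real.sq_sqrt (by norm_num)
  have h15p : 0 < √15 := Real.sqrt_pos.2 (by norm_num)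
  have hy1 : √15 / 4 ≤ 1 := by nlinarith
  have hy0 : 0 ≤ √15 / 4 := by positivity
  have hsA : Icc 0 (√15 / 4) ⊆ I1 := fun z hz => ⟨by linarith [hz.1], hz.2.trans hy1⟩
  have hsB : Icc (√15 / 4) 1 ⊆ I1 := fun z hz => ⟨by linarith [hz.1], hz.2⟩
  -- `-V V_yy ≤ N / V^2`
  have hVV : ∀ t ∈ Icc 0 T, ∀ y ∈ I1, -(F 0 t y * F 2 t y) ≤ N / F 0 t y ^ 2 := by
    intro t ht y hy
    have hV := S.pos t ht y hy
    rw [le_div_iff₀ (by positivity)]
    have := hQ t ht y hy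
    unfold Q0 at this
    nlinarith
  have hJ : ∀ t ∈ Icc 0 T, J t 1 ≤ F 0 t 1 * F 1 t 1 + (2 * N + N / (2 * b)) := by
    intro t ht
    have hPhi : ∀ y ∈ I1, HasDerivWithinAt (fun z => J t z - F 0 t z * F 1 t z)
        (-(F 0 t y * F 2 t y)) I1 y := by
      intro y hy
      refine ((S.dJ t ht y hy).fun_sub ((S.dF 0 t ht y hy).fun_mul (S.dF 1 t ht y hy))).congr_deriv ?_
      ring
    have hF10 : F 1 t 0 = 0 := out_even (S.dF 0 t ht 0 m0) (S.even t ht)
    have hA := out_lin (f := fun z => J t z - F 0 t z * F 1 t z)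
      (f' := fun z => -(F 0 t z * F 2 t z)) (C := 136 / 100 * N)
      (fun z hz => (hPhi z (hsA hz)).mono hsA) (fun z hz => by
        refine (hVV t ht z (hsA hz)).trans ?_
        have hV := hlow t ht z hz
        rw [div_le_iff₀ (by positivity)]
        have : (86 / 100 : ℝ) ^ 2 ≤ F 0 t z ^ 2 := pow_le_pow_left₀ (by norm_num) hV 2
        nlinarith) (√15 / 4) ⟨hy0, le_rfl⟩
    simp only [S.J0 t ht, hF10, mul_zero, sub_zero, zero_add] at hA
    have hA' : J t (√15 / 4) - F 0 t (√15 / 4) * F 1 t (√15 / 4) ≤ 136 / 100 * N := by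
      refine hA.trans ?_
      have : 136 / 100 * N * (√15 / 4) ≤ 136 / 100 * N * 1 :=
        mul_le_mul_of_nonneg_left hy1 (by positivity)
      linarith
    have hw : ∀ y ∈ I1, HasDerivWithinAt (fun z => N / (2 * b) * ((1 - z ^ 2) / F 0 t z ^ 2))
        (-(N / b) * PP F t y / F 0 t y ^ 3) I1 y := by
      intro y hy
      have hV := S.pos t ht y hy
      refine (((hs_der (J := I1) y).fun_div ((S.dF 0 t ht y hy).fun_pow 2)
        (by positivity)).const_mul (N / (2 * b))).congr_deriv ?_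
      unfold PP
      field_simp
      ring
    have hB := out_lin
      (f := fun z => (J t z - F 0 t z * F 1 t z) + N / (2 * b) * ((1 - z ^ 2) / F 0 t z ^ 2))
      (f' := fun z => -(F 0 t z * F 2 t z) + -(N / b) * PP F t z / F 0 t z ^ 3) (C := 0)
      (fun z hz => ((hPhi z (hsB hz)).fun_add (hw z (hsB hz))).mono hsB) (fun z hz => by
        have hV := S.pos t ht z (hsB hz)
        have h3 := hVV t ht z (hsB hz)
        have h4 := hP t ht z hz
        have h5 : N / F 0 t z ^ 2 ≤ N / b * PP F t z / F 0 t z ^ 3 := by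
          rw [div_le_div_iff₀ (by positivity) (by positivity)]
          have h6 : N * F 0 t z ≤ N / b * PP F t z := by
            rw [div_mul_eq_mul_div, le_div_iff₀ hb]
            nlinarith
          calc N * F 0 t z ^ 3 = (N * F 0 t z) * F 0 t z ^ 2 := by ring
            _ ≤ (N / b * PP F t z) * F 0 t z ^ 2 := mul_le_mul_of_nonneg_right h6 (by positivity)
        have h7 : -(N / b) * PP F t z / F 0 t z ^ 3 = -(N / b * PP F t z / F 0 t z ^ 3) := by ring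
        rw [h7]
        linarith) 1 ⟨hy1, le_rfl⟩
    have hwy : N / (2 * b) * ((1 - (√15 / 4) ^ 2) / F 0 t (√15 / 4) ^ 2) ≤ N / (2 * b) * 1 := by
      refine mul_le_mul_of_nonneg_left ?_ (by positivity)
      have hV := hlow t ht (√15 / 4) ⟨hy0, le_rfl⟩
      rw [div_le_one (by positivity)]
      have : (86 / 100 : ℝ) ^ 2 ≤ F 0 t (√15 / 4) ^ 2 := pow_le_pow_left₀ (by norm_num) hV 2
      nlinarith
    norm_num at hB
    norm_num at hwy hA'
    linarith
  -- the differential inequality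
  have hG : ∀ t ∈ Icc 0 T, -(2 + 2 * N + N / (2 * b)) * F 0 t 1 ≤ G 0 t 1 := by
    intro t ht
    rw [S.G0 t ht 1 m1]
    have hV := S.pos t ht 1 m1
    have hV1 := h1 t ht 1 ⟨by norm_num, le_rfl⟩
    have hJ1 := mul_le_mul_of_nonneg_left (hJ t ht) hV.le
    have e1 : rhs (F 0 t 1) (F 1 t 1) (F 2 t 1) (J t 1) 1 =
        F 0 t 1 ^ 2 * (-3 * F 1 t 1) + 2 * F 0 t 1 ^ 3 - 2 * F 0 t 1 - F 0 t 1 * J t 1 := by
      unfold rhs
      ring
    rw [e1]
    have p1 : 0 ≤ F 0 t 1 ^ 2 * (-F 1 t 1) := mul_nonneg (sq_nonneg _) (by linarith)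
    have p2 : 0 ≤ F 0 t 1 ^ 3 := by positivity
    nlinarith
  intro t ht
  have key := out_lin (f := fun z => -(F 0 z 1 * Real.exp ((2 + 2 * N + N / (2 * b)) * z)))
    (f' := fun z => -(G 0 z 1 * Real.exp ((2 + 2 * N + N / (2 * b)) * z)
      + F 0 z 1 * (Real.exp ((2 + 2 * N + N / (2 * b)) * z) * (2 + 2 * N + N / (2 * b))))) (C := 0)
    (fun z hz => by
      have he : HasDerivWithinAt (fun z : ℝ => Real.exp ((2 + 2 * N + N / (2 * b)) * z))
          (Real.exp ((2 + 2 * N + N / (2 * b)) * z) * (2 + 2 * N + N / (2 * b))) (Icc 0 T) z := by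
        have := ((hasDerivAt_id' z).const_mul (2 + 2 * N + N / (2 * b))).exp
        simpa using this.hasDerivWithinAt
      exact ((S.dt 0 z hz 1 m1).fun_mul he).fun_neg)
    (fun z hz => by
      have h3 := hG z hz
      have h4 := Real.exp_pos ((2 + 2 * N + N / (2 * b)) * z)
      have h5 : 0 ≤ (G 0 z 1 + (2 + 2 * N + N / (2 * b)) * F 0 z 1) *
          Real.exp ((2 + 2 * N + N / (2 * b)) * z) := mul_nonneg (by linarith) h4.le
      nlinarith) t ht
  simp only [mul_zero, Real.exp_zero, mul_one, zero_mul, add_zero] at key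
  have h6 : Real.exp (-(2 + 2 * N + N / (2 * b)) * t) *
      Real.exp ((2 + 2 * N + N / (2 * b)) * t) = 1 := by
    rw [← Real.exp_add]
    have h8 : -(2 + 2 * N + N / (2 * b)) * t + (2 + 2 * N + N / (2 * b)) * t = 0 := by ring
    rw [h8, Real.exp_zero]
  have h7 := Real.exp_pos (-(2 + 2 * N + N / (2 * b)) * t)
  calc F 0 0 1 * Real.exp (-(2 + 2 * N + N / (2 * b)) * t)
      ≤ (F 0 t 1 * Real.exp ((2 + 2 * N + N / (2 * b)) * t)) *
        Real.exp (-(2 + 2 * N + N / (2 * b)) * t) :=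
        mul_le_mul_of_nonneg_right (by linarith) h7.le
    _ = F 0 t 1 * (Real.exp (-(2 + 2 * N + N / (2 * b)) * t) *
      Real.exp ((2 + 2 * N + N / (2 * b)) * t)) := by ring
    _ = F 0 t 1 := by rw [h6, mul_one]

end Pool.Agent.RFq
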