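import Pool.Agent.RFq.Est1
import Pool.Agent.RFq.EstOut

/-! MP_ae1fc5_gt, Q1: a priori estimates (E5): bounds of `V_yyy`, `V_yyyy` (helper75) -/

open Set

noncomputable section

namespace Pool.Agent.RFq

open Pool.Agent.MP_ae1fc5_gt

/-- `Q_yyy` -/
def Q3 (F : ℕ → ℝ → ℝ → ℝ) (t y : ℝ) : ℝ :=
  6 * F 1 t y ^ 3 * F 2 t y + 18 * F 0 t y * F 1 t y * F 2 t y ^ 2
    + 18 * F 0 t y * F 1 t y ^ 2 * F 3 t y + 12 * F 0 t y ^ 2 * F 2 t y * F 3 t y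
    + 9 * F 0 t y ^ 2 * F 1 t y * F 4 t y + F 0 t y ^ 3 * F 5 t y

/-- `Q_yyyy` -/
def Q4 (F : ℕ → ℝ → ℝ → ℝ) (t y : ℝ) : ℝ :=
  36 * F 1 t y ^ 2 * F 2 t y ^ 2 + 24 * F 1 t y ^ 3 * F 3 t y + 18 * F 0 t y * F 2 t y ^ 3
    + 96 * F 0 t y * F 1 t y * F 2 t y * F 3 t y + 36 * F 0 t y * F 1 t y ^ 2 * F 4 t y
    + 12 * F 0 t y ^ 2 * F 3 t y ^ 2 + 21 * F 0 t y ^ 2 * F 2 t y * F 4 t y
    + 12 * F 0 t y ^ 2 * F 1 t y * F 5 t y + F 0 t y ^ 3 * F 6 t y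

/-- time derivatives of `Q`, `Q_y`, `Q_yy` -/
def T0 (F G : ℕ → ℝ → ℝ → ℝ) (t y : ℝ) : ℝ :=
  3 * F 0 t y ^ 2 * G 0 t y * F 2 t y + F 0 t y ^ 3 * G 2 t y

def T1 (F G : ℕ → ℝ → ℝ → ℝ) (t y : ℝ) : ℝ :=
  6 * F 0 t y * G 0 t y * F 1 t y * F 2 t y + 3 * F 0 t y ^ 2 * G 1 t y * F 2 t y
    + 3 * F 0 t y ^ 2 * F 1 t y * G 2 t y + 3 * F 0 t y ^ 2 * G 0 t y * F 3 t y
    + F 0 t y ^ 3 * G 3 t y

def T2 (F G : ℕ → ℝ → ℝ → ℝ) (t y : ℝ) : ℝ :=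
  6 * G 0 t y * F 1 t y ^ 2 * F 2 t y + 12 * F 0 t y * F 1 t y * G 1 t y * F 2 t y
    + 6 * F 0 t y * F 1 t y ^ 2 * G 2 t y + 6 * F 0 t y * G 0 t y * F 2 t y ^ 2
    + 6 * F 0 t y ^ 2 * F 2 t y * G 2 t y + 12 * F 0 t y * G 0 t y * F 1 t y * F 3 t y
    + 6 * F 0 t y ^ 2 * G 1 t y * F 3 t y + 6 * F 0 t y ^ 2 * F 1 t y * G 3 t y
    + 3 * F 0 t y ^ 2 * G 0 t y * F 4 t y + F 0 t y ^ 3 * G 4 t y

/-- the right-hand side of (I4) and its derivatives -/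
def R0 (F : ℕ → ℝ → ℝ → ℝ) (J : ℝ → ℝ → ℝ) (t y : ℝ) : ℝ :=
  F 0 t y ^ 2 * ((1 - y ^ 2) * Q2 F t y - 7 * y * Q1 F t y)
    - (1 - y ^ 2) * (4 * F 0 t y * F 1 t y + J t y) * Q1 F t y
    + (4 * vv F t y - 8) * Q0 F t y

def R1 (F : ℕ → ℝ → ℝ → ℝ) (J : ℝ → ℝ → ℝ) (t y : ℝ) : ℝ :=
  F 0 t y ^ 2 * ((1 - y ^ 2) * Q3 F t y)
    + (-9 * y * F 0 t y ^ 2 - (1 - y ^ 2) * (2 * F 0 t y * F 1 t y + J t y)) * Q2 F t y
    + (-7 * F 0 t y ^ 2 - 14 * (y * (F 0 t y * F 1 t y)) + 2 * (y * (4 * (F 0 t y * F 1 t y) + J t y))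
      - (1 - y ^ 2) * (5 * F 1 t y ^ 2 + 4 * (F 0 t y * F 2 t y)) + 4 * vv F t y - 8) * Q1 F t y
    + 4 * (v1 F t y * Q0 F t y)

def R2 (F : ℕ → ℝ → ℝ → ℝ) (J : ℝ → ℝ → ℝ) (t y : ℝ) : ℝ :=
  F 0 t y ^ 2 * ((1 - y ^ 2) * Q4 F t y)
    + (-11 * y * F 0 t y ^ 2 - (1 - y ^ 2) * J t y) * Q3 F t y
    + (-16 * F 0 t y ^ 2 - 36 * (y * (F 0 t y * F 1 t y))
      + 4 * (y * (4 * (F 0 t y * F 1 t y) + J t y))
      + 2 * ((1 - y ^ 2) * (F 1 t y ^ 2 + F 0 t y * F 2 t y))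
      - 2 * ((1 - y ^ 2) * (5 * F 1 t y ^ 2 + 4 * (F 0 t y * F 2 t y)))
      + 4 * vv F t y - 8) * Q2 F t y
    + ((-28 * (F 0 t y * F 1 t y) - 14 * (y * (F 1 t y ^ 2 + F 0 t y * F 2 t y))
      + 2 * (4 * (F 0 t y * F 1 t y) + J t y) + 4 * (y * (5 * F 1 t y ^ 2 + 4 * (F 0 t y * F 2 t y)))
      - (1 - y ^ 2) * (14 * (F 1 t y * F 2 t y) + 4 * (F 0 t y * F 3 t y)) + 8 * v1 F t y)
      * Q1 F t y + 4 * (v2 F t y * Q0 F t y))

section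

variable {T : ℝ} {F G : ℕ → ℝ → ℝ → ℝ} {J : ℝ → ℝ → ℝ} (S : Sol T F G J)

include S

theorem Sol.dQ2 {t y : ℝ} (ht : t ∈ Icc 0 T) (hy : y ∈ I1) :
    HasDerivWithinAt (Q2 F t) (Q3 F t y) I1 y := by
  have f0 := S.dF 0 t ht y hy
  have f1 := S.dF 1 t ht y hy
  have f2 := S.dF 2 t ht y hy
  have f3 := S.dF 3 t ht y hy
  have f4 := S.dF 4 t ht y hy
  refine HasDerivWithinAt.congr_deriv (f := Q2 F t)
    ((((((f0.const_mul 6).fun_mul (f1.fun_pow 2)).fun_mul f2).fun_add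
      (((f0.fun_pow 2).const_mul 3).fun_mul (f2.fun_pow 2))).fun_add
      ((((f0.fun_pow 2).const_mul 6).fun_mul f1).fun_mul f3)).fun_add
      ((f0.fun_pow 3).fun_mul f4)) ?_
  simp only [Q3, Nat.cast_ofNat]
  ring

theorem Sol.dQ3 {t y : ℝ} (ht : t ∈ Icc 0 T) (hy : y ∈ I1) :
    HasDerivWithinAt (Q3 F t) (Q4 F t y) I1 y := by
  have f0 := S.dF 0 t ht y hy
  have f1 := S.dF 1 t ht y hy
  have f2 := S.dF 2 t ht y hy
  have f3 := S.dF 3 t ht y hy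
  have f4 := S.dF 4 t ht y hy
  have f5 := S.dF 5 t ht y hy
  refine HasDerivWithinAt.congr_deriv (f := Q3 F t)
    ((((((((f1.fun_pow 3).const_mul 6).fun_mul f2).fun_add
      (((f0.const_mul 18).fun_mul f1).fun_mul (f2.fun_pow 2))).fun_add
      (((f0.const_mul 18).fun_mul (f1.fun_pow 2)).fun_mul f3)).fun_add
      ((((f0.fun_pow 2).const_mul 12).fun_mul f2).fun_mul f3)).fun_add
      ((((f0.fun_pow 2).const_mul 9).fun_mul f1).fun_mul f4)).fun_add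
      ((f0.fun_pow 3).fun_mul f5)) ?_
  simp only [Q4, Nat.cast_ofNat]
  ring

theorem Sol.tQ1 {t y : ℝ} (ht : t ∈ Icc 0 T) (hy : y ∈ I1) :
    HasDerivWithinAt (fun s => Q1 F s y) (T1 F G t y) (Icc 0 T) t := by
  have f0 := S.dt 0 t ht y hy
  have f1 := S.dt 1 t ht y hy
  have f2 := S.dt 2 t ht y hy
  have f3 := S.dt 3 t ht y hy
  refine HasDerivWithinAt.congr_deriv (f := fun s => Q1 F s y)
    (((((f0.fun_pow 2).const_mul 3).fun_mul f1).fun_mul f2).fun_add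
    ((f0.fun_pow 3).fun_mul f3)) ?_
  simp only [T1, Nat.cast_ofNat]
  ring

theorem Sol.tQ2 {t y : ℝ} (ht : t ∈ Icc 0 T) (hy : y ∈ I1) :
    HasDerivWithinAt (fun s => Q2 F s y) (T2 F G t y) (Icc 0 T) t := by
  have f0 := S.dt 0 t ht y hy
  have f1 := S.dt 1 t ht y hy
  have f2 := S.dt 2 t ht y hy
  have f3 := S.dt 3 t ht y hy
  have f4 := S.dt 4 t ht y hy
  refine HasDerivWithinAt.congr_deriv (f := fun s => Q2 F s y)
    ((((((f0.const_mul 6).fun_mul (f1.fun_pow 2)).fun_mul f2).fun_add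
      (((f0.fun_pow 2).const_mul 3).fun_mul (f2.fun_pow 2))).fun_add
      ((((f0.fun_pow 2).const_mul 6).fun_mul f1).fun_mul f3)).fun_add
      ((f0.fun_pow 3).fun_mul f4)) ?_
  simp only [T2, Nat.cast_ofNat]
  ring

theorem Sol.T0_eq {t y : ℝ} (ht : t ∈ Icc 0 T) (hy : y ∈ I1) : T0 F G t y = R0 F J t y := by
  unfold T0 R0
  rw [S.G0 t ht y hy, S.G2 ht hy]
  simp only [Q0, Q1, Q2, vv, rhs, rhs2]
  ring

theorem Sol.dT0 {t y : ℝ} (ht : t ∈ Icc 0 T) (hy : y ∈ I1) :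
    HasDerivWithinAt (T0 F G t) (T1 F G t y) I1 y := by
  have f0 := S.dF 0 t ht y hy
  have f2 := S.dF 2 t ht y hy
  have g0 := S.dG 0 t ht y hy
  have g2 := S.dG 2 t ht y hy
  refine HasDerivWithinAt.congr_deriv (f := T0 F G t)
    (((((f0.fun_pow 2).const_mul 3).fun_mul g0).fun_mul f2).fun_add
    ((f0.fun_pow 3).fun_mul g2)) ?_
  simp only [T1, Nat.cast_ofNat]
  ring

theorem Sol.dT1 {t y : ℝ} (ht : t ∈ Icc 0 T) (hy : y ∈ I1) :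
    HasDerivWithinAt (T1 F G t) (T2 F G t y) I1 y := by
  have f0 := S.dF 0 t ht y hy
  have f1 := S.dF 1 t ht y hy
  have f2 := S.dF 2 t ht y hy
  have f3 := S.dF 3 t ht y hy
  have g0 := S.dG 0 t ht y hy
  have g1 := S.dG 1 t ht y hy
  have g2 := S.dG 2 t ht y hy
  have g3 := S.dG 3 t ht y hy
  refine HasDerivWithinAt.congr_deriv (f := T1 F G t)
    (((((((f0.const_mul 6).fun_mul g0).fun_mul f1).fun_mul f2).fun_add
      ((((f0.fun_pow 2).const_mul 3).fun_mul g1).fun_mul f2)).fun_add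
      ((((f0.fun_pow 2).const_mul 3).fun_mul f1).fun_mul g2)).fun_add
      ((((f0.fun_pow 2).const_mul 3).fun_mul g0).fun_mul f3)
      |>.fun_add ((f0.fun_pow 3).fun_mul g3)) ?_
  simp only [T2, Nat.cast_ofNat]
  ring

theorem Sol.dR0 {t y : ℝ} (ht : t ∈ Icc 0 T) (hy : y ∈ I1) :
    HasDerivWithinAt (R0 F J t) (R1 F J t y) I1 y := by
  have f0 := S.dF 0 t ht y hy
  have f1 := S.dF 1 t ht y hy
  have q0 := S.dQ ht hy
  have q1 := S.dQ1 ht hy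
  have q2 := S.dQ2 ht hy
  have hv := S.dv ht hy
  have hJ := S.dJ t ht y hy
  have hs := hs_der (J := I1) y
  have hid := (hasDerivAt_id' y).hasDerivWithinAt (s := I1)
  refine HasDerivWithinAt.congr_deriv (f := R0 F J t)
    ((((f0.fun_pow 2).fun_mul ((hs.fun_mul q2).fun_sub ((hid.const_mul 7).fun_mul q1))).fun_sub
      ((hs.fun_mul (((f0.const_mul 4).fun_mul f1).fun_add hJ)).fun_mul q1)).fun_add
      (((hv.const_mul 4).sub_const 8).fun_mul q0)) ?_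
  simp only [R1, Nat.cast_ofNat]
  ring

theorem Sol.dR1 {t y : ℝ} (ht : t ∈ Icc 0 T) (hy : y ∈ I1) :
    HasDerivWithinAt (R1 F J t) (R2 F J t y) I1 y := by
  have f0 := S.dF 0 t ht y hy
  have f1 := S.dF 1 t ht y hy
  have f2 := S.dF 2 t ht y hy
  have q0 := S.dQ ht hy
  have q1 := S.dQ1 ht hy
  have q2 := S.dQ2 ht hy
  have q3 := S.dQ3 ht hy
  have hv := S.dv ht hy
  have hv1 := S.dv1 ht hy
  have hJ := S.dJ t ht y hy
  have hs := hs_der (J := I1) y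
  have hid := (hasDerivAt_id' y).hasDerivWithinAt (s := I1)
  refine HasDerivWithinAt.congr_deriv (f := R1 F J t)
    (((((f0.fun_pow 2).fun_mul (hs.fun_mul q3)).fun_add
      ((((hid.const_mul (-9)).fun_mul (f0.fun_pow 2)).fun_sub
        (hs.fun_mul (((f0.const_mul 2).fun_mul f1).fun_add hJ))).fun_mul q2)).fun_add
      ((((((((f0.fun_pow 2).const_mul (-7)).fun_sub
        ((hid.fun_mul (f0.fun_mul f1)).const_mul 14)).fun_add
        ((hid.fun_mul (((f0.fun_mul f1).const_mul 4).fun_add hJ)).const_mul 2)).fun_sub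
        (hs.fun_mul (((f1.fun_pow 2).const_mul 5).fun_add ((f0.fun_mul f2).const_mul 4)))).fun_add
        (hv.const_mul 4)).sub_const 8).fun_mul q1)).fun_add
      ((hv1.fun_mul q0).const_mul 4)) ?_
  simp only [R2, v1, Nat.cast_ofNat]
  ring

theorem Sol.T1_eq {t y : ℝ} (ht : t ∈ Icc 0 T) (hy : y ∈ I1) : T1 F G t y = R1 F J t y :=
  Gauge.unique_deriv uI1 hy (S.dT0 ht hy)
    ((S.dR0 ht hy).congr_of_mem (fun _ hz => S.T0_eq ht hz) hy)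

theorem Sol.T2_eq {t y : ℝ} (ht : t ∈ Icc 0 T) (hy : y ∈ I1) : T2 F G t y = R2 F J t y :=
  Gauge.unique_deriv uI1 hy (S.dT1 ht hy)
    ((S.dR1 ht hy).congr_of_mem (fun _ hz => S.T1_eq ht hz) hy)

end

/-! bounds -/

theorem b_mul {a b A B : ℝ} (ha : |a| ≤ A) (hb : |b| ≤ B) : |a * b| ≤ A * B := by
  rw [abs_mul]; exact mul_le_mul ha hb (abs_nonneg _) ((abs_nonneg _).trans ha)

theorem b_one {a b B : ℝ} (ha : |a| ≤ 1) (hb : |b| ≤ B) : |a * b| ≤ B := by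
  have := b_mul ha hb; linarith

theorem b_add {a b A B : ℝ} (ha : |a| ≤ A) (hb : |b| ≤ B) : |a + b| ≤ A + B :=
  (abs_add_le _ _).trans (add_le_add ha hb)

theorem b_sub {a b A B : ℝ} (ha : |a| ≤ A) (hb : |b| ≤ B) : |a - b| ≤ A + B :=
  (abs_sub _ _).trans (add_le_add ha hb)

theorem b_c {a A : ℝ} (k : ℝ) (ha : |a| ≤ A) : |k * a| ≤ |k| * A := by
  rw [abs_mul]; exact mul_le_mul_of_nonneg_left ha (abs_nonneg _)

theorem b_pow {a A : ℝ} (n : ℕ) (ha : |a| ≤ A) : |a ^ n| ≤ A ^ n := by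
  rw [abs_pow]; exact pow_le_pow_left₀ (abs_nonneg _) ha n

theorem y_le {y : ℝ} (hy : y ∈ I1) : |y| ≤ 1 := abs_le.2 ⟨hy.1, hy.2⟩

theorem s_le {y : ℝ} (hy : y ∈ I1) : |1 - y ^ 2| ≤ 1 := by
  rw [abs_of_nonneg (s_nonneg hy)]; nlinarith [sq_nonneg y]

section

variable {T : ℝ} {F G : ℕ → ℝ → ℝ → ℝ} {J : ℝ → ℝ → ℝ} (S : Sol T F G J)

include S

theorem Sol.J_le {K t : ℝ} (ht : t ∈ Icc 0 T) (hK : ∀ y ∈ I1, |F 1 t y| ≤ K) :
    ∀ y ∈ I1, |J t y| ≤ K ^ 2 := by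
  intro y hy
  have h := Convex.norm_image_sub_le_of_norm_hasDerivWithin_le (f := J t)
    (f' := fun z => F 1 t z ^ 2) (s := I1) (C := K ^ 2) (x := 0) (y := y)
    (fun z hz => S.dJ t ht z hz) (fun z hz => by
      rw [Real.norm_eq_abs]; exact b_pow 2 (hK z hz)) (convex_Icc _ _) zero_I1 hy
  rw [S.J0 t ht, sub_zero, sub_zero, Real.norm_eq_abs, Real.norm_eq_abs] at h
  have h2 : K ^ 2 * |y| ≤ K ^ 2 * 1 := mul_le_mul_of_nonneg_left (y_le hy) (sq_nonneg _)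
  linarith

theorem Sol.cT1 : ContinuousOn (fun p : ℝ × ℝ => Q1 F p.1 p.2) (Icc 0 T ×ˢ I1) := by
  have h0 := S.cF 0
  have h1 := S.cF 1
  have h2 := S.cF 2
  have h3 := S.cF 3
  unfold Q1
  fun_prop

theorem Sol.cT2 : ContinuousOn (fun p : ℝ × ℝ => Q2 F p.1 p.2) (Icc 0 T ×ˢ I1) := by
  have h0 := S.cF 0
  have h1 := S.cF 1
  have h2 := S.cF 2
  have h3 := S.cF 3
  have h4 := S.cF 4
  unfold Q2
  fun_prop

end

/-- two-sided linear maximum principle -/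
theorem maxp_abs {T C G M : ℝ} (hC : 0 ≤ C) (hG : 0 ≤ G) (hM : 0 ≤ M) (f f1 f2 ft : ℝ → ℝ → ℝ)
    (hF : ContinuousOn (fun p : ℝ × ℝ => f p.1 p.2) (Icc 0 T ×ˢ Icc (-1) 1))
    (h0 : ∀ y ∈ Icc (-1 : ℝ) 1, |f 0 y| ≤ M)
    (hd1 : ∀ t ∈ Icc 0 T, ∀ y ∈ Icc (-1 : ℝ) 1, HasDerivWithinAt (f t) (f1 t y) (Icc (-1) 1) y)
    (hd2 : ∀ t ∈ Icc 0 T, ∀ y ∈ Icc (-1 : ℝ) 1, HasDerivWithinAt (f1 t) (f2 t y) (Icc (-1) 1) y)
    (hdt : ∀ t ∈ Icc 0 T, ∀ y ∈ Icc (-1 : ℝ) 1,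
      HasDerivWithinAt (fun s => f s y) (ft t y) (Icc 0 T) t)
    (a b c g : ℝ → ℝ → ℝ)
    (heq : ∀ t ∈ Icc 0 T, ∀ y ∈ Icc (-1 : ℝ) 1,
      ft t y = a t y * ((1 - y ^ 2) * f2 t y) + b t y * f1 t y + c t y * f t y + g t y)
    (ha : ∀ t ∈ Icc 0 T, ∀ y ∈ Icc (-1 : ℝ) 1, 0 ≤ a t y)
    (hb1 : ∀ t ∈ Icc 0 T, b t 1 ≤ 0) (hb2 : ∀ t ∈ Icc 0 T, 0 ≤ b t (-1))
    (hc : ∀ t ∈ Icc 0 T, ∀ y ∈ Icc (-1 : ℝ) 1, c t y ≤ C)
    (hg : ∀ t ∈ Icc 0 T, ∀ y ∈ Icc (-1 : ℝ) 1, |g t y| ≤ G) :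
    ∀ t ∈ Icc 0 T, ∀ y ∈ Icc (-1 : ℝ) 1, |f t y| ≤ (M + G) * Real.exp ((C + 1) * t) := by
  have o : ∀ {t : ℝ}, t ∈ Ioc 0 T → t ∈ Icc 0 T := fun h => Ioc_subset_Icc_self h
  intro t ht y hy
  have k1 := maxp (T := T) hC hG hM f f1 f2 ft hF (fun y hy => (abs_le.1 (h0 y hy)).2)
    (fun t ht y hy => hd1 t (o ht) y hy)
    (fun t ht y hy => (hd2 t (o ht) y (Ioo_subset_Icc_self hy)).hasDerivAt
      (Icc_mem_nhds hy.1 hy.2))
    (fun t ht y hy => hdt t (o ht) y hy) a b c g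
    (fun t ht y hy => heq t (o ht) y hy) (fun t ht y hy => ha t (o ht) y hy)
    (fun t ht => hb1 t (o ht)) (fun t ht => hb2 t (o ht))
    (fun t ht y hy => hc t (o ht) y hy)
    (fun t ht y hy => (abs_le.1 (hg t (o ht) y hy)).2) t ht y hy
  have k2 := maxp (T := T) hC hG hM (fun t y => -f t y) (fun t y => -f1 t y)
    (fun t y => -f2 t y) (fun t y => -ft t y) hF.neg
    (fun y hy => by have := (abs_le.1 (h0 y hy)).1; linarith)
    (fun t ht y hy => (hd1 t (o ht) y hy).fun_neg)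
    (fun t ht y hy => ((hd2 t (o ht) y (Ioo_subset_Icc_self hy)).hasDerivAt
      (Icc_mem_nhds hy.1 hy.2)).fun_neg)
    (fun t ht y hy => (hdt t (o ht) y hy).fun_neg) a b c (fun t y => -g t y)
    (fun t ht y hy => by rw [heq t (o ht) y hy]; ring) (fun t ht y hy => ha t (o ht) y hy)
    (fun t ht => hb1 t (o ht)) (fun t ht => hb2 t (o ht))
    (fun t ht y hy => hc t (o ht) y hy)
    (fun t ht y hy => by have := (abs_le.1 (hg t (o ht) y hy)).1; linarith) t ht y hy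
  exact abs_le.2 ⟨by linarith, k1⟩

theorem e5 (L c K : ℝ) (_hL : 0 < L) (hc : 0 < c) (hK : 0 ≤ K) : ∃ K' : ℝ,
    ∀ (T : ℝ) (F G : ℕ → ℝ → ℝ → ℝ) (J : ℝ → ℝ → ℝ), 0 < T → T ≤ L → Sol T F G J →
      (∀ t ∈ Icc 0 T, ∀ y ∈ I1, c ≤ F 0 t y ∧ |F 0 t y| ≤ K ∧ |F 1 t y| ≤ K ∧ |F 2 t y| ≤ K) →
      (∀ j ≤ 4, ∀ y ∈ I1, |F j 0 y| ≤ K) →
      ∀ t ∈ Icc 0 T, ∀ y ∈ I1, |F 3 t y| ≤ K' ∧ |F 4 t y| ≤ K' := by
  obtain ⟨A1, hA1⟩ : ∃ A1, A1 = (4 * K ^ 4 + 16 * K ^ 6) * Real.exp ((50 * K ^ 2 + 1) * L) :=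
    ⟨_, rfl⟩
  obtain ⟨A3, hA3⟩ : ∃ A3, A3 = (A1 + 3 * K ^ 4) / c ^ 3 := ⟨_, rfl⟩
  have hA10 : 0 ≤ A1 := by rw [hA1]; positivity
  have hA30 : 0 ≤ A3 := by rw [hA3]; positivity
  obtain ⟨g2, hg2⟩ : ∃ g2, g2 = (148 * K ^ 2 + 4 * (K * A3)) * A1
      + 4 * (2 * (3 * K * K + 2 * K * A3) * K ^ 4) := ⟨_, rfl⟩
  have hg20 : 0 ≤ g2 := by rw [hg2]; positivity
  obtain ⟨A2, hA2⟩ : ∃ A2, A2 = (16 * K ^ 4 + g2) * Real.exp ((100 * K ^ 2 + 1) * L) :=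
    ⟨_, rfl⟩
  have hA20 : 0 ≤ A2 := by rw [hA2]; positivity
  refine ⟨max A3 ((A2 + 9 * K ^ 4 + 6 * K ^ 3 * A3) / c ^ 3),
    fun T F G J hT hTL S hb hi => ?_⟩
  have z0 : (0 : ℝ) ∈ Icc 0 T := ⟨le_rfl, hT.le⟩
  have hJ : ∀ t ∈ Icc 0 T, ∀ y ∈ I1, |J t y| ≤ K ^ 2 := fun t ht =>
    S.J_le ht (fun y hy => (hb t ht y hy).2.2.1)
  -- products
  have p00 : ∀ t ∈ Icc 0 T, ∀ y ∈ I1, |F 0 t y ^ 2| ≤ K ^ 2 := fun t ht y hy =>
    b_pow 2 (hb t ht y hy).2.1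
  have p11 : ∀ t ∈ Icc 0 T, ∀ y ∈ I1, |F 1 t y ^ 2| ≤ K ^ 2 := fun t ht y hy =>
    b_pow 2 (hb t ht y hy).2.2.1
  have p01 : ∀ t ∈ Icc 0 T, ∀ y ∈ I1, |F 0 t y * F 1 t y| ≤ K ^ 2 := fun t ht y hy => by
    rw [sq]; exact b_mul (hb t ht y hy).2.1 (hb t ht y hy).2.2.1
  have p02 : ∀ t ∈ Icc 0 T, ∀ y ∈ I1, |F 0 t y * F 2 t y| ≤ K ^ 2 := fun t ht y hy => by
    rw [sq]; exact b_mul (hb t ht y hy).2.1 (hb t ht y hy).2.2.2
  have p12 : ∀ t ∈ Icc 0 T, ∀ y ∈ I1, |F 1 t y * F 2 t y| ≤ K ^ 2 := fun t ht y hy => by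
    rw [sq]; exact b_mul (hb t ht y hy).2.2.1 (hb t ht y hy).2.2.2
  have pv : ∀ t ∈ Icc 0 T, ∀ y ∈ I1, |vv F t y| ≤ 4 * K ^ 2 := by
    intro t ht y hy
    have e : vv F t y = F 0 t y ^ 2 - 2 * (y * (F 0 t y * F 1 t y))
        - (1 - y ^ 2) * F 1 t y ^ 2 := by unfold vv; ring
    rw [e]
    have h := b_sub (b_sub (p00 t ht y hy) (b_c 2 (b_one (y_le hy) (p01 t ht y hy))))
      (b_one (s_le hy) (p11 t ht y hy))
    refine h.trans (le_of_eq ?_)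
    norm_num
    ring
  have pP : ∀ t ∈ Icc 0 T, ∀ y ∈ I1, |PP F t y| ≤ 2 * K := by
    intro t ht y hy
    have h := b_add (b_one (y_le hy) (hb t ht y hy).2.1) (b_one (s_le hy) (hb t ht y hy).2.2.1)
    exact h.trans (le_of_eq (by ring))
  have pv1 : ∀ t ∈ Icc 0 T, ∀ y ∈ I1, |v1 F t y| ≤ 4 * K ^ 2 := by
    intro t ht y hy
    have h := b_mul (b_c (-2) (pP t ht y hy)) (hb t ht y hy).2.2.2
    refine h.trans (le_of_eq ?_)
    norm_num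
    ring
  have pQ : ∀ t ∈ Icc 0 T, ∀ y ∈ I1, |Q0 F t y| ≤ K ^ 4 := by
    intro t ht y hy
    have h := b_mul (b_pow 3 (hb t ht y hy).2.1) (hb t ht y hy).2.2.2
    exact h.trans (le_of_eq (by ring))
  have pE : ∀ t ∈ Icc 0 T, ∀ y ∈ I1, |4 * (F 0 t y * F 1 t y) + J t y| ≤ 5 * K ^ 2 := by
    intro t ht y hy
    have h := b_add (b_c 4 (p01 t ht y hy)) (hJ t ht y hy)
    refine h.trans (le_of_eq ?_)
    norm_num
    ring
  have pD : ∀ t ∈ Icc 0 T, ∀ y ∈ I1, |5 * F 1 t y ^ 2 + 4 * (F 0 t y * F 2 t y)| ≤ 9 * K ^ 2 := by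
    intro t ht y hy
    have h := b_add (b_c 5 (p11 t ht y hy)) (b_c 4 (p02 t ht y hy))
    refine h.trans (le_of_eq ?_)
    norm_num
    ring
  have pC : ∀ t ∈ Icc 0 T, ∀ y ∈ I1, |F 1 t y ^ 2 + F 0 t y * F 2 t y| ≤ 2 * K ^ 2 := by
    intro t ht y hy
    have h := b_add (p11 t ht y hy) (p02 t ht y hy)
    exact h.trans (le_of_eq (by ring))
  -- Q1
  have hQ1 : ∀ t ∈ Icc 0 T, ∀ y ∈ I1, |Q1 F t y| ≤ A1 := by
    intro t ht y hy
    have key := maxp_abs (T := T) (C := 50 * K ^ 2) (G := 16 * K ^ 6) (M := 4 * K ^ 4)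
      (by positivity) (by positivity) (by positivity) (Q1 F) (Q2 F) (Q3 F) (T1 F G) S.cT1
      (fun y hy => by
        have h := b_add (b_mul (b_mul (b_c 3 (b_pow 2 (hi 0 (by norm_num) y hy)))
          (hi 1 (by norm_num) y hy)) (hi 2 (by norm_num) y hy))
          (b_mul (b_pow 3 (hi 0 (by norm_num) y hy)) (hi 3 (by norm_num) y hy))
        refine h.trans (le_of_eq ?_)
        norm_num
        ring)
      (fun t ht y hy => S.dQ1 ht hy) (fun t ht y hy => S.dQ2 ht hy)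
      (fun t ht y hy => S.tQ1 ht hy)
      (fun t y => F 0 t y ^ 2)
      (fun t y => -9 * y * F 0 t y ^ 2 - (1 - y ^ 2) * (2 * F 0 t y * F 1 t y + J t y))
      (fun t y => -7 * F 0 t y ^ 2 - 14 * (y * (F 0 t y * F 1 t y))
        + 2 * (y * (4 * (F 0 t y * F 1 t y) + J t y))
        - (1 - y ^ 2) * (5 * F 1 t y ^ 2 + 4 * (F 0 t y * F 2 t y)) + 4 * vv F t y - 8)
      (fun t y => 4 * (v1 F t y * Q0 F t y))
      (fun t ht y hy => by rw [S.T1_eq ht hy]; rfl)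
      (fun t ht y hy => sq_nonneg _)
      (fun t ht => by nlinarith [sq_nonneg (F 0 t 1)])
      (fun t ht => by nlinarith [sq_nonneg (F 0 t (-1))])
      (fun t ht y hy => by
        have h1 := (abs_le.1 (b_one (y_le hy) (p01 t ht y hy))).1
        have h2 := (abs_le.1 (b_one (y_le hy) (pE t ht y hy))).2
        have h3 := (abs_le.1 (b_one (s_le hy) (pD t ht y hy))).1
        have h4 := (abs_le.1 (pv t ht y hy)).2
        have h5 := sq_nonneg (F 0 t y)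
        have h6 := sq_nonneg K
        linarith)
      (fun t ht y hy => by
        have h := b_c 4 (b_mul (pv1 t ht y hy) (pQ t ht y hy))
        refine h.trans (le_of_eq ?_)
        norm_num
        ring) t ht y hy
    refine key.trans ?_
    rw [hA1]
    apply mul_le_mul_of_nonneg_left _ (by positivity)
    apply Real.exp_le_exp.2
    exact mul_le_mul_of_nonneg_left (ht.2.trans hTL) (by positivity)
  -- F 3
  have hF3 : ∀ t ∈ Icc 0 T, ∀ y ∈ I1, |F 3 t y| ≤ A3 := by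
    intro t ht y hy
    have h0 := (hb t ht y hy).1
    have h1 : F 0 t y ^ 3 * F 3 t y = Q1 F t y - 3 * (F 0 t y ^ 2 * (F 1 t y * F 2 t y)) := by
      unfold Q1; ring
    have h2 : |F 0 t y ^ 3 * F 3 t y| ≤ A1 + 3 * K ^ 4 := by
      rw [h1]
      have h := b_sub (hQ1 t ht y hy) (b_c 3 (b_mul (p00 t ht y hy) (p12 t ht y hy)))
      refine h.trans (le_of_eq ?_)
      norm_num
      ring
    rw [abs_mul, abs_of_nonneg (pow_nonneg (hc.le.trans h0) 3)] at h2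
    rw [hA3, le_div_iff₀ (by positivity)]
    have h3 : c ^ 3 ≤ F 0 t y ^ 3 := pow_le_pow_left₀ hc.le h0 3
    have h4 := mul_le_mul_of_nonneg_right h3 (abs_nonneg (F 3 t y))
    linarith
  have pv2 : ∀ t ∈ Icc 0 T, ∀ y ∈ I1, |v2 F t y| ≤ 2 * (3 * K * K + 2 * K * A3) := by
    intro t ht y hy
    have h := b_c (-2) (b_add (b_mul (b_add (b_sub (hb t ht y hy).2.1
      (b_one (y_le hy) (hb t ht y hy).2.2.1)) (b_one (s_le hy) (hb t ht y hy).2.2.2))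
      (hb t ht y hy).2.2.2) (b_mul (pP t ht y hy) (hF3 t ht y hy)))
    refine h.trans (le_of_eq ?_)
    have e : |(-2 : ℝ)| = 2 := by norm_num
    rw [e]
    ring
  -- Q2
  have hQ2 : ∀ t ∈ Icc 0 T, ∀ y ∈ I1, |Q2 F t y| ≤ A2 := by
    intro t ht y hy
    have key := maxp_abs (T := T) (C := 100 * K ^ 2) (G := g2) (M := 16 * K ^ 4)
      (by positivity) hg20 (by positivity) (Q2 F) (Q3 F) (Q4 F) (T2 F G) S.cT2
      (fun y hy => by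
        have i0 := hi 0 (by norm_num) y hy
        have i1 := hi 1 (by norm_num) y hy
        have i2 := hi 2 (by norm_num) y hy
        have i3 := hi 3 (by norm_num) y hy
        have i4 := hi 4 (by norm_num) y hy
        have h := b_add (b_add (b_add (b_mul (b_mul (b_c 6 i0) (b_pow 2 i1)) i2)
          (b_mul (b_c 3 (b_pow 2 i0)) (b_pow 2 i2)))
          (b_mul (b_mul (b_c 6 (b_pow 2 i0)) i1) i3)) (b_mul (b_pow 3 i0) i4)
        refine h.trans (le_of_eq ?_)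
        norm_num
        ring)
      (fun t ht y hy => S.dQ2 ht hy) (fun t ht y hy => S.dQ3 ht hy)
      (fun t ht y hy => S.tQ2 ht hy)
      (fun t y => F 0 t y ^ 2)
      (fun t y => -11 * y * F 0 t y ^ 2 - (1 - y ^ 2) * J t y)
      (fun t y => -16 * F 0 t y ^ 2 - 36 * (y * (F 0 t y * F 1 t y))
        + 4 * (y * (4 * (F 0 t y * F 1 t y) + J t y))
        + 2 * ((1 - y ^ 2) * (F 1 t y ^ 2 + F 0 t y * F 2 t y))
        - 2 * ((1 - y ^ 2) * (5 * F 1 t y ^ 2 + 4 * (F 0 t y * F 2 t y)))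
        + 4 * vv F t y - 8)
      (fun t y => (-28 * (F 0 t y * F 1 t y) - 14 * (y * (F 1 t y ^ 2 + F 0 t y * F 2 t y))
        + 2 * (4 * (F 0 t y * F 1 t y) + J t y)
        + 4 * (y * (5 * F 1 t y ^ 2 + 4 * (F 0 t y * F 2 t y)))
        - (1 - y ^ 2) * (14 * (F 1 t y * F 2 t y) + 4 * (F 0 t y * F 3 t y)) + 8 * v1 F t y)
        * Q1 F t y + 4 * (v2 F t y * Q0 F t y))
      (fun t ht y hy => by rw [S.T2_eq ht hy]; rfl)
      (fun t ht y hy => sq_nonneg _)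
      (fun t ht => by nlinarith [sq_nonneg (F 0 t 1)])
      (fun t ht => by nlinarith [sq_nonneg (F 0 t (-1))])
      (fun t ht y hy => by
        have h1 := (abs_le.1 (b_one (y_le hy) (p01 t ht y hy))).1
        have h2 := (abs_le.1 (b_one (y_le hy) (pE t ht y hy))).2
        have h3 := (abs_le.1 (b_one (s_le hy) (pD t ht y hy))).1
        have h4 := (abs_le.1 (pv t ht y hy)).2
        have h5 := sq_nonneg (F 0 t y)
        have h6 := sq_nonneg K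
        have h7 := (abs_le.1 (b_one (s_le hy) (pC t ht y hy))).2
        linarith)
      (fun t ht y hy => by
        have h := b_add (b_mul (b_add (b_sub (b_add (b_add (b_sub (b_c (-28) (p01 t ht y hy))
          (b_c 14 (b_one (y_le hy) (pC t ht y hy)))) (b_c 2 (pE t ht y hy)))
          (b_c 4 (b_one (y_le hy) (pD t ht y hy))))
          (b_one (s_le hy) (b_add (b_c 14 (p12 t ht y hy))
            (b_c 4 (b_mul (hb t ht y hy).2.1 (hF3 t ht y hy))))))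
          (b_c 8 (pv1 t ht y hy))) (hQ1 t ht y hy))
          (b_c 4 (b_mul (pv2 t ht y hy) (pQ t ht y hy)))
        refine h.trans ?_
        rw [hg2]
        norm_num
        apply mul_le_mul_of_nonneg_right _ hA10
        nlinarith [sq_nonneg K]) t ht y hy
    refine key.trans ?_
    rw [hA2]
    apply mul_le_mul_of_nonneg_left _ (by positivity)
    apply Real.exp_le_exp.2
    exact mul_le_mul_of_nonneg_left (ht.2.trans hTL) (by positivity)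
  intro t ht y hy
  refine ⟨(hF3 t ht y hy).trans (le_max_left _ _), le_trans ?_ (le_max_right _ _)⟩
  have h0 := (hb t ht y hy).1
  have h1 : F 0 t y ^ 3 * F 4 t y = Q2 F t y - 6 * (F 0 t y * F 1 t y * (F 1 t y * F 2 t y))
      - 3 * (F 0 t y * F 2 t y) ^ 2 - 6 * (F 0 t y ^ 2 * F 1 t y * F 3 t y) := by
    unfold Q2; ring
  have h2 : |F 0 t y ^ 3 * F 4 t y| ≤ A2 + 9 * K ^ 4 + 6 * K ^ 3 * A3 := by
    rw [h1]
    have h := b_sub (b_sub (b_sub (hQ2 t ht y hy)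
      (b_c 6 (b_mul (p01 t ht y hy) (p12 t ht y hy)))) (b_c 3 (b_pow 2 (p02 t ht y hy))))
      (b_c 6 (b_mul (b_mul (p00 t ht y hy) (hb t ht y hy).2.2.1) (hF3 t ht y hy)))
    refine h.trans (le_of_eq ?_)
    norm_num
    ring
  rw [abs_mul, abs_of_nonneg (pow_nonneg (hc.le.trans h0) 3)] at h2
  rw [le_div_iff₀ (by positivity)]
  have h3 : c ^ 3 ≤ F 0 t y ^ 3 := pow_le_pow_left₀ hc.le h0 3
  have h4 := mul_le_mul_of_nonneg_right h3 (abs_nonneg (F 4 t y))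
  linarith

end Pool.Agent.RFq
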