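import Pool.Agent.RFq.Est1
import Pool.Agent.RFq.EstOut
import Pool.Agent.RFq.EstE4
import Pool.Agent.RFq.EstE5

/-! MP_ae1fc5_gt, Q1: the a priori estimate (helper75) -/

open Set

noncomputable section

namespace Pool.Agent.RFq

open Pool.Agent.MP_ae1fc5_gt

/-- a uniform bound for finitely many continuous functions -/
theorem bdd_init (v : ℕ → ℝ → ℝ)
    (hd : ∀ j, ∀ y ∈ I1, HasDerivWithinAt (v j) (v (j + 1) y) I1 y) :
    ∃ K : ℝ, 0 ≤ K ∧ ∀ j ≤ 4, ∀ y ∈ I1, |v j y| ≤ K := by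
  have h : ∀ j, ∃ M : ℝ, ∀ y ∈ I1, |v j y| ≤ M := by
    intro j
    obtain ⟨M, hM⟩ := isCompact_Icc.exists_bound_of_continuousOn
      (fun y hy => (hd j y hy).continuousWithinAt : ContinuousOn (v j) I1)
    exact ⟨M, hM⟩
  choose M hM using h
  refine ⟨|M 0| + |M 1| + |M 2| + |M 3| + |M 4|, by positivity, fun j hj y hy => ?_⟩
  have h1 := hM j y hy
  have h2 := le_abs_self (M j)
  have a0 := abs_nonneg (M 0)
  have a1 := abs_nonneg (M 1)
  have a2 := abs_nonneg (M 2)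
  have a3 := abs_nonneg (M 3)
  have a4 := abs_nonneg (M 4)
  interval_cases j <;> linarith

/-- the derivative of an even function is odd -/
theorem odd_of_even {f f1 : ℝ → ℝ} (hd : ∀ y ∈ I1, HasDerivWithinAt f (f1 y) I1 y)
    (he : ∀ y ∈ I1, f (-y) = f y) {y : ℝ} (hy : y ∈ I1) : f1 (-y) = -f1 y := by
  have hy' : -y ∈ I1 := ⟨by linarith [hy.2], by linarith [hy.1]⟩
  have h1 : HasDerivWithinAt (fun z => f (-z)) (-f1 (-y)) I1 y := by
    have h := (hd (-y) hy').comp y ((hasDerivAt_neg y).hasDerivWithinAt (s := I1))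
      (fun z hz => ⟨by linarith [hz.2], by linarith [hz.1]⟩)
    refine h.congr_deriv ?_
    ring
  have h2 : HasDerivWithinAt f (-f1 (-y)) I1 y := by
    refine h1.congr_of_mem (fun z hz => (he z hz).symm) hy
  have h3 := Gauge.unique_deriv uI1 hy (hd y hy) h2
  linarith

theorem even_of_odd {f f1 : ℝ → ℝ} (hd : ∀ y ∈ I1, HasDerivWithinAt f (f1 y) I1 y)
    (he : ∀ y ∈ I1, f (-y) = -f y) {y : ℝ} (hy : y ∈ I1) : f1 (-y) = f1 y := by
  have hy' : -y ∈ I1 := ⟨by linarith [hy.2], by linarith [hy.1]⟩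
  have h1 : HasDerivWithinAt (fun z => -f (-z)) (f1 (-y)) I1 y := by
    have h := ((hd (-y) hy').comp y ((hasDerivAt_neg y).hasDerivWithinAt (s := I1))
      (fun z hz => ⟨by linarith [hz.2], by linarith [hz.1]⟩)).neg
    refine h.congr_deriv ?_
    ring
  have h2 : HasDerivWithinAt f (f1 (-y)) I1 y := by
    refine h1.congr_of_mem (fun z hz => ?_) hy
    rw [he z hz]; ring
  exact (Gauge.unique_deriv uI1 hy (hd y hy) h2).symm

/-- constants for the cap -/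
theorem cap_const (p q u : ℝ → ℝ) (y1 : ℝ) (hy1 : y1 ≤ 1) (hp : ContinuousOn p (Icc y1 1))
    (hq : ContinuousOn q (Icc y1 1)) (hu : ContinuousOn u (Icc y1 1))
    (hp0 : ∀ y ∈ Icc y1 1, 0 < p y) :
    ∃ β c0 : ℝ, 0 < β ∧ β ≤ 1 / 4 ∧ 0 < c0 ∧ c0 ≤ 1 / 4 ∧
      ∀ y ∈ Icc y1 1, β * q y + c0 * u y < p y := by
  obtain ⟨ym, hym, hmin⟩ := isCompact_Icc.exists_isMinOn ⟨y1, le_rfl, hy1⟩ hp
  obtain ⟨A, hA⟩ := isCompact_Icc.exists_bound_of_continuousOn hq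
  obtain ⟨A', hA'⟩ := isCompact_Icc.exists_bound_of_continuousOn hu
  obtain ⟨m, hm⟩ : ∃ m, m = p ym := ⟨_, rfl⟩
  have hm0 : 0 < m := hm ▸ hp0 _ hym
  have hA0 : 0 ≤ A := (norm_nonneg _).trans (hA y1 ⟨le_rfl, hy1⟩)
  have hA0' : 0 ≤ A' := (norm_nonneg _).trans (hA' y1 ⟨le_rfl, hy1⟩)
  have key : ∀ X : ℝ, 0 ≤ X → ∃ b : ℝ, 0 < b ∧ b ≤ 1 / 4 ∧ b * X ≤ m / 4 := by
    intro X hX
    refine ⟨min (1 / 4) (m / (4 * (X + 1))), by positivity, min_le_left _ _, ?_⟩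
    calc min (1 / 4) (m / (4 * (X + 1))) * X ≤ m / (4 * (X + 1)) * X :=
          mul_le_mul_of_nonneg_right (min_le_right _ _) hX
      _ ≤ m / (4 * (X + 1)) * (X + 1) := by
          apply mul_le_mul_of_nonneg_left (by linarith) (by positivity)
      _ = m / 4 := by field_simp
  obtain ⟨β, hβ, hβ1, hβA⟩ := key A hA0
  obtain ⟨c0, hc0, hc1, hcA⟩ := key A' hA0'
  refine ⟨β, c0, hβ, hβ1, hc0, hc1, fun y hy => ?_⟩
  have h1 : m ≤ p y := hm ▸ hmin hy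
  have h2 : q y ≤ A := (le_abs_self _).trans (hA y hy)
  have h3 : u y ≤ A' := (le_abs_self _).trans (hA' y hy)
  have h4 : β * q y ≤ β * A := mul_le_mul_of_nonneg_left h2 hβ.le
  have h5 : c0 * u y ≤ c0 * A' := mul_le_mul_of_nonneg_left h3 hc0.le
  linarith

/-- `P > 0` in the cap -/
theorem cap_P {V P : ℝ → ℝ} {y1 β : ℝ} (hβ : 0 < β)
    (hP : ContinuousOn P (Icc y1 1)) (hV : ∀ y ∈ Icc y1 1, 0 < V y)
    (h : ∀ y ∈ Icc y1 1, β * V y ^ 2 < P y ^ 2) (h1 : 0 < P y1) :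
    ∀ y ∈ Icc y1 1, √β * V y ≤ P y := by
  intro y hy
  have hpos : 0 < P y := by
    by_contra hc
    have hc' : P y ≤ 0 := not_lt.1 hc
    have hcont : ContinuousOn P (Icc y1 y) := hP.mono (Icc_subset_Icc_right hy.2)
    obtain ⟨z, hz, hz0⟩ := intermediate_value_Icc' hy.1 hcont ⟨hc', h1.le⟩
    have h2 := h z ⟨hz.1, hz.2.trans hy.2⟩
    have h3 := hV z ⟨hz.1, hz.2.trans hy.2⟩
    rw [hz0] at h2
    have : 0 < β * V z ^ 2 := by positivity
    nlinarith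
  have h2 := h y hy
  have h3 := hV y hy
  refine le_of_sq_le_sq ?_ hpos.le
  rw [mul_pow, Real.sq_sqrt hβ.le]
  exact h2.le

theorem apriori (Λ : ℝ) (hΛ : 0 < Λ) : ∃ B : ℝ, 0 < B ∧ ∀ v : ℕ → ℝ → ℝ,
    (∀ j, ∀ y ∈ I1, HasDerivWithinAt (v j) (v (j + 1) y) I1 y) →
    (∀ y ∈ I1, v 0 (-y) = v 0 y) →
    (∀ y ∈ I1, 0 < v 0 y ∧ v 2 y < 0 ∧
      -(v 2 y) * (1 - y ^ 2) ^ 2 * √(1 - y ^ 2) < B * v 0 y ^ 2) →
    |v 0 0 - 1| < B → (∀ y ∈ Ioc (0 : ℝ) 1, 0 < y * v 0 y + (1 - y ^ 2) * v 1 y) →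
    ∃ c K : ℝ, 0 < c ∧ ∀ (T : ℝ) (F G : ℕ → ℝ → ℝ → ℝ) (J : ℝ → ℝ → ℝ), 0 < T → T ≤ Λ →
      Sol T F G J → (∀ j, ∀ y ∈ I1, F j 0 y = v j y) →
      ∀ t ∈ Icc 0 T, ∀ y ∈ I1, c ≤ F 0 t y ∧ ∀ j ≤ 4, |F j t y| ≤ K := by
  obtain ⟨B, hBd⟩ : ∃ B, B = 1 / (100000 * Real.exp (8 * Λ) * (1 + Λ)) := ⟨_, rfl⟩
  have hB : 0 < B := by rw [hBd]; positivity
  have hBL : B * Real.exp (8 * Λ) * (1 + Λ) ≤ 1 / 100000 := by
    rw [hBd]
    have : 0 < Real.exp (8 * Λ) := Real.exp_pos _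
    apply le_of_eq
    field_simp
  refine ⟨B, hB, fun v hd hev hv hv0 hP => ?_⟩
  -- the number y1
  obtain ⟨y1, hy1d⟩ : ∃ y1, y1 = √15 / 4 := ⟨_, rfl⟩
  have hsq15 : √15 * √15 = 15 := Real.mul_self_sqrt (by norm_num)
  have h15 : 0 < √15 := Real.sqrt_pos.2 (by norm_num)
  have hy1sq : y1 ^ 2 = 15 / 16 := by rw [hy1d]; nlinarith
  have hy1p : 0 < y1 := by rw [hy1d]; positivity
  have hy1l : y1 < 1 := by nlinarith
  have sub01 : Icc (0 : ℝ) 1 ⊆ I1 := Icc_subset_Icc_left (by norm_num)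
  have subc : Icc y1 1 ⊆ I1 := Icc_subset_Icc_left (by linarith)
  have m1 : (1 : ℝ) ∈ I1 := ⟨by norm_num, le_rfl⟩
  -- initial data
  have w1odd : ∀ y ∈ I1, v 1 (-y) = -v 1 y := fun y hy => odd_of_even (hd 0) hev hy
  have w10 : v 1 0 = 0 := by
    have := w1odd 0 zero_I1
    simp at this; linarith
  have w1le : ∀ y ∈ Icc (0 : ℝ) 1, v 1 y ≤ 0 := by
    intro y hy
    have h := out_lin (f := v 1) (f' := v 2) (a := 0) (b := 1) (C := 0)
      (fun z hz => (hd 1 z (sub01 hz)).mono sub01) (fun z hz => (hv z (sub01 hz)).2.1.le) y hy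
    simpa [w10] using h
  obtain ⟨u, hu⟩ : ∃ u : ℝ → ℝ, u = fun y => v 0 y ^ 2 - 2 * y * v 0 y * v 1 y
    - (1 - y ^ 2) * v 1 y ^ 2 := ⟨_, rfl⟩
  have hu0 : ∀ y ∈ Icc (0 : ℝ) 1, 0 < u y := by
    intro y hy
    have hp0 : 0 ≤ y * v 0 y + (1 - y ^ 2) * v 1 y := by
      rcases hy.1.eq_or_lt with h | h
      · rw [← h, w10]; simp
      · exact (hP y ⟨h, hy.2⟩).le
    have e : u y = v 0 y ^ 2 - v 1 y * (y * v 0 y + (y * v 0 y + (1 - y ^ 2) * v 1 y)) := by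
      rw [hu]; ring
    have h3 := (hv y (sub01 hy)).1
    have h4 : v 1 y * (y * v 0 y + (y * v 0 y + (1 - y ^ 2) * v 1 y)) ≤ 0 :=
      mul_nonpos_of_nonpos_of_nonneg (w1le y hy)
        (add_nonneg (mul_nonneg hy.1 h3.le) hp0)
    rw [e]
    have : 0 < v 0 y ^ 2 := by positivity
    linarith
  have hu1 : ∀ y ∈ I1, 0 < u y := by
    intro y hy
    rcases le_total 0 y with h | h
    · exact hu0 y ⟨h, hy.2⟩
    · have h5 := hu0 (-y) ⟨by linarith, by linarith [hy.1]⟩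
      have e : u (-y) = u y := by
        rw [hu]
        simp only
        rw [hev y hy, w1odd y hy]; ring
      rwa [e] at h5
  have cj : ∀ j, ContinuousOn (v j) I1 := fun j y hy => (hd j y hy).continuousWithinAt
  -- cap constants
  have cv0 := (cj 0).mono subc
  have cv1 := (cj 1).mono subc
  obtain ⟨β, c0, hβ, hβ4, hc0, hc04, hcap⟩ := cap_const
    (fun y => (y * v 0 y + (1 - y ^ 2) * v 1 y) ^ 2) (fun y => v 0 y ^ 2)
    (fun y => u y * v 0 y ^ 2) y1 hy1l.le (by fun_prop) (by fun_prop)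
    (by rw [hu]; fun_prop)
    (fun y hy => by
      have := hP y ⟨by linarith [hy.1], hy.2⟩
      positivity)
  obtain ⟨K0, hK0, hK0'⟩ := bdd_init v hd
  -- the constants
  obtain ⟨M, hM⟩ : ∃ M, M = max (1 / c0) 2 := ⟨_, rfl⟩
  have hMc : 1 / c0 ≤ M := hM ▸ le_max_left _ _
  have hM2 : 2 ≤ M := hM ▸ le_max_right _ _
  obtain ⟨N, hN⟩ : ∃ N, N = K0 ^ 4 * Real.exp ((4 * M + 1) * Λ) := ⟨_, rfl⟩
  have hN0 : 0 ≤ N := by rw [hN]; positivity
  have hbp : 0 < √β := Real.sqrt_pos.2 hβ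
  obtain ⟨c, hc⟩ : ∃ c, c = v 0 1 * Real.exp (-(2 + 2 * N + N / (2 * √β)) * Λ) := ⟨_, rfl⟩
  have hcp : 0 < c := by
    rw [hc]
    have := (hv 1 m1).1
    positivity
  obtain ⟨K1, hK1⟩ : ∃ K1, K1 = max (max K0 2) (max (M / (2 * c)) (N / c ^ 3)) := ⟨_, rfl⟩
  have k1 : K0 ≤ K1 := hK1 ▸ (le_max_left _ _).trans (le_max_left _ _)
  have k2 : 2 ≤ K1 := hK1 ▸ (le_max_right _ _).trans (le_max_left _ _)
  have k3 : M / (2 * c) ≤ K1 := hK1 ▸ (le_max_left _ _).trans (le_max_right _ _)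
  have k4 : N / c ^ 3 ≤ K1 := hK1 ▸ (le_max_right _ _).trans (le_max_right _ _)
  obtain ⟨K', hK'⟩ := e5 Λ c K1 hΛ hcp (by linarith)
  refine ⟨c, max K1 K', hcp, fun T F G J hT hTL S hF => ?_⟩
  have z0 : (0 : ℝ) ∈ Icc 0 T := ⟨le_rfl, hT.le⟩
  -- v > 0, concavity, H
  have hvv0 : ∀ y ∈ I1, vv F 0 y = u y := by
    intro y hy
    rw [hu]; unfold vv
    rw [hF 0 y hy, hF 1 y hy]
  have hvp := S.v_pos (fun y hy => by rw [hvv0 y hy]; exact hu1 y hy)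
  have hF2 := S.E1 (fun y hy => by rw [hF 2 y hy]; exact (hv y hy).2.1.le)
  have hH := S.Hb hB hvp (fun y hy => by
    rw [hF 2 y hy, hF 0 y hy]; exact (hv y hy).2.2)
  have hout := outer hΛ hB hBL hT hTL S hF2 hH (by rw [hF 0 0 zero_I1]; exact hv0)
  rw [← hy1d] at hout
  have h11 : y1 ∈ Icc 0 y1 := ⟨hy1p.le, le_rfl⟩
  -- X
  have hX := S.Xb (y1 := y1) hc0 hβ (by linarith) hy1l hvp
    (fun y hy => by
      have h1 := hcap y hy
      have hy' := subc hy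
      rw [hvv0 y hy', hF 0 y hy']
      have e : (y * v 0 y + (1 - y ^ 2) * v 1 y) ^ 2 = v 0 y ^ 2 - (1 - y ^ 2) * u y := by
        rw [hu]; ring
      rw [e] at h1
      linarith)
    (fun t ht => by
      obtain ⟨h1, h2, h3, h4⟩ := hout t ht
      obtain ⟨a1, a2, a3, a4, a5⟩ := h3 y1 h11
      have a6 : F 0 t y1 ≤ 9 / 8 := ((h4 y1 ⟨hy1p.le, hy1l.le⟩).2).trans h2
      have a5' : vv F t y1 ≤ 13 / 10 := a5
      have b1 : F 0 t y1 ^ 2 ≤ 81 / 64 := by nlinarith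
      have b2 : 7396 / 10000 ≤ F 0 t y1 ^ 2 := by nlinarith
      have b3 : 1 - y1 ^ 2 = 1 / 16 := by rw [hy1sq]; norm_num
      rw [b3]
      have b4 : c0 * F 0 t y1 ^ 2 ≤ 1 / 4 * (81 / 64) :=
        mul_le_mul hc04 b1 (sq_nonneg _) (by norm_num)
      have b5 : 0 ≤ 1 / 16 + c0 * F 0 t y1 ^ 2 := by positivity
      have b6 : vv F t y1 * (1 / 16 + c0 * F 0 t y1 ^ 2) ≤ 13 / 10 * (1 / 16 + 1 / 4 * (81 / 64)) :=
        mul_le_mul a5' (by linarith) b5 (by norm_num)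
      have b7 : (1 - 1 / 4) * (7396 / 10000) ≤ (1 - β) * F 0 t y1 ^ 2 :=
        mul_le_mul (by linarith) b2 (by norm_num) (by linarith)
      norm_num at b6 b7
      linarith)
  -- P > 0 in the cap
  have hPcap : ∀ t ∈ Icc 0 T, ∀ y ∈ Icc y1 1, √β * F 0 t y ≤ PP F t y := by
    intro t ht
    refine cap_P (V := F 0 t) hβ
      (fun y hy => ((S.dP ht (subc hy)).continuousWithinAt).mono subc)
      (fun y hy => S.pos t ht y (subc hy)) (fun y hy => ?_) ?_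
    · have h1 := hX t ht y hy
      have h2 := V_sub_P F t y
      have h3 := hvp t ht y (subc hy)
      have h4 := S.pos t ht y (subc hy)
      have h5 : 0 < vv F t y * (c0 * F 0 t y ^ 2) := by positivity
      nlinarith
    · obtain ⟨h1, h2, h3, h4⟩ := hout t ht
      obtain ⟨a1, a2, a3, a4, a5⟩ := h3 y1 h11
      have a7 : 98 / 100 * (y1 * F 0 t y1) ≤ PP F t y1 := a4
      have a8 : 0 < y1 * F 0 t y1 := mul_pos hy1p (by linarith)
      linarith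
  -- v ≤ M
  have hF1odd : ∀ t ∈ Icc 0 T, ∀ y ∈ I1, F 1 t (-y) = -F 1 t y := fun t ht y hy =>
    odd_of_even (S.dF 0 t ht) (S.even t ht) hy
  have hF2even : ∀ t ∈ Icc 0 T, ∀ y ∈ I1, F 2 t (-y) = F 2 t y := fun t ht y hy =>
    even_of_odd (S.dF 1 t ht) (hF1odd t ht) hy
  have hvM0 : ∀ t ∈ Icc 0 T, ∀ y ∈ Icc (0 : ℝ) 1, vv F t y ≤ M := by
    intro t ht y hy
    rcases le_total y y1 with h | h
    · obtain ⟨a1, a2, a3, a4, a5⟩ := (hout t ht).2.2.1 y ⟨hy.1, h⟩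
      have a5' : vv F t y ≤ 13 / 10 := a5
      linarith
    · have h1 := hX t ht y ⟨h, hy.2⟩
      have h3 := hvp t ht y (sub01 hy)
      have h4 := S.pos t ht y (sub01 hy)
      have h5 := s_nonneg (sub01 hy)
      have h6 : vv F t y * (c0 * F 0 t y ^ 2) < F 0 t y ^ 2 := by
        have : 0 ≤ vv F t y * (1 - y ^ 2) := mul_nonneg h3.le h5
        have : 0 ≤ β * F 0 t y ^ 2 := by positivity
        nlinarith
      have h7 : vv F t y * c0 < 1 := by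
        have h8 : vv F t y * c0 * F 0 t y ^ 2 < 1 * F 0 t y ^ 2 := by linarith
        exact lt_of_mul_lt_mul_right h8 (sq_nonneg _)
      have h9 : vv F t y < 1 / c0 := by rw [lt_div_iff₀ hc0]; exact h7
      linarith
  have hvM : ∀ t ∈ Icc 0 T, ∀ y ∈ I1, vv F t y ≤ M := by
    intro t ht y hy
    rcases le_total 0 y with h | h
    · exact hvM0 t ht y ⟨h, hy.2⟩
    · have h5 := hvM0 t ht (-y) ⟨by linarith, by linarith [hy.1]⟩
      have e : vv F t (-y) = vv F t y := by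
        unfold vv
        rw [S.even t ht y hy, hF1odd t ht y hy]; ring
      rwa [e] at h5
  -- E3
  have hQ : ∀ t ∈ Icc 0 T, ∀ y ∈ I1, -N ≤ Q0 F t y := by
    intro t ht y hy
    have key := maxp (T := T) (C := 4 * M) (G := 0) (M := K0 ^ 4) (by linarith) le_rfl
      (by positivity)
      (fun t y => -Q0 F t y) (fun t y => -Q1 F t y) (fun t y => -Q2 F t y)
      (fun t y => -(F 0 t y ^ 2 * ((1 - y ^ 2) * Q2 F t y - 7 * y * Q1 F t y)
          - (1 - y ^ 2) * (4 * F 0 t y * F 1 t y + J t y) * Q1 F t y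
          + (4 * vv F t y - 8) * Q0 F t y))
      S.cQ.neg
      (fun y hy => by
        have h0 := hK0' 0 (by norm_num) y hy
        have h2 := hK0' 2 (by norm_num) y hy
        unfold Q0
        rw [hF 0 y hy, hF 2 y hy]
        have h3 : |v 0 y ^ 3 * v 2 y| ≤ K0 ^ 3 * K0 := by
          rw [abs_mul, abs_pow]
          exact mul_le_mul (pow_le_pow_left₀ (abs_nonneg _) h0 3) h2 (abs_nonneg _) (by positivity)
        have h4 := (abs_le.1 h3).1
        have h5 : K0 ^ 3 * K0 = K0 ^ 4 := by ring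
        linarith)
      (fun t ht y hy => (S.dQ (Ioc_subset_Icc_self ht) hy).fun_neg)
      (fun t ht y hy => ((S.dQ1 (Ioc_subset_Icc_self ht) (Ioo_subset_Icc_self hy)).hasDerivAt
        (Icc_mem_nhds hy.1 hy.2)).fun_neg)
      (fun t ht y hy => (S.t_Q (Ioc_subset_Icc_self ht) hy).fun_neg)
      (fun t y => F 0 t y ^ 2)
      (fun t y => -7 * y * F 0 t y ^ 2 - (1 - y ^ 2) * (4 * F 0 t y * F 1 t y + J t y))
      (fun t y => 4 * vv F t y - 8) (fun _ _ => 0)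
      (fun t ht y hy => by ring)
      (fun t ht y hy => sq_nonneg _)
      (fun t ht => by nlinarith [sq_nonneg (F 0 t 1)])
      (fun t ht => by nlinarith [sq_nonneg (F 0 t (-1))])
      (fun t ht y hy => by
        have := hvM t (Ioc_subset_Icc_self ht) y hy
        linarith)
      (fun t ht y hy => le_rfl) t ht y hy
    have h1 : (K0 ^ 4 + 0) * Real.exp ((4 * M + 1) * t) ≤ N := by
      rw [hN, add_zero]
      apply mul_le_mul_of_nonneg_left _ (by positivity)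
      apply Real.exp_le_exp.2
      apply mul_le_mul_of_nonneg_left (ht.2.trans hTL) (by linarith)
    linarith
  have hF1le : ∀ t ∈ Icc 0 T, ∀ y ∈ Icc (0 : ℝ) 1, F 1 t y ≤ 0 := fun t ht y hy =>
    ((hout t ht).2.2.2 y hy).1
  -- E4
  have hV1 : ∀ t ∈ Icc 0 T, c ≤ F 0 t 1 := by
    intro t ht
    have h1 := e4 hT S hN0 hbp hF2 hF1le hQ (by rw [← hy1d]; exact hPcap)
      (fun t ht y hy => ((hout t ht).2.2.1 y (by rw [hy1d]; exact hy)).2.2.1) t ht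
    refine le_trans ?_ h1
    rw [hc, hF 0 1 m1]
    apply mul_le_mul_of_nonneg_left _ (hv 1 m1).1.le
    apply Real.exp_le_exp.2
    have h2 : 0 ≤ 2 + 2 * N + N / (2 * √β) := by positivity
    have h3 := mul_le_mul_of_nonneg_left (ht.2.trans hTL) h2
    linarith
  have hVlow0 : ∀ t ∈ Icc 0 T, ∀ y ∈ Icc (0 : ℝ) 1, c ≤ F 0 t y := by
    intro t ht y hy
    have h := out_lin (f := F 0 t) (f' := F 1 t) (a := y) (b := 1) (C := 0)
      (fun z hz => (S.dF 0 t ht z (sub01 ⟨hy.1.trans hz.1, hz.2⟩)).mono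
        (fun x hx => sub01 ⟨hy.1.trans hx.1, hx.2⟩))
      (fun z hz => hF1le t ht z ⟨hy.1.trans hz.1, hz.2⟩) 1 ⟨hy.2, le_rfl⟩
    have h2 := hV1 t ht
    linarith
  -- the bounds on `[0,1]`
  have hB0 : ∀ t ∈ Icc 0 T, ∀ y ∈ Icc (0 : ℝ) 1,
      c ≤ F 0 t y ∧ |F 0 t y| ≤ K1 ∧ |F 1 t y| ≤ K1 ∧ |F 2 t y| ≤ K1 := by
    intro t ht y hy
    have hlow := hVlow0 t ht y hy
    have hpos : 0 < F 0 t y := by linarith
    refine ⟨hlow, ?_, ?_, ?_⟩
    · rw [abs_of_pos hpos]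
      have h1 := ((hout t ht).2.2.2 y hy).2
      have h2 := (hout t ht).2.1
      linarith
    · have h1 := hF1le t ht y hy
      rw [abs_of_nonpos h1]
      have h2 := out_lin (f := F 1 t) (f' := F 2 t) (a := y) (b := 1) (C := 0)
        (fun z hz => (S.dF 1 t ht z (sub01 ⟨hy.1.trans hz.1, hz.2⟩)).mono
          (fun x hx => sub01 ⟨hy.1.trans hx.1, hx.2⟩))
        (fun z hz => hF2 t ht z (sub01 ⟨hy.1.trans hz.1, hz.2⟩)) 1 ⟨hy.2, le_rfl⟩
      have h3 := hvM t ht 1 m1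
      have h4 : vv F t 1 = F 0 t 1 ^ 2 - 2 * F 0 t 1 * F 1 t 1 := by unfold vv; ring
      rw [h4] at h3
      have h5 := hV1 t ht
      have h6 := hF1le t ht 1 ⟨by norm_num, le_rfl⟩
      have h7 : -F 1 t 1 * (2 * c) ≤ M := by
        have : c * (-F 1 t 1) ≤ F 0 t 1 * (-F 1 t 1) := mul_le_mul_of_nonneg_right h5 (by linarith)
        nlinarith [sq_nonneg (F 0 t 1)]
      have h8 : -F 1 t 1 ≤ M / (2 * c) := by rw [le_div_iff₀ (by positivity)]; exact h7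
      linarith
    · have h1 := hF2 t ht y (sub01 hy)
      rw [abs_of_nonpos h1]
      have h2 := hQ t ht y (sub01 hy)
      unfold Q0 at h2
      have h3 : c ^ 3 ≤ F 0 t y ^ 3 := pow_le_pow_left₀ hcp.le hlow 3
      have h4 : -F 2 t y * c ^ 3 ≤ N := by
        have := mul_le_mul_of_nonneg_left h3 (by linarith : 0 ≤ -F 2 t y)
        nlinarith
      have h5 : -F 2 t y ≤ N / c ^ 3 := by rw [le_div_iff₀ (by positivity)]; exact h4
      linarith
  have hB1 : ∀ t ∈ Icc 0 T, ∀ y ∈ I1,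
      c ≤ F 0 t y ∧ |F 0 t y| ≤ K1 ∧ |F 1 t y| ≤ K1 ∧ |F 2 t y| ≤ K1 := by
    intro t ht y hy
    rcases le_total 0 y with h | h
    · exact hB0 t ht y ⟨h, hy.2⟩
    · have h5 := hB0 t ht (-y) ⟨by linarith, by linarith [hy.1]⟩
      rw [S.even t ht y hy, hF1odd t ht y hy, hF2even t ht y hy, abs_neg] at h5
      exact h5
  have hB2 := hK' T F G J hT hTL S hB1 (fun j hj y hy => by
    rw [hF j y hy]; exact (hK0' j hj y hy).trans k1)
  intro t ht y hy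
  obtain ⟨a1, a2, a3, a4⟩ := hB1 t ht y hy
  obtain ⟨a5, a6⟩ := hB2 t ht y hy
  refine ⟨a1, fun j hj => ?_⟩
  have m1 : K1 ≤ max K1 K' := le_max_left _ _
  have m2 : K' ≤ max K1 K' := le_max_right _ _
  interval_cases j
  · exact a2.trans m1
  · exact a3.trans m1
  · exact a4.trans m1
  · exact a5.trans m2
  · exact a6.trans m2

end Pool.Agent.RFq
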