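import Pool.Agent.RFq.Alg

/-! MP_ae1fc5_gt, Q1: a priori estimates, part 1: `v > 0`, `V_yy ≤ 0`, the bounds of `H` and `X`
(helper75) -/

open Set

noncomputable section

namespace Pool.Agent.RFq

open Pool.Agent.MP_ae1fc5_gt

theorem zero_I1 : (0 : ℝ) ∈ I1 := by constructor <;> norm_num

theorem s_nonneg {y : ℝ} (hy : y ∈ I1) : 0 ≤ 1 - y ^ 2 := by nlinarith [hy.1, hy.2]

theorem s_pos {y : ℝ} (hy : y ∈ Ioo (-1 : ℝ) 1) : 0 < 1 - y ^ 2 := by nlinarith [hy.1, hy.2]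

theorem dW0 {y : ℝ} (hy : y ∈ Ioo (-1 : ℝ) 1) :
    HasDerivAt (fun z : ℝ => √(1 - z ^ 2)) (-2 * y / (2 * √(1 - y ^ 2))) y := by
  have h := (hs_der (J := univ) y).hasDerivAt Filter.univ_mem
  exact h.sqrt (s_pos hy).ne'

theorem dW1 {y : ℝ} (hy : y ∈ Ioo (-1 : ℝ) 1) :
    HasDerivAt (fun z : ℝ => (1 - z ^ 2) * √(1 - z ^ 2)) (-3 * y * √(1 - y ^ 2)) y := by
  have h := (hs_der (J := univ) y).hasDerivAt Filter.univ_mem
  have hr : 0 < √(1 - y ^ 2) := Real.sqrt_pos.2 (s_pos hy)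
  have hr2 : √(1 - y ^ 2) * √(1 - y ^ 2) = 1 - y ^ 2 := Real.mul_self_sqrt (s_pos hy).le
  refine (h.fun_mul (dW0 hy)).congr_deriv ?_
  obtain ⟨r, hrd⟩ : ∃ r, r = √(1 - y ^ 2) := ⟨_, rfl⟩
  rw [← hrd] at hr hr2 ⊢
  have e : (1 - y ^ 2) * (-2 * y / (2 * r)) = -y * r := by rw [← hr2]; field_simp
  rw [e]; ring

theorem dW2 {y : ℝ} (hy : y ∈ Ioo (-1 : ℝ) 1) :
    HasDerivAt (fun z : ℝ => (1 - z ^ 2) ^ 2 * √(1 - z ^ 2))
      (-5 * y * ((1 - y ^ 2) * √(1 - y ^ 2))) y := by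
  have h := (hs_der (J := univ) y).hasDerivAt Filter.univ_mem
  have h2 := h.fun_mul (dW1 hy)
  have h3 := h2.congr_deriv (g' := -5 * y * ((1 - y ^ 2) * √(1 - y ^ 2))) (by ring)
  refine h3.congr_of_eventuallyEq (Filter.Eventually.of_forall fun z => ?_)
  ring

section

variable {T : ℝ} {F G : ℕ → ℝ → ℝ → ℝ} {J : ℝ → ℝ → ℝ} (S : Sol T F G J)

include S

/-- positivity of the tangential curvature -/
theorem Sol.v_pos (h0 : ∀ y ∈ I1, 0 < vv F 0 y) : ∀ t ∈ Icc 0 T, ∀ y ∈ I1, 0 < vv F t y := by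
  intro t ht y hy
  have hT : 0 ≤ T := ht.1.trans ht.2
  have h00 : (0 : ℝ) ∈ Icc 0 T := ⟨le_rfl, hT⟩
  have hc : ContinuousOn (vv F 0) I1 := fun y hy => (S.dv h00 hy).continuousWithinAt
  obtain ⟨ym, hym, hmin⟩ := isCompact_Icc.exists_isMinOn ⟨0, zero_I1⟩ hc
  obtain ⟨m, hm⟩ : ∃ m, m = vv F 0 ym := ⟨_, rfl⟩
  have hm0 : 0 < m := hm ▸ h0 _ hym
  have hmin' : ∀ y ∈ I1, m ≤ vv F 0 y := fun y hy => hm ▸ hmin hy
  have key := touch (T := T) (a := -1) (b := 1) (by norm_num)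
    (fun t y => m / 2 * Real.exp (-5 * t) - vv F t y) (fun t y => -v1 F t y)
    (fun t y => -v2 F t y)
    (fun t y => m / 2 * (Real.exp (-5 * t) * (-5)) - (F 0 t y ^ 2 * ((1 - y ^ 2) * v2 F t y
        - 5 * y * v1 F t y)
        - (1 - y ^ 2) * (2 * F 0 t y * F 1 t y + J t y) * v1 F t y + 2 * vv F t y ^ 2
        + 2 * (vv F t y + F 0 t y * (1 - y ^ 2) * F 2 t y) ^ 2 - 4 * vv F t y))
    ?_ ?_ ?_ ?_ ?_ ?_ t ht y hy
  · have : 0 < m / 2 * Real.exp (-5 * t) := by positivity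
    linarith
  · refine ContinuousOn.sub ?_ S.cv
    exact (by fun_prop : Continuous
      (fun p : ℝ × ℝ => m / 2 * Real.exp (-5 * p.1))).continuousOn
  · intro y hy
    have := hmin' y hy
    simp only [mul_zero, Real.exp_zero, mul_one]
    linarith
  · intro t ht y hy _
    exact (S.dv (Ioc_subset_Icc_self ht) hy).const_sub _
  · intro t ht y hy _
    exact ((S.dv1 (Ioc_subset_Icc_self ht) (Ioo_subset_Icc_self hy)).hasDerivAt
      (Icc_mem_nhds hy.1 hy.2)).fun_neg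
  · intro t ht y hy _
    refine HasDerivWithinAt.fun_sub (HasDerivAt.hasDerivWithinAt ?_)
      (S.t_v (Ioc_subset_Icc_self ht) hy)
    have h := ((hasDerivAt_id t).const_mul (-5)).exp.const_mul (m / 2)
    simpa using h
  · intro t ht y hy _ hz h1 h2 h3 h4
    have hd := drift (a := F 0 t y ^ 2) (k := 5) (r := 2 * F 0 t y * F 1 t y + J t y)
      (f1 := -v1 F t y) (f2 := -v2 F t y) hy (sq_nonneg _) (by norm_num) h1 h2 h3
    have hv : vv F t y = m / 2 * Real.exp (-5 * t) := by linarith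
    have hvp : 0 < vv F t y := by rw [hv]; positivity
    have e : m / 2 * (Real.exp (-5 * t) * (-5)) = -5 * vv F t y := by rw [hv]; ring
    rw [e] at h4
    nlinarith [sq_nonneg (vv F t y), sq_nonneg (vv F t y + F 0 t y * (1 - y ^ 2) * F 2 t y)]

/-- (E1) concavity -/
theorem Sol.E1 (h0 : ∀ y ∈ I1, F 2 0 y ≤ 0) : ∀ t ∈ Icc 0 T, ∀ y ∈ I1, F 2 t y ≤ 0 := by
  intro t ht y hy
  have hT : 0 ≤ T := ht.1.trans ht.2
  have h00 : (0 : ℝ) ∈ Icc 0 T := ⟨le_rfl, hT⟩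
  obtain ⟨Cv, hCv, hCv'⟩ := bdd_rect S.cv
  have key := maxp (T := T) (C := 4 * Cv) (G := 0) (M := 0) (by positivity) le_rfl le_rfl
    (Q0 F) (Q1 F) (Q2 F)
    (fun t y => F 0 t y ^ 2 * ((1 - y ^ 2) * Q2 F t y - 7 * y * Q1 F t y)
        - (1 - y ^ 2) * (4 * F 0 t y * F 1 t y + J t y) * Q1 F t y
        + (4 * vv F t y - 8) * Q0 F t y)
    S.cQ
    (fun y hy => mul_nonpos_of_nonneg_of_nonpos (pow_nonneg (S.pos 0 h00 y hy).le 3) (h0 y hy))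
    (fun t ht y hy => S.dQ (Ioc_subset_Icc_self ht) hy)
    (fun t ht y hy => (S.dQ1 (Ioc_subset_Icc_self ht) (Ioo_subset_Icc_self hy)).hasDerivAt
      (Icc_mem_nhds hy.1 hy.2))
    (fun t ht y hy => S.t_Q (Ioc_subset_Icc_self ht) hy)
    (fun t y => F 0 t y ^ 2)
    (fun t y => -7 * y * F 0 t y ^ 2 - (1 - y ^ 2) * (4 * F 0 t y * F 1 t y + J t y))
    (fun t y => 4 * vv F t y - 8) (fun _ _ => 0)
    (fun t ht y hy => by ring)
    (fun t ht y hy => sq_nonneg _)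
    (fun t ht => by nlinarith [sq_nonneg (F 0 t 1)])
    (fun t ht => by nlinarith [sq_nonneg (F 0 t (-1))])
    (fun t ht y hy => by
      have := (abs_le.1 (hCv' t (Ioc_subset_Icc_self ht) y hy)).2
      linarith)
    (fun t ht y hy => le_rfl) t ht y hy
  have h1 : Q0 F t y ≤ 0 := by simpa using key
  have h2 := S.pos t ht y hy
  by_contra hc
  have : 0 < Q0 F t y := mul_pos (pow_pos h2 3) (not_le.1 hc)
  linarith

/-- the bound of `H` -/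
theorem Sol.Hb {B : ℝ} (hB : 0 < B) (hv : ∀ t ∈ Icc 0 T, ∀ y ∈ I1, 0 < vv F t y)
    (h0 : ∀ y ∈ I1, -(F 2 0 y) * (1 - y ^ 2) ^ 2 * √(1 - y ^ 2) < B * F 0 0 y ^ 2) :
    ∀ t ∈ Icc 0 T, ∀ y ∈ I1,
      -(F 2 t y) * (1 - y ^ 2) ^ 2 * √(1 - y ^ 2) ≤ B * Real.exp (3 * t) * F 0 t y ^ 2 := by
  intro t ht y hy
  have hb : ∀ t, 0 < B * Real.exp (3 * t) := fun t => by positivity
  have hint : ∀ t ∈ Ioc 0 T, ∀ y ∈ Icc (-1 : ℝ) 1,
      -(F 2 t y) * ((1 - y ^ 2) ^ 2 * √(1 - y ^ 2)) - B * Real.exp (3 * t) * F 0 t y ^ 2 = 0 →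
      y ∈ Ioo (-1 : ℝ) 1 := by
    intro t ht y hy hz
    have hp := S.pos t (Ioc_subset_Icc_self ht) y hy
    refine ⟨lt_of_le_of_ne hy.1 ?_, lt_of_le_of_ne hy.2 ?_⟩
    · rintro rfl
      norm_num at hz
      exact hz.elim (fun h => hB.ne' h) (fun h => hp.ne' h)
    · rintro rfl
      norm_num at hz
      exact hz.elim (fun h => hB.ne' h) (fun h => hp.ne' h)
  have d1 : ∀ t ∈ Ioc 0 T, ∀ y ∈ Ioo (-1 : ℝ) 1, HasDerivAt
      (fun y => -(F 2 t y) * ((1 - y ^ 2) ^ 2 * √(1 - y ^ 2)) - B * Real.exp (3 * t) * F 0 t y ^ 2)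
      (-F 3 t y * ((1 - y ^ 2) ^ 2 * √(1 - y ^ 2)) + 5 * (y * (F 2 t y * ((1 - y ^ 2) *
        √(1 - y ^ 2)))) - 2 * (B * Real.exp (3 * t)) * (F 0 t y * F 1 t y)) y := by
    intro t ht y hy
    have ht' := Ioc_subset_Icc_self ht
    have hy' := Ioo_subset_Icc_self hy
    have n := Icc_mem_nhds hy.1 hy.2
    have f0 := (S.dF 0 t ht' y hy').hasDerivAt n
    have f2 := (S.dF 2 t ht' y hy').hasDerivAt n
    refine ((f2.fun_neg.fun_mul (dW2 hy)).fun_sub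
      ((f0.fun_pow 2).const_mul (B * Real.exp (3 * t)))).congr_deriv ?_
    simp only [Nat.cast_ofNat]
    ring
  have d2 : ∀ t ∈ Ioc 0 T, ∀ y ∈ Ioo (-1 : ℝ) 1, HasDerivAt
      (fun y => -F 3 t y * ((1 - y ^ 2) ^ 2 * √(1 - y ^ 2)) + 5 * (y * (F 2 t y * ((1 - y ^ 2) *
        √(1 - y ^ 2)))) - 2 * (B * Real.exp (3 * t)) * (F 0 t y * F 1 t y))
      (-F 4 t y * (1 - y ^ 2) ^ 2 * √(1 - y ^ 2) + 10 * y * F 3 t y * (1 - y ^ 2) * √(1 - y ^ 2)
        + 5 * F 2 t y * (1 - y ^ 2) * √(1 - y ^ 2) - 15 * y ^ 2 * F 2 t y * √(1 - y ^ 2)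
        - 2 * (B * Real.exp (3 * t)) * (F 1 t y ^ 2 + F 0 t y * F 2 t y)) y := by
    intro t ht y hy
    have ht' := Ioc_subset_Icc_self ht
    have hy' := Ioo_subset_Icc_self hy
    have n := Icc_mem_nhds hy.1 hy.2
    have f0 := (S.dF 0 t ht' y hy').hasDerivAt n
    have f1 := (S.dF 1 t ht' y hy').hasDerivAt n
    have f2 := (S.dF 2 t ht' y hy').hasDerivAt n
    have f3 := (S.dF 3 t ht' y hy').hasDerivAt n
    refine (((f3.fun_neg.fun_mul (dW2 hy)).fun_add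
      (((hasDerivAt_id' y).fun_mul (f2.fun_mul (dW1 hy))).const_mul 5)).fun_sub
      ((f0.fun_mul f1).const_mul (2 * (B * Real.exp (3 * t))))).congr_deriv ?_
    ring
  have key := touch (T := T) (a := -1) (b := 1) (by norm_num)
    (fun t y => -(F 2 t y) * ((1 - y ^ 2) ^ 2 * √(1 - y ^ 2)) - B * Real.exp (3 * t) * F 0 t y ^ 2)
    (fun t y => -F 3 t y * ((1 - y ^ 2) ^ 2 * √(1 - y ^ 2)) + 5 * (y * (F 2 t y * ((1 - y ^ 2) *
        √(1 - y ^ 2)))) - 2 * (B * Real.exp (3 * t)) * (F 0 t y * F 1 t y))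
    (fun t y => -F 4 t y * (1 - y ^ 2) ^ 2 * √(1 - y ^ 2)
        + 10 * y * F 3 t y * (1 - y ^ 2) * √(1 - y ^ 2)
        + 5 * F 2 t y * (1 - y ^ 2) * √(1 - y ^ 2) - 15 * y ^ 2 * F 2 t y * √(1 - y ^ 2)
        - 2 * (B * Real.exp (3 * t)) * (F 1 t y ^ 2 + F 0 t y * F 2 t y))
    (fun t y => -G 2 t y * (1 - y ^ 2) ^ 2 * √(1 - y ^ 2)
      - 3 * (B * Real.exp (3 * t)) * F 0 t y ^ 2
      - 2 * (B * Real.exp (3 * t)) * (F 0 t y * G 0 t y))
    ?_ ?_ ?_ ?_ ?_ ?_ t ht y hy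
  · linarith
  · have c0 := S.cF 0
    have c2 := S.cF 2
    fun_prop
  · intro y hy
    have := h0 y hy
    simp only [mul_zero, Real.exp_zero, mul_one]
    linarith
  · intro t ht y hy h
    have hy' : y ∈ Ioo (-1 : ℝ) 1 := h.elim id (fun h => hint t ht y hy h)
    exact (d1 t ht y hy').hasDerivWithinAt
  · intro t ht y hy _
    exact d2 t ht y hy
  · intro t ht y hy _
    have ht' := Ioc_subset_Icc_self ht
    have g0 := S.dt 0 t ht' y hy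
    have g2 := S.dt 2 t ht' y hy
    have ge : HasDerivWithinAt (fun s => B * Real.exp (3 * s)) (3 * (B * Real.exp (3 * t)))
        (Icc 0 T) t := by
      have h := ((hasDerivAt_id t).const_mul 3).exp.const_mul B
      refine (HasDerivAt.congr_deriv (by simpa using h) ?_).hasDerivWithinAt
      ring
    refine ((g2.fun_neg.mul_const _).fun_sub (ge.fun_mul (g0.fun_pow 2))).congr_deriv ?_
    simp only [Nat.cast_ofNat]
    ring
  · intro t ht y hy _ hz h1 h2 h3 h4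
    have ht' := Ioc_subset_Icc_self ht
    have hy' := hint t ht y hy hz
    have hF1 : -F 3 t y * ((1 - y ^ 2) ^ 2 * √(1 - y ^ 2)) + 5 * (y * (F 2 t y * ((1 - y ^ 2) *
        √(1 - y ^ 2)))) - 2 * (B * Real.exp (3 * t)) * (F 0 t y * F 1 t y) = 0 :=
      le_antisymm (h1 hy'.2) (h2 hy'.1)
    have key := alg_H (F 0 t y) (F 1 t y) (F 2 t y) (F 3 t y) (F 4 t y) (J t y) y
      (B * Real.exp (3 * t)) (√(1 - y ^ 2)) (hb t) (S.pos t ht' y hy) (s_nonneg hy)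
      (hv t ht' y hy) (by linarith) (by linarith) (h3 hy'.1 hy'.2)
    rw [← S.G2 ht' hy, ← S.G0 t ht' y hy] at key
    linarith

/-- the bound of `X` in the cap -/
theorem Sol.Xb {c0 β y1 : ℝ} (hc0 : 0 < c0) (hβ : 0 < β) (hy1 : -1 < y1) (hy1' : y1 < 1)
    (hv : ∀ t ∈ Icc 0 T, ∀ y ∈ I1, 0 < vv F t y)
    (h0 : ∀ y ∈ Icc y1 1, vv F 0 y * (1 - y ^ 2 + c0 * F 0 0 y ^ 2) < (1 - β) * F 0 0 y ^ 2)
    (hlat : ∀ t ∈ Icc 0 T,
      vv F t y1 * (1 - y1 ^ 2 + c0 * F 0 t y1 ^ 2) < (1 - β) * F 0 t y1 ^ 2) :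
    ∀ t ∈ Icc 0 T, ∀ y ∈ Icc y1 1,
      vv F t y * (1 - y ^ 2 + c0 * F 0 t y ^ 2) < (1 - β) * F 0 t y ^ 2 := by
  intro t ht y hy
  have sub : Icc y1 1 ⊆ I1 := Icc_subset_Icc_left hy1.le
  have d1 : ∀ t ∈ Icc 0 T, ∀ y ∈ I1, HasDerivWithinAt
      (fun y => vv F t y * (1 - y ^ 2 + c0 * F 0 t y ^ 2) - (1 - β) * F 0 t y ^ 2)
      (v1 F t y * (1 - y ^ 2 + c0 * F 0 t y ^ 2)
        + vv F t y * (-2 * y + 2 * c0 * (F 0 t y * F 1 t y))
        - 2 * (1 - β) * (F 0 t y * F 1 t y)) I1 y := by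
    intro t ht y hy
    have f0 := S.dF 0 t ht y hy
    have hs := hs_der (J := I1) y
    refine (((S.dv ht hy).fun_mul (hs.fun_add ((f0.fun_pow 2).const_mul c0))).fun_sub
      ((f0.fun_pow 2).const_mul (1 - β))).congr_deriv ?_
    simp only [Nat.cast_ofNat]
    ring
  have d2 : ∀ t ∈ Icc 0 T, ∀ y ∈ I1, HasDerivWithinAt
      (fun y => v1 F t y * (1 - y ^ 2 + c0 * F 0 t y ^ 2)
        + vv F t y * (-2 * y + 2 * c0 * (F 0 t y * F 1 t y))
        - 2 * (1 - β) * (F 0 t y * F 1 t y))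
      (v2 F t y * (1 - y ^ 2 + c0 * F 0 t y ^ 2)
        + 2 * v1 F t y * (-2 * y + 2 * c0 * (F 0 t y * F 1 t y))
        + vv F t y * (-2 + 2 * c0 * (F 1 t y ^ 2 + F 0 t y * F 2 t y))
        - 2 * (1 - β) * (F 1 t y ^ 2 + F 0 t y * F 2 t y)) I1 y := by
    intro t ht y hy
    have f0 := S.dF 0 t ht y hy
    have f1 := S.dF 1 t ht y hy
    have hs := hs_der (J := I1) y
    have hid := (hasDerivAt_id' y).hasDerivWithinAt (s := I1)
    refine ((((S.dv1 ht hy).fun_mul (hs.fun_add ((f0.fun_pow 2).const_mul c0))).fun_add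
      ((S.dv ht hy).fun_mul ((hid.const_mul (-2)).fun_add
        ((f0.fun_mul f1).const_mul (2 * c0))))).fun_sub
      ((f0.fun_mul f1).const_mul (2 * (1 - β)))).congr_deriv ?_
    simp only [Nat.cast_ofNat]
    ring
  have key := touch (T := T) (a := y1) (b := 1) hy1'
    (fun t y => vv F t y * (1 - y ^ 2 + c0 * F 0 t y ^ 2) - (1 - β) * F 0 t y ^ 2)
    (fun t y => v1 F t y * (1 - y ^ 2 + c0 * F 0 t y ^ 2)
        + vv F t y * (-2 * y + 2 * c0 * (F 0 t y * F 1 t y))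
        - 2 * (1 - β) * (F 0 t y * F 1 t y))
    (fun t y => v2 F t y * (1 - y ^ 2 + c0 * F 0 t y ^ 2)
        + 2 * v1 F t y * (-2 * y + 2 * c0 * (F 0 t y * F 1 t y))
        + vv F t y * (-2 + 2 * c0 * (F 1 t y ^ 2 + F 0 t y * F 2 t y))
        - 2 * (1 - β) * (F 1 t y ^ 2 + F 0 t y * F 2 t y))
    (fun t y => (F 0 t y ^ 2 * ((1 - y ^ 2) * v2 F t y - 5 * y * v1 F t y)
        - (1 - y ^ 2) * (2 * F 0 t y * F 1 t y + J t y) * v1 F t y + 2 * vv F t y ^ 2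
        + 2 * (vv F t y + F 0 t y * (1 - y ^ 2) * F 2 t y) ^ 2 - 4 * vv F t y)
        * (1 - y ^ 2 + c0 * F 0 t y ^ 2)
      + vv F t y * (2 * c0 * (F 0 t y * G 0 t y)) - 2 * (1 - β) * (F 0 t y * G 0 t y))
    ?_ ?_ ?_ ?_ ?_ ?_ t ht y hy
  · linarith
  · have c0 := (S.cF 0).mono (prod_mono_right (s := Icc 0 T) sub)
    have cv := S.cv.mono (prod_mono_right (s := Icc 0 T) sub)
    fun_prop
  · intro y hy
    have := h0 y hy
    linarith
  · intro t ht y hy _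
    exact (d1 t (Ioc_subset_Icc_self ht) y (sub hy)).mono sub
  · intro t ht y hy _
    have n := Icc_mem_nhds (hy1.trans hy.1) hy.2
    exact (d2 t (Ioc_subset_Icc_self ht) y (sub (Ioo_subset_Icc_self hy))).hasDerivAt n
  · intro t ht y hy _
    have ht' := Ioc_subset_Icc_self ht
    have g0 := S.dt 0 t ht' y (sub hy)
    refine (((S.t_v ht' (sub hy)).fun_mul (((g0.fun_pow 2).const_mul c0).const_add
      (1 - y ^ 2))).fun_sub ((g0.fun_pow 2).const_mul (1 - β))).congr_deriv ?_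
    simp only [Nat.cast_ofNat]
    ring
  · intro t ht y hy _ hz h1 h2 h3 h4
    have ht' := Ioc_subset_Icc_self ht
    have hVp := S.pos t ht' y (sub hy)
    rcases hy.1.eq_or_lt with h | h
    · subst h
      have := hlat t ht'
      linarith
    rcases hy.2.eq_or_lt with h' | h'
    · subst h'
      have k := alg_X1 (F 0 t 1) (F 1 t 1) (F 2 t 1) (J t 1) c0 β (vv F t 1) (v1 F t 1) (v2 F t 1)
        hVp hc0 hβ (hv t ht' 1 (sub hy)) hz (h2 h)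
      rw [← S.G0 t ht' 1 (sub hy)] at k
      linarith
    · have hs : 0 < 1 - y ^ 2 := s_pos ⟨hy1.trans h, h'⟩
      have k := alg_X (F 0 t y) (F 1 t y) (F 2 t y) (J t y) y c0 β (vv F t y) (v1 F t y) (v2 F t y)
        hVp hc0 hβ hs rfl (hv t ht' y (sub hy)) rfl hz (le_antisymm (h1 h') (h2 h)) (h3 h h')
      rw [← S.G0 t ht' y (sub hy)] at k
      linarith

end

end Pool.Agent.RFq
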