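import Pool.Agent.RFq.Gauge1
import Pool.Agent.MP_ae1fc5_gt.FlowOfRot

/-!
# MP_ae1fc5_gt, R17: from a solution on the closed interval to a Ricci flow on the sphere
-/

open scoped Quaternion ContDiff Matrix
open Set

noncomputable section

namespace Pool.Agent.RFq

open Pool.Agent.MP_ae1fc5_gt

theorem re_div_mem1 (x : ℍ[ℝ]) (hx : x ≠ 0) : x.re / ‖x‖ ∈ I1 := by
  have hx' : 0 < ‖x‖ := norm_pos_iff.mpr hx
  have hre : |x.re| ≤ ‖x‖ := by
    have h1 : x.re ^ 2 ≤ ‖x‖ ^ 2 := by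
      rw [sq ‖x‖, ← Quaternion.normSq_eq_norm_mul_self, Quaternion.normSq_def']
      nlinarith [sq_nonneg x.imI, sq_nonneg x.imJ, sq_nonneg x.imK]
    exact abs_le_of_sq_le_sq h1 hx'.le
  rw [show I1 = Icc (-1 : ℝ) 1 from rfl, mem_Icc, ← abs_le, abs_div, abs_of_pos hx']
  exact (div_le_one hx').mpr hre

/-- From a solution in the conformal gauge on the closed interval to a Ricci flow on the
sphere. -/
theorem exists_flow1 (Λ : ℝ) (hΛ : 0 < Λ) (V : ℝ → ℝ → ℝ) (hV : IsSol1 Λ V) :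
    ∃ G : ℝ → Field, IsRicciFlow G ((1 - Real.exp (-4 * Λ)) / 4) ∧
      ∀ x, x ≠ 0 → G 0 x = rot (fun y => (V 0 y)⁻¹ ^ 2) (fun _ => 0) x := by
  obtain ⟨al, be, h1, h2, h3, h4, h5, h6⟩ := exists_rot_flow1 Λ hΛ V hV
  obtain ⟨G, hG, hG0⟩ := flow_of_rot Λ hΛ al be h1 h2 h3 h5 h6
  refine ⟨G, hG, fun x hx => ?_⟩
  have hmem := re_div_mem1 x hx
  rw [hG0]
  funext i j
  simp only [rot]
  rw [(h4 _ hmem).1, (h4 _ hmem).2]

end Pool.Agent.RFq
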