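import Pool.Agent.RFq.GHDefs

/-!
# MP_ae1fc5_gt, Q1, section 6: lower bound of the Gromov-Hausdorff distance
-/

set_option autoImplicit false

open scoped Quaternion ContDiff Matrix ENNReal
open Set

noncomputable section

namespace Pool.Agent.MP_ae1fc5_gt

namespace GH

/-! ### The frame -/

theorem inner_quat (a b : ℍ[ℝ]) :
    inner ℝ a b = a.re * b.re + a.imI * b.imI + a.imJ * b.imJ + a.imK * b.imK := by
  rw [Quaternion.inner_def]
  simp

theorem norm_sq_quat (x : ℍ[ℝ]) : x.re ^ 2 + x.imI ^ 2 + x.imJ ^ 2 + x.imK ^ 2 = ‖x‖ ^ 2 :=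
  (RotMetric.norm_sq x).symm

/-- The squares of the components with respect to the orthonormal basis `x, x i, x j, x k`. -/
theorem sum_sq_frame (x w : ℍ[ℝ]) (hx : ‖x‖ = 1) :
    ∑ i, (inner ℝ (x * im i) w) ^ 2 = ‖w‖ ^ 2 - (inner ℝ x w) ^ 2 := by
  have h1 := norm_sq_quat x
  rw [hx] at h1
  have h2 := norm_sq_quat w
  have key : ∑ i, (inner ℝ (x * im i) w) ^ 2 =
      (x.re ^ 2 + x.imI ^ 2 + x.imJ ^ 2 + x.imK ^ 2) *
        (w.re ^ 2 + w.imI ^ 2 + w.imJ ^ 2 + w.imK ^ 2) - (inner ℝ x w) ^ 2 := by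
    simp only [inner_quat, Fin.sum_univ_three, im, Matrix.cons_val, Quaternion.re_mul, Quaternion.imI_mul, Quaternion.imJ_mul,
      Quaternion.imK_mul]
    ring
  rw [key, h1, h2]
  ring

/-- The squared norm of the gradient of the real part is `1 - (Re x)^2`. -/
theorem re_sq_le (x w : ℍ[ℝ]) (hx : ‖x‖ = 1) (hxw : inner ℝ x w = 0) :
    w.re ^ 2 ≤ (1 - x.re ^ 2) * ‖w‖ ^ 2 := by
  have h1 := norm_sq_quat x
  rw [hx] at h1
  have h2 := norm_sq_quat w
  rw [inner_quat] at hxw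
  rw [← h2]
  have e : w.re = (1 - x.re ^ 2) * w.re - x.re * x.imI * w.imI - x.re * x.imJ * w.imJ
      - x.re * x.imK * w.imK := by
    linear_combination x.re * hxw
  have e2 : 1 - x.re ^ 2 = (1 - x.re ^ 2) ^ 2 + (x.re * x.imI) ^ 2 + (x.re * x.imJ) ^ 2 +
      (x.re * x.imK) ^ 2 := by
    linear_combination -(x.re ^ 2) * h1
  have cs : ∀ a b c d a' b' c' d' : ℝ, (a * a' - b * b' - c * c' - d * d') ^ 2 ≤
      (a ^ 2 + b ^ 2 + c ^ 2 + d ^ 2) * (a' ^ 2 + b' ^ 2 + c' ^ 2 + d' ^ 2) := by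
    intro a b c d a' b' c' d'
    nlinarith [sq_nonneg (a * b' + b * a'), sq_nonneg (a * c' + c * a'), sq_nonneg (a * d' + d * a'),
      sq_nonneg (b * c' - c * b'), sq_nonneg (b * d' - d * b'), sq_nonneg (c * d' - d * c')]
  have := cs (1 - x.re ^ 2) (x.re * x.imI) (x.re * x.imJ) (x.re * x.imK) w.re w.imI w.imJ w.imK
  rw [← e, ← e2] at this
  exact this

theorem norm_im (i : Fin 3) : ‖im i‖ = 1 := by
  have h := norm_sq_quat (im i)
  have h2 : ‖im i‖ ^ 2 = 1 := by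
    rw [← h]
    fin_cases i <;> simp [im]
  have h3 : 0 ≤ ‖im i‖ := norm_nonneg _
  nlinarith

/-! ### Paths -/

theorem hasDeriv {γ : ℝ → ℍ[ℝ]} {p q : ℍ[ℝ]} (h : IsPath γ p q) (t : ℝ) (ht : t ∈ Icc (0 : ℝ) 1) :
    HasDerivWithinAt γ (derivWithin γ (Icc 0 1) t) (Icc 0 1) t :=
  ((h.contDiff.differentiableOn (by norm_num)) t ht).hasDerivWithinAt

theorem orth {γ : ℝ → ℍ[ℝ]} {p q : ℍ[ℝ]} (h : IsPath γ p q) (t : ℝ) (ht : t ∈ Icc (0 : ℝ) 1) :
    inner ℝ (γ t) (derivWithin γ (Icc 0 1) t) = 0 := by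
  have h1 := hasDeriv h t ht
  have h2 := h1.inner ℝ h1
  have h3 : HasDerivWithinAt (fun s => inner ℝ (γ s) (γ s)) 0 (Icc 0 1) t := by
    refine (hasDerivWithinAt_const t (Icc (0 : ℝ) 1) (1 : ℝ)).congr (fun s hs => ?_) ?_
    · rw [real_inner_self_eq_norm_sq, h.norm_eq s hs]; norm_num
    · rw [real_inner_self_eq_norm_sq, h.norm_eq t ht]; norm_num
  have h4 := (uniqueDiffOn_Icc (by norm_num : (0 : ℝ) < 1) t ht).eq_deriv _ h2 h3
  rw [real_inner_comm (γ t)] at h4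
  have h5 : inner ℝ (γ t) (derivWithin γ (Icc 0 1) t) =
    inner ℝ (derivWithin γ (Icc 0 1) t) (γ t) := real_inner_comm _ _
  linarith

theorem vel_sq {γ : ℝ → ℍ[ℝ]} {p q : ℍ[ℝ]} (h : IsPath γ p q) (t : ℝ) (ht : t ∈ Icc (0 : ℝ) 1) :
    ∑ i, vel γ t i ^ 2 = ‖derivWithin γ (Icc 0 1) t‖ ^ 2 := by
  unfold vel
  rw [sum_sq_frame _ _ (h.norm_eq t ht), orth h t ht]
  ring

theorem vel_cont {γ : ℝ → ℍ[ℝ]} {p q : ℍ[ℝ]} (h : IsPath γ p q) (i : Fin 3) :
    ContinuousOn (fun t => vel γ t i) (Icc 0 1) := by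
  unfold vel
  have h1 : ContinuousOn γ (Icc 0 1) := h.contDiff.continuousOn
  have h2 : ContinuousOn (derivWithin γ (Icc 0 1)) (Icc 0 1) :=
    h.contDiff.continuousOn_derivWithin (uniqueDiffOn_Icc (by norm_num)) (by norm_num)
  exact (h1.mul continuousOn_const).inner h2

/-- The metric is `v^(-2) g_round`. -/
theorem speed_conf (v : ℝ → ℝ) (pos : ∀ y ∈ I1, 0 < v y) {γ : ℝ → ℍ[ℝ]} {p q : ℍ[ℝ]}
    (h : IsPath γ p q) (t : ℝ) (ht : t ∈ Icc (0 : ℝ) 1) :
    speed (rot (fun y => (v y)⁻¹ ^ 2) (fun _ => 0)) γ t =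
      (v (γ t).re)⁻¹ * ‖derivWithin γ (Icc 0 1) t‖ := by
  have hn := h.norm_eq t ht
  have h0 : γ t ≠ 0 := by
    intro h1
    rw [h1, norm_zero] at hn
    exact zero_ne_one hn
  have hm := RotMetric.eta_mem (γ t)
  unfold RotMetric.eta at hm
  rw [hn, div_one] at hm
  have hp := pos _ hm
  have hs := vel_sq h t ht
  have e : ∑ i, ∑ j, rot (fun y => (v y)⁻¹ ^ 2) (fun _ => 0) (γ t) i j * vel γ t i * vel γ t j =
      ((v (γ t).re)⁻¹ * ‖derivWithin γ (Icc 0 1) t‖) ^ 2 := by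
    rw [mul_pow, ← hs]
    simp only [rot, hn, div_one, Fin.sum_univ_three]
    simp
    ring
  unfold speed
  rw [e, Real.sqrt_sq (by positivity)]

/-! ### Great circles -/

theorem exists_circle (p q : ℍ[ℝ]) (hp : ‖p‖ = 1) (hq : ‖q‖ = 1) :
    ∃ (θ : ℝ) (u : ℍ[ℝ]), 0 ≤ θ ∧ θ ≤ Real.pi ∧ ‖u‖ = 1 ∧ inner ℝ p u = 0 ∧
      q = Real.cos θ • p + Real.sin θ • u := by
  obtain ⟨c, hc⟩ : ∃ c : ℝ, c = inner ℝ p q := ⟨_, rfl⟩
  have hc1 : |c| ≤ 1 := by
    have := abs_real_inner_le_norm p q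
    rw [hp, hq, ← hc] at this
    simpa using this
  have hc2 : c ^ 2 ≤ 1 := by
    have := sq_abs c
    nlinarith [abs_nonneg c]
  have hpp : inner ℝ p p = 1 := by rw [real_inner_self_eq_norm_sq, hp]; norm_num
  have hd : ‖q - c • p‖ ^ 2 = 1 - c ^ 2 := by
    rw [norm_sub_sq_real, hq, norm_smul, hp, real_inner_smul_right, real_inner_comm, ← hc,
      Real.norm_eq_abs, mul_one, sq_abs]
    ring
  have ho : inner ℝ p (q - c • p) = 0 := by
    rw [inner_sub_right, real_inner_smul_right, hpp, ← hc]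
    ring
  have hcos : Real.cos (Real.arccos c) = c :=
    Real.cos_arccos (abs_le.1 hc1).1 (abs_le.1 hc1).2
  have hsin : Real.sin (Real.arccos c) = Real.sqrt (1 - c ^ 2) := Real.sin_arccos c
  rcases eq_or_lt_of_le hc2 with h1 | h1
  · refine ⟨Real.arccos c, p * im 0, Real.arccos_nonneg c, Real.arccos_le_pi c, ?_, ?_, ?_⟩
    · rw [norm_mul, hp, norm_im, mul_one]
    · rw [inner_quat, Quaternion.re_mul, Quaternion.imI_mul, Quaternion.imJ_mul, Quaternion.imK_mul]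
      simp only [im, Matrix.cons_val]
      ring
    · rw [hcos, hsin, h1, sub_self, Real.sqrt_zero, zero_smul, add_zero]
      rw [h1, sub_self] at hd
      have := pow_eq_zero_iff (two_ne_zero) |>.1 hd
      rw [norm_eq_zero] at this
      exact sub_eq_zero.1 this
  · have hs : 0 < Real.sqrt (1 - c ^ 2) := Real.sqrt_pos.2 (by linarith)
    have hs2 : Real.sqrt (1 - c ^ 2) ^ 2 = 1 - c ^ 2 := Real.sq_sqrt (by linarith)
    refine ⟨Real.arccos c, (Real.sqrt (1 - c ^ 2))⁻¹ • (q - c • p), Real.arccos_nonneg c,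
      Real.arccos_le_pi c, ?_, ?_, ?_⟩
    · have h2 : ‖(Real.sqrt (1 - c ^ 2))⁻¹ • (q - c • p)‖ ^ 2 = 1 := by
        rw [norm_smul, mul_pow, hd, Real.norm_eq_abs, sq_abs, inv_pow, hs2]
        exact inv_mul_cancel₀ (by linarith)
      have h3 := norm_nonneg ((Real.sqrt (1 - c ^ 2))⁻¹ • (q - c • p))
      nlinarith
    · rw [real_inner_smul_right, ho, mul_zero]
    · rw [hcos, hsin, smul_smul, mul_inv_cancel₀ hs.ne', one_smul]
      abel

/-- The great circle through `p` in the direction `u`. -/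
def circ (θ : ℝ) (p u : ℍ[ℝ]) (t : ℝ) : ℍ[ℝ] := Real.cos (θ * t) • p + Real.sin (θ * t) • u

theorem norm_comb (p u : ℍ[ℝ]) (hp : ‖p‖ = 1) (hu : ‖u‖ = 1) (ho : inner ℝ p u = 0) (a b : ℝ) :
    ‖a • p + b • u‖ ^ 2 = a ^ 2 + b ^ 2 := by
  rw [norm_add_sq_real, norm_smul, norm_smul, hp, hu, real_inner_smul_left, real_inner_smul_right,
    ho, Real.norm_eq_abs, Real.norm_eq_abs, mul_one, mul_one, sq_abs, sq_abs]
  ring

theorem circ_deriv (θ : ℝ) (p u : ℍ[ℝ]) (t : ℝ) :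
    HasDerivAt (circ θ p u) ((-Real.sin (θ * t) * θ) • p + (Real.cos (θ * t) * θ) • u) t := by
  have h0 : HasDerivAt (fun t : ℝ => θ * t) θ t := by
    simpa using (hasDerivAt_id t).const_mul θ
  have h1 : HasDerivAt (fun t : ℝ => Real.cos (θ * t)) (-Real.sin (θ * t) * θ) t := h0.cos
  have h2 : HasDerivAt (fun t : ℝ => Real.sin (θ * t)) (Real.cos (θ * t) * θ) t := h0.sin
  exact (h1.smul_const p).add (h2.smul_const u)

theorem circ_path (p q : ℍ[ℝ]) (hp : ‖p‖ = 1) (hq : ‖q‖ = 1) :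
    ∃ γ, IsPath γ p q ∧ ∀ t ∈ Icc (0 : ℝ) 1, ‖derivWithin γ (Icc 0 1) t‖ ≤ Real.pi := by
  obtain ⟨θ, u, h1, h2, h3, h4, h5⟩ := exists_circle p q hp hq
  refine ⟨circ θ p u, ⟨?_, ?_, ?_, ?_⟩, ?_⟩
  · unfold circ
    fun_prop
  · intro t _
    have e := norm_comb p u hp h3 h4 (Real.cos (θ * t)) (Real.sin (θ * t))
    rw [Real.cos_sq_add_sin_sq] at e
    have h6 := norm_nonneg (circ θ p u t)
    have e' : ‖circ θ p u t‖ ^ 2 = 1 := e
    nlinarith
  · simp [circ]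
  · simp [circ, h5]
  · intro t ht
    have hd := (circ_deriv θ p u t).hasDerivWithinAt (s := Icc 0 1)
    rw [hd.derivWithin (uniqueDiffOn_Icc (by norm_num : (0 : ℝ) < 1) t ht)]
    have e := norm_comb p u hp h3 h4 (-Real.sin (θ * t) * θ) (Real.cos (θ * t) * θ)
    have e2 : (-Real.sin (θ * t) * θ) ^ 2 + (Real.cos (θ * t) * θ) ^ 2 = θ ^ 2 := by
      have := Real.sin_sq_add_cos_sq (θ * t)
      linear_combination θ ^ 2 * this
    rw [e2] at e
    exact (pow_le_pow_iff_left₀ (norm_nonneg _) h1 two_ne_zero).1 e.le |>.trans h2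

/-! ### Lengths and distances -/

theorem len_nonneg (g : Field) (γ : ℝ → ℍ[ℝ]) : 0 ≤ len g γ :=
  intervalIntegral.integral_nonneg (by norm_num) fun _ _ => Real.sqrt_nonneg _

theorem rdist_le (g : Field) {γ : ℝ → ℍ[ℝ]} {p q : ℍ[ℝ]} (h : IsPath γ p q) :
    rdist g p q ≤ len g γ :=
  csInf_le ⟨0, by rintro _ ⟨γ, _, rfl⟩; exact len_nonneg g γ⟩ ⟨γ, h, rfl⟩

theorem rdist_nonneg (g : Field) (p q : ℍ[ℝ]) : 0 ≤ rdist g p q :=
  Real.sInf_nonneg (by rintro _ ⟨γ, _, rfl⟩; exact len_nonneg g γ)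

theorem round_eq : roundMetric = rot (fun y => ((fun _ : ℝ => (1 : ℝ)) y)⁻¹ ^ 2) (fun _ => 0) := by
  unfold roundMetric
  simp

/-- The diameter of the round sphere is at most `π`. -/
theorem rdist_round_le (p q : ℍ[ℝ]) (hp : ‖p‖ = 1) (hq : ‖q‖ = 1) :
    rdist roundMetric p q ≤ Real.pi := by
  obtain ⟨γ, h1, h2⟩ := circ_path p q hp hq
  refine (rdist_le _ h1).trans ?_
  have h3 : ‖len roundMetric γ‖ ≤ Real.pi * |1 - 0| := by
    refine intervalIntegral.norm_integral_le_of_norm_le_const fun t ht => ?_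
    have ht' : t ∈ Icc (0 : ℝ) 1 := by
      rw [uIoc_of_le zero_le_one] at ht
      exact ⟨ht.1.le, ht.2⟩
    rw [round_eq, speed_conf _ (fun _ _ => one_pos) h1 t ht', inv_one, one_mul, norm_norm]
    exact h2 t ht'
  rw [sub_zero, abs_one, mul_one] at h3
  exact (le_abs_self _).trans h3

theorem re_mem {γ : ℝ → ℍ[ℝ]} {p q : ℍ[ℝ]} (h : IsPath γ p q) (t : ℝ) (ht : t ∈ Icc (0 : ℝ) 1) :
    (γ t).re ∈ I1 := by
  have hm := RotMetric.eta_mem (γ t)
  unfold RotMetric.eta at hm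
  rwa [h.norm_eq t ht, div_one] at hm

theorem speed_cont (v : ℝ → ℝ) (hv : ContinuousOn v I1) (pos : ∀ y ∈ I1, 0 < v y)
    {γ : ℝ → ℍ[ℝ]} {p q : ℍ[ℝ]} (h : IsPath γ p q) :
    ContinuousOn (speed (rot (fun y => (v y)⁻¹ ^ 2) (fun _ => 0)) γ) (Icc 0 1) := by
  have h1 : ContinuousOn γ (Icc 0 1) := h.contDiff.continuousOn
  have h2 : ContinuousOn (derivWithin γ (Icc 0 1)) (Icc 0 1) :=
    h.contDiff.continuousOn_derivWithin (uniqueDiffOn_Icc (by norm_num)) (by norm_num)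
  have h3 : ContinuousOn (fun t => (γ t).re) (Icc 0 1) :=
    Quaternion.continuous_re.comp_continuousOn h1
  have h4 : ContinuousOn (fun t => v (γ t).re) (Icc 0 1) := hv.comp h3 fun t ht => re_mem h t ht
  refine ContinuousOn.congr ((h4.inv₀ fun t ht => (pos _ (re_mem h t ht)).ne').mul h2.norm) ?_
  intro t ht
  exact speed_conf v pos h t ht

/-- A function `F` of the real part with gradient at most one in the metric `v^(-2) g_round`. -/
theorem len_ge (v F : ℝ → ℝ) (hv : ContinuousOn v I1) (pos : ∀ y ∈ I1, 0 < v y)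
    (hF : ContDiff ℝ 1 F) (hF1 : ∀ y ∈ I1, v y ^ 2 * (1 - y ^ 2) * deriv F y ^ 2 ≤ 1)
    {γ : ℝ → ℍ[ℝ]} {p q : ℍ[ℝ]} (h : IsPath γ p q) :
    F p.re - F q.re ≤ len (rot (fun y => (v y)⁻¹ ^ 2) (fun _ => 0)) γ := by
  obtain ⟨sp, hsp⟩ : ∃ sp, sp = speed (rot (fun y => (v y)⁻¹ ^ 2) (fun _ => 0)) γ := ⟨_, rfl⟩
  have hc : ContinuousOn sp (Icc 0 1) := hsp ▸ speed_cont v hv pos h
  have hint : IntervalIntegrable sp MeasureTheory.volume 0 1 := by
    apply ContinuousOn.intervalIntegrable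
    rwa [uIcc_of_le zero_le_one]
  have hre : ContinuousOn (fun t => (γ t).re) (Icc 0 1) :=
    Quaternion.continuous_re.comp_continuousOn h.contDiff.continuousOn
  have hderiv : ∀ t ∈ Ioo (0 : ℝ) 1, HasDerivAt (fun t => F (γ t).re + ∫ s in (0 : ℝ)..t, sp s)
      (deriv F (γ t).re * (derivWithin γ (Icc 0 1) t).re + sp t) t := by
    intro t ht
    have htc : t ∈ Icc (0 : ℝ) 1 := Ioo_subset_Icc_self ht
    have h1 : HasDerivAt γ (derivWithin γ (Icc 0 1) t) t :=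
      (hasDeriv h t htc).hasDerivAt (Icc_mem_nhds ht.1 ht.2)
    have h2 : HasDerivAt (fun t => (γ t).re) (derivWithin γ (Icc 0 1) t).re t :=
      (RotMetric.reL.hasFDerivAt (x := γ t)).comp_hasDerivAt t h1
    have h3 : HasDerivAt F (deriv F (γ t).re) (γ t).re :=
      (hF.differentiable (by norm_num) _).hasDerivAt
    have h4 := h3.comp t h2
    have hct : ContinuousAt sp t := (hc t htc).continuousAt (Icc_mem_nhds ht.1 ht.2)
    have hi : IntervalIntegrable sp MeasureTheory.volume 0 t := by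
      apply hint.mono_set
      rw [uIcc_of_le ht.1.le, uIcc_of_le zero_le_one]
      exact Icc_subset_Icc le_rfl ht.2.le
    have hm : StronglyMeasurableAtFilter sp (nhds t) MeasureTheory.volume :=
      (hc.mono Ioo_subset_Icc_self).stronglyMeasurableAtFilter isOpen_Ioo t ht
    have h5 := intervalIntegral.integral_hasDerivAt_right hi hm hct
    exact h4.add h5
  have hmono : MonotoneOn (fun t => F (γ t).re + ∫ s in (0 : ℝ)..t, sp s) (Icc 0 1) := by
    apply monotoneOn_of_deriv_nonneg (convex_Icc 0 1)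
    · refine ContinuousOn.add (hF.continuous.comp_continuousOn hre) ?_
      have := intervalIntegral.continuousOn_primitive_interval
        (a := (0 : ℝ)) (b := 1) (f := sp) (μ := MeasureTheory.volume) (by
          rw [uIcc_of_le zero_le_one]
          exact hc.integrableOn_Icc)
      rwa [uIcc_of_le zero_le_one] at this
    · rw [interior_Icc]
      intro t ht
      exact (hderiv t ht).differentiableAt.differentiableWithinAt
    · rw [interior_Icc]
      intro t ht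
      rw [(hderiv t ht).deriv]
      have htc : t ∈ Icc (0 : ℝ) 1 := Ioo_subset_Icc_self ht
      have hm := re_mem h t htc
      have hp := pos _ hm
      have h1 := re_sq_le (γ t) _ (h.norm_eq t htc) (orth h t htc)
      rw [hsp, speed_conf v pos h t htc]
      have h2 := hF1 _ hm
      have h3 : (deriv F (γ t).re * (derivWithin γ (Icc 0 1) t).re) ^ 2 ≤
          ((v (γ t).re)⁻¹ * ‖derivWithin γ (Icc 0 1) t‖) ^ 2 := by
        have e1 : (deriv F (γ t).re * (derivWithin γ (Icc 0 1) t).re) ^ 2 ≤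
            deriv F (γ t).re ^ 2 * ((1 - (γ t).re ^ 2) * ‖derivWithin γ (Icc 0 1) t‖ ^ 2) := by
          rw [mul_pow]
          exact mul_le_mul_of_nonneg_left h1 (sq_nonneg _)
        have e2 : (1 - (γ t).re ^ 2) * deriv F (γ t).re ^ 2 ≤ (v (γ t).re)⁻¹ ^ 2 := by
          rw [inv_pow, ← one_div, le_div_iff₀ (by positivity)]
          linarith
        calc _ ≤ _ := e1
          _ = ((1 - (γ t).re ^ 2) * deriv F (γ t).re ^ 2) *
              ‖derivWithin γ (Icc 0 1) t‖ ^ 2 := by ring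
          _ ≤ (v (γ t).re)⁻¹ ^ 2 * ‖derivWithin γ (Icc 0 1) t‖ ^ 2 :=
            mul_le_mul_of_nonneg_right e2 (sq_nonneg _)
          _ = _ := by ring
      have h4 : 0 ≤ (v (γ t).re)⁻¹ * ‖derivWithin γ (Icc 0 1) t‖ := by positivity
      have h5 := abs_le_of_sq_le_sq h3 h4
      linarith [(abs_le.1 h5).1]
  have := hmono (left_mem_Icc.2 zero_le_one) (right_mem_Icc.2 zero_le_one) zero_le_one
  simp only [h.left, h.right, intervalIntegral.integral_same, add_zero] at this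
  unfold len
  rw [← hsp]
  linarith

/-- The distance of the poles is at least `F 1 - F (-1)`. -/
theorem rdist_ge (v F : ℝ → ℝ) (hv : ContinuousOn v I1) (pos : ∀ y ∈ I1, 0 < v y)
    (hF : ContDiff ℝ 1 F) (hF1 : ∀ y ∈ I1, v y ^ 2 * (1 - y ^ 2) * deriv F y ^ 2 ≤ 1)
    (p q : ℍ[ℝ]) (hp : ‖p‖ = 1) (hq : ‖q‖ = 1) :
    F p.re - F q.re ≤ rdist (rot (fun y => (v y)⁻¹ ^ 2) (fun _ => 0)) p q := by
  obtain ⟨γ, h1, _⟩ := circ_path p q hp hq
  refine le_csInf ⟨_, γ, h1, rfl⟩ ?_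
  rintro _ ⟨γ', h2, rfl⟩
  exact len_ge v F hv pos hF hF1 h2

end GH

open GH in
/-- The Gromov-Hausdorff distance of `v^(-2) g_round` and `g_round` is at least
`(F 1 - F (-1) - π) / 2`. -/
theorem dGH_ge (v F : ℝ → ℝ) (hv : ContinuousOn v I1) (pos : ∀ y ∈ I1, 0 < v y)
    (hF : ContDiff ℝ 1 F) (hF1 : ∀ y ∈ I1, v y ^ 2 * (1 - y ^ 2) * deriv F y ^ 2 ≤ 1) :
    ENNReal.ofReal ((F 1 - F (-1) - Real.pi) / 2) ≤
      dGH (rot (fun y => (v y)⁻¹ ^ 2) (fun _ => 0)) roundMetric := by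
  have n1 : ‖(1 : ℍ[ℝ])‖ = 1 := norm_one
  have n2 : ‖(-1 : ℍ[ℝ])‖ = 1 := by rw [norm_neg, norm_one]
  have h1 := rdist_ge v F hv pos hF hF1 1 (-1) n1 n2
  have h2 : (1 : ℍ[ℝ]).re = 1 := rfl
  have h3 : (-1 : ℍ[ℝ]).re = -1 := rfl
  rw [h2, h3] at h1
  unfold dGH
  rw [ENNReal.le_div_iff_mul_le (Or.inl two_ne_zero) (Or.inl ENNReal.ofNat_ne_top)]
  refine le_iInf₂ fun R hR => ?_
  obtain ⟨a, ha⟩ := hR.left 1 n1
  obtain ⟨b, hb⟩ := hR.left (-1) n2
  have na := (hR.norm_eq _ ha).2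
  have nb := (hR.norm_eq _ hb).2
  have h4 := rdist_round_le a b na nb
  have h5 : ENNReal.ofReal |rdist (rot (fun y => (v y)⁻¹ ^ 2) (fun _ => 0)) 1 (-1) -
      rdist roundMetric a b| ≤
      distortion (rot (fun y => (v y)⁻¹ ^ 2) (fun _ => 0)) roundMetric R := by
    unfold distortion
    exact le_iSup₂_of_le _ ha (le_iSup₂_of_le _ hb le_rfl)
  refine le_trans ?_ h5
  have h6 : (2 : ℝ≥0∞) = ENNReal.ofReal 2 := by simp
  rw [h6, ← ENNReal.ofReal_mul' (by norm_num)]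
  apply ENNReal.ofReal_le_ofReal
  have h7 := le_abs_self (rdist (rot (fun y => (v y)⁻¹ ^ 2) (fun _ => 0)) 1 (-1) -
    rdist roundMetric a b)
  linarith

end Pool.Agent.MP_ae1fc5_gt
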