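import Pool.Agent.MP_ae1fc5_gt.Defs2

/-!
# MP_ae1fc5_gt, Q1: the initial metric (two thin spikes)

`V0 = c ρ / (ρ + η)`, `ρ = √(1 + a - y²)`, `η = h³`, `c = 1 + 3 h²`, approximated by an even polynomial.
-/

open Set Filter
open scoped Topology

noncomputable section

namespace Pool.Agent.RFq

open Pool.Agent.MP_ae1fc5_gt

/-! ### even polynomials are finite combinations of the functions `cU (2 n)` -/

theorem cU_zero (y : ℝ) : cU 0 y = 1 := by
  simp [cU]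

theorem cU_two (y : ℝ) : cU 2 y = 4 * y ^ 2 - 1 := by
  simp [cU, Polynomial.Chebyshev.U_two]

theorem cU_rec (n : ℕ) (y : ℝ) : cU (n + 2) y = 2 * y * cU (n + 1) y - cU n y := by
  have h := congrArg (Polynomial.eval y) (Polynomial.Chebyshev.U_add_two ℝ (n : ℤ))
  simp only [Polynomial.eval_sub, Polynomial.eval_mul, Polynomial.eval_ofNat, Polynomial.eval_X] at h
  simpa only [cU, Nat.cast_add, Nat.cast_ofNat, Nat.cast_one] using h

theorem sq_mul_cU (n : ℕ) (y : ℝ) :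
    y ^ 2 * cU (2 * (n + 1)) y = (cU (2 * (n + 2)) y + 2 * cU (2 * (n + 1)) y + cU (2 * n) y) / 4 := by
  have h1 := cU_rec (2 * n + 2) y
  have h2 := cU_rec (2 * n + 1) y
  have h3 := cU_rec (2 * n) y
  rw [show 2 * (n + 2) = 2 * n + 2 + 2 by ring, show 2 * (n + 1) = 2 * n + 2 by ring, h1]
  rw [show 2 * n + 2 + 1 = 2 * n + 1 + 2 by ring, h2]
  have h4 : 2 * y * cU (2 * n + 1) y = cU (2 * n + 2) y + cU (2 * n) y := by linarith
  have h5 : 2 * n + 1 + 1 = 2 * n + 2 := by ring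
  rw [h5]
  linear_combination (-(1 : ℝ) / 4) * (-h4)

/-- the space of finite combinations -/
def SU : Submodule ℝ (ℝ → ℝ) := Submodule.span ℝ (Set.range fun n : ℕ => cU (2 * n))

theorem cU_mem (n : ℕ) : cU (2 * n) ∈ SU := Submodule.subset_span ⟨n, rfl⟩

theorem mul_sq_mem (f : ℝ → ℝ) (hf : f ∈ SU) : (fun y => y ^ 2 * f y) ∈ SU := by
  induction hf using Submodule.span_induction with
  | mem f hf =>
    obtain ⟨n, rfl⟩ := hf
    cases n with
    | zero =>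
      have : (fun y : ℝ => y ^ 2 * cU (2 * 0) y) = (1 / 4 : ℝ) • cU (2 * 1) + (1 / 4 : ℝ) • cU (2 * 0) := by
        funext y
        simp only [Pi.add_apply, Pi.smul_apply, smul_eq_mul]
        rw [show 2 * 0 = 0 from rfl, show 2 * 1 = 2 from rfl, cU_zero, cU_two]
        ring
      rw [this]
      exact SU.add_mem (SU.smul_mem _ (cU_mem 1)) (SU.smul_mem _ (cU_mem 0))
    | succ n =>
      have : (fun y : ℝ => y ^ 2 * cU (2 * (n + 1)) y) =
          (1 / 4 : ℝ) • cU (2 * (n + 2)) + (1 / 2 : ℝ) • cU (2 * (n + 1)) + (1 / 4 : ℝ) • cU (2 * n) := by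
        funext y
        simp only [Pi.add_apply, Pi.smul_apply, smul_eq_mul]
        rw [sq_mul_cU]
        ring
      rw [this]
      exact SU.add_mem (SU.add_mem (SU.smul_mem _ (cU_mem _)) (SU.smul_mem _ (cU_mem _)))
        (SU.smul_mem _ (cU_mem _))
  | zero => 
    have : (fun y : ℝ => y ^ 2 * (0 : ℝ → ℝ) y) = 0 := by funext y; simp
    rw [this]
    exact SU.zero_mem
  | add f g _ _ hf hg =>
    have : (fun y : ℝ => y ^ 2 * (f + g) y) = (fun y => y ^ 2 * f y) + (fun y => y ^ 2 * g y) := by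
      funext y
      simp only [Pi.add_apply]
      ring
    rw [this]
    exact SU.add_mem hf hg
  | smul r f _ hf =>
    have : (fun y : ℝ => y ^ 2 * (r • f) y) = r • (fun y => y ^ 2 * f y) := by
      funext y
      simp only [Pi.smul_apply, smul_eq_mul]
      ring
    rw [this]
    exact SU.smul_mem _ hf

theorem pow_mem (k : ℕ) : (fun y : ℝ => y ^ (2 * k)) ∈ SU := by
  induction k with
  | zero =>
    have : (fun y : ℝ => y ^ (2 * 0)) = cU (2 * 0) := by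
      funext y
      rw [show 2 * 0 = 0 from rfl, cU_zero, pow_zero]
    rw [this]
    exact cU_mem 0
  | succ k ih =>
    have : (fun y : ℝ => y ^ (2 * (k + 1))) = fun y => y ^ 2 * y ^ (2 * k) := by
      funext y
      ring
    rw [this]
    exact mul_sq_mem _ ih

theorem exists_coef (f : ℝ → ℝ) (hf : f ∈ SU) : ∃ (N : ℕ) (x : ℕ → ℝ), (∀ n, N ≤ n → x n = 0) ∧
    ∀ y, f y = ∑ n ∈ Finset.range N, x n * cU (2 * n) y := by
  rw [SU, Finsupp.mem_span_range_iff_exists_finsupp] at hf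
  obtain ⟨c, hc⟩ := hf
  refine ⟨c.support.sup id + 1, c, ?_, ?_⟩
  · intro n hn
    by_contra h
    have h1 : n ∈ c.support := Finsupp.mem_support_iff.mpr h
    have h2 : id n ≤ c.support.sup id := Finset.le_sup h1
    simp only [id] at h2
    omega
  · intro y
    rw [← hc, Finsupp.sum, Finset.sum_apply]
    simp only [Pi.smul_apply, smul_eq_mul]
    refine Finset.sum_subset ?_ ?_
    · intro n hn
      have h2 : id n ≤ c.support.sup id := Finset.le_sup hn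
      simp only [id] at h2
      exact Finset.mem_range.mpr (by omega)
    · intro n _ hn
      rw [Finsupp.notMem_support_iff.mp hn, zero_mul]

/-! ### open conditions -/

theorem open_cond {f g h : ℝ → ℝ} (hf : ContinuousOn f I1) (hg : ContinuousOn g I1)
    (hh : ContinuousOn h I1) (U : Set (ℝ × ℝ × ℝ × ℝ)) (hU : IsOpen U)
    (hK : ∀ y ∈ I1, (y, f y, g y, h y) ∈ U) :
    ∃ ε > 0, ∀ y ∈ I1, ∀ a b c : ℝ, |a - f y| < ε → |b - g y| < ε → |c - h y| < ε →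
      (y, a, b, c) ∈ U := by
  have hc : IsCompact ((fun y => (y, f y, g y, h y)) '' I1) :=
    isCompact_Icc.image_of_continuousOn
      (continuousOn_id.prodMk (hf.prodMk (hg.prodMk hh)))
  have hs : (fun y => (y, f y, g y, h y)) '' I1 ⊆ U := by
    rintro _ ⟨y, hy, rfl⟩
    exact hK y hy
  obtain ⟨ε, hε, hsub⟩ := hc.exists_thickening_subset_open hU hs
  refine ⟨ε, hε, fun y hy a b c ha hb hc' => hsub ?_⟩
  rw [Metric.mem_thickening_iff]
  refine ⟨_, ⟨y, hy, rfl⟩, ?_⟩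
  simp only [Prod.dist_eq, dist_self, Real.dist_eq]
  simp only [max_lt_iff]
  exact ⟨hε, ha, hb, hc'⟩

/-! ### the explicit function: pointwise algebra -/

section alg

variable {a y ρ η c h B : ℝ}

/-- the value of `V0'(y) / y` -/
def rr (c η ρ : ℝ) : ℝ := -(c * η) / (ρ * (ρ + η) ^ 2)

/-- the value of `V0''(y)`, `u = y²`, `q = 1 + a` -/
def ww (c η ρ q u : ℝ) : ℝ :=
  -(c * η) * (2 * u / (ρ ^ 2 * (ρ + η) ^ 3) + q / (ρ ^ 3 * (ρ + η) ^ 2))

theorem ww_neg (hc : 0 < c) (hη : 0 < η) (hρ : 0 < ρ) (ha : 0 < 1 + a) :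
    ww c η ρ (1 + a) (y ^ 2) < 0 := by
  have h1 : 0 ≤ 2 * y ^ 2 / (ρ ^ 2 * (ρ + η) ^ 3) := by positivity
  have h2 : 0 < (1 + a) / (ρ ^ 3 * (ρ + η) ^ 2) := by positivity
  have h3 : 0 < c * η := mul_pos hc hη
  unfold ww
  nlinarith

theorem poly_ineq (hρ : 0 < ρ) (hh : 0 < h) (hh1 : h ≤ 1 / 10) :
    6 * (ρ + h ^ 3) ^ 4 < (1 + 6 * h ^ 2) * (6 * ρ ^ 4 + 8 * h ^ 3 * ρ ^ 3 + 2 * h ^ 6) := by
  obtain ⟨z, hz⟩ : ∃ z, z = ρ / h := ⟨_, rfl⟩
  have hz0 : 0 < z := by rw [hz]; positivity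
  have hρz : ρ = z * h := by rw [hz]; field_simp
  have key : 0 < 36 * z ^ 4 - 16 * z ^ 3 + 48 * h ^ 2 * z ^ 3 - 36 * z ^ 2 * h ^ 2 - 24 * z * h ^ 4 + 2
      + 12 * h ^ 2 - 6 * h ^ 6 := by
    have h2 : h ^ 2 ≤ 1 / 100 := by nlinarith
    have h4 : h ^ 4 ≤ 1 / 100 := by
      have : h ^ 4 = h ^ 2 * h ^ 2 := by ring
      rw [this]
      nlinarith [sq_nonneg h]
    have h6 : h ^ 6 ≤ h ^ 2 := by
      have : h ^ 6 = h ^ 4 * h ^ 2 := by ring
      rw [this]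
      nlinarith [sq_nonneg h]
    have e1 : 36 * z ^ 2 * h ^ 2 ≤ 36 * z ^ 2 * (1 / 100) := by gcongr
    have e2 : 24 * z * h ^ 4 ≤ 24 * z * (1 / 100) := by gcongr
    have e3 : 0 ≤ 48 * h ^ 2 * z ^ 3 := by positivity
    nlinarith [sq_nonneg (z ^ 2 - z / 3), sq_nonneg (z - 1 / 3), sq_nonneg (z ^ 2 - 1 / 9), sq_nonneg z,
      sq_nonneg (6 * z ^ 2 - 4 / 3 * z)]
  have e : (1 + 6 * h ^ 2) * (6 * ρ ^ 4 + 8 * h ^ 3 * ρ ^ 3 + 2 * h ^ 6) - 6 * (ρ + h ^ 3) ^ 4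
      = h ^ 6 * (36 * z ^ 4 - 16 * z ^ 3 + 48 * h ^ 2 * z ^ 3 - 36 * z ^ 2 * h ^ 2 - 24 * z * h ^ 4 + 2
      + 12 * h ^ 2 - 6 * h ^ 6) := by
    rw [hρz]
    ring
  have h6 : 0 < h ^ 6 := by positivity
  have := mul_pos h6 key
  linarith

theorem scal_ineq (hρ : 0 < ρ) (hh : 0 < h) (hh1 : h ≤ 1 / 10) (ha : 0 < a)
    (hy : y ^ 2 ≤ 1) (he : ρ ^ 2 = 1 + a - y ^ 2) (hη : η = h ^ 3) (hc : c = 1 + 3 * h ^ 2) :
    6 < 6 * (c * ρ / (ρ + η)) ^ 2 + 4 * (c * ρ / (ρ + η)) *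
        ((1 - y ^ 2) * ww c η ρ (1 + a) (y ^ 2) - 3 * y * (y * rr c η ρ))
      - 6 * (1 - y ^ 2) * (y * rr c η ρ) ^ 2 := by
  have hη0 : 0 < η := by rw [hη]; positivity
  have hc0 : 0 < c := by rw [hc]; positivity
  have hT : 0 < ρ + η := by positivity
  have hs : 1 - y ^ 2 ≤ ρ ^ 2 := by linarith
  have hs0 : 0 ≤ 1 - y ^ 2 := by linarith
  have hw := ww_neg (y := y) hc0 hη0 hρ (show (0 : ℝ) < 1 + a by linarith)
  have hV : 0 < c * ρ / (ρ + η) := by positivity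
  have hq : (0 : ℝ) < 1 + a := by linarith
  -- replace `1 - y²` by `ρ²`
  have e1 : 4 * (c * ρ / (ρ + η)) * (ρ ^ 2 * ww c η ρ (1 + a) (y ^ 2)) ≤
      4 * (c * ρ / (ρ + η)) * ((1 - y ^ 2) * ww c η ρ (1 + a) (y ^ 2)) := by
    apply mul_le_mul_of_nonneg_left _ (by positivity)
    nlinarith
  have e2 : 6 * (1 - y ^ 2) * (y * rr c η ρ) ^ 2 ≤ 6 * ρ ^ 2 * (y * rr c η ρ) ^ 2 := by
    apply mul_le_mul_of_nonneg_right _ (sq_nonneg _)
    linarith
  have e3 : 6 * (c * ρ / (ρ + η)) ^ 2 + 4 * (c * ρ / (ρ + η)) *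
        (ρ ^ 2 * ww c η ρ (1 + a) (y ^ 2) - 3 * y * (y * rr c η ρ))
      - 6 * ρ ^ 2 * (y * rr c η ρ) ^ 2 =
      c ^ 2 * (6 * ρ ^ 4 + 8 * η * ρ ^ 3 + 2 * (1 + a) * η ^ 2) / (ρ + η) ^ 4 := by
    have hy2 : y ^ 2 = 1 + a - ρ ^ 2 := by linarith
    have e4 : 3 * y * (y * rr c η ρ) = 3 * y ^ 2 * rr c η ρ := by ring
    have e5 : (y * rr c η ρ) ^ 2 = y ^ 2 * rr c η ρ ^ 2 := by ring
    rw [e4, e5, hy2]
    unfold ww rr
    field_simp
    ring
  have e6 : 6 < c ^ 2 * (6 * ρ ^ 4 + 8 * η * ρ ^ 3 + 2 * (1 + a) * η ^ 2) / (ρ + η) ^ 4 := by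
    rw [lt_div_iff₀ (by positivity)]
    have h1 := poly_ineq hρ hh hh1
    have h2 : 1 + 6 * h ^ 2 ≤ c ^ 2 := by rw [hc]; nlinarith [sq_nonneg (h ^ 2)]
    have h3 : 6 * ρ ^ 4 + 8 * h ^ 3 * ρ ^ 3 + 2 * h ^ 6 ≤
        6 * ρ ^ 4 + 8 * η * ρ ^ 3 + 2 * (1 + a) * η ^ 2 := by
      rw [hη]
      have : 0 ≤ 2 * a * (h ^ 3) ^ 2 := by positivity
      nlinarith
    rw [← hη] at h1
    calc 6 * (ρ + η) ^ 4 < (1 + 6 * h ^ 2) * (6 * ρ ^ 4 + 8 * h ^ 3 * ρ ^ 3 + 2 * h ^ 6) := by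
          rw [hη] at h1 ⊢
          exact poly_ineq hρ hh hh1
      _ ≤ c ^ 2 * (6 * ρ ^ 4 + 8 * η * ρ ^ 3 + 2 * (1 + a) * η ^ 2) := by
          apply mul_le_mul h2 h3 (by positivity) (by positivity)
  have e7 : 4 * (c * ρ / (ρ + η)) * ((1 - y ^ 2) * ww c η ρ (1 + a) (y ^ 2) - 3 * y * (y * rr c η ρ)) =
      4 * (c * ρ / (ρ + η)) * ((1 - y ^ 2) * ww c η ρ (1 + a) (y ^ 2)) -
      4 * (c * ρ / (ρ + η)) * (3 * y * (y * rr c η ρ)) := by ring
  have e8 : 4 * (c * ρ / (ρ + η)) * (ρ ^ 2 * ww c η ρ (1 + a) (y ^ 2) - 3 * y * (y * rr c η ρ)) =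
      4 * (c * ρ / (ρ + η)) * (ρ ^ 2 * ww c η ρ (1 + a) (y ^ 2)) -
      4 * (c * ρ / (ρ + η)) * (3 * y * (y * rr c η ρ)) := by ring
  rw [e7]
  rw [e8] at e3
  linarith

theorem F_ineq (hρ : 0 < ρ) (hc : 1 ≤ c) (hη : 0 < η) (ha : 0 < a) (ha1 : a ≤ 1)
    (hy : y ^ 2 ≤ 1) (he : ρ ^ 2 = 1 + a - y ^ 2) (hB : 4 * η < B) :
    -ww c η ρ (1 + a) (y ^ 2) * ((1 - y ^ 2) ^ 2 * √(1 - y ^ 2)) < B * (c * ρ / (ρ + η)) ^ 2 := by
  have hT : 0 < ρ + η := by positivity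
  have hs : 1 - y ^ 2 ≤ ρ ^ 2 := by linarith
  have hs0 : 0 ≤ 1 - y ^ 2 := by linarith
  have hc0 : 0 < c := by linarith
  obtain ⟨t, ht⟩ : ∃ t, t = √(1 - y ^ 2) := ⟨_, rfl⟩
  have ht0 : 0 ≤ t := by rw [ht]; exact Real.sqrt_nonneg _
  have ht2 : 1 - y ^ 2 = t ^ 2 := by rw [ht, Real.sq_sqrt hs0]
  have htρ : t ≤ ρ := by
    apply le_of_sq_le_sq _ hρ.le
    rw [← ht2]
    exact hs
  have h5 : (1 - y ^ 2) ^ 2 * √(1 - y ^ 2) = t ^ 5 := by
    rw [← ht, ht2]; ring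
  rw [h5]
  have h6 : t ^ 5 ≤ ρ ^ 5 := pow_le_pow_left₀ ht0 htρ 5
  have hw : 0 ≤ -ww c η ρ (1 + a) (y ^ 2) := by
    have := ww_neg (y := y) hc0 hη hρ (show (0 : ℝ) < 1 + a by linarith)
    linarith
  calc -ww c η ρ (1 + a) (y ^ 2) * t ^ 5 ≤ -ww c η ρ (1 + a) (y ^ 2) * ρ ^ 5 := by gcongr
    _ = (c * η) * (2 * y ^ 2 * ρ ^ 3 / (ρ + η) ^ 3 + (1 + a) * ρ ^ 2 / (ρ + η) ^ 2) := by
        unfold ww
        field_simp
    _ ≤ (c * η) * (2 * y ^ 2 * ρ ^ 2 / (ρ + η) ^ 2 + (1 + a) * ρ ^ 2 / (ρ + η) ^ 2) := by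
        have h7 : 2 * y ^ 2 * ρ ^ 3 / (ρ + η) ^ 3 ≤ 2 * y ^ 2 * ρ ^ 2 / (ρ + η) ^ 2 := by
          rw [div_le_div_iff₀ (by positivity) (by positivity)]
          have : 2 * y ^ 2 * ρ ^ 3 * (ρ + η) ^ 2 ≤ 2 * y ^ 2 * (ρ ^ 2 * (ρ + η)) * (ρ + η) ^ 2 := by
            gcongr
            nlinarith [sq_nonneg ρ]
          calc 2 * y ^ 2 * ρ ^ 3 * (ρ + η) ^ 2 ≤ 2 * y ^ 2 * (ρ ^ 2 * (ρ + η)) * (ρ + η) ^ 2 := this
            _ = 2 * y ^ 2 * ρ ^ 2 * (ρ + η) ^ 3 := by ring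
        have : 0 < c * η := by positivity
        gcongr
    _ = η * (2 * y ^ 2 + (1 + a)) * (c * ρ ^ 2 / (ρ + η) ^ 2) := by ring
    _ ≤ η * 4 * (c ^ 2 * ρ ^ 2 / (ρ + η) ^ 2) := by
        gcongr
        · linarith
        · nlinarith
    _ = 4 * η * (c * ρ / (ρ + η)) ^ 2 := by
        rw [div_pow, mul_pow]; ring
    _ < B * (c * ρ / (ρ + η)) ^ 2 := by
        apply mul_lt_mul_of_pos_right hB
        positivity

theorem P_ineq (hρ : 0 < ρ) (hc : 0 < c) (hη : 0 < η) (hs : 1 - y ^ 2 ≤ ρ ^ 2) :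
    0 < c * ρ / (ρ + η) + (1 - y ^ 2) * rr c η ρ := by
  have hT : 0 < ρ + η := by positivity
  have h1 : rr c η ρ < 0 := by
    unfold rr
    rw [neg_div]
    have : 0 < c * η / (ρ * (ρ + η) ^ 2) := by positivity
    linarith
  have h2 : ρ ^ 2 * rr c η ρ ≤ (1 - y ^ 2) * rr c η ρ := by nlinarith
  have h3 : c * ρ / (ρ + η) + ρ ^ 2 * rr c η ρ = c * ρ ^ 2 / (ρ + η) ^ 2 := by
    unfold rr
    field_simp
    ring
  have h4 : 0 < c * ρ ^ 2 / (ρ + η) ^ 2 := by positivity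
  linarith

theorem L_ineq (hρ : 0 < ρ) (hc : 0 < c) (hη : 0 < η) (hs : 1 - y ^ 2 ≤ ρ ^ 2) :
    (c * ρ / (ρ + η)) ^ 2 * (1 - y ^ 2) * (η / (2 * c)) ^ 2 < (ρ ^ 2) ^ 2 := by
  have hT : 0 < ρ + η := by positivity
  calc (c * ρ / (ρ + η)) ^ 2 * (1 - y ^ 2) * (η / (2 * c)) ^ 2 
      ≤ (c * ρ / (ρ + η)) ^ 2 * ρ ^ 2 * (η / (2 * c)) ^ 2 := by gcongr
    _ = (ρ ^ 2) ^ 2 * (η ^ 2 / (4 * (ρ + η) ^ 2)) := by
        field_simp
        ring
    _ < (ρ ^ 2) ^ 2 * 1 := by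
        apply mul_lt_mul_of_pos_left _ (by positivity)
        rw [div_lt_one (by positivity)]
        nlinarith [sq_nonneg ρ, mul_pos hρ hη]
    _ = (ρ ^ 2) ^ 2 := mul_one _

end alg

/-! ### the explicit function -/

theorem hasDerivAt_rho {q y : ℝ} (h : 0 < q - y ^ 2) :
    HasDerivAt (fun y => √(q - y ^ 2)) (-y / √(q - y ^ 2)) y := by
  have h1 : HasDerivAt (fun y : ℝ => q - y ^ 2) (-(2 * y)) y := by
    have := (hasDerivAt_pow 2 y).const_sub q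
    simpa using this
  have h2 := h1.sqrt h.ne'
  refine h2.congr_deriv ?_
  have : √(q - y ^ 2) ≠ 0 := (Real.sqrt_pos.mpr h).ne'
  field_simp

theorem hasDerivAt_V0 {c η q y : ℝ} (hη : 0 < η) (h : 0 < q - y ^ 2) :
    HasDerivAt (fun y => c * √(q - y ^ 2) / (√(q - y ^ 2) + η)) (y * rr c η (√(q - y ^ 2))) y := by
  have h1 := hasDerivAt_rho h
  have hρ : 0 < √(q - y ^ 2) := Real.sqrt_pos.mpr h
  have hT : √(q - y ^ 2) + η ≠ 0 := by positivity
  have h2 := (h1.const_mul c).div (h1.add_const η) hT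
  refine h2.congr_deriv ?_
  unfold rr
  have hρ' : √(q - y ^ 2) ≠ 0 := hρ.ne'
  field_simp
  ring

theorem hasDerivAt_V1 {c η q y : ℝ} (hη : 0 < η) (h : 0 < q - y ^ 2) :
    HasDerivAt (fun y => y * rr c η (√(q - y ^ 2))) (ww c η (√(q - y ^ 2)) q (y ^ 2)) y := by
  have h1 := hasDerivAt_rho h
  have hρ : 0 < √(q - y ^ 2) := Real.sqrt_pos.mpr h
  have hT : 0 < √(q - y ^ 2) + η := by positivity
  have hρ' : √(q - y ^ 2) ≠ 0 := hρ.ne'
  have hT' : √(q - y ^ 2) + η ≠ 0 := hT.ne'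
  have h3 : HasDerivAt (fun y => √(q - y ^ 2) * (√(q - y ^ 2) + η) ^ 2) _ y :=
    h1.mul ((h1.add_const η).pow 2)
  have h4 := (hasDerivAt_id y).mul ((hasDerivAt_const y (-(c * η))).div h3 (by positivity))
  unfold rr
  refine h4.congr_deriv ?_
  unfold ww
  have he : √(q - y ^ 2) ^ 2 = q - y ^ 2 := Real.sq_sqrt h.le
  simp only [id, Pi.div_apply]
  obtain ⟨r, hr⟩ : ∃ r, r = √(q - y ^ 2) := ⟨_, rfl⟩
  rw [← hr] at he hρ' hT' ⊢
  have hq : q = r ^ 2 + y ^ 2 := by linarith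
  rw [hq]
  field_simp
  ring

/-! ### the polynomial with prescribed second derivative -/

theorem exists_poly (b : Polynomial ℝ) (v0 : ℝ) : ∃ (v v1 r : ℝ → ℝ), v ∈ SU ∧
    (∀ y, HasDerivAt v (v1 y) y) ∧ (∀ y, HasDerivAt v1 (b.eval (y ^ 2)) y) ∧
    (∀ y, v1 y = y * r y) ∧ v 0 = v0 ∧ r 0 = b.eval 0 ∧ Continuous r := by
  refine ⟨fun y => v0 * y ^ (2 * 0) + ∑ k ∈ b.support, b.coeff k / ((2 * k + 1) * (2 * k + 2)) * y ^ (2 * (k + 1)),
    fun y => ∑ k ∈ b.support, b.coeff k / (2 * k + 1) * y ^ (2 * k + 1),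
    fun y => ∑ k ∈ b.support, b.coeff k / (2 * k + 1) * y ^ (2 * k), ?_, ?_, ?_, ?_, ?_, ?_, ?_⟩
  · have : (fun y : ℝ => v0 * y ^ (2 * 0) + ∑ k ∈ b.support, b.coeff k / ((2 * k + 1) * (2 * k + 2)) * y ^ (2 * (k + 1)))
        = v0 • (fun y : ℝ => y ^ (2 * 0)) + ∑ k ∈ b.support,
          (b.coeff k / ((2 * k + 1) * (2 * k + 2))) • (fun y : ℝ => y ^ (2 * (k + 1))) := by
      funext y
      simp only [Pi.add_apply, Pi.smul_apply, smul_eq_mul, Finset.sum_apply]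
    rw [this]
    exact SU.add_mem (SU.smul_mem _ (pow_mem 0))
      (SU.sum_mem fun k _ => SU.smul_mem _ (pow_mem (k + 1)))
  · intro y
    have h1 : HasDerivAt (fun y : ℝ => v0 * y ^ (2 * 0)) 0 y := by
      simp only [mul_zero, pow_zero, mul_one]
      exact hasDerivAt_const y v0
    have h2 : HasDerivAt (fun y : ℝ => ∑ k ∈ b.support, b.coeff k / ((2 * k + 1) * (2 * k + 2)) * y ^ (2 * (k + 1)))
        (∑ k ∈ b.support, b.coeff k / (2 * k + 1) * y ^ (2 * k + 1)) y := by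
      refine HasDerivAt.fun_sum fun k _ => ?_
      have h3 := (hasDerivAt_pow (2 * (k + 1)) y).const_mul (b.coeff k / ((2 * k + 1) * (2 * k + 2)))
      refine h3.congr_deriv ?_
      have e : 2 * (k + 1) - 1 = 2 * k + 1 := by omega
      rw [e]
      push_cast
      have h4 : (2 * (k : ℝ) + 1) ≠ 0 := by positivity
      have h5 : (2 * (k : ℝ) + 2) ≠ 0 := by positivity
      field_simp
    exact (h1.add h2).congr_deriv (zero_add _)
  · intro y
    rw [Polynomial.eval_eq_sum, Polynomial.sum]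
    refine HasDerivAt.fun_sum fun k _ => ?_
    have h3 := (hasDerivAt_pow (2 * k + 1) y).const_mul (b.coeff k / (2 * k + 1))
    refine h3.congr_deriv ?_
    have e : 2 * k + 1 - 1 = 2 * k := by omega
    rw [e]
    push_cast
    have h4 : (2 * (k : ℝ) + 1) ≠ 0 := by positivity
    rw [← pow_mul]
    field_simp
  · intro y
    simp only
    rw [Finset.mul_sum]
    refine Finset.sum_congr rfl fun k _ => ?_
    ring
  · simp only [mul_zero, pow_zero, mul_one]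
    rw [Finset.sum_eq_zero, add_zero]
    intro k _
    rw [zero_pow (by omega), mul_zero]
  · simp only
    rw [Polynomial.eval_eq_sum, Polynomial.sum]
    refine Finset.sum_congr rfl fun k _ => ?_
    by_cases hk : k = 0
    · subst hk
      simp
    · rw [zero_pow (by omega), zero_pow hk, mul_zero, mul_zero]
  · fun_prop

theorem abs_le_of_deriv (f f' : ℝ → ℝ) (ε : ℝ) (hf : ∀ y ∈ I1, HasDerivAt f (f' y) y)
    (hb : ∀ y ∈ I1, |f' y| ≤ ε) (h0 : f 0 = 0) (y : ℝ) (hy : y ∈ I1) : |f y| ≤ ε * |y| := by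
  have h := (convex_Icc (-1 : ℝ) 1).norm_image_sub_le_of_norm_hasDerivWithin_le
    (f := f) (f' := f') (C := ε) (fun x hx => (hf x hx).hasDerivWithinAt)
    (fun x hx => by simpa [Real.norm_eq_abs] using hb x hx)
    (show (0 : ℝ) ∈ Icc (-1 : ℝ) 1 by constructor <;> norm_num) hy
  simpa [h0, Real.norm_eq_abs] using h

theorem approx {c η q : ℝ} (hη : 0 < η) (hq : 1 < q) (ε : ℝ) (hε : 0 < ε) :
    ∃ (v v1 v2 r : ℝ → ℝ), v ∈ SU ∧
    (∀ y, HasDerivAt v (v1 y) y) ∧ (∀ y, HasDerivAt v1 (v2 y) y) ∧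
    (∀ y, v1 y = y * r y) ∧ v 0 = c * √q / (√q + η) ∧
    ∀ y ∈ I1, |v y - c * √(q - y ^ 2) / (√(q - y ^ 2) + η)| < ε ∧
      |r y - rr c η (√(q - y ^ 2))| < ε ∧ |v2 y - ww c η (√(q - y ^ 2)) q (y ^ 2)| < ε := by
  have hpos : ∀ u ∈ Icc (0 : ℝ) 1, 0 < q - u := fun u hu => by linarith [hu.2]
  have hψ : ContinuousOn (fun u => ww c η (√(q - u)) q u) (Icc 0 1) := by
    have hR : ContinuousOn (fun u => √(q - u)) (Icc (0 : ℝ) 1) := by fun_prop
    unfold ww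
    refine ContinuousOn.mul continuousOn_const (ContinuousOn.add ?_ ?_)
    · refine ContinuousOn.div (by fun_prop) ((hR.pow 2).mul ((hR.add continuousOn_const).pow 3)) ?_
      intro u hu
      have := Real.sqrt_pos.mpr (hpos u hu)
      positivity
    · refine ContinuousOn.div (by fun_prop) ((hR.pow 3).mul ((hR.add continuousOn_const).pow 2)) ?_
      intro u hu
      have := Real.sqrt_pos.mpr (hpos u hu)
      positivity
  obtain ⟨b, hb⟩ := exists_polynomial_near_of_continuousOn 0 1 _ hψ (ε / 2) (by positivity)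
  obtain ⟨v, v1, r, h1, h2, h3, h4, h5, h6, h7⟩ := exists_poly b (c * √q / (√q + η))
  have hyq : ∀ y ∈ I1, 0 < q - y ^ 2 := by
    intro y hy
    have : y ^ 2 ≤ 1 := by
      rw [sq_le_one_iff_abs_le_one, abs_le]
      exact hy
    linarith
  have hy2 : ∀ y ∈ I1, y ^ 2 ∈ Icc (0 : ℝ) 1 := by
    intro y hy
    refine ⟨sq_nonneg y, ?_⟩
    rw [sq_le_one_iff_abs_le_one, abs_le]
    exact hy
  have hw : ∀ y ∈ I1, |b.eval (y ^ 2) - ww c η (√(q - y ^ 2)) q (y ^ 2)| ≤ ε / 2 := by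
    intro y hy
    exact (hb (y ^ 2) (hy2 y hy)).le
  have hd1 : ∀ y ∈ I1, |v1 y - y * rr c η (√(q - y ^ 2))| ≤ ε / 2 * |y| := by
    intro y hy
    refine abs_le_of_deriv (fun y => v1 y - y * rr c η (√(q - y ^ 2)))
      (fun y => b.eval (y ^ 2) - ww c η (√(q - y ^ 2)) q (y ^ 2)) (ε / 2) ?_ hw ?_ y hy
    · intro z hz
      exact (h3 z).sub (hasDerivAt_V1 hη (hyq z hz))
    · simp only [h4 0, zero_mul, sub_zero]
  have hd0 : ∀ y ∈ I1, |v y - c * √(q - y ^ 2) / (√(q - y ^ 2) + η)| ≤ ε / 2 * |y| := by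
    intro y hy
    refine abs_le_of_deriv (fun y => v y - c * √(q - y ^ 2) / (√(q - y ^ 2) + η))
      (fun y => v1 y - y * rr c η (√(q - y ^ 2))) (ε / 2) ?_ ?_ ?_ y hy
    · intro z hz
      exact (h2 z).sub (hasDerivAt_V0 hη (hyq z hz))
    · intro z hz
      have hz1 : |z| ≤ 1 := abs_le.mpr hz
      calc |v1 z - z * rr c η (√(q - z ^ 2))| ≤ ε / 2 * |z| := hd1 z hz
        _ ≤ ε / 2 * 1 := by gcongr
        _ = ε / 2 := mul_one _
    · simp only [h5]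
      rw [zero_pow (by norm_num), sub_zero, sub_self]
  refine ⟨v, v1, fun y => b.eval (y ^ 2), r, h1, h2, h3, h4, h5, ?_⟩
  intro y hy
  have hy1 : |y| ≤ 1 := abs_le.mpr hy
  refine ⟨?_, ?_, ?_⟩
  · calc _ ≤ ε / 2 * |y| := hd0 y hy
      _ ≤ ε / 2 * 1 := by gcongr
      _ < ε := by linarith
  · by_cases hy0 : y = 0
    · subst hy0
      have h8 := hw 0 hy
      rw [h6]
      have h9 : rr c η (√(q - 0 ^ 2)) = ww c η (√(q - 0 ^ 2)) q (0 ^ 2) := by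
        have h10 : √(q - 0 ^ 2) ^ 2 = q := by
          rw [Real.sq_sqrt (by rw [zero_pow (by norm_num)]; linarith)]
          ring
        have h11 : 0 < √(q - 0 ^ 2) := Real.sqrt_pos.mpr (hyq 0 hy)
        obtain ⟨ρ, hρ⟩ : ∃ ρ, ρ = √(q - 0 ^ 2) := ⟨_, rfl⟩
        rw [← hρ] at h10 h11 ⊢
        unfold rr ww
        rw [← h10]
        field_simp
        ring
      rw [h9]
      have h12 : ((0 : ℝ) ^ 2) = 0 := by norm_num
      rw [h12] at h8 ⊢
      linarith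
    · have hy' : 0 < |y| := abs_pos.mpr hy0
      have h8 := hd1 y hy
      rw [h4 y, ← mul_sub, abs_mul, mul_comm] at h8
      have h9 := le_of_mul_le_mul_right h8 hy'
      linarith
  · have := hw y hy
    linarith

/-! ### the 1-Lipschitz function -/

theorem exists_F (k a D : ℝ) (hk : 0 < k) (ha : 0 < a) (ha1 : a ≤ 1) (hD : 2 * D ≤ k * (-Real.log a)) :
    ∃ F : ℝ → ℝ, ContDiff ℝ 1 F ∧ D ≤ F 1 - F (-1) ∧
      ∀ y ∈ I1, deriv F y = k / (1 + a - y ^ 2) := by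
  obtain ⟨f, hf⟩ : ∃ f : ℝ → ℝ, f = fun y => k / (a + max (1 - y ^ 2) 0) := ⟨_, rfl⟩
  have hden : ∀ y : ℝ, 0 < a + max (1 - y ^ 2) 0 := fun y => by
    have := le_max_right (1 - y ^ 2) (0 : ℝ)
    linarith
  have hfc : Continuous f := by
    rw [hf]
    refine Continuous.div continuous_const ?_ fun y => (hden y).ne'
    exact continuous_const.add ((by fun_prop : Continuous fun y : ℝ => 1 - y ^ 2).max continuous_const)
  have hfI : ∀ y ∈ I1, f y = k / (1 + a - y ^ 2) := by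
    intro y hy
    have hy2 : y ^ 2 ≤ 1 := by
      rw [sq_le_one_iff_abs_le_one, abs_le]
      exact hy
    rw [hf]
    simp only
    rw [max_eq_left (by linarith)]
    congr 1
    ring
  have hd : deriv (fun y => ∫ z in (-1 : ℝ)..y, f z) = f := by
    funext y
    exact hfc.deriv_integral f (-1) y
  refine ⟨fun y => ∫ z in (-1 : ℝ)..y, f z, ?_, ?_, ?_⟩
  · rw [contDiff_one_iff_deriv, hd]
    refine ⟨fun y => ?_, hfc⟩
    exact (hfc.integral_hasStrictDerivAt (-1) y).hasDerivAt.differentiableAt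
  · simp only [intervalIntegral.integral_same, sub_zero]
    obtain ⟨σ, hσ⟩ : ∃ σ, σ = √(1 + a) := ⟨_, rfl⟩
    have hσ2 : σ ^ 2 = 1 + a := by rw [hσ, Real.sq_sqrt (by linarith)]
    have hσ0 : 0 ≤ σ := by rw [hσ]; exact Real.sqrt_nonneg _
    have hσ1 : 1 < σ := by nlinarith
    have hσ3 : σ ≤ 1 + a := by nlinarith
    have hσ4 : σ ≤ 2 := by linarith
    have hI : ∫ z in (-1 : ℝ)..1, f z =
        k / (2 * σ) * (Real.log (σ + 1) - Real.log (σ - 1)) -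
        k / (2 * σ) * (Real.log (σ + -1) - Real.log (σ - -1)) := by
      refine intervalIntegral.integral_eq_sub_of_hasDerivAt
        (f := fun y => k / (2 * σ) * (Real.log (σ + y) - Real.log (σ - y))) ?_
        (hfc.intervalIntegrable _ _)
      intro y hy
      rw [uIcc_of_le (by norm_num)] at hy
      have h1 : 0 < σ + y := by linarith [hy.1]
      have h2 : 0 < σ - y := by linarith [hy.2]
      have h3 := (((hasDerivAt_id y).const_add σ).log h1.ne').sub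
        (((hasDerivAt_id y).const_sub σ).log h2.ne')
      refine (h3.const_mul (k / (2 * σ))).congr_deriv ?_
      rw [hfI y hy]
      have h4 : 1 + a - y ^ 2 = (σ + y) * (σ - y) := by rw [← hσ2]; ring
      rw [h4]
      simp only [id]
      have h5 : σ ≠ 0 := by positivity
      field_simp
      ring
    rw [hI]
    have e1 : σ - -1 = σ + 1 := by ring
    have e2 : σ + -1 = σ - 1 := by ring
    rw [e1, e2]
    have l1 : 0 ≤ Real.log (σ + 1) := Real.log_nonneg (by linarith)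
    have l2 : Real.log (σ - 1) ≤ Real.log a := Real.log_le_log (by linarith) (by linarith)
    have l3 : Real.log a ≤ 0 := Real.log_nonpos ha.le ha1
    have e3 : k / (2 * σ) * (Real.log (σ + 1) - Real.log (σ - 1)) -
        k / (2 * σ) * (Real.log (σ - 1) - Real.log (σ + 1)) =
        k * (Real.log (σ + 1) - Real.log (σ - 1)) / σ := by
      field_simp
      ring
    rw [e3, le_div_iff₀ (by linarith)]
    have l4 : k * (-Real.log a) ≤ k * (Real.log (σ + 1) - Real.log (σ - 1)) := by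
      apply mul_le_mul_of_nonneg_left _ hk.le
      linarith
    rcases le_total D 0 with h | h
    · nlinarith [mul_nonneg hk.le (neg_nonneg.mpr l3)]
    · nlinarith
  · intro y hy
    rw [hd]
    exact hfI y hy

/-! ### the initial datum -/

theorem init (D B : ℝ) (hB : 0 < B) : ∃ (N : ℕ) (a : ℕ → ℝ) (v F : ℝ → ℝ),
    (∀ n, N ≤ n → a n = 0) ∧
    (∀ y, v y = ∑ n ∈ Finset.range N, a n * cU (2 * n) y) ∧
    (∀ y ∈ I1, 0 < v y ∧ deriv (deriv v) y < 0 ∧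
      -(deriv (deriv v) y) * (1 - y ^ 2) ^ 2 * √(1 - y ^ 2) < B * v y ^ 2 ∧
      6 ≤ 6 * v y ^ 2 + 4 * v y * ((1 - y ^ 2) * deriv (deriv v) y - 3 * y * deriv v y)
        - 6 * (1 - y ^ 2) * deriv v y ^ 2) ∧
    |v 0 - 1| < B ∧
    (∀ y ∈ Ioc (0 : ℝ) 1, 0 < y * v y + (1 - y ^ 2) * deriv v y) ∧
    ContDiff ℝ 1 F ∧ D ≤ F 1 - F (-1) ∧
    (∀ y ∈ I1, v y ^ 2 * (1 - y ^ 2) * deriv F y ^ 2 ≤ 1) := by
  obtain ⟨h, hhdef⟩ : ∃ h, h = min (1 / 10) (B / 10) := ⟨_, rfl⟩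
  have hh : 0 < h := by rw [hhdef]; positivity
  have hh1 : h ≤ 1 / 10 := by rw [hhdef]; exact min_le_left _ _
  have hhB : h ≤ B / 10 := by rw [hhdef]; exact min_le_right _ _
  obtain ⟨η, hη⟩ : ∃ η, η = h ^ 3 := ⟨_, rfl⟩
  obtain ⟨c, hc⟩ : ∃ c, c = 1 + 3 * h ^ 2 := ⟨_, rfl⟩
  have hη0 : 0 < η := by rw [hη]; positivity
  have hc1 : 1 ≤ c := by rw [hc]; nlinarith [sq_nonneg h]
  have hc0 : 0 < c := by linarith
  have hη1 : 4 * η < B := by
    rw [hη]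
    have : h ^ 3 = h * h ^ 2 := by ring
    rw [this]
    have h2 : h ^ 2 ≤ 1 / 100 := by nlinarith
    nlinarith
  obtain ⟨k, hk⟩ : ∃ k, k = η / (2 * c) := ⟨_, rfl⟩
  have hk0 : 0 < k := by rw [hk]; positivity
  obtain ⟨α, hα⟩ : ∃ α, α = Real.exp (-(2 * |D| / k)) := ⟨_, rfl⟩
  have hα0 : 0 < α := by rw [hα]; exact Real.exp_pos _
  have hα1 : α ≤ 1 := by
    rw [hα, Real.exp_le_one_iff]
    have : 0 ≤ 2 * |D| / k := by positivity
    linarith
  have hD : 2 * D ≤ k * (-Real.log α) := by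
    rw [hα, Real.log_exp, neg_neg, mul_div_cancel₀ _ hk0.ne']
    have := le_abs_self D
    linarith
  obtain ⟨F, hF, hFD, hF'⟩ := exists_F k α D hk0 hα0 hα1 hD
  have hy2 : ∀ y ∈ I1, y ^ 2 ≤ 1 := by
    intro y hy
    rw [sq_le_one_iff_abs_le_one, abs_le]
    exact hy
  -- the open set
  obtain ⟨U, hU⟩ : ∃ U : Set (ℝ × ℝ × ℝ × ℝ), U = {p | 0 < p.2.1 ∧ p.2.2.2 < 0 ∧
      -p.2.2.2 * ((1 - p.1 ^ 2) ^ 2 * √(1 - p.1 ^ 2)) < B * p.2.1 ^ 2 ∧
      0 < p.2.1 + (1 - p.1 ^ 2) * p.2.2.1 ∧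
      6 < 6 * p.2.1 ^ 2 + 4 * p.2.1 * ((1 - p.1 ^ 2) * p.2.2.2 - 3 * p.1 * (p.1 * p.2.2.1))
        - 6 * (1 - p.1 ^ 2) * (p.1 * p.2.2.1) ^ 2 ∧
      p.2.1 ^ 2 * (1 - p.1 ^ 2) * k ^ 2 < (1 + α - p.1 ^ 2) ^ 2} := ⟨_, rfl⟩
  have hUo : IsOpen U := by
    rw [hU]
    refine IsOpen.and (isOpen_lt (by fun_prop) (by fun_prop)) (IsOpen.and (isOpen_lt (by fun_prop) (by fun_prop))
      (IsOpen.and (isOpen_lt (by fun_prop) (by fun_prop)) (IsOpen.and (isOpen_lt (by fun_prop) (by fun_prop))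
      (IsOpen.and (isOpen_lt (by fun_prop) (by fun_prop)) (isOpen_lt (by fun_prop) (by fun_prop))))))
  have hpos : ∀ y ∈ I1, 0 < 1 + α - y ^ 2 := fun y hy => by linarith [hy2 y hy]
  have hR : ContinuousOn (fun y : ℝ => √(1 + α - y ^ 2)) I1 := by fun_prop
  have hR0 : ∀ y ∈ I1, 0 < √(1 + α - y ^ 2) := fun y hy => Real.sqrt_pos.mpr (hpos y hy)
  obtain ⟨ε, hε, hεU⟩ := open_cond
    (f := fun y => c * √(1 + α - y ^ 2) / (√(1 + α - y ^ 2) + η))
    (g := fun y => rr c η (√(1 + α - y ^ 2)))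
    (h := fun y => ww c η (√(1 + α - y ^ 2)) (1 + α) (y ^ 2))
    (ContinuousOn.div (continuousOn_const.mul hR) (hR.add continuousOn_const)
      fun y hy => by have := hR0 y hy; positivity)
    (by
      unfold rr
      exact ContinuousOn.div continuousOn_const (hR.mul ((hR.add continuousOn_const).pow 2))
        fun y hy => by have := hR0 y hy; positivity)
    (by
      unfold ww
      refine ContinuousOn.mul continuousOn_const (ContinuousOn.add ?_ ?_)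
      · refine ContinuousOn.div (by fun_prop) ((hR.pow 2).mul ((hR.add continuousOn_const).pow 3)) ?_
        intro y hy
        have := hR0 y hy
        positivity
      · refine ContinuousOn.div (by fun_prop) ((hR.pow 3).mul ((hR.add continuousOn_const).pow 2)) ?_
        intro y hy
        have := hR0 y hy
        positivity) U hUo
    (by
      intro y hy
      have he : √(1 + α - y ^ 2) ^ 2 = 1 + α - y ^ 2 := Real.sq_sqrt (hpos y hy).le
      have hρ := hR0 y hy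
      have hyy := hy2 y hy
      obtain ⟨ρ, hρd⟩ : ∃ ρ, ρ = √(1 + α - y ^ 2) := ⟨_, rfl⟩
      rw [← hρd] at he hρ
      rw [hU]
      simp only [mem_ofPred_eq]
      rw [← hρd]
      refine ⟨by positivity, ww_neg hc0 hη0 hρ (by linarith), F_ineq hρ hc1 hη0 hα0 hα1 hyy he hη1,
        P_ineq hρ hc0 hη0 (by linarith), scal_ineq hρ hh hh1 hα0 hyy he hη hc, ?_⟩
      rw [← he, hk]
      exact L_ineq hρ hc0 hη0 (by linarith))
  obtain ⟨v, v1, v2, r, hvS, hv1, hv2, hvr, hv0, hv⟩ := approx (c := c) hη0 (show 1 < 1 + α by linarith) ε hε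
  obtain ⟨N, a, ha, hva⟩ := exists_coef v hvS
  have hdv : deriv v = v1 := funext fun y => (hv1 y).deriv
  have hdv1 : deriv v1 = v2 := funext fun y => (hv2 y).deriv
  have hmem : ∀ y ∈ I1, (y, v y, r y, v2 y) ∈ U := by
    intro y hy
    obtain ⟨h1, h2, h3⟩ := hv y hy
    exact hεU y hy _ _ _ h1 h2 h3
  rw [hU] at hmem
  simp only [mem_ofPred_eq] at hmem
  refine ⟨N, a, v, F, ha, hva, ?_, ?_, ?_, hF, hFD, ?_⟩
  · intro y hy
    obtain ⟨m1, m2, m3, m4, m5, m6⟩ := hmem y hy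
    rw [hdv, hdv1, hvr y]
    refine ⟨m1, m2, ?_, m5.le⟩
    rw [mul_assoc]
    exact m3
  · rw [hv0]
    have hσ1 : 1 ≤ √(1 + α) := by
      rw [Real.one_le_sqrt]
      linarith
    obtain ⟨σ, hσ⟩ : ∃ σ, σ = √(1 + α) := ⟨_, rfl⟩
    rw [← hσ] at hσ1 ⊢
    have hT : 0 < σ + η := by positivity
    have h2 : h ^ 2 ≤ 1 / 10 * h := by nlinarith
    have h3 : h ^ 3 ≤ 1 / 100 * h := by
      have : h ^ 3 = h * h ^ 2 := by ring
      rw [this]
      nlinarith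
    rw [abs_lt]
    constructor
    · rw [lt_sub_iff_add_lt, lt_div_iff₀ hT]
      have : (1 - η) * (σ + η) ≤ σ := by nlinarith
      have h4 : σ ≤ c * σ := by nlinarith
      have h5 : -B + 1 < 1 - η := by linarith
      nlinarith
    · rw [sub_lt_iff_lt_add, div_lt_iff₀ hT]
      have h4 : c < B + 1 := by rw [hc]; nlinarith
      have h5 : c * σ ≤ c * (σ + η) := by nlinarith
      nlinarith
  · intro y hy
    have hy' : y ∈ I1 := ⟨by linarith [hy.1], hy.2⟩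
    obtain ⟨m1, m2, m3, m4, m5, m6⟩ := hmem y hy'
    rw [hdv, hvr y]
    have : y * v y + (1 - y ^ 2) * (y * r y) = y * (v y + (1 - y ^ 2) * r y) := by ring
    rw [this]
    exact mul_pos hy.1 m4
  · intro y hy
    obtain ⟨m1, m2, m3, m4, m5, m6⟩ := hmem y hy
    rw [hF' y hy, div_pow, ← mul_div_assoc, div_le_one (pow_pos (hpos y hy) 2)]
    exact m6.le

end Pool.Agent.RFq
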