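import Pool.Agent.RFq.LeC

/-!
# MP_ae1fc5_gt, Q1, local existence: the limit
-/

set_option autoImplicit false

open scoped Real ContDiff Topology
open Set Filter

noncomputable section

namespace Pool.Agent.RFq

open Pool.Agent.MP_ae1fc5_gt Pool.Agent.MP_ae1fc5_gt.Pde

-- BEGIN d1
/-- (d1, size 1) PROOF. `isCompact_Icc.ultrafilter_le_nhds`. -/
theorem ultra_lim (U : Ultrafilter ℕ) (f : ℕ → ℝ) (B : ℝ) (h : ∀ᶠ N in (U : Filter ℕ), |f N| ≤ B) :
    ∃ l : ℝ, |l| ≤ B ∧ Tendsto f (U : Filter ℕ) (𝓝 l) := by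
  have h1 : ((U.map f : Ultrafilter ℝ) : Filter ℝ) ≤ 𝓟 (Icc (-B) B) := by
    rw [le_principal_iff]
    show f ⁻¹' Icc (-B) B ∈ (U : Filter ℕ)
    filter_upwards [h] with N hN
    exact abs_le.1 hN
  obtain ⟨l, hl, hle⟩ := isCompact_Icc.ultrafilter_le_nhds (U.map f) h1
  exact ⟨l, abs_le.2 hl, hle⟩

/-- (d1, size 2) Limits of solutions. PROOF. for `s, t ∈ Icc 0 T`: `|f N t - f N s - (t - s) * g N s| ≤ L * |t - s| ^ 2` (mean value inequality for
`r ↦ f N r - (r - s) * g N s` on the segment, derivative `g N r - g N s`); pass to the limit in `N`; then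
`hasDerivWithinAt_iff_isLittleO` (the remainder is `≤ L |t - s| ^ 2`). -/
theorem lim_deriv (U : Filter ℕ) [U.NeBot] (T L : ℝ) (f g : ℕ → ℝ → ℝ) (F G : ℝ → ℝ)
    (hd : ∀ᶠ N in U, ∀ t ∈ Icc 0 T, HasDerivWithinAt (f N) (g N t) (Icc 0 T) t)
    (hl : ∀ᶠ N in U, ∀ s ∈ Icc 0 T, ∀ t ∈ Icc 0 T, |g N t - g N s| ≤ L * |t - s|)
    (hF : ∀ t ∈ Icc 0 T, Tendsto (fun N => f N t) U (𝓝 (F t)))
    (hG : ∀ t ∈ Icc 0 T, Tendsto (fun N => g N t) U (𝓝 (G t))) :
    ∀ t ∈ Icc 0 T, HasDerivWithinAt F (G t) (Icc 0 T) t := by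
  have key : ∀ s ∈ Icc 0 T, ∀ t ∈ Icc 0 T, |F t - F s - (t - s) * G s| ≤ |L| * |t - s| ^ 2 := by
    intro s hs t ht
    have h1 : Tendsto (fun N => |f N t - f N s - (t - s) * g N s|) U
        (𝓝 |F t - F s - (t - s) * G s|) :=
      (((hF t ht).sub (hF s hs)).sub ((hG s hs).const_mul _)).abs
    refine le_of_tendsto h1 ?_
    filter_upwards [hd, hl] with N hdN hlN
    have hsub : uIcc s t ⊆ Icc 0 T := by
      intro r hr
      rw [mem_uIcc] at hr
      rcases hr with h | h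
      · exact ⟨hs.1.trans h.1, h.2.trans ht.2⟩
      · exact ⟨ht.1.trans h.1, h.2.trans hs.2⟩
    have hb : ∀ r ∈ uIcc s t, ‖g N r - g N s‖ ≤ |L| * |t - s| := by
      intro r hr
      rw [Real.norm_eq_abs]
      refine (hlN s hs r (hsub hr)).trans ?_
      refine (mul_le_mul_of_nonneg_right (le_abs_self L) (abs_nonneg _)).trans ?_
      refine mul_le_mul_of_nonneg_left ?_ (abs_nonneg L)
      rw [mem_uIcc] at hr
      rcases hr with h | h
      · rw [abs_of_nonneg (by linarith [h.1] : (0:ℝ) ≤ r - s),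
          abs_of_nonneg (by linarith [h.1, h.2] : (0:ℝ) ≤ t - s)]
        linarith [h.2]
      · rw [abs_of_nonpos (by linarith [h.2] : r - s ≤ 0),
          abs_of_nonpos (by linarith [h.1, h.2] : t - s ≤ 0)]
        linarith [h.1]
    have hder : ∀ r ∈ uIcc s t,
        HasDerivWithinAt (fun r => f N r - (r - s) * g N s) (g N r - g N s) (uIcc s t) r := by
      intro r hr
      have h2 := (hdN r (hsub hr)).mono hsub
      have h3 : HasDerivWithinAt (fun r : ℝ => (r - s) * g N s) (g N s) (uIcc s t) r := by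
        have := (((hasDerivAt_id r).sub_const s).mul_const (g N s)).hasDerivWithinAt (s := uIcc s t)
        simpa only [id_eq, one_mul] using this
      exact h2.sub h3
    have h4 := (convex_uIcc s t).norm_image_sub_le_of_norm_hasDerivWithin_le hder hb
      left_mem_uIcc right_mem_uIcc
    rw [Real.norm_eq_abs, Real.norm_eq_abs] at h4
    have h5 : f N t - (t - s) * g N s - (f N s - (s - s) * g N s) =
        f N t - f N s - (t - s) * g N s := by ring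
    rw [h5] at h4
    refine h4.trans (le_of_eq ?_)
    ring
  intro s hs
  rw [hasDerivWithinAt_iff_isLittleO]
  rw [Asymptotics.isLittleO_iff]
  intro c hc
  have h1 : ∀ᶠ t in 𝓝[Icc 0 T] s, |t - s| < c / (|L| + 1) := by
    have h2 : Metric.ball s (c / (|L| + 1)) ∈ 𝓝 s := Metric.ball_mem_nhds _ (by positivity)
    filter_upwards [mem_nhdsWithin_of_mem_nhds h2] with t ht
    rw [Metric.mem_ball, Real.dist_eq] at ht
    exact ht
  filter_upwards [h1, self_mem_nhdsWithin] with t ht htI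
  have h2 := key s hs t htI
  rw [Real.norm_eq_abs, Real.norm_eq_abs, smul_eq_mul]
  refine h2.trans ?_
  rw [sq, ← mul_assoc]
  refine mul_le_mul_of_nonneg_right ?_ (abs_nonneg _)
  have h3 : |L| * |t - s| ≤ (|L| + 1) * (c / (|L| + 1)) :=
    mul_le_mul (by linarith) ht.le (abs_nonneg _) (by positivity)
  have h4 : (|L| + 1) * (c / (|L| + 1)) = c := by
    field_simp
  linarith
-- END d1

-- BEGIN d2
private theorem d2_sw : Summable (fun n : ℕ => (wt n ^ 2)⁻¹) :=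
  summable_of_sum_range_le (fun n => inv_nonneg.mpr (pow_nonneg (wt_pos n).le 2)) sum_inv_wt

private theorem d2_cU (n : ℕ) (y : ℝ) (hy : y ∈ I1) : |cU (2 * n) y| ≤ wt n := by
  have hy' : |y| ≤ ((1 : ℝ) + 1 / 1) / 2 := by
    rw [abs_le]
    obtain ⟨h1, h2⟩ := hy
    constructor <;> linarith
  have h := Pool.Agent.MP_ae1fc5_gt.Pde.cU_bound 1 le_rfl y hy' (2 * n)
  rw [one_pow, mul_one] at h
  push_cast at h
  exact h

private theorem d2_z (n : ℕ) (u B : ℝ) (h : wt n ^ 5 * |u| ≤ B) (i : ℕ) (hi : i ≤ 3) :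
    wt n ^ i * |u| ≤ B * (wt n ^ 2)⁻¹ := by
  have hw := one_le_wt n
  have hw0 := wt_pos n
  have h2 : 0 < wt n ^ 2 := by positivity
  rw [← div_eq_mul_inv, le_div_iff₀ h2]
  calc wt n ^ i * |u| * wt n ^ 2 ≤ wt n ^ 3 * |u| * wt n ^ 2 := by
        apply mul_le_mul_of_nonneg_right _ h2.le
        exact mul_le_mul_of_nonneg_right (pow_le_pow_right₀ hw hi) (abs_nonneg u)
    _ = wt n ^ 5 * |u| := by ring
    _ ≤ B := h

/-- (d2, size 2) PROOF. `Dn N (z N) k` is the `tsum` over `ℕ × ℕ × ℕ` of the terms with all indices `< N`; dominated convergence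
(`tendsto_tsum_of_dominated_convergence` holds for every filter) with the bound `C B ^ 3 * (wt l ^ 2 * wt m ^ 2 * wt n ^ 2)⁻¹` (`tq_wt 1`:
`|tq l m n k| ≤ C wt l ^ 3 wt m ^ 3 wt n ^ 3`; `|z N l| ≤ B * (wt l ^ 5)⁻¹`); for every fixed triple the condition `< N` holds eventually (`hU`). -/
theorem Dn_tendsto (U : Filter ℕ) [U.NeBot] (hU : U ≤ atTop) (z : ℕ → ℕ → ℝ) (x : ℕ → ℝ) (B : ℝ)
    (hb : ∀ᶠ N in U, ∀ k, wt k ^ 5 * |z N k| ≤ B)
    (hz : ∀ k, Tendsto (fun N => z N k) U (𝓝 (x k))) (k : ℕ) :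
    Tendsto (fun N => Dn N (z N) k) U (𝓝 (Dv x k)) := by
  obtain ⟨C, hC0, hC⟩ := tq_wt 1 le_rfl
  have htq : ∀ l m n : ℕ, |tq l m n k| ≤ C * (wt l ^ 3 * (wt m ^ 3 * wt n ^ 3)) := by
    intro l m n
    have h1 := hC (k + 1) l m n
    have h2 : wt k ^ 1 * |tq l m n k| ≤ ∑ j ∈ Finset.range (k + 1), wt j ^ 1 * |tq l m n j| :=
      Finset.single_le_sum (f := fun j => wt j ^ 1 * |tq l m n j|)
        (fun j _ => mul_nonneg (pow_nonneg (wt_pos j).le 1) (abs_nonneg _))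
        (Finset.mem_range.mpr (Nat.lt_succ_self k))
    have h3 : |tq l m n k| ≤ wt k ^ 1 * |tq l m n k| := by
      rw [pow_one]
      exact le_mul_of_one_le_left (abs_nonneg _) (one_le_wt k)
    exact h3.trans (h2.trans h1)
  set F : ℕ → ℕ × ℕ × ℕ → ℝ := fun N p =>
    if p.1 < N ∧ p.2.1 < N ∧ p.2.2 < N then
      tq p.1 p.2.1 p.2.2 k * (z N p.1 * (z N p.2.1 * z N p.2.2)) else 0 with hF
  have hsum : ∀ N, Dn N (z N) k = (∑' p, F N p) - 2 * z N k := by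
    intro N
    have e1 : ∑' p, F N p =
        ∑ p ∈ Finset.range N ×ˢ (Finset.range N ×ˢ Finset.range N), F N p := by
      refine tsum_eq_sum fun p hp => ?_
      simp only [Finset.mem_product, Finset.mem_range] at hp
      simp only [hF]
      rw [if_neg hp]
    rw [e1, Finset.sum_product]
    unfold Dn
    congr 1
    refine Finset.sum_congr rfl fun l hl => ?_
    rw [Finset.sum_product]
    refine Finset.sum_congr rfl fun m hm => ?_
    refine Finset.sum_congr rfl fun n hn => ?_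
    simp only [hF]
    rw [if_pos ⟨Finset.mem_range.mp hl, Finset.mem_range.mp hm, Finset.mem_range.mp hn⟩]
  simp_rw [hsum]
  unfold Dv
  refine Tendsto.sub ?_ ((hz k).const_mul 2)
  have hsw := d2_sw
  have hw0 : ∀ n : ℕ, 0 ≤ (wt n ^ 2)⁻¹ := fun n => inv_nonneg.mpr (pow_nonneg (wt_pos n).le 2)
  have hs2 : Summable (fun q : ℕ × ℕ => (wt q.1 ^ 2)⁻¹ * (wt q.2 ^ 2)⁻¹) :=
    hsw.mul_of_nonneg hsw hw0 hw0
  have hs3 : Summable (fun p : ℕ × ℕ × ℕ =>
      (wt p.1 ^ 2)⁻¹ * ((wt p.2.1 ^ 2)⁻¹ * (wt p.2.2 ^ 2)⁻¹)) :=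
    hsw.mul_of_nonneg hs2 hw0 (fun q => mul_nonneg (hw0 _) (hw0 _))
  refine tendsto_tsum_of_dominated_convergence (hs3.mul_left (C * B ^ 3)) ?_ ?_
  · intro p
    have h1 : Tendsto (fun N => tq p.1 p.2.1 p.2.2 k * (z N p.1 * (z N p.2.1 * z N p.2.2))) U
        (𝓝 (tq p.1 p.2.1 p.2.2 k * (x p.1 * (x p.2.1 * x p.2.2)))) :=
      ((hz p.1).mul ((hz p.2.1).mul (hz p.2.2))).const_mul _
    refine h1.congr' ?_
    have h2 : ∀ᶠ N in U, p.1 + p.2.1 + p.2.2 < N := hU (eventually_gt_atTop _)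
    filter_upwards [h2] with N hN
    simp only [hF]
    rw [if_pos ⟨by omega, by omega, by omega⟩]
  · filter_upwards [hb] with N hN p
    have hB0 : 0 ≤ B := le_trans (mul_nonneg (pow_nonneg (wt_pos 0).le 5) (abs_nonneg _)) (hN 0)
    simp only [hF]
    split_ifs with hp
    · rw [Real.norm_eq_abs, abs_mul, abs_mul, abs_mul]
      have a1 := d2_z p.1 (z N p.1) B (hN _) 3 le_rfl
      have a2 := d2_z p.2.1 (z N p.2.1) B (hN _) 3 le_rfl
      have a3 := d2_z p.2.2 (z N p.2.2) B (hN _) 3 le_rfl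
      have b1 : 0 ≤ wt p.1 ^ 3 * |z N p.1| :=
        mul_nonneg (pow_nonneg (wt_pos _).le 3) (abs_nonneg _)
      have b2 : 0 ≤ wt p.2.1 ^ 3 * |z N p.2.1| :=
        mul_nonneg (pow_nonneg (wt_pos _).le 3) (abs_nonneg _)
      have b3 : 0 ≤ wt p.2.2 ^ 3 * |z N p.2.2| :=
        mul_nonneg (pow_nonneg (wt_pos _).le 3) (abs_nonneg _)
      have c0 : 0 ≤ |z N p.1| * (|z N p.2.1| * |z N p.2.2|) :=
        mul_nonneg (abs_nonneg _) (mul_nonneg (abs_nonneg _) (abs_nonneg _))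
      calc |tq p.1 p.2.1 p.2.2 k| * (|z N p.1| * (|z N p.2.1| * |z N p.2.2|))
          ≤ C * (wt p.1 ^ 3 * (wt p.2.1 ^ 3 * wt p.2.2 ^ 3)) *
              (|z N p.1| * (|z N p.2.1| * |z N p.2.2|)) :=
            mul_le_mul_of_nonneg_right (htq _ _ _) c0
        _ = C * ((wt p.1 ^ 3 * |z N p.1|) *
              ((wt p.2.1 ^ 3 * |z N p.2.1|) * (wt p.2.2 ^ 3 * |z N p.2.2|))) := by ring
        _ ≤ C * ((B * (wt p.1 ^ 2)⁻¹) *
              ((B * (wt p.2.1 ^ 2)⁻¹) * (B * (wt p.2.2 ^ 2)⁻¹))) := by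
            refine mul_le_mul_of_nonneg_left ?_ hC0
            exact mul_le_mul a1 (mul_le_mul a2 a3 b3 (mul_nonneg hB0 (hw0 _)))
              (mul_nonneg b2 b3) (mul_nonneg hB0 (hw0 _))
        _ = C * B ^ 3 * ((wt p.1 ^ 2)⁻¹ * ((wt p.2.1 ^ 2)⁻¹ * (wt p.2.2 ^ 2)⁻¹)) := by ring
    · rw [norm_zero]
      exact mul_nonneg (mul_nonneg hC0 (pow_nonneg hB0 3))
        (mul_nonneg (hw0 _) (mul_nonneg (hw0 _) (hw0 _)))

/-- (d2, size 1) the same for `∑ n < N, z N n * cU (2 n) y` (`|cU (2 n) y| ≤ wt n`, `cU_bound` with `r = 1`). -/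
theorem V_tendsto (U : Filter ℕ) [U.NeBot] (hU : U ≤ atTop) (z : ℕ → ℕ → ℝ) (x : ℕ → ℝ) (B : ℝ)
    (hb : ∀ᶠ N in U, ∀ k, wt k ^ 5 * |z N k| ≤ B)
    (hz : ∀ k, Tendsto (fun N => z N k) U (𝓝 (x k))) (y : ℝ) (hy : y ∈ I1) :
    Tendsto (fun N => ∑ n ∈ Finset.range N, z N n * cU (2 * n) y) U
      (𝓝 (∑' n, x n * cU (2 * n) y)) := by
  set F : ℕ → ℕ → ℝ := fun N n => if n < N then z N n * cU (2 * n) y else 0 with hF
  have hsum : ∀ N, ∑ n ∈ Finset.range N, z N n * cU (2 * n) y = ∑' n, F N n := by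
    intro N
    have e1 : ∑' n, F N n = ∑ n ∈ Finset.range N, F N n := by
      refine tsum_eq_sum fun n hn => ?_
      simp only [Finset.mem_range] at hn
      simp only [hF]
      rw [if_neg hn]
    rw [e1]
    refine Finset.sum_congr rfl fun n hn => ?_
    simp only [hF]
    rw [if_pos (Finset.mem_range.mp hn)]
  simp_rw [hsum]
  have hw0 : ∀ n : ℕ, 0 ≤ (wt n ^ 2)⁻¹ := fun n => inv_nonneg.mpr (pow_nonneg (wt_pos n).le 2)
  refine tendsto_tsum_of_dominated_convergence (d2_sw.mul_left B) ?_ ?_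
  · intro n
    refine ((hz n).mul_const (cU (2 * n) y)).congr' ?_
    have h2 : ∀ᶠ N in U, n < N := hU (eventually_gt_atTop _)
    filter_upwards [h2] with N hN
    simp only [hF]
    rw [if_pos hN]
  · filter_upwards [hb] with N hN n
    have hB0 : 0 ≤ B := le_trans (mul_nonneg (pow_nonneg (wt_pos 0).le 5) (abs_nonneg _)) (hN 0)
    simp only [hF]
    split_ifs with hp
    · rw [Real.norm_eq_abs, abs_mul]
      have a1 := d2_z n (z N n) B (hN _) 1 (by norm_num)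
      rw [pow_one] at a1
      calc |z N n| * |cU (2 * n) y| ≤ |z N n| * wt n :=
            mul_le_mul_of_nonneg_left (d2_cU n y hy) (abs_nonneg _)
        _ = wt n * |z N n| := mul_comm _ _
        _ ≤ B * (wt n ^ 2)⁻¹ := a1
    · rw [norm_zero]
      exact mul_nonneg hB0 (hw0 _)
-- END d2

-- BEGIN d3
/-- (d3, size 1) PROOF. `wt n ^ (m+1) * |a n| ≤ C`, so the sum is at most `C ^ 2 * ∑ (wt n ^ 2)⁻¹ ≤ 2 * C ^ 2` (`sum_inv_wt`). -/
theorem n2_bdd (a : ℕ → ℝ) (ha : ∀ m : ℕ, ∃ C : ℝ, ∀ n, wt n ^ m * |a n| ≤ C) (m : ℕ) :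
    ∃ B : ℝ, 0 ≤ B ∧ ∀ N, n2 N m a ≤ B := by
  obtain ⟨C, hC⟩ := ha (m + 1)
  have hC0 : 0 ≤ C := le_trans (mul_nonneg (pow_nonneg (wt_pos 0).le _) (abs_nonneg _)) (hC 0)
  refine ⟨2 * C, by linarith, fun N => n2_le_of_sq N m a (2 * C) (by linarith) ?_⟩
  have h1 : ∀ n ∈ Finset.range N, wt n ^ (2 * m) * a n ^ 2 ≤ C ^ 2 * (wt n ^ 2)⁻¹ := by
    intro n _
    have hw := wt_pos n
    have h2 : (wt n ^ (m + 1) * |a n|) ^ 2 ≤ C ^ 2 :=
      pow_le_pow_left₀ (mul_nonneg (pow_nonneg hw.le _) (abs_nonneg _)) (hC n) 2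
    rw [← div_eq_mul_inv, le_div_iff₀ (pow_pos hw 2)]
    refine le_trans (le_of_eq ?_) h2
    rw [mul_pow, sq_abs]
    ring
  have h3 := Finset.sum_le_sum h1
  rw [← Finset.mul_sum] at h3
  have h4 := sum_inv_wt N
  have h5 : C ^ 2 * ∑ n ∈ Finset.range N, (wt n ^ 2)⁻¹ ≤ C ^ 2 * 2 :=
    mul_le_mul_of_nonneg_left h4 (sq_nonneg C)
  nlinarith [sq_nonneg C]

/-- (d3, size 1) PROOF. the tail `∑ n ≥ N, wt n * |a n|` tends to 0 (`Summable`, `tendsto_sum_nat_add` or `Summable.tendsto_sum_tsum_nat`). -/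
theorem init_pos (c : ℝ) (hc : 0 < c) (a : ℕ → ℝ)
    (ha : ∀ m : ℕ, ∃ C : ℝ, ∀ n, wt n ^ m * |a n| ≤ C)
    (hp : ∀ y ∈ I1, 3 * c ≤ ∑' n, a n * cU (2 * n) y) :
    ∃ N₀ : ℕ, ∀ N, N₀ ≤ N → ∀ y ∈ I1, 2 * c ≤ ∑ n ∈ Finset.range N, a n * cU (2 * n) y := by
  obtain ⟨C, hC⟩ := ha 3
  have hsw : Summable fun n => (wt n ^ 2)⁻¹ :=
    summable_of_sum_range_le (fun n => inv_nonneg.2 (pow_nonneg (wt_pos n).le 2)) sum_inv_wt
  have hb : ∀ n, wt n * |a n| ≤ C * (wt n ^ 2)⁻¹ := by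
    intro n
    have hw := wt_pos n
    rw [← div_eq_mul_inv, le_div_iff₀ (pow_pos hw 2)]
    refine le_trans (le_of_eq ?_) (hC n)
    ring
  have hsb : Summable fun n => wt n * |a n| :=
    Summable.of_nonneg_of_le (fun n => mul_nonneg (wt_pos n).le (abs_nonneg _)) hb (hsw.mul_left C)
  have htail : Tendsto (fun N => ∑' n, wt (n + N) * |a (n + N)|) atTop (𝓝 0) :=
    tendsto_sum_nat_add (fun n => wt n * |a n|)
  obtain ⟨N₀, hN₀⟩ := eventually_atTop.1 (htail.eventually (gt_mem_nhds hc))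
  refine ⟨N₀, fun N hN y hy => ?_⟩
  have hcu : ∀ n, ‖a n * cU (2 * n) y‖ ≤ wt n * |a n| := by
    intro n
    rw [Real.norm_eq_abs, abs_mul, mul_comm]
    refine mul_le_mul_of_nonneg_right ?_ (abs_nonneg _)
    have h0 : |y| ≤ ((1 : ℝ) + 1 / 1) / 2 := by
      rw [abs_le]
      constructor <;> norm_num <;> linarith [hy.1, hy.2]
    have h1 := cU_bound 1 le_rfl y h0 (2 * n)
    rw [one_pow, mul_one] at h1
    refine h1.trans (le_of_eq ?_)
    unfold wt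
    push_cast
    ring
  have hs : Summable fun n => a n * cU (2 * n) y := Summable.of_norm_bounded hsb hcu
  have h1 := hs.sum_add_tsum_nat_add N
  have h2 : ‖∑' n, a (n + N) * cU (2 * (n + N)) y‖ ≤ ∑' n, wt (n + N) * |a (n + N)| :=
    tsum_of_norm_bounded ((summable_nat_add_iff N).2 hsb).hasSum (fun n => hcu (n + N))
  have h3 := (abs_le.1 ((Real.norm_eq_abs _).symm.le.trans h2)).2
  have h4 := hN₀ N hN
  have h5 := hp y hy
  linarith
-- END d3

-- BEGIN d4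
/-- (d4, size 3) LOCAL EXISTENCE. PROOF. `galerkin A c` gives `τ, M`. For `N ≥ N₀` (`init_pos`) the solution `z N k t`; `U = Filter.hyperfilter ℕ`
(`Filter.Nat.hyperfilter_le_atTop`). Bounds: `wt k ^ m * |z N k t| ≤ n2 N m (z N t) ≤ M m * n2 N m a ≤ M m * B m` (`abs_le_n2`, `n2_bdd`; `m = 0` from `m = 1`;
for `k ≥ N` it is 0). `x k t` = the `U`-limit (`ultra_lim`, choice). `dec`: passes to the limit. `ode`: `lim_deriv` with `g N t = Dn N (z N t) k` (`N > k`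
eventually), `Dn_tendsto` (constant for `m = 5`), the Lipschitz bound by `Dn_lip` and `n1_lip` with `i = 3`, `Dn_le 3` (`n1 N 5 ≤ 2 n2 N 6`). `pos`:
`V_tendsto`, `c ≤` passes to the limit; `Ser x 0 t y = ∑' k, x k t * cU (2 k) y` (`dU_zero`). -/
theorem le (A c : ℝ) (hA : 0 < A) (hc : 0 < c) : ∃ τ : ℝ, 0 < τ ∧ ∀ a : ℕ → ℝ,
    (∀ m : ℕ, ∃ C : ℝ, ∀ n, wt n ^ m * |a n| ≤ C) → (∀ L, n2 L 4 a ≤ A) →
    (∀ y ∈ I1, 3 * c ≤ ∑' n, a n * cU (2 * n) y) →
    ∃ x : ℕ → ℝ → ℝ, CSol τ x ∧ (∀ n, x n 0 = a n) := by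
  obtain ⟨τ, hτ, M, hM, hg⟩ := galerkin A c hA hc
  obtain ⟨Cl, hCl, hlip⟩ := Dn_lip
  obtain ⟨C3, hC3, hle3⟩ := Dn_le 3 (by norm_num)
  refine ⟨τ, hτ, fun a ha hA4 hp => ?_⟩
  obtain ⟨N₀, hN₀⟩ := init_pos c hc a ha hp
  have hex : ∀ N, ∃ z : ℕ → ℝ → ℝ, N₀ ≤ N → ((∀ k < N, z k 0 = a k) ∧
      (∀ k, N ≤ k → ∀ t, z k t = 0) ∧
      (∀ k < N, ∀ t ∈ Icc 0 τ, HasDerivWithinAt (z k) (Dn N (fun n => z n t) k) (Icc 0 τ) t) ∧
      (∀ j, 1 ≤ j → ∀ t ∈ Icc 0 τ, n2 N j (fun n => z n t) ≤ M j * n2 N j a) ∧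
      (∀ t ∈ Icc 0 τ, ∀ y ∈ I1, c ≤ ∑ n ∈ Finset.range N, z n t * cU (2 * n) y)) := by
    intro N
    by_cases h : N₀ ≤ N
    · obtain ⟨z, hz⟩ := hg N a (hA4 N) (hN₀ N h)
      exact ⟨z, fun _ => hz⟩
    · exact ⟨fun _ _ => 0, fun h' => absurd h' h⟩
  choose z hz using hex
  have hBex := n2_bdd a ha
  choose B hB0 hB using hBex
  -- uniform bounds
  have hn2 : ∀ j, 1 ≤ j → ∀ N, N₀ ≤ N → ∀ t ∈ Icc 0 τ, n2 N j (fun n => z N n t) ≤ M j * B j := by
    intro j hj N hN t ht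
    exact ((hz N hN).2.2.2.1 j hj t ht).trans (mul_le_mul_of_nonneg_left (hB j N) (hM j))
  have hbd : ∀ m, ∀ N, N₀ ≤ N → ∀ k, ∀ t ∈ Icc 0 τ,
      wt k ^ m * |z N k t| ≤ M (m + 1) * B (m + 1) := by
    intro m N hN k t ht
    have h0 : 0 ≤ M (m + 1) * B (m + 1) := mul_nonneg (hM _) (hB0 _)
    by_cases hk : k < N
    · have h1 : wt k ^ m * |z N k t| ≤ wt k ^ (m + 1) * |z N k t| :=
        mul_le_mul_of_nonneg_right (pow_le_pow_right₀ (one_le_wt k) (by omega)) (abs_nonneg _)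
      have h2 := abs_le_n2 N (m + 1) k hk (fun n => z N n t)
      exact h1.trans (h2.trans (hn2 (m + 1) (by omega) N hN t ht))
    · rw [(hz N hN).2.1 k (by omega) t, abs_zero, mul_zero]
      exact h0
  -- the ultrafilter
  obtain ⟨U, hUdef⟩ : ∃ U : Ultrafilter ℕ, U = Filter.hyperfilter ℕ := ⟨_, rfl⟩
  have hU : (U : Filter ℕ) ≤ atTop := by
    rw [hUdef]
    exact Nat.hyperfilter_le_atTop
  have hNev : ∀ᶠ N in (U : Filter ℕ), N₀ ≤ N := hU (eventually_ge_atTop N₀)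
  have hlim : ∀ k t, ∃ l : ℝ, t ∈ Icc 0 τ → Tendsto (fun N => z N k t) (U : Filter ℕ) (𝓝 l) := by
    intro k t
    by_cases ht : t ∈ Icc 0 τ
    · obtain ⟨l, -, hl⟩ := ultra_lim U (fun N => z N k t) (M 1 * B 1) (by
        filter_upwards [hNev] with N hN
        have := hbd 0 N hN k t ht
        simpa using this)
      exact ⟨l, fun _ => hl⟩
    · exact ⟨0, fun h => absurd h ht⟩
  choose x hx using hlim
  have hdec : ∀ m, ∀ k, ∀ t ∈ Icc 0 τ, wt k ^ m * |x k t| ≤ M (m + 1) * B (m + 1) := by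
    intro m k t ht
    refine le_of_tendsto ((hx k t ht).abs.const_mul (wt k ^ m)) ?_
    filter_upwards [hNev] with N hN
    exact hbd m N hN k t ht
  refine ⟨x, ⟨fun m => ⟨M (m + 1) * B (m + 1), fun n t ht => hdec m n t ht⟩, ?_, ?_⟩, ?_⟩
  · intro t ht y hy
    have h1 := V_tendsto (U : Filter ℕ) hU (fun N k => z N k t) (fun k => x k t)
      (M 6 * B 6) (by
        filter_upwards [hNev] with N hN k
        exact hbd 5 N hN k t ht) (fun k => hx k t ht) y hy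
    have h2 : c ≤ ∑' n, x n t * cU (2 * n) y := by
      refine ge_of_tendsto h1 ?_
      filter_upwards [hNev] with N hN
      exact (hz N hN).2.2.2.2 t ht y hy
    have h3 : Ser x 0 t y = ∑' n, x n t * cU (2 * n) y := by
      unfold Ser
      simp only [dU_zero]
    rw [h3]
    exact lt_of_lt_of_le hc h2
  · intro k
    obtain ⟨P5, hP5⟩ : ∃ P5, P5 = 2 * (M 6 * B 6) := ⟨_, rfl⟩
    obtain ⟨P3, hP3⟩ : ∃ P3, P3 = 2 * (M 4 * B 4) := ⟨_, rfl⟩
    have hn1 : ∀ N, N₀ ≤ N → ∀ t ∈ Icc 0 τ, n1 N 5 (fun n => z N n t) ≤ P5 := by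
      intro N hN t ht
      rw [hP5]
      exact (n1_le_n2 N 5 _).trans
        (mul_le_mul_of_nonneg_left (hn2 6 (by norm_num) N hN t ht) (by norm_num))
    have hn1' : ∀ N, N₀ ≤ N → ∀ t ∈ Icc 0 τ, n1 N 3 (fun n => z N n t) ≤ P3 := by
      intro N hN t ht
      rw [hP3]
      exact (n1_le_n2 N 3 _).trans
        (mul_le_mul_of_nonneg_left (hn2 4 (by norm_num) N hN t ht) (by norm_num))
    obtain ⟨D, hD⟩ : ∃ D, D = C3 * P5 ^ 3 + 2 * P3 := ⟨_, rfl⟩
    obtain ⟨B', hB'⟩ : ∃ B', B' = max 1 P3 := ⟨_, rfl⟩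
    have hDn : ∀ N, N₀ ≤ N → ∀ t ∈ Icc 0 τ,
        n1 N 3 (fun j => Dn N (fun n => z N n t) j) ≤ D := by
      intro N hN t ht
      rw [hD]
      refine (hle3 N (fun n => z N n t)).trans ?_
      have h1 := hn1 N hN t ht
      have h2 := hn1' N hN t ht
      have h3 := n1_nonneg N 5 (fun n => z N n t)
      have h4 := pow_le_pow_left₀ h3 h1 3
      have h5 := mul_le_mul_of_nonneg_left h4 hC3
      linarith
    refine lim_deriv (U : Filter ℕ) τ (Cl * B' ^ 2 * D) (fun N => z N k)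
      (fun N t => Dn N (fun n => z N n t) k) (x k) (fun t => Dv (fun n => x n t) k) ?_ ?_ ?_ ?_
    · filter_upwards [hNev, hU (eventually_gt_atTop k)] with N hN hk t ht
      exact (hz N hN).2.2.1 k hk t ht
    · filter_upwards [hNev, hU (eventually_gt_atTop k)] with N hN hk s hs t ht
      have h1 := hlip N (fun n => z N n t) (fun n => z N n s) B' k (hB' ▸ le_max_left _ _)
        ((hn1' N hN t ht).trans (hB' ▸ le_max_right _ _))
        ((hn1' N hN s hs).trans (hB' ▸ le_max_right _ _)) hk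
      have h2 := n1_lip N 3 τ D (z N) (fun j t => Dn N (fun n => z N n t) j)
        (fun j hj t ht => (hz N hN).2.2.1 j hj t ht) (fun t ht => hDn N hN t ht) s hs t ht
      refine h1.trans ?_
      have h3 : 0 ≤ Cl * B' ^ 2 := by positivity
      calc Cl * B' ^ 2 * n1 N 3 (fun n => z N n t - z N n s)
          ≤ Cl * B' ^ 2 * (D * |t - s|) := mul_le_mul_of_nonneg_left h2 h3
        _ = Cl * B' ^ 2 * D * |t - s| := by ring
    · intro t ht
      exact hx k t ht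
    · intro t ht
      exact Dn_tendsto (U : Filter ℕ) hU (fun N n => z N n t) (fun n => x n t) (M 6 * B 6) (by
        filter_upwards [hNev] with N hN j
        exact hbd 5 N hN j t ht) (fun j => hx j t ht) k
  · intro n
    have h0 : (0 : ℝ) ∈ Icc 0 τ := ⟨le_rfl, hτ.le⟩
    have h1 := hx n 0 h0
    have h2 : Tendsto (fun N => z N n 0) (U : Filter ℕ) (𝓝 (a n)) := by
      refine tendsto_const_nhds.congr' ?_
      filter_upwards [hNev, hU (eventually_gt_atTop n)] with N hN hn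
      exact ((hz N hN).1 n hn).symm
    exact tendsto_nhds_unique h1 h2
-- END d4

end Pool.Agent.RFq
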