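import Pool.Agent.RFq.Defs

/-! Basic facts on the coefficient norms. -/

open scoped Quaternion ContDiff Matrix
open Set

noncomputable section

namespace Pool.Agent.RFq

open Pool.Agent.MP_ae1fc5_gt Pool.Agent.MP_ae1fc5_gt.Pde

theorem wt_pos (n : ℕ) : 0 < wt n := by unfold wt; positivity

theorem one_le_wt (n : ℕ) : 1 ≤ wt n := by
  unfold wt
  have : (0 : ℝ) ≤ n := Nat.cast_nonneg n
  linarith

theorem lam_wt (n : ℕ) : lam n + 1 = wt n ^ 2 := by unfold wt; exact lam_add_one n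

theorem lam_le_wt (n : ℕ) : lam n ≤ wt n ^ 2 := by have := lam_wt n; linarith

theorem n2_nonneg (L s : ℕ) (x : ℕ → ℝ) : 0 ≤ n2 L s x := Real.sqrt_nonneg _

theorem n1_nonneg (L s : ℕ) (x : ℕ → ℝ) : 0 ≤ n1 L s x :=
  Finset.sum_nonneg fun n _ => mul_nonneg (pow_nonneg (wt_pos n).le _) (abs_nonneg _)

theorem n2_sq (L s : ℕ) (x : ℕ → ℝ) :
    n2 L s x ^ 2 = ∑ n ∈ Finset.range L, wt n ^ (2 * s) * x n ^ 2 :=
  Real.sq_sqrt (Finset.sum_nonneg fun n _ =>
    mul_nonneg (pow_nonneg (wt_pos n).le _) (sq_nonneg _))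

/-- Cauchy-Schwarz. -/
theorem n2_cauchy (L : ℕ) (x z : ℕ → ℝ) :
    ∑ n ∈ Finset.range L, x n * z n ≤ n2 L 0 x * n2 L 0 z := by
  have h := Real.sum_mul_le_sqrt_mul_sqrt (Finset.range L) x z
  simpa [n2] using h

theorem n2_le_of_sq (L s : ℕ) (x : ℕ → ℝ) (B : ℝ) (hB : 0 ≤ B)
    (h : ∑ n ∈ Finset.range L, wt n ^ (2 * s) * x n ^ 2 ≤ B ^ 2) : n2 L s x ≤ B := by
  unfold n2
  exact Real.sqrt_le_iff.mpr ⟨hB, h⟩

theorem n2_le (L s : ℕ) (x z : ℕ → ℝ) (h : ∀ n < L, |x n| ≤ |z n|) : n2 L s x ≤ n2 L s z := by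
  unfold n2
  apply Real.sqrt_le_sqrt
  refine Finset.sum_le_sum fun n hn => ?_
  have h1 := h n (Finset.mem_range.mp hn)
  exact mul_le_mul_of_nonneg_left (sq_le_sq.mpr h1) (pow_nonneg (wt_pos n).le _)

theorem n2_congr (L s : ℕ) (x z : ℕ → ℝ) (h : ∀ n < L, x n = z n) : n2 L s x = n2 L s z :=
  le_antisymm (n2_le L s x z fun n hn => by rw [h n hn])
    (n2_le L s z x fun n hn => by rw [h n hn])

theorem n1_le (L s : ℕ) (x z : ℕ → ℝ) (h : ∀ n < L, |x n| ≤ |z n|) : n1 L s x ≤ n1 L s z :=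
  Finset.sum_le_sum fun n hn =>
    mul_le_mul_of_nonneg_left (h n (Finset.mem_range.mp hn)) (pow_nonneg (wt_pos n).le _)

theorem n2_mul (L s q : ℕ) (x : ℕ → ℝ) : n2 L s (fun n => wt n ^ q * x n) = n2 L (s + q) x := by
  unfold n2
  congr 1
  refine Finset.sum_congr rfl fun n _ => ?_
  rw [mul_pow, ← pow_mul, ← mul_assoc, ← pow_add]
  congr 2
  ring

theorem n1_mul (L s q : ℕ) (x : ℕ → ℝ) : n1 L s (fun n => wt n ^ q * x n) = n1 L (s + q) x := by
  unfold n1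
  refine Finset.sum_congr rfl fun n _ => ?_
  rw [abs_mul, abs_of_nonneg (pow_nonneg (wt_pos n).le q), ← mul_assoc, ← pow_add]

theorem n2_smul (L s : ℕ) (c : ℝ) (x : ℕ → ℝ) : n2 L s (fun n => c * x n) = |c| * n2 L s x := by
  unfold n2
  rw [← Real.sqrt_sq_eq_abs, ← Real.sqrt_mul (sq_nonneg c), Finset.mul_sum]
  congr 1
  refine Finset.sum_congr rfl fun n _ => ?_
  ring

theorem n1_smul (L s : ℕ) (c : ℝ) (x : ℕ → ℝ) : n1 L s (fun n => c * x n) = |c| * n1 L s x := by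
  unfold n1
  rw [Finset.mul_sum]
  refine Finset.sum_congr rfl fun n _ => ?_
  rw [abs_mul]; ring

/-- Triangle inequality. -/
theorem n2_add (L s : ℕ) (x z : ℕ → ℝ) :
    n2 L s (fun n => x n + z n) ≤ n2 L s x + n2 L s z := by
  apply n2_le_of_sq _ _ _ _ (add_nonneg (n2_nonneg _ _ _) (n2_nonneg _ _ _))
  have hc := n2_cauchy L (fun n => wt n ^ s * x n) (fun n => wt n ^ s * z n)
  rw [n2_mul, n2_mul, zero_add] at hc
  have h1 : ∑ n ∈ Finset.range L, wt n ^ (2 * s) * (x n + z n) ^ 2 =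
      (∑ n ∈ Finset.range L, wt n ^ (2 * s) * x n ^ 2) +
      2 * (∑ n ∈ Finset.range L, (wt n ^ s * x n) * (wt n ^ s * z n)) +
      ∑ n ∈ Finset.range L, wt n ^ (2 * s) * z n ^ 2 := by
    rw [Finset.mul_sum, ← Finset.sum_add_distrib, ← Finset.sum_add_distrib]
    refine Finset.sum_congr rfl fun n _ => ?_
    have : wt n ^ (2 * s) = wt n ^ s * wt n ^ s := by rw [← pow_add]; congr 1; ring
    rw [this]; ring
  rw [h1, ← n2_sq, ← n2_sq]
  nlinarith

theorem n1_add (L s : ℕ) (x z : ℕ → ℝ) :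
    n1 L s (fun n => x n + z n) ≤ n1 L s x + n1 L s z := by
  unfold n1
  rw [← Finset.sum_add_distrib]
  refine Finset.sum_le_sum fun n _ => ?_
  rw [← mul_add]
  exact mul_le_mul_of_nonneg_left (abs_add_le _ _) (pow_nonneg (wt_pos n).le _)

theorem n2_neg (L s : ℕ) (x : ℕ → ℝ) : n2 L s (fun n => -x n) = n2 L s x := by
  simp [n2]

theorem n1_neg (L s : ℕ) (x : ℕ → ℝ) : n1 L s (fun n => -x n) = n1 L s x := by
  simp [n1]

theorem n2_sub (L s : ℕ) (x z : ℕ → ℝ) :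
    n2 L s (fun n => x n - z n) ≤ n2 L s x + n2 L s z := by
  have h := n2_add L s x (fun n => -z n)
  rw [n2_neg] at h
  simpa [sub_eq_add_neg] using h

theorem n1_sub (L s : ℕ) (x z : ℕ → ℝ) :
    n1 L s (fun n => x n - z n) ≤ n1 L s x + n1 L s z := by
  have h := n1_add L s x (fun n => -z n)
  rw [n1_neg] at h
  simpa [sub_eq_add_neg] using h

theorem n2_mono (L : ℕ) {s s' : ℕ} (h : s ≤ s') (x : ℕ → ℝ) : n2 L s x ≤ n2 L s' x := by
  unfold n2
  apply Real.sqrt_le_sqrt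
  refine Finset.sum_le_sum fun n _ => ?_
  exact mul_le_mul_of_nonneg_right (pow_le_pow_right₀ (one_le_wt n) (by omega)) (sq_nonneg _)

theorem n1_mono (L : ℕ) {s s' : ℕ} (h : s ≤ s') (x : ℕ → ℝ) : n1 L s x ≤ n1 L s' x := by
  unfold n1
  refine Finset.sum_le_sum fun n _ => ?_
  exact mul_le_mul_of_nonneg_right (pow_le_pow_right₀ (one_le_wt n) h) (abs_nonneg _)

theorem n2_lam (L s : ℕ) (x : ℕ → ℝ) : n2 L s (fun n => lam n * x n) ≤ n2 L (s + 2) x := by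
  rw [← n2_mul]
  apply n2_le
  intro n _
  rw [abs_mul, abs_mul]
  apply mul_le_mul_of_nonneg_right _ (abs_nonneg _)
  rw [abs_of_nonneg (lam_nonneg n), abs_of_nonneg (pow_nonneg (wt_pos n).le 2)]
  exact lam_le_wt n

theorem n1_lam (L s : ℕ) (x : ℕ → ℝ) : n1 L s (fun n => lam n * x n) ≤ n1 L (s + 2) x := by
  rw [← n1_mul]
  apply n1_le
  intro n _
  rw [abs_mul, abs_mul]
  apply mul_le_mul_of_nonneg_right _ (abs_nonneg _)
  rw [abs_of_nonneg (lam_nonneg n), abs_of_nonneg (pow_nonneg (wt_pos n).le 2)]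
  exact lam_le_wt n

/-- Extra indices do not matter for finitely supported sequences. -/
theorem sum_ext (N L : ℕ) (hNL : N ≤ L) (f : ℕ → ℝ) (hf : ∀ n, N ≤ n → f n = 0) :
    ∑ n ∈ Finset.range L, f n = ∑ n ∈ Finset.range N, f n := by
  symm
  apply Finset.sum_subset (Finset.range_mono hNL)
  intro n _ hn
  exact hf n (by simpa using hn)

theorem n2_ext (N L : ℕ) (hNL : N ≤ L) (s : ℕ) (x : ℕ → ℝ) (hx : ∀ n, N ≤ n → x n = 0) :
    n2 L s x = n2 N s x := by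
  unfold n2
  rw [sum_ext N L hNL _ (fun n hn => by rw [hx n hn]; ring)]

theorem n1_ext (N L : ℕ) (hNL : N ≤ L) (s : ℕ) (x : ℕ → ℝ) (hx : ∀ n, N ≤ n → x n = 0) :
    n1 L s x = n1 N s x := by
  unfold n1
  rw [sum_ext N L hNL _ (fun n hn => by rw [hx n hn]; simp)]

theorem sum_inv_wt (L : ℕ) : ∑ n ∈ Finset.range L, (wt n ^ 2)⁻¹ ≤ 2 := by
  have h : ∀ L : ℕ, ∑ n ∈ Finset.range (L + 1), (wt n ^ 2)⁻¹ ≤ 2 - 1 / (2 * (L : ℝ) + 1) := by
    intro L
    induction L with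
    | zero => simp [wt]; norm_num
    | succ L ih =>
      rw [Finset.sum_range_succ]
      have h1 : (wt (L + 1) ^ 2)⁻¹ ≤ 1 / (2 * (L : ℝ) + 1) - 1 / (2 * ((L + 1 : ℕ) : ℝ) + 1) := by
        unfold wt
        push_cast
        have hL : (0 : ℝ) ≤ L := Nat.cast_nonneg L
        rw [div_sub_div _ _ (by positivity) (by positivity), inv_eq_one_div,
          div_le_div_iff₀ (by positivity) (by positivity)]
        nlinarith
      linarith
  rcases Nat.eq_zero_or_pos L with h0 | h0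
  · subst h0; simp
  · obtain ⟨M, rfl⟩ := Nat.exists_eq_succ_of_ne_zero h0.ne'
    have := h M
    have h2 : (0 : ℝ) ≤ 1 / (2 * (M : ℝ) + 1) := by positivity
    exact this.trans (by linarith)

/-- The l^1 norm is bounded by the next l^2 norm. -/
theorem n1_le_n2 (L s : ℕ) (x : ℕ → ℝ) : n1 L s x ≤ 2 * n2 L (s + 1) x := by
  have h1 : n1 L s x = ∑ n ∈ Finset.range L, (wt n)⁻¹ * (wt n ^ (s + 1) * |x n|) := by
    unfold n1
    refine Finset.sum_congr rfl fun n _ => ?_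
    have := (wt_pos n).ne'
    rw [pow_succ]
    field_simp
  rw [h1]
  refine (n2_cauchy L (fun n => (wt n)⁻¹) (fun n => wt n ^ (s + 1) * |x n|)).trans ?_
  rw [n2_mul, zero_add]
  have h2 : n2 L 0 (fun n => (wt n)⁻¹) ≤ 2 := by
    apply n2_le_of_sq _ _ _ _ (by norm_num)
    have := sum_inv_wt L
    simp only [mul_zero, pow_zero, one_mul, inv_pow]
    linarith
  have h3 : n2 L (s + 1) (fun n => |x n|) = n2 L (s + 1) x := by
    unfold n2
    simp
  rw [h3]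
  exact mul_le_mul_of_nonneg_right h2 (n2_nonneg _ _ _)

end Pool.Agent.RFq
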