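import Pool.Agent.RFq.Ser1

/-!
# R17, section 4: from the coefficients to `Sol` and `IsSol1`
-/

open scoped Quaternion ContDiff Matrix
open Set

noncomputable section

namespace Pool.Agent.RFq

open Pool.Agent.MP_ae1fc5_gt Pool.Agent.MP_ae1fc5_gt.Pde

/-- row t1. (uses s2, s3, s4, s6, s7, s8; `cU (2n)` is even, `dU 0 n = cU n`) -/
theorem csol_sol (Λ : ℝ) (hΛ : 0 < Λ) (x : ℕ → ℝ → ℝ) (h : CSol Λ x) :
    Sol Λ (Ser x) (Ser (Dx x)) (fun t y => ∫ z in (0 : ℝ)..y, Ser x 1 t z ^ 2) := by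
  have z0 : (0 : ℝ) ∈ Icc 0 Λ := ⟨le_rfl, hΛ.le⟩
  have zJ : (0 : ℝ) ∈ I1 := by constructor <;> norm_num
  have hx : RDec Λ x := h.dec
  have hxc : ∀ n, ContinuousOn (x n) (Icc 0 Λ) := fun n t ht =>
    (h.ode n t ht).continuousWithinAt
  have hD : RDec Λ (Dx x) := (s6 Λ x hx).1
  have hDc := (s6 Λ x hx).2 hxc
  refine ⟨fun j => (s3 Λ x hx hxc j).1, fun j => (s3 Λ (Dx x) hD hDc j).1, ?_,
    (s2 Λ x hx).2, (s2 Λ (Dx x) hD).2, fun j => s4 Λ hΛ x (Dx x) hx hD hDc h.ode j,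
    s8 Λ x hx, fun t ht => by simp, fun t ht y hy => (s7 Λ x hx t ht y hy).1, ?_, h.pos⟩
  · exact PartialsAux.continuousOn_param (convex_Icc _ _) zJ
      (fun t z => Ser x 1 t z ^ 2) ((s3 Λ x hx hxc 1).1.pow 2)
  · intro t ht y hy
    unfold Ser
    congr 1
    funext k
    rw [dU_zero, Ser1.even_cU]

/-- row t2. Bootstrap on the closed rectangle (old: `PolyC.deriv`, `bootstrap` in `PdeB.lean` with
`HasDerivWithinAt` in place of `HasDerivAt`; `contDiffOn_of_partials` of `Partials.lean` works on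
closed convex sets; `J t y = int_0^y F 1 t ^ 2` by `J0`, `dJ`, and `contDiffOn_integral_snd`).
In the end `derivWithin (F 0 t) I1 y = F 1 t y` etc. -/
theorem sol_issol1 (Λ : ℝ) (hΛ : 0 < Λ) (F G : ℕ → ℝ → ℝ → ℝ) (J : ℝ → ℝ → ℝ)
    (h : Sol Λ F G J) : IsSol1 Λ (F 0) := by
  exact sol_isSol1 hΛ h

end Pool.Agent.RFq
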