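import Pool.Agent.RFq.Est
import Pool.Agent.RFq.LeD
import Pool.Agent.RFq.Cont
import Pool.Agent.RFq.Ser2
import Pool.Agent.RFq.N0
import Pool.Agent.RFq.Init
import Pool.Agent.RFq.Flow1
import Pool.Agent.RFq.GH
import Pool.Agent.MP_ae1fc5_gt.RicciRot
import Pool.Agent.MP_ae1fc5_gt.RotMetric

/-!
# MP_ae1fc5_gt, Q1: assembly
-/

open scoped Quaternion ContDiff Matrix ENNReal
open Set

noncomputable section

namespace Pool.Agent.RFq

open Pool.Agent.MP_ae1fc5_gt Pool.Agent.MP_ae1fc5_gt.Pde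

/-- Time: `(1 - e^(-4Λ))/4` comes close to `1/4`. -/
theorem exists_time (δ : ℝ) (hδ : 0 < δ) :
    ∃ Λ : ℝ, 0 < Λ ∧ 1 / 4 - δ < (1 - Real.exp (-4 * Λ)) / 4 := by
  have h1 : Filter.Tendsto (fun Λ : ℝ => (1 - Real.exp (-4 * Λ)) / 4) Filter.atTop
      (nhds ((1 - 0) / 4)) := by
    refine Filter.Tendsto.div_const (Filter.Tendsto.const_sub _ ?_) _
    exact Real.tendsto_exp_atBot.comp
      ((Filter.tendsto_id.const_mul_atTop_of_neg (by norm_num : (-4 : ℝ) < 0)))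
  have h2 : ∀ᶠ Λ : ℝ in Filter.atTop, 1 / 4 - δ < (1 - Real.exp (-4 * Λ)) / 4 :=
    h1.eventually (lt_mem_nhds (by linarith))
  obtain ⟨Λ, hΛ⟩ := (h2.and (Filter.eventually_gt_atTop 0)).exists
  exact ⟨Λ, hΛ.2, hΛ.1⟩

theorem maxTime_gt1 (g : Field) (T s : ℝ) (hs : s < T) (hT : 0 < T) (G : ℝ → Field)
    (hG : IsRicciFlow G T) (h0 : ∀ x, x ≠ 0 → G 0 x = g x) : (s : EReal) < maxTime g := by
  refine lt_of_lt_of_le (EReal.coe_lt_coe_iff.mpr hs) ?_
  exact le_sSup ⟨T, rfl, hT, G, hG, h0⟩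

/-- The series of a finitely supported sequence. -/
theorem ser_finite (N : ℕ) (a : ℕ → ℝ) (ha : ∀ n, N ≤ n → a n = 0) (f : ℕ → ℝ) :
    ∑' n, a n * f n = ∑ n ∈ Finset.range N, a n * f n :=
  tsum_eq_sum fun n hn => by
    rw [ha n (not_lt.mp fun h => hn (Finset.mem_range.mpr h)), zero_mul]

theorem main : ∀ D : ℝ, ∀ δ > 0, ∃ g : Field, IsMetric g ∧ (∀ x, ‖x‖ = 1 → 6 ≤ scal g x) ∧
    (((1 / 4 - δ : ℝ)) : EReal) < maxTime g ∧ ENNReal.ofReal D ≤ dGH g roundMetric := by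
  intro D δ hδ
  obtain ⟨Λ, hΛ, hΛδ⟩ := exists_time δ hδ
  obtain ⟨B, hB, hap⟩ := apriori Λ hΛ
  obtain ⟨N, a, v, F, ha0, hv, hv1, hv2, hv3, hF, hFD, hvF⟩ := init (2 * D + Real.pi) B hB
  -- the derivatives of the initial function
  obtain ⟨w, hw⟩ : ∃ w : ℕ → ℝ → ℝ, w = fun j y =>
      ∑ n ∈ Finset.range N, a n * dU j (2 * n) y := ⟨_, rfl⟩
  have hwd : ∀ j y, HasDerivAt (w j) (w (j + 1) y) y := by
    intro j y
    rw [hw]
    exact HasDerivAt.fun_sum fun n _ => (dU_hasDerivAt j (2 * n) y).const_mul (a n)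
  have hw0 : w 0 = v := by
    funext y
    rw [hw, hv]
    simp only [dU_zero]
  have hw1 : deriv v = w 1 := by
    funext y
    rw [← hw0]
    exact (hwd 0 y).deriv
  have hw2 : deriv (deriv v) = w 2 := by
    rw [hw1]
    funext y
    exact (hwd 1 y).deriv
  have hser : ∀ j y, ∑' n, a n * dU j (2 * n) y = w j y := by
    intro j y
    rw [hw]
    exact ser_finite N a ha0 fun n => dU j (2 * n) y
  have heven : ∀ y, v (-y) = v y := by
    intro y
    rw [hv, hv]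
    exact Finset.sum_congr rfl fun n _ => by rw [Ser1.even_cU]
  rw [hw2] at hv1
  rw [hw1] at hv3
  have hw0y : ∀ y, w 0 y = v y := fun y => by rw [hw0]
  obtain ⟨c, K, hc, hcK⟩ := hap w (fun j y _ => (hwd j y).hasDerivWithinAt)
    (fun y _ => by rw [hw0y, hw0y, heven])
    (fun y hy => by
      obtain ⟨h1, h2, h3, _⟩ := hv1 y hy
      rw [hw0y]
      exact ⟨h1, h2, h3⟩)
    (by rw [hw0y]; exact hv2)
    (fun y hy => by rw [hw0y]; exact hv3 y hy)
  -- rapid decay of the data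
  have hdec : ∀ m : ℕ, ∃ C : ℝ, ∀ n, wt n ^ m * |a n| ≤ C := by
    intro m
    refine ⟨∑ n ∈ Finset.range N, wt n ^ m * |a n|, fun n => ?_⟩
    have hnn : ∀ k, 0 ≤ wt k ^ m * |a k| := fun k =>
      mul_nonneg (pow_nonneg (wt_pos k).le _) (abs_nonneg _)
    rcases lt_or_ge n N with h | h
    · exact Finset.single_le_sum (f := fun k => wt k ^ m * |a k|) (fun k _ => hnn k)
        (Finset.mem_range.mpr h)
    · rw [ha0 n h, abs_zero, mul_zero]
      exact Finset.sum_nonneg fun k _ => hnn k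
  have hSer0 : ∀ (x : ℕ → ℝ → ℝ), (∀ n, x n 0 = a n) → ∀ j y, Ser x j 0 y = w j y := by
    intro x hx j y
    rw [← hser j y]
    unfold Ser
    exact tsum_congr fun n => by rw [hx n]
  obtain ⟨x, hx, hx0⟩ := continuation le Λ c K hΛ hc a hdec
    (fun y hy => by
      have h1 := hser 0 y
      simp only [dU_zero] at h1
      rw [h1, hw0y]
      exact (hv1 y hy).1)
    (fun T x hT hTΛ hx hx0 t ht y hy => by
      exact hcK T _ _ _ hT hTΛ (csol_sol T hT x hx) (fun j y _ => hSer0 x hx0 j y) t ht y hy)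
  -- the flow
  obtain ⟨G, hG, hG0⟩ := exists_flow1 Λ hΛ (Ser x 0) (sol_issol1 Λ hΛ _ _ _ (csol_sol Λ hΛ x hx))
  have hV0 : Ser x 0 0 = v := by
    funext y
    rw [hSer0 x hx0, hw0y]
  rw [hV0] at hG0
  have hvpos : ∀ y ∈ I1, 0 < v y := fun y hy => (hv1 y hy).1
  have hvd : ∀ y, HasDerivAt v (w 1 y) y := fun y => hw0 ▸ hwd 0 y
  have hsm : ContDiff ℝ ∞ v := by
    have : v = fun y => ∑ n ∈ Finset.range N, a n * cU (2 * n) y := funext hv
    rw [this]
    refine ContDiff.sum fun n _ => contDiff_const.mul ?_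
    have h3 := Polynomial.contDiff_aeval (R := ℝ) (𝕜 := ℝ)
      (Polynomial.Chebyshev.U ℝ ((2 * n : ℕ) : ℤ)) (∞ : WithTop ℕ∞)
    simp only [Polynomial.coe_aeval_eq_eval] at h3
    exact h3
  refine ⟨rot (fun y => (v y)⁻¹ ^ 2) (fun _ => 0), ?_, ?_, ?_, ?_⟩
  · refine isMetric_rot _ _ ?_ contDiffOn_const ?_ ?_
    · intro y hy
      exact (((hsm.contDiffAt).inv (hvpos y hy).ne').pow 2).contDiffWithinAt
    · intro y hy
      have := hvpos y hy
      positivity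
    · intro y hy
      have := hvpos y hy
      simp only [zero_mul, add_zero]
      positivity
  · intro x hx
    have hx0 : x ≠ 0 := by
      rintro rfl
      simp at hx
    rw [scal_conf v (w 1) (w 2) (fun y _ => (hvd y).hasDerivWithinAt)
      (fun y _ => (hwd 1 y).hasDerivWithinAt) hvpos x hx0]
    have h6 := (hv1 _ (re_div_mem1 x hx0)).2.2.2
    rw [hw1] at h6
    exact h6
  · refine maxTime_gt1 _ _ _ hΛδ ?_ G hG hG0
    have : Real.exp (-4 * Λ) < 1 := by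
      rw [Real.exp_lt_one_iff]
      linarith
    linarith
  · have h1 := dGH_ge v F hsm.continuous.continuousOn hvpos hF hvF
    refine le_trans (ENNReal.ofReal_le_ofReal ?_) h1
    linarith

end Pool.Agent.RFq
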