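import Pool.Agent.MP_ae1fc5_gt.Sanity

/-!
# MP_ae1fc5_gt, Q1: Riemannian distance and Gromov-Hausdorff distance on the 3-sphere

The 3-sphere is the unit sphere of the quaternions.  The Riemannian distance of a metric is the
infimum of the lengths of the `C^1` paths on the sphere.  The Gromov-Hausdorff distance is one half
of the infimum of the distortions of the correspondences.
-/

set_option autoImplicit false

open scoped Quaternion ContDiff Matrix ENNReal
open Set

noncomputable section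

namespace Pool.Agent.MP_ae1fc5_gt

/-- `γ` is a path of class `C^1` on the sphere, parametrised by `[0,1]`, from `p` to `q`. -/
structure IsPath (γ : ℝ → ℍ[ℝ]) (p q : ℍ[ℝ]) : Prop where
  contDiff : ContDiffOn ℝ 1 γ (Icc 0 1)
  norm_eq : ∀ t ∈ Icc (0 : ℝ) 1, ‖γ t‖ = 1
  left : γ 0 = p
  right : γ 1 = q

/-- The components of the velocity of the path `γ` at the time `t` with respect to the frame:
`γ' = sum_i vel γ t i * E i`. -/
def vel (γ : ℝ → ℍ[ℝ]) (t : ℝ) (i : Fin 3) : ℝ :=
  inner ℝ (γ t * im i) (derivWithin γ (Icc 0 1) t)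

/-- The speed `|γ'|_g` of the path `γ` at the time `t`. -/
def speed (g : Field) (γ : ℝ → ℍ[ℝ]) (t : ℝ) : ℝ :=
  Real.sqrt (∑ i, ∑ j, g (γ t) i j * vel γ t i * vel γ t j)

/-- The length of the path `γ` for the metric `g`. -/
def len (g : Field) (γ : ℝ → ℍ[ℝ]) : ℝ := ∫ t in (0 : ℝ)..1, speed g γ t

/-- The Riemannian distance of the metric `g`: the infimum of the lengths of the paths. -/
def rdist (g : Field) (p q : ℍ[ℝ]) : ℝ := sInf {l : ℝ | ∃ γ, IsPath γ p q ∧ l = len g γ}

/-- A correspondence between the sphere and itself. -/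
structure IsCorr (R : Set (ℍ[ℝ] × ℍ[ℝ])) : Prop where
  norm_eq : ∀ p ∈ R, ‖p.1‖ = 1 ∧ ‖p.2‖ = 1
  left : ∀ x : ℍ[ℝ], ‖x‖ = 1 → ∃ y, (x, y) ∈ R
  right : ∀ y : ℍ[ℝ], ‖y‖ = 1 → ∃ x, (x, y) ∈ R

/-- The distortion of `R` for the distances of `g` (first factor) and `h` (second factor). -/
def distortion (g h : Field) (R : Set (ℍ[ℝ] × ℍ[ℝ])) : ℝ≥0∞ :=
  ⨆ p ∈ R, ⨆ q ∈ R, ENNReal.ofReal |rdist g p.1 q.1 - rdist h p.2 q.2|

/-- The Gromov-Hausdorff distance of the sphere with the metric `g` and the sphere with the metric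
`h`: one half of the infimum of the distortions of the correspondences. -/
def dGH (g h : Field) : ℝ≥0∞ := (⨅ R ∈ {R | IsCorr R}, distortion g h R) / 2

end Pool.Agent.MP_ae1fc5_gt
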