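import Pool.Agent.MP_ae1fc5_gt.Ode

/-!
# MP_ae1fc5_gt, R17: the flow of the gauge vector field, closed interval
-/

open scoped ContDiff NNReal
open Set

noncomputable section

namespace Pool.Agent.RFq

open Pool.Agent.MP_ae1fc5_gt

namespace OdeAux1

lemma uniqueDiffOn_prod {Λ : ℝ} (hΛ : 0 < Λ) :
    UniqueDiffOn ℝ (Icc (0 : ℝ) Λ ×ˢ I1) :=
  (uniqueDiffOn_Icc hΛ).prod (uniqueDiffOn_Icc (by norm_num))

lemma hasDerivAt_snd {Λ : ℝ} (F : ℝ → ℝ → ℝ)
    (hF : ContDiffOn ℝ ∞ (fun p : ℝ × ℝ => F p.1 p.2) (Icc 0 Λ ×ˢ I1))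
    {t y : ℝ} (ht : t ∈ Icc 0 Λ) (hy : y ∈ I1) :
    HasDerivWithinAt (F t) (fderivWithin ℝ (fun p : ℝ × ℝ => F p.1 p.2)
      (Icc 0 Λ ×ˢ I1) (t, y) (0, 1)) I1 y := by
  have h1 : DifferentiableWithinAt ℝ (fun p : ℝ × ℝ => F p.1 p.2)
      (Icc 0 Λ ×ˢ I1) (t, y) :=
    hF.differentiableOn (by simp) _ ⟨ht, hy⟩
  have h2 : HasDerivWithinAt (fun z : ℝ => (t, z)) ((0 : ℝ), (1 : ℝ)) I1 y :=
    (hasDerivWithinAt_const _ _ _).prodMk (hasDerivWithinAt_id _ _)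
  exact h1.hasFDerivWithinAt.comp_hasDerivWithinAt y h2 (fun z hz => ⟨ht, hz⟩)

lemma contDiffOn_deriv_snd {Λ : ℝ} (hΛ : 0 < Λ) (F : ℝ → ℝ → ℝ)
    (hF : ContDiffOn ℝ ∞ (fun p : ℝ × ℝ => F p.1 p.2) (Icc 0 Λ ×ˢ I1)) :
    ContDiffOn ℝ ∞ (fun p : ℝ × ℝ => derivWithin (F p.1) I1 p.2) (Icc 0 Λ ×ˢ I1) := by
  have h1 : ContDiffOn ℝ ∞ (fderivWithin ℝ (fun p : ℝ × ℝ => F p.1 p.2)
      (Icc 0 Λ ×ˢ I1)) (Icc 0 Λ ×ˢ I1) :=
    hF.fderivWithin (uniqueDiffOn_prod hΛ) (by simp)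
  have h2 := h1.clm_apply (contDiffOn_const (c := ((0 : ℝ), (1 : ℝ))))
  refine h2.congr ?_
  intro p hp
  exact (hasDerivAt_snd F hF hp.1 hp.2).derivWithin
    ((uniqueDiffOn_Icc (by norm_num)) p.2 hp.2)

lemma hasDerivAt_deriv_snd {Λ : ℝ} (F : ℝ → ℝ → ℝ)
    (hF : ContDiffOn ℝ ∞ (fun p : ℝ × ℝ => F p.1 p.2) (Icc 0 Λ ×ˢ I1))
    {t y : ℝ} (ht : t ∈ Icc 0 Λ) (hy : y ∈ I1) :
    HasDerivWithinAt (F t) (derivWithin (F t) I1 y) I1 y :=
  (hasDerivAt_snd F hF ht hy).differentiableWithinAt.hasDerivWithinAt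

lemma bound_of_contDiffOn {Λ : ℝ} (F : ℝ → ℝ → ℝ)
    (hF : ContDiffOn ℝ ∞ (fun p : ℝ × ℝ => F p.1 p.2) (Icc 0 Λ ×ˢ I1)) :
    ∃ K : ℝ, 0 < K ∧ ∀ t ∈ Icc 0 Λ, ∀ y ∈ I1, |F t y| ≤ K := by
  have hcomp : IsCompact (Icc (0 : ℝ) Λ ×ˢ I1) := isCompact_Icc.prod isCompact_Icc
  obtain ⟨K, hK⟩ := hcomp.exists_bound_of_continuousOn hF.continuousOn
  refine ⟨max K 1, by positivity, ?_⟩
  intro t ht y hy
  exact (hK (t, y) ⟨ht, hy⟩).trans (le_max_left _ _)

/-- second order Taylor bound from a bound of the derivative of the derivative -/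
lemma taylor_bound {φ φ1 φ2 : ℝ → ℝ} {M : ℝ} (h1 : ∀ y ∈ I1, HasDerivWithinAt φ (φ1 y) I1 y)
    (h2 : ∀ y ∈ I1, HasDerivWithinAt φ1 (φ2 y) I1 y) (hM : ∀ y ∈ I1, |φ2 y| ≤ M) {a b : ℝ}
    (ha : a ∈ I1) (hb : b ∈ I1) : |φ b - φ a - φ1 a * (b - a)| ≤ M * (b - a) ^ 2 := by
  have hsub : uIcc a b ⊆ I1 := by
    rw [uIcc]
    exact Icc_subset_Icc (le_inf ha.1 hb.1) (sup_le ha.2 hb.2)
  have hM0 : 0 ≤ M := (abs_nonneg _).trans (hM a ha)
  have hφ1 : ∀ x ∈ uIcc a b, |φ1 x - φ1 a| ≤ M * |b - a| := by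
    intro x hx
    have := Convex.norm_image_sub_le_of_norm_hasDerivWithin_le (f := φ1) (f' := φ2) (s := I1)
      (C := M) (x := a) (y := x) (fun z hz => h2 z hz)
      (fun z hz => hM z hz) (convex_Icc _ _) ha (hsub hx)
    rw [Real.norm_eq_abs, Real.norm_eq_abs] at this
    refine this.trans (mul_le_mul_of_nonneg_left ?_ hM0)
    exact abs_sub_left_of_mem_uIcc hx
  have := Convex.norm_image_sub_le_of_norm_hasDerivWithin_le (f := fun x => φ x - φ1 a * x)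
    (f' := fun x => φ1 x - φ1 a) (s := uIcc a b) (C := M * |b - a|) (x := a) (y := b)
    (fun z hz => by
      have h3 := ((h1 z (hsub hz)).mono hsub).sub
        (((hasDerivAt_id z).const_mul (φ1 a)).hasDerivWithinAt (s := uIcc a b))
      exact h3.congr_deriv (by simp))
    (fun z hz => hφ1 z hz) (convex_uIcc _ _) left_mem_uIcc right_mem_uIcc
  rw [Real.norm_eq_abs, Real.norm_eq_abs] at this
  have h4 : φ b - φ a - φ1 a * (b - a) = φ b - φ1 a * b - (φ a - φ1 a * a) := by ring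
  rw [h4]
  refine this.trans (le_of_eq ?_)
  rw [mul_assoc, ← sq, sq_abs]

end OdeAux1

open OdeAux OdeAux1

theorem ode_flow1 (Λ : ℝ) (hΛ : 0 < Λ) (f : ℝ → ℝ → ℝ)
    (hf : ContDiffOn ℝ ∞ (fun p : ℝ × ℝ => f p.1 p.2) (Icc 0 Λ ×ˢ I1)) :
    ∃ Y : ℝ → ℝ → ℝ, ContDiffOn ℝ ∞ (fun p : ℝ × ℝ => Y p.1 p.2) (Icc 0 Λ ×ˢ I1) ∧
      (∀ t ∈ Icc 0 Λ, ∀ y ∈ I1, Y t y ∈ I1) ∧ (∀ y ∈ I1, Y 0 y = y) ∧
      (∀ t ∈ Icc 0 Λ, ∀ y ∈ I1,
        HasDerivWithinAt (fun s => Y s y) (-(f t (Y t y)) * (1 - (Y t y) ^ 2)) (Icc 0 Λ) t) ∧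
      (∀ t ∈ Icc 0 Λ, ∀ y ∈ I1, 1 - (Y t y) ^ 2 =
        (1 - y ^ 2) * Real.exp (2 * ∫ s in (0 : ℝ)..t, Y s y * f s (Y s y))) ∧
      (∀ t ∈ Icc 0 Λ, ∀ y ∈ I1,
        HasDerivWithinAt (fun z => Y t z) (Real.exp (∫ s in (0 : ℝ)..t,
          (2 * Y s y * f s (Y s y) - (1 - (Y s y) ^ 2) * derivWithin (f s) I1 (Y s y)))) I1 y) := by
  -- the vector field and its derivatives
  have hI1c : ∀ {y : ℝ}, y ∈ I1 → y ∈ I1 := fun h => h
  set S : Set (ℝ × ℝ) := Icc 0 Λ ×ˢ I1 with hS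
  set v : ℝ → ℝ → ℝ := fun t y => -(f t y) * (1 - y ^ 2) with hv
  set v1 : ℝ → ℝ → ℝ := fun t y => 2 * y * f t y - (1 - y ^ 2) * derivWithin (f t) I1 y with hv1
  have hdf := OdeAux1.contDiffOn_deriv_snd hΛ f hf
  have hvS : ContDiffOn ℝ ∞ (fun p : ℝ × ℝ => v p.1 p.2) S :=
    (hf.neg).mul (contDiffOn_const.sub (contDiff_snd.contDiffOn.pow 2))
  have hv1S : ContDiffOn ℝ ∞ (fun p : ℝ × ℝ => v1 p.1 p.2) S :=
    ((contDiffOn_const.mul contDiff_snd.contDiffOn).mul hf).sub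
      ((contDiffOn_const.sub (contDiff_snd.contDiffOn.pow 2)).mul hdf)
  have hvd : ∀ t ∈ Icc 0 Λ, ∀ y ∈ I1, HasDerivWithinAt (v t) (v1 t y) I1 y := by
    intro t ht y hy
    have h1 := (OdeAux1.hasDerivAt_deriv_snd f hf ht hy).neg.mul
      (((hasDerivWithinAt_id y I1).pow 2).const_sub 1)
    refine h1.congr_deriv ?_
    simp [hv1]
    ring
  set v2 : ℝ → ℝ → ℝ := fun t y => derivWithin (v1 t) I1 y with hv2
  have hv2S : ContDiffOn ℝ ∞ (fun p : ℝ × ℝ => v2 p.1 p.2) S := OdeAux1.contDiffOn_deriv_snd hΛ v1 hv1S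
  obtain ⟨L, hL0, hL⟩ := OdeAux1.bound_of_contDiffOn v hvS
  obtain ⟨K, hK0, hK⟩ := OdeAux1.bound_of_contDiffOn v1 hv1S
  obtain ⟨M, hM0, hM⟩ := OdeAux1.bound_of_contDiffOn v2 hv2S
  have hLip : ∀ t ∈ Icc 0 Λ, LipschitzOnWith ⟨K, hK0.le⟩ (v t) I1 := by
    intro t ht
    apply (convex_Icc (-1 : ℝ) 1).lipschitzOnWith_of_nnnorm_hasDerivWithin_le
      (f' := v1 t)
    · intro y hy
      exact hvd t ht y (hI1c hy)
    · intro y hy
      exact hK t ht y hy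
  have hcont : ∀ y ∈ I1, ContinuousOn (fun t => v t y) (Icc 0 Λ) := by
    intro y hy
    exact hvS.continuousOn.comp (f := fun t : ℝ => (t, y))
      (continuousOn_id.prodMk continuousOn_const) (fun t ht => ⟨ht, hI1c hy⟩)
  have hex := exists_sol hΛ v ⟨L, hL0.le⟩ ⟨K, hK0.le⟩ hcont hL hLip
    (fun t _ => by simp [hv]) (fun t _ => by simp [hv])
  choose! α hα0 hαm hαd using hex
  set Y : ℝ → ℝ → ℝ := fun t y => α y t with hY
  have hYm : ∀ t ∈ Icc 0 Λ, ∀ y ∈ I1, Y t y ∈ I1 := fun t ht y hy => hαm y hy t ht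
  have hYt : ∀ t ∈ Icc 0 Λ, ∀ y ∈ I1, HasDerivWithinAt (fun s => Y s y) (v t (Y t y))
    (Icc 0 Λ) t := fun t ht y hy => hαd y hy t ht
  have hYc : ∀ y ∈ I1, ContinuousOn (fun s => Y s y) (Icc 0 Λ) :=
    fun y hy t ht => (hYt t ht y hy).continuousWithinAt
  have hYt' : ∀ y ∈ I1, ∀ t ∈ Ico 0 Λ, HasDerivWithinAt (fun s => Y s y) (v t (Y t y))
    (Ici t) t := fun y hy t ht =>
      (hYt t (Ico_subset_Icc_self ht) y hy).mono_of_mem_nhdsWithin (Icc_mem_nhdsGE_of_mem ht)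
  -- Lipschitz dependence
  set B : ℝ := Real.exp (K * Λ) with hB
  have hB0 : 0 < B := Real.exp_pos _
  have hYL : ∀ t ∈ Icc 0 Λ, ∀ y ∈ I1, ∀ z ∈ I1, |Y t z - Y t y| ≤ B * |z - y| := by
    intro t ht y hy z hz
    have h1 := dist_le_of_trajectories_ODE_of_mem (v := v) (s := fun _ => I1)
      (K := ⟨K, hK0.le⟩) (f := fun s => Y s z) (g := fun s => Y s y) (a := 0) (b := Λ)
      (δ := |z - y|) (fun s hs => hLip s (Ico_subset_Icc_self hs)) (hYc z hz) (hYt' z hz)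
      (fun s hs => hYm s (Ico_subset_Icc_self hs) z hz) (hYc y hy) (hYt' y hy)
      (fun s hs => hYm s (Ico_subset_Icc_self hs) y hy)
      (by simp only [hY, hα0 z hz, hα0 y hy, Real.dist_eq]; exact le_refl _) t ht
    rw [Real.dist_eq] at h1
    refine h1.trans ?_
    rw [mul_comm]
    refine mul_le_mul_of_nonneg_right ?_ (abs_nonneg _)
    rw [hB]
    apply Real.exp_le_exp.2
    simp only [NNReal.coe_mk, sub_zero]
    exact mul_le_mul_of_nonneg_left ht.2 hK0.le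
  -- joint continuity
  have hYjc : ContinuousOn (fun p : ℝ × ℝ => Y p.1 p.2) (Icc 0 Λ ×ˢ I1) := by
    apply continuousOn_prod_of_continuousOn_lipschitzOnWith' _ (⟨B, hB0.le⟩ : ℝ≥0)
    · intro t ht
      apply LipschitzOnWith.of_dist_le_mul
      intro z hz y hy
      rw [Real.dist_eq, Real.dist_eq]
      exact hYL t ht y hy z hz
    · intro y hy
      exact hYc y hy
  have hmaps : MapsTo (fun p : ℝ × ℝ => (p.1, Y p.1 p.2)) (Icc 0 Λ ×ˢ I1) S :=
    fun p hp => ⟨hp.1, hI1c (hYm _ hp.1 _ hp.2)⟩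
  -- the derivative with respect to the initial value
  set E : ℝ → ℝ → ℝ := fun t y => Real.exp (∫ s in (0 : ℝ)..t, v1 s (Y s y)) with hE
  have hv1c : ∀ y ∈ I1, ContinuousOn (fun s => v1 s (Y s y)) (Icc 0 Λ) := by
    intro y hy
    exact hv1S.continuousOn.comp (f := fun s : ℝ => (s, Y s y))
      (continuousOn_id.prodMk (hYc y hy)) (fun t ht => ⟨ht, hI1c (hYm t ht y hy)⟩)
  have hEd : ∀ t ∈ Icc 0 Λ, ∀ y ∈ I1, HasDerivWithinAt (fun s => E s y)
      (E t y * v1 t (Y t y)) (Icc 0 Λ) t := by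
    intro t ht y hy
    exact (OdeAux.hasDerivWithinAt_integral (hv1c y hy) ht).exp
  have hYy : ∀ t ∈ Icc 0 Λ, ∀ y ∈ I1, HasDerivWithinAt (fun z => Y t z) (E t y) I1 y := by
    intro t ht y hy
    have hbound : ∀ z ∈ I1, |Y t z - Y t y - (z - y) * E t y| ≤
        (M * B ^ 2 / K * B) * |z - y| ^ 2 := by
      intro z hz
      set r : ℝ → ℝ := fun s => Y s z - Y s y - (z - y) * E s y with hr
      have hrd : ∀ s ∈ Icc 0 Λ, HasDerivWithinAt r
          (v s (Y s z) - v s (Y s y) - (z - y) * (E s y * v1 s (Y s y))) (Icc 0 Λ) s := by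
        intro s hs
        exact ((hYt s hs z hz).sub (hYt s hs y hy)).sub ((hEd s hs y hy).const_mul (z - y))
      have hrc : ContinuousOn r (Icc 0 Λ) := fun s hs => (hrd s hs).continuousWithinAt
      have h1 := norm_le_gronwallBound_of_norm_deriv_right_le (f := r)
        (f' := fun s => v s (Y s z) - v s (Y s y) - (z - y) * (E s y * v1 s (Y s y)))
        (δ := 0) (K := K) (ε := M * (B * |z - y|) ^ 2) (a := 0) (b := Λ) hrc
        (fun s hs => (hrd s (Ico_subset_Icc_self hs)).mono_of_mem_nhdsWithin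
          (Icc_mem_nhdsGE_of_mem hs))
        (by simp [hr, hY, hα0 z hz, hα0 y hy, hE])
        (fun s hs => by
          have hs' := Ico_subset_Icc_self hs
          have h3 := OdeAux1.taylor_bound (φ := v s) (φ1 := v1 s) (φ2 := v2 s) (M := M)
            (fun x hx => hvd s hs' x (hI1c hx))
            (fun x hx => OdeAux1.hasDerivAt_deriv_snd v1 hv1S hs' (hI1c hx))
            (fun x hx => hM s hs' x hx) (hYm s hs' y hy) (hYm s hs' z hz)
          have h4 : v s (Y s z) - v s (Y s y) - (z - y) * (E s y * v1 s (Y s y)) =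
            v1 s (Y s y) * r s + (v s (Y s z) - v s (Y s y) - v1 s (Y s y) * (Y s z - Y s y)) := by
            simp only [hr]
            ring
          rw [h4]
          refine (norm_add_le _ _).trans ?_
          rw [norm_mul, Real.norm_eq_abs, Real.norm_eq_abs, Real.norm_eq_abs]
          refine add_le_add (mul_le_mul_of_nonneg_right (hK s hs' _ (hYm s hs' y hy))
            (abs_nonneg _)) (h3.trans ?_)
          refine mul_le_mul_of_nonneg_left ?_ hM0.le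
          rw [← sq_abs]
          exact pow_le_pow_left₀ (abs_nonneg _) (hYL s hs' y hy z hz) 2)
        t ht
      rw [gronwallBound_of_K_ne_0 hK0.ne'] at h1
      simp only [Real.norm_eq_abs, hr, zero_mul, zero_add, sub_zero] at h1
      refine h1.trans ?_
      have h5 : Real.exp (K * t) - 1 ≤ B := by
        have : Real.exp (K * t) ≤ B :=
          Real.exp_le_exp.2 (mul_le_mul_of_nonneg_left ht.2 hK0.le)
        linarith
      calc M * (B * |z - y|) ^ 2 / K * (Real.exp (K * t) - 1)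
          ≤ M * (B * |z - y|) ^ 2 / K * B := mul_le_mul_of_nonneg_left h5 (by positivity)
        _ = (M * B ^ 2 / K * B) * |z - y| ^ 2 := by ring
    rw [hasDerivWithinAt_iff_isLittleO]
    have hO : (fun z => Y t z - Y t y - (z - y) • E t y) =O[nhdsWithin y I1]
        fun z => ‖z - y‖ ^ 2 := by
      apply Asymptotics.IsBigO.of_bound (M * B ^ 2 / K * B)
      filter_upwards [self_mem_nhdsWithin] with z hz
      have := hbound z hz
      simpa [Real.norm_eq_abs] using this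
    exact hO.trans_isLittleO
      ((Asymptotics.isLittleO_pow_sub_sub y one_lt_two).mono nhdsWithin_le_nhds)
  -- smoothness
  have hI : Convex ℝ (Icc (0 : ℝ) Λ) := convex_Icc _ _
  have hJ : Convex ℝ I1 := convex_Icc _ _
  have hI' : (interior (Icc (0 : ℝ) Λ)).Nonempty := by
    rw [interior_Icc]
    exact nonempty_Ioo.2 hΛ
  have hJ' : (interior I1).Nonempty := by
    rw [interior_Icc]
    exact nonempty_Ioo.2 (by norm_num)
  have hsmooth : ∀ n : ℕ, ContDiffOn ℝ n (fun p : ℝ × ℝ => Y p.1 p.2) (Icc 0 Λ ×ˢ I1) := by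
    intro n
    induction n with
    | zero =>
      rw [Nat.cast_zero, contDiffOn_zero]
      exact hYjc
    | succ n ih =>
      have hn : ((n : ℕ) : WithTop ℕ∞) ≤ ∞ := by exact_mod_cast le_top
      have hpair : ContDiffOn ℝ n (fun p : ℝ × ℝ => (p.1, Y p.1 p.2)) (Icc 0 Λ ×ˢ I1) :=
        contDiff_fst.contDiffOn.prodMk ih
      refine contDiffOn_of_partials n hI hJ hI' hJ' Y (fun t y => v t (Y t y)) E hYt hYy ?_ ?_
      · exact (hvS.of_le hn).comp hpair hmaps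
      · have h1 : ContDiffOn ℝ n (fun p : ℝ × ℝ => v1 p.1 (Y p.1 p.2)) (Icc 0 Λ ×ˢ I1) :=
          (hv1S.of_le hn).comp hpair hmaps
        exact (contDiffOn_integral_fst n hI hJ hI' hJ' (left_mem_Icc.2 hΛ.le)
          (fun t y => v1 t (Y t y)) h1).exp
  -- the formula for `1 - Y^2`
  have hform : ∀ t ∈ Icc 0 Λ, ∀ y ∈ I1, 1 - (Y t y) ^ 2 =
        (1 - y ^ 2) * Real.exp (2 * ∫ s in (0 : ℝ)..t, Y s y * f s (Y s y)) := by
    intro t ht y hy
    have hfc : ContinuousOn (fun s => Y s y * f s (Y s y)) (Icc 0 Λ) := by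
      refine (hYc y hy).mul ?_
      exact hf.continuousOn.comp (f := fun s : ℝ => (s, Y s y))
        (continuousOn_id.prodMk (hYc y hy)) (fun t ht => ⟨ht, hI1c (hYm t ht y hy)⟩)
    set g : ℝ → ℝ := fun u => (1 - (Y u y) ^ 2) *
      Real.exp (-(2 * ∫ s in (0 : ℝ)..u, Y s y * f s (Y s y))) with hg
    have hgd : ∀ u ∈ Icc 0 Λ, HasDerivWithinAt g 0 (Icc 0 Λ) u := by
      intro u hu
      have h1 := (((hYt u hu y hy).pow 2).const_sub 1).mul
        ((((OdeAux.hasDerivWithinAt_integral hfc hu).const_mul 2).neg).exp)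
      refine h1.congr_deriv ?_
      simp only [hv]
      norm_num
      ring
    have hconst := constant_of_derivWithin_zero (f := g) (a := 0) (b := Λ)
      (fun u hu => (hgd u hu).differentiableWithinAt)
      (fun u hu => (hgd u (Ico_subset_Icc_self hu)).derivWithin
        ((uniqueDiffOn_Icc hΛ) u (Ico_subset_Icc_self hu))) t ht
    have hg0 : g 0 = 1 - y ^ 2 := by simp [hg, hY, hα0 y hy]
    rw [hg0] at hconst
    simp only [hg, Real.exp_neg] at hconst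
    rw [← hconst]
    have := (Real.exp_pos (2 * ∫ s in (0 : ℝ)..t, Y s y * f s (Y s y))).ne'
    field_simp
  exact ⟨Y, contDiffOn_infty.2 hsmooth, hYm, fun y hy => hα0 y hy, hYt, hform, hYy⟩

end Pool.Agent.RFq
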