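import Pool.Agent.MP_ae1fc5_gt.Gauge
import Pool.Agent.RFq.Ode1
import Pool.Agent.RFq.Defs

/-!
# MP_ae1fc5_gt, R17: from the conformal gauge to the Ricci flow, closed interval
-/

open scoped Quaternion ContDiff Matrix
open Set

noncomputable section

namespace Pool.Agent.RFq

open Pool.Agent.MP_ae1fc5_gt Pool.Agent.MP_ae1fc5_gt.Gauge

theorem Gauge1.abs_lt_one_of_sq_lt {z : ℝ} (h : z ^ 2 < 1) : |z| < 1 := by
  rwa [sq_lt_one_iff_abs_lt_one] at h

open Gauge in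
theorem exists_rot_flow1 (Λ : ℝ) (hΛ : 0 < Λ) (V : ℝ → ℝ → ℝ) (hV : IsSol1 Λ V) :
    ∃ al be : ℝ → ℝ → ℝ,
      ContDiffOn ℝ ∞ (fun p : ℝ × ℝ => al p.1 p.2) (Icc 0 Λ ×ˢ I1) ∧
      ContDiffOn ℝ ∞ (fun p : ℝ × ℝ => be p.1 p.2) (Icc 0 Λ ×ˢ I1) ∧
      (∀ t ∈ Icc 0 Λ, ∀ y ∈ I1, 0 < al t y ∧ 0 < al t y + be t y * (1 - y ^ 2)) ∧
      (∀ y ∈ I1, al 0 y = (V 0 y)⁻¹ ^ 2 ∧ be 0 y = 0) ∧
      (∀ t ∈ Icc 0 Λ, ∀ y ∈ I1, HasDerivWithinAt (fun s => al s y)
        (-2 * Pf (al t y) (derivWithin (al t) I1 y) (derivWithin (derivWithin (al t) I1) I1 y)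
          (be t y) (derivWithin (be t) I1 y) y + 4 * al t y) (Icc 0 Λ) t) ∧
      (∀ t ∈ Icc 0 Λ, ∀ y ∈ I1, HasDerivWithinAt (fun s => be s y)
        (-2 * Qf (al t y) (derivWithin (al t) I1 y) (derivWithin (derivWithin (al t) I1) I1 y)
          (be t y) (derivWithin (be t) I1 y) y + 4 * be t y) (Icc 0 Λ) t) := by
  have cI : Convex ℝ (Icc 0 Λ) := convex_Icc 0 Λ
  have c1 : Convex ℝ I1 := convex_Icc _ _
  have iI : (interior (Icc 0 Λ)).Nonempty := by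
    rw [interior_Icc]; exact ⟨Λ / 2, by constructor <;> linarith⟩
  have i1 : (interior I1).Nonempty := by
    rw [interior_Icc]; exact ⟨0, by constructor <;> norm_num⟩
  have uI : UniqueDiffOn ℝ (Icc 0 Λ) := uniqueDiffOn_Icc hΛ
  have u1 : UniqueDiffOn ℝ I1 := uniqueDiffOn_Icc (by norm_num)
  have z0 : (0 : ℝ) ∈ Icc 0 Λ := ⟨le_rfl, hΛ.le⟩
  have zJ : (0 : ℝ) ∈ I1 := by constructor <;> norm_num
  have sV : Sm (Icc 0 Λ) I1 V := hV.smooth
  obtain ⟨V1, hV1⟩ : ∃ F, F = dY (Icc 0 Λ) I1 V := ⟨_, rfl⟩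
  have sV1 : Sm (Icc 0 Λ) I1 V1 := hV1 ▸ sm_dY uI u1 sV
  obtain ⟨V2, hV2⟩ : ∃ F, F = dY (Icc 0 Λ) I1 V1 := ⟨_, rfl⟩
  have sV2 : Sm (Icc 0 Λ) I1 V2 := hV2 ▸ sm_dY uI u1 sV1
  have dV : ∀ t ∈ Icc 0 Λ, ∀ y ∈ I1, HasDerivWithinAt (V t) (V1 t y) I1 y := fun t ht y hy => by
    rw [hV1]; exact hasDeriv_dY sV ht hy
  have dV1 : ∀ t ∈ Icc 0 Λ, ∀ y ∈ I1, HasDerivWithinAt (V1 t) (V2 t y) I1 y :=
    fun t ht y hy => by
      rw [hV2]; exact hasDeriv_dY sV1 ht hy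
  have eV1 : ∀ t ∈ Icc 0 Λ, ∀ y ∈ I1, derivWithin (V t) I1 y = V1 t y :=
    fun t ht y hy => (dV t ht y hy).derivWithin (u1 y hy)
  have eV2 : ∀ t ∈ Icc 0 Λ, ∀ y ∈ I1, derivWithin (derivWithin (V t) I1) I1 y = V2 t y := by
    intro t ht y hy
    rw [derivWithin_congr (fun x hx => eV1 t ht x hx) (eV1 t ht y hy)]
    exact (dV1 t ht y hy).derivWithin (u1 y hy)
  -- the primitive
  obtain ⟨Jf, hJf⟩ : ∃ F : ℝ → ℝ → ℝ, F = fun t y => ∫ z in (0 : ℝ)..y, V1 t z ^ 2 := ⟨_, rfl⟩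
  have sJ : Sm (Icc 0 Λ) I1 Jf := by
    rw [hJf]; exact Sm.integral_snd cI c1 iI i1 zJ (sV1.pow 2)
  have dJ : ∀ t ∈ Icc 0 Λ, ∀ y ∈ I1, HasDerivWithinAt (Jf t) (V1 t y ^ 2) I1 y := by
    intro t ht y hy
    rw [hJf]
    exact PartialsAux.hasDerivWithinAt_integral c1 zJ _ ((sV1.pow 2).cont_y ht) hy
  have eJ : ∀ t ∈ Icc 0 Λ, ∀ y ∈ I1,
      (∫ z in (0 : ℝ)..y, derivWithin (V t) I1 z ^ 2) = Jf t y := by
    intro t ht y hy
    rw [hJf]
    refine intervalIntegral.integral_congr fun z hz => ?_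
    have hsub : uIcc 0 y ⊆ I1 := (ordConnected_Icc).uIcc_subset zJ hy
    simp only [eV1 t ht z (hsub hz)]
  have pde : ∀ t ∈ Icc 0 Λ, ∀ y ∈ I1, HasDerivWithinAt (fun s => V s y)
      (rhs (V t y) (V1 t y) (V2 t y) (Jf t y) y) (Icc 0 Λ) t := by
    intro t ht y hy
    have h := hV.pde t ht y hy
    rwa [eV1 t ht y hy, eV2 t ht y hy, eJ t ht y hy] at h
  obtain ⟨f, hf⟩ : ∃ F : ℝ → ℝ → ℝ, F = fun t y => V t y * V1 t y - Jf t y := ⟨_, rfl⟩
  have sf : Sm (Icc 0 Λ) I1 f := by rw [hf]; exact (sV.mul sV1).sub sJ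
  have df : ∀ t ∈ Icc 0 Λ, ∀ y ∈ I1, HasDerivWithinAt (f t) (V t y * V2 t y) I1 y := by
    intro t ht y hy
    rw [hf]
    exact (((dV t ht y hy).fun_mul (dV1 t ht y hy)).fun_sub (dJ t ht y hy)).congr_deriv (by ring)
  obtain ⟨Y, sY, mY, Y0, tY, rY, yY⟩ := ode_flow1 Λ hΛ f sf
  have sYm : Sm (Icc 0 Λ) I1 Y := sY
  have mYJ : ∀ t ∈ Icc 0 Λ, ∀ y ∈ I1, Y t y ∈ I1 := mY
  have sVY : Sm (Icc 0 Λ) I1 (fun t y => V t (Y t y)) := sV.comp_snd sYm mYJ
  have sV1Y : Sm (Icc 0 Λ) I1 (fun t y => V1 t (Y t y)) := sV1.comp_snd sYm mYJ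
  have sV2Y : Sm (Icc 0 Λ) I1 (fun t y => V2 t (Y t y)) := sV2.comp_snd sYm mYJ
  have sfY : Sm (Icc 0 Λ) I1 (fun t y => f t (Y t y)) := sf.comp_snd sYm mYJ
  obtain ⟨g, hg⟩ : ∃ F : ℝ → ℝ → ℝ, F = fun t y => ∫ s in (0 : ℝ)..t, Y s y * f s (Y s y) :=
    ⟨_, rfl⟩
  have sYf : Sm (Icc 0 Λ) I1 (fun t y => Y t y * f t (Y t y)) := sYm.mul sfY
  have sg : Sm (Icc 0 Λ) I1 g := by rw [hg]; exact sYf.integral_fst cI c1 iI i1 z0
  have dg : ∀ t ∈ Icc 0 Λ, ∀ y ∈ I1,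
      HasDerivWithinAt (fun s => g s y) (Y t y * f t (Y t y)) (Icc 0 Λ) t := by
    intro t ht y hy
    rw [hg]; exact ftc (sYf.cont_t hy) ht
  have sρ : Sm (Icc 0 Λ) I1 (fun t y => Real.exp (2 * g t y)) := ((sm_const 2).mul sg).exp
  obtain ⟨K, hK⟩ : ∃ F : ℝ → ℝ → ℝ, F = fun t y => ∫ s in (0 : ℝ)..t,
      V s (Y s y) * V2 s (Y s y) * Real.exp (2 * g s y) := ⟨_, rfl⟩
  have sKi : Sm (Icc 0 Λ) I1 (fun t y => V t (Y t y) * V2 t (Y t y) * Real.exp (2 * g t y)) :=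
    (sVY.mul sV2Y).mul sρ
  have sK : Sm (Icc 0 Λ) I1 K := by rw [hK]; exact sKi.integral_fst cI c1 iI i1 z0
  have dK : ∀ t ∈ Icc 0 Λ, ∀ y ∈ I1, HasDerivWithinAt (fun s => K s y)
      (V t (Y t y) * V2 t (Y t y) * Real.exp (2 * g t y)) (Icc 0 Λ) t := by
    intro t ht y hy
    rw [hK]; exact ftc (sKi.cont_t hy) ht
  have rY' : ∀ t ∈ Icc 0 Λ, ∀ y ∈ I1, 1 - Y t y ^ 2 = (1 - y ^ 2) * Real.exp (2 * g t y) := by
    intro t ht y hy
    rw [hg]; exact rY t ht y hy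
  obtain ⟨w, hw⟩ : ∃ F : ℝ → ℝ → ℝ, F = fun t y => 2 * g t y - (1 - y ^ 2) * K t y := ⟨_, rfl⟩
  have s1y : Sm (Icc 0 Λ) I1 (fun _ y => 1 - y ^ 2) := (sm_const 1).sub (sm_snd.pow 2)
  have sw : Sm (Icc 0 Λ) I1 w := by
    rw [hw]; exact ((sm_const 2).mul sg).sub (s1y.mul sK)
  have dw : ∀ t ∈ Icc 0 Λ, ∀ y ∈ I1, HasDerivWithinAt (fun s => w s y)
      (2 * Y t y * f t (Y t y) - (1 - Y t y ^ 2) * (V t (Y t y) * V2 t (Y t y))) (Icc 0 Λ) t := by
    intro t ht y hy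
    rw [hw]
    have h := ((dg t ht y hy).const_mul 2).fun_sub ((dK t ht y hy).const_mul (1 - y ^ 2))
    refine h.congr_deriv ?_
    rw [rY' t ht y hy]
    ring
  have sW : Sm (Icc 0 Λ) I1 (fun t y => Real.exp (w t y)) := sw.exp
  have yY' : ∀ t ∈ Icc 0 Λ, ∀ y ∈ I1, HasDerivWithinAt (Y t) (Real.exp (w t y)) I1 y := by
    intro t ht y hy
    have h := yY t ht y hy
    have hsub : uIcc 0 t ⊆ Icc 0 Λ := by
      rw [uIcc_of_le ht.1]; exact Icc_subset_Icc le_rfl ht.2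
    have e : (∫ s in (0 : ℝ)..t,
          (2 * Y s y * f s (Y s y) - (1 - (Y s y) ^ 2) * derivWithin (f s) I1 (Y s y))) = w t y := by
      rw [hw, hg, hK]
      have e1 : (∫ s in (0 : ℝ)..t,
          (2 * Y s y * f s (Y s y) - (1 - (Y s y) ^ 2) * derivWithin (f s) I1 (Y s y))) =
          ∫ s in (0 : ℝ)..t, (2 * (Y s y * f s (Y s y)) -
            (1 - y ^ 2) * (V s (Y s y) * V2 s (Y s y) * Real.exp (2 * g s y))) := by
        refine intervalIntegral.integral_congr fun s hs => ?_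
        have hs' := hsub hs
        rw [(df s hs' _ (mYJ s hs' y hy)).derivWithin (u1 _ (mYJ s hs' y hy)), rY' s hs' y hy]
        ring
      rw [e1, intervalIntegral.integral_sub, intervalIntegral.integral_const_mul,
        intervalIntegral.integral_const_mul]
      · exact (((sYf.cont_t hy).mono hsub).intervalIntegrable).const_mul 2
      · exact (((sKi.cont_t hy).mono hsub).intervalIntegrable).const_mul _
    rw [e] at h
    exact h
  obtain ⟨al, hal⟩ : ∃ F : ℝ → ℝ → ℝ, F = fun t y => Real.exp (2 * g t y) / V t (Y t y) ^ 2 :=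
    ⟨_, rfl⟩
  obtain ⟨be, hbe⟩ : ∃ F : ℝ → ℝ → ℝ, F = fun t y => -2 * K t y * al t y *
      E (-2 * (1 - y ^ 2) * K t y) := ⟨_, rfl⟩
  have pV : ∀ t ∈ Icc 0 Λ, ∀ y ∈ I1, 0 < V t (Y t y) := fun t ht y hy =>
    hV.pos t ht _ (mYJ t ht y hy)
  have sal : Sm (Icc 0 Λ) I1 al := by
    rw [hal]; exact sρ.div (sVY.pow 2) (fun t ht y hy => pow_ne_zero 2 (pV t ht y hy).ne')
  have sbe : Sm (Icc 0 Λ) I1 be := by
    rw [hbe]
    exact ((((sm_const (-2)).mul sK).mul sal)).mul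
      (Sm.comp_contDiff contDiff_E (((sm_const (-2)).mul s1y).mul sK))
  have pal : ∀ t ∈ Icc 0 Λ, ∀ y ∈ I1, 0 < al t y := by
    intro t ht y hy
    have := pV t ht y hy
    rw [hal]; positivity
  have eA : ∀ t ∈ Icc 0 Λ, ∀ y ∈ I1, al t y + be t y * (1 - y ^ 2) =
      Real.exp (w t y) ^ 2 / (Real.exp (2 * g t y) * V t (Y t y) ^ 2) := by
    intro t ht y hy
    have h1 : al t y + be t y * (1 - y ^ 2) =
        al t y * (1 + (-2 * (1 - y ^ 2) * K t y) * E (-2 * (1 - y ^ 2) * K t y)) := by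
      rw [hbe]; ring
    rw [h1, mul_E, hal, hw]
    have hv := pV t ht y hy
    have h2 : Real.exp (2 * g t y - (1 - y ^ 2) * K t y) ^ 2 =
        Real.exp (2 * g t y) * Real.exp (2 * g t y) * Real.exp (-2 * (1 - y ^ 2) * K t y) := by
      rw [← Real.exp_nat_mul, ← Real.exp_add, ← Real.exp_add]
      congr 1
      push_cast
      ring
    simp only
    rw [h2]
    field_simp
    ring
  have pA : ∀ t ∈ Icc 0 Λ, ∀ y ∈ I1, 0 < al t y + be t y * (1 - y ^ 2) := by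
    intro t ht y hy
    have := pV t ht y hy
    rw [eA t ht y hy]; positivity
  -- derivatives in time
  have dVY : ∀ t ∈ Icc 0 Λ, ∀ y ∈ I1, HasDerivWithinAt (fun s => V s (Y s y))
      (rhs (V t (Y t y)) (V1 t (Y t y)) (V2 t (Y t y)) (Jf t (Y t y)) (Y t y) +
        V1 t (Y t y) * (-(f t (Y t y)) * (1 - Y t y ^ 2))) (Icc 0 Λ) t := by
    intro t ht y hy
    have h := chain uI sV ht (fun s hs => mYJ s hs y hy) (tY t ht y hy)
      (pde t ht _ (mYJ t ht y hy))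
    rw [← hV1] at h
    exact h
  have eJf : ∀ t ∈ Icc 0 Λ, ∀ y ∈ I1,
      Jf t (Y t y) = V t (Y t y) * V1 t (Y t y) - f t (Y t y) := by
    intro t ht y hy
    rw [hf]; ring
  have dal : ∀ t ∈ Icc 0 Λ, ∀ y ∈ I1, HasDerivWithinAt (fun s => al s y) _ (Icc 0 Λ) t :=
    fun t ht y hy => by
      rw [hal]
      exact dt_al (dg t ht y hy) (dVY t ht y hy) (eJf t ht y hy) (pV t ht y hy)
  have dA : ∀ t ∈ Icc 0 Λ, ∀ y ∈ I1, _ := fun t ht y hy =>
    dt_A (dg t ht y hy) (dw t ht y hy) (dVY t ht y hy) (eJf t ht y hy) (pV t ht y hy)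
  -- the equations in the interior
  have hsq : ∀ z ∈ Ioo (-1 : ℝ) 1, 0 < 1 - z ^ 2 := fun z hz => by nlinarith [hz.1, hz.2]
  have main : ∀ t ∈ Icc 0 Λ, ∀ y ∈ Ioo (-1 : ℝ) 1,
      HasDerivWithinAt (fun s => al s y)
        (-2 * Pf (al t y) (derivWithin (al t) I1 y) (derivWithin (derivWithin (al t) I1) I1 y)
          (be t y) (derivWithin (be t) I1 y) y + 4 * al t y) (Icc 0 Λ) t ∧
      HasDerivWithinAt (fun s => be s y)
        (-2 * Qf (al t y) (derivWithin (al t) I1 y) (derivWithin (derivWithin (al t) I1) I1 y)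
          (be t y) (derivWithin (be t) I1 y) y + 4 * be t y) (Icc 0 Λ) t := by
    intro t ht y hy
    have hy1 : y ∈ I1 := Ioo_subset_Icc_self hy
    have hYd : ∀ z ∈ Ioo (-1 : ℝ) 1, HasDerivAt (Y t) (Real.exp (w t z)) z := fun z hz =>
      (yY' t ht z (Ioo_subset_Icc_self hz)).hasDerivAt (Icc_mem_nhds hz.1 hz.2)
    have hρ : ∀ z ∈ Ioo (-1 : ℝ) 1, Real.exp (2 * g t z) = (1 - Y t z ^ 2) / (1 - z ^ 2) :=
      fun z hz => by
        rw [rY' t ht z (Ioo_subset_Icc_self hz)]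
        field_simp [(hsq z hz).ne']
    have hYi : ∀ z ∈ Ioo (-1 : ℝ) 1, Y t z ∈ Ioo (-1 : ℝ) 1 := fun z hz => by
      have h1 := rY' t ht z (Ioo_subset_Icc_self hz)
      have h2 : 0 < (1 - z ^ 2) * Real.exp (2 * g t z) :=
        mul_pos (hsq z hz) (Real.exp_pos _)
      exact abs_lt.1 (Gauge1.abs_lt_one_of_sq_lt (by linarith))
    have one := one_var (fun z => V t (Y t z)) (fun z => V1 t (Y t z)) (fun z => V2 t (Y t z))
      (Y t) (fun z => Real.exp (w t z))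
      (fun z => dY (Icc 0 Λ) I1 (fun t y => Real.exp (w t y)) t z) (al t) (be t)
      hYd
      (fun z hz => (hasDeriv_dY sW ht (Ioo_subset_Icc_self hz)).hasDerivAt
        (Icc_mem_nhds hz.1 hz.2))
      (fun z hz => ((dV t ht _ (mYJ t ht z (Ioo_subset_Icc_self hz))).hasDerivAt
        (Icc_mem_nhds (hYi z hz).1 (hYi z hz).2)).comp z (hYd z hz))
      (fun z hz => ((dV1 t ht _ (mYJ t ht z (Ioo_subset_Icc_self hz))).hasDerivAt
        (Icc_mem_nhds (hYi z hz).1 (hYi z hz).2)).comp z (hYd z hz))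
      (fun z hz => pV t ht z (Ioo_subset_Icc_self hz))
      (fun z hz => Real.exp_pos _)
      (fun z hz => by
        have h1 := rY' t ht z (Ioo_subset_Icc_self hz)
        have h2 : 0 < (1 - z ^ 2) * Real.exp (2 * g t z) :=
          mul_pos (hsq z hz) (Real.exp_pos _)
        linarith)
      (fun z hz => by rw [← hρ z hz, hal])
      (fun z hz => by
        have h1 := eA t ht z (Ioo_subset_Icc_self hz)
        rw [← hρ z hz]
        rw [← h1]
        have h2 : al t z = Real.exp (2 * g t z) / V t (Y t z) ^ 2 := by rw [hal]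
        rw [← h2]
        field_simp [(hsq z hz).ne']
        ring)
      y hy
    obtain ⟨o1, o2⟩ := one
    rw [← hρ y hy] at o1 o2
    have h1 : HasDerivWithinAt (fun s => al s y)
        (-2 * Pf (al t y) (derivWithin (al t) I1 y) (derivWithin (derivWithin (al t) I1) I1 y)
          (be t y) (derivWithin (be t) I1 y) y + 4 * al t y) (Icc 0 Λ) t := by
      refine (dal t ht y hy1).congr_deriv ?_
      rw [o1, hal]
    refine ⟨h1, ?_⟩
    have h2 := ((dA t ht y hy1).fun_sub h1).div_const (1 - y ^ 2)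
    refine (h2.congr_deriv ?_).congr_of_mem ?_ ht
    · rw [← o2]
      have h3 := eA t ht y hy1
      rw [← h3]
      field_simp [(hsq y hy).ne']
      ring
    · intro s hs
      have h3 := eA s hs y hy1
      rw [← h3]
      field_simp [(hsq y hy).ne']
      ring
  have d1 : ∀ (F : ℝ → ℝ → ℝ), Sm (Icc 0 Λ) I1 F → ∀ t ∈ Icc 0 Λ, ∀ y ∈ I1,
      derivWithin (F t) I1 y = dY (Icc 0 Λ) I1 F t y := fun F hF t ht y hy =>
    (hasDeriv_dY hF ht hy).derivWithin (u1 y hy)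
  have sal1 := sm_dY uI u1 sal
  have sal2 := sm_dY uI u1 sal1
  have sbe1 := sm_dY uI u1 sbe
  have cal1 : ∀ t ∈ Icc 0 Λ, ContinuousOn (fun y => derivWithin (al t) I1 y) I1 := fun t ht =>
    (sal1.cont_y ht).congr (fun y hy => d1 al sal t ht y hy)
  have cbe1 : ∀ t ∈ Icc 0 Λ, ContinuousOn (fun y => derivWithin (be t) I1 y) I1 := fun t ht =>
    (sbe1.cont_y ht).congr (fun y hy => d1 be sbe t ht y hy)
  have cal2 : ∀ t ∈ Icc 0 Λ,
      ContinuousOn (fun y => derivWithin (derivWithin (al t) I1) I1 y) I1 := fun t ht =>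
    (sal2.cont_y ht).congr (fun y hy => by
      rw [← d1 _ sal1 t ht y hy]
      exact derivWithin_congr (fun z hz => d1 al sal t ht z hz) (d1 al sal t ht y hy))
  have cl : I1 ⊆ closure (Ioo (-1 : ℝ) 1) := by rw [closure_Ioo (by norm_num)]
  refine ⟨al, be, sal, sbe, fun t ht y hy => ⟨pal t ht y hy, pA t ht y hy⟩, ?_, ?_, ?_⟩
  · intro y hy
    have hK0 : K 0 y = 0 := by rw [hK]; simp
    have hg0 : g 0 y = 0 := by rw [hg]; simp
    constructor
    · rw [hal]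
      simp only
      rw [Y0 y hy, hg0]
      simp
    · rw [hbe]
      simp only
      rw [hK0]
      ring
  · intro t ht y hy
    have hE : EqOn (fun y => dT (Icc 0 Λ) I1 al t y)
        (fun y => -2 * Pf (al t y) (derivWithin (al t) I1 y)
          (derivWithin (derivWithin (al t) I1) I1 y)
          (be t y) (derivWithin (be t) I1 y) y + 4 * al t y) I1 := by
      refine EqOn.of_subset_closure (s := Ioo (-1 : ℝ) 1) ?_ ((sm_dT uI u1 sal).cont_y ht) ?_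
        Ioo_subset_Icc_self cl
      · intro z hz
        exact unique_deriv uI ht (hasDeriv_dT sal ht (Ioo_subset_Icc_self hz)) (main t ht z hz).1
      · exact (continuousOn_const.mul (cont_Pf (sal.cont_y ht) (cal1 t ht) (cal2 t ht)
          (sbe.cont_y ht) (cbe1 t ht) (pal t ht) (pA t ht))).add
          (continuousOn_const.mul (sal.cont_y ht))
    exact (hasDeriv_dT sal ht hy).congr_deriv (hE hy)
  · intro t ht y hy
    have hE : EqOn (fun y => dT (Icc 0 Λ) I1 be t y)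
        (fun y => -2 * Qf (al t y) (derivWithin (al t) I1 y)
          (derivWithin (derivWithin (al t) I1) I1 y)
          (be t y) (derivWithin (be t) I1 y) y + 4 * be t y) I1 := by
      refine EqOn.of_subset_closure (s := Ioo (-1 : ℝ) 1) ?_ ((sm_dT uI u1 sbe).cont_y ht) ?_
        Ioo_subset_Icc_self cl
      · intro z hz
        exact unique_deriv uI ht (hasDeriv_dT sbe ht (Ioo_subset_Icc_self hz)) (main t ht z hz).2
      · exact (continuousOn_const.mul (cont_Qf (sal.cont_y ht) (cal1 t ht) (cal2 t ht)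
          (sbe.cont_y ht) (cbe1 t ht) (pal t ht) (pA t ht))).add
          (continuousOn_const.mul (sbe.cont_y ht))
    exact (hasDeriv_dT sbe ht hy).congr_deriv (hE hy)

end Pool.Agent.RFq
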