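import Mathlib

/-! MP_ae1fc5_gt, Q1: touching lemma and linear maximum principle on a rectangle (helper75) -/

open scoped ContDiff
open Set

noncomputable section

namespace Pool.Agent.RFq

/-- a continuous function on a compact rectangle is bounded. -/
theorem bdd_rect {a b c d : ℝ} {F : ℝ → ℝ → ℝ}
    (hF : ContinuousOn (fun p : ℝ × ℝ => F p.1 p.2) (Icc a b ×ˢ Icc c d)) :
    ∃ M : ℝ, 0 ≤ M ∧ ∀ t ∈ Icc a b, ∀ y ∈ Icc c d, |F t y| ≤ M := by
  obtain ⟨M, hM⟩ := (isCompact_Icc.prod isCompact_Icc).exists_bound_of_continuousOn hF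
  refine ⟨max M 0, le_max_right _ _, fun t ht y hy => ?_⟩
  exact (hM (t, y) ⟨ht, hy⟩).trans (le_max_left _ _)

/-- second derivative test (necessary condition) at an interior maximum. -/
theorem second_le {f f1 : ℝ → ℝ} {f2 a b y : ℝ} (hy : y ∈ Ioo a b)
    (hd1 : ∀ z ∈ Ioo a b, HasDerivAt f (f1 z) z) (hd2 : HasDerivAt f1 f2 y)
    (hmax : ∀ z ∈ Ioo a b, f z ≤ f y) : f1 y = 0 ∧ f2 ≤ 0 := by
  have hloc : IsLocalMax f y := by
    filter_upwards [Ioo_mem_nhds hy.1 hy.2] with z hz using hmax z hz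
  have h1 : f1 y = 0 := hloc.hasDerivAt_eq_zero (hd1 y hy)
  refine ⟨h1, ?_⟩
  by_contra hcon
  push Not at hcon
  -- f1 is positive right of y
  have hpos : ∀ᶠ z in nhdsWithin y (Ioi y), 0 < f1 z := by
    have h := (hasDerivAt_iff_tendsto_slope.1 hd2)
    have h' : Filter.Tendsto (slope f1 y) (nhdsWithin y (Ioi y)) (nhds f2) :=
      h.mono_left (nhdsWithin_mono y (fun z hz => by
        simp only [mem_compl_iff, mem_singleton_iff]; exact (ne_of_gt hz)))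
    have h2 := h'.eventually (lt_mem_nhds hcon)
    filter_upwards [h2, self_mem_nhdsWithin] with z hz hz'
    rw [slope_def_field, h1, sub_zero] at hz
    have hz'' : 0 < z - y := sub_pos.2 hz'
    exact (div_pos_iff_of_pos_right hz'').1 hz
  obtain ⟨δ, hδ, hδ'⟩ : ∃ δ > y, ∀ z ∈ Ioo y δ, 0 < f1 z := by
    rw [Filter.Eventually, mem_nhdsGT_iff_exists_Ioo_subset] at hpos
    obtain ⟨u, hu, hu'⟩ := hpos
    exact ⟨u, hu, fun z hz => hu' hz⟩
  obtain ⟨z, hz1, hz2⟩ : ∃ z, y < z ∧ z < min δ b := exists_between (lt_min hδ hy.2)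
  have hzb : z < b := lt_of_lt_of_le hz2 (min_le_right _ _)
  have hzδ : z < δ := lt_of_lt_of_le hz2 (min_le_left _ _)
  obtain ⟨ξ, hξ, hξ'⟩ := exists_hasDerivAt_eq_slope f f1 hz1
    (fun x hx => (hd1 x ⟨hy.1.trans_le hx.1, hx.2.trans_lt hzb⟩).continuousAt.continuousWithinAt)
    (fun x hx => hd1 x ⟨hy.1.trans hx.1, hx.2.trans hzb⟩)
  have h3 : 0 < f1 ξ := hδ' ξ ⟨hξ.1, hξ.2.trans hzδ⟩
  have h4 : f z ≤ f y := hmax z ⟨hy.1.trans hz1, hzb⟩
  rw [hξ', div_pos_iff_of_pos_right (by linarith)] at h3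
  linarith

/-- one-sided first derivative tests. -/
theorem deriv_nonneg_right_end {f : ℝ → ℝ} {f1 a b : ℝ} (hab : a < b)
    (hd : HasDerivWithinAt f f1 (Icc a b) b) (hmax : ∀ z ∈ Icc a b, f z ≤ f b) : 0 ≤ f1 := by
  by_contra hcon
  push Not at hcon
  have h := (hasDerivWithinAt_iff_tendsto_slope.1 hd)
  have h2 := h.eventually (gt_mem_nhds hcon)
  have hne : (nhdsWithin b (Icc a b \ {b})).NeBot := by
    have : Icc a b \ {b} = Ico a b := by
      ext z; simp only [mem_sdiff, mem_Icc, mem_singleton_iff, mem_Ico]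
      constructor
      · rintro ⟨⟨h1, h2⟩, h3⟩; exact ⟨h1, lt_of_le_of_ne h2 h3⟩
      · rintro ⟨h1, h2⟩; exact ⟨⟨h1, h2.le⟩, h2.ne⟩
    rw [this]
    exact mem_closure_iff_nhdsWithin_neBot.1 (by rw [closure_Ico hab.ne]; exact ⟨hab.le, le_rfl⟩)
  obtain ⟨z, hz, hz'⟩ := (h2.and self_mem_nhdsWithin).exists
  have hzb : z < b := lt_of_le_of_ne hz'.1.2 hz'.2
  rw [slope_def_field] at hz
  have h5 : f z ≤ f b := hmax z hz'.1
  have h6 : 0 ≤ (f z - f b) / (z - b) := div_nonneg_of_nonpos (by linarith) (by linarith)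
  linarith

theorem deriv_nonpos_left_end {f : ℝ → ℝ} {f1 a b : ℝ} (hab : a < b)
    (hd : HasDerivWithinAt f f1 (Icc a b) a) (hmax : ∀ z ∈ Icc a b, f z ≤ f a) : f1 ≤ 0 := by
  by_contra hcon
  push Not at hcon
  have h := (hasDerivWithinAt_iff_tendsto_slope.1 hd)
  have h2 := h.eventually (lt_mem_nhds hcon)
  have hne : (nhdsWithin a (Icc a b \ {a})).NeBot := by
    have : Icc a b \ {a} = Ioc a b := by
      ext z; simp only [mem_sdiff, mem_Icc, mem_singleton_iff, mem_Ioc]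
      constructor
      · rintro ⟨⟨h1, h2⟩, h3⟩; exact ⟨lt_of_le_of_ne h1 (Ne.symm h3), h2⟩
      · rintro ⟨h1, h2⟩; exact ⟨⟨h1.le, h2⟩, h1.ne'⟩
    rw [this]
    exact mem_closure_iff_nhdsWithin_neBot.1 (by rw [closure_Ioc hab.ne]; exact ⟨le_rfl, hab.le⟩)
  obtain ⟨z, hz, hz'⟩ := (h2.and self_mem_nhdsWithin).exists
  have hza : a < z := lt_of_le_of_ne hz'.1.1 (Ne.symm hz'.2)
  rw [slope_def_field] at hz
  have h5 : f z ≤ f a := hmax z hz'.1
  have h6 : (f z - f a) / (z - a) ≤ 0 := div_nonpos_of_nonpos_of_nonneg (by linarith) (by linarith)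
  linarith

/-- TOUCHING LEMMA.  A function which is negative at time `0` stays negative if no first touching
point exists. -/
theorem touch {T a b : ℝ} (hab : a < b) (F F1 F2 Ft : ℝ → ℝ → ℝ)
    (hF : ContinuousOn (fun p : ℝ × ℝ => F p.1 p.2) (Icc 0 T ×ˢ Icc a b))
    (h0 : ∀ y ∈ Icc a b, F 0 y < 0)
    (hd1 : ∀ t ∈ Ioc 0 T, ∀ y ∈ Icc a b, (y ∈ Ioo a b ∨ F t y = 0) →
      HasDerivWithinAt (F t) (F1 t y) (Icc a b) y)
    (hd2 : ∀ t ∈ Ioc 0 T, ∀ y ∈ Ioo a b, F t y = 0 → HasDerivAt (F1 t) (F2 t y) y)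
    (hdt : ∀ t ∈ Ioc 0 T, ∀ y ∈ Icc a b, F t y = 0 →
      HasDerivWithinAt (fun s => F s y) (Ft t y) (Icc 0 T) t)
    (hcase : ∀ t ∈ Ioc 0 T, ∀ y ∈ Icc a b, (∀ s ∈ Icc 0 t, ∀ z ∈ Icc a b, F s z ≤ 0) →
      F t y = 0 → (y < b → F1 t y ≤ 0) → (a < y → 0 ≤ F1 t y) → (a < y → y < b → F2 t y ≤ 0) →
      0 ≤ Ft t y → False) :
    ∀ t ∈ Icc 0 T, ∀ y ∈ Icc a b, F t y < 0 := by
  by_contra hcon
  push Not at hcon
  obtain ⟨t1, ht1, y1, hy1, h1⟩ := hcon
  have hT : 0 ≤ T := ht1.1.trans ht1.2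
  -- the compact set
  let S : Set (ℝ × ℝ) := (Icc 0 T ×ˢ Icc a b) ∩ (fun p : ℝ × ℝ => F p.1 p.2) ⁻¹' (Ici 0)
  have hSc : IsCompact S := by
    have hcl : IsClosed S := by
      exact hF.preimage_isClosed_of_isClosed (isClosed_Icc.prod isClosed_Icc) isClosed_Ici
    exact (isCompact_Icc.prod isCompact_Icc).of_isClosed_subset hcl inter_subset_left
  have hSn : S.Nonempty := ⟨(t1, y1), ⟨ht1, hy1⟩, h1⟩
  obtain ⟨p, hpS, hpmin⟩ := hSc.exists_isMinOn hSn continuousOn_fst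
  obtain ⟨t, y⟩ := p
  obtain ⟨⟨ht, hy⟩, hpos⟩ := hpS
  simp only at ht hy
  have hpos' : 0 ≤ F t y := hpos
  have ht0 : 0 < t := by
    rcases ht.1.eq_or_lt with h | h
    · exfalso; rw [← h] at hpos'; exact absurd (h0 y hy) (not_lt.2 hpos')
    · exact h
  have hneg : ∀ s ∈ Ico 0 t, ∀ z ∈ Icc a b, F s z < 0 := by
    intro s hs z hz
    by_contra hc
    push Not at hc
    have h3 : (s, z) ∈ S := ⟨⟨⟨hs.1, hs.2.le.trans ht.2⟩, hz⟩, hc⟩
    have h4 := hpmin h3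
    simp only [mem_ofPred_eq] at h4
    linarith [hs.2]
  have hle : ∀ s ∈ Icc 0 t, ∀ z ∈ Icc a b, F s z ≤ 0 := by
    intro s hs z hz
    rcases hs.2.eq_or_lt with h | h
    · subst h
      have hc : ContinuousWithinAt (fun r => F r z) (Ico 0 s) s := by
        have h5 : ContinuousOn (fun r : ℝ => F r z) (Icc 0 T) :=
          hF.comp (f := fun r : ℝ => ((r, z) : ℝ × ℝ)) (by fun_prop) (fun r hr => ⟨hr, hz⟩)
        exact (h5 s ht).mono (fun r hr => ⟨hr.1, hr.2.le.trans ht.2⟩)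
      have hcl : s ∈ closure (Ico 0 s) := by
        rw [closure_Ico ht0.ne]; exact ⟨ht0.le, le_rfl⟩
      have h6 := hc.closure_le hcl continuousWithinAt_const (fun r hr => (hneg r hr z hz).le)
      exact h6
    · exact (hneg s ⟨hs.1, h⟩ z hz).le
  have hz0 : F t y = 0 := le_antisymm (hle t ⟨ht0.le, le_rfl⟩ y hy) hpos'
  have htI : t ∈ Ioc 0 T := ⟨ht0, ht.2⟩
  have hmax : ∀ z ∈ Icc a b, F t z ≤ F t y := fun z hz => by
    rw [hz0]; exact hle t ⟨ht0.le, le_rfl⟩ z hz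
  have hdy := hd1 t htI y hy (Or.inr hz0)
  have hint : y ∈ Ioo a b → F1 t y = 0 ∧ F2 t y ≤ 0 := by
    intro hy'
    exact second_le hy' (fun z hz => (hd1 t htI z (Ioo_subset_Icc_self hz) (Or.inl hz)).hasDerivAt
      (Icc_mem_nhds hz.1 hz.2)) (hd2 t htI y hy' hz0) (fun z hz => hmax z (Ioo_subset_Icc_self hz))
  refine hcase t htI y hy hle hz0 ?_ ?_ ?_ ?_
  · intro hyb
    rcases hy.1.eq_or_lt with h | h
    · subst h; exact deriv_nonpos_left_end hab hdy hmax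
    · exact (hint ⟨h, hyb⟩).1.le
  · intro hya
    rcases hy.2.eq_or_lt with h | h
    · subst h; exact deriv_nonneg_right_end hab hdy hmax
    · exact (hint ⟨hya, h⟩).1.ge
  · intro hya hyb
    exact (hint ⟨hya, hyb⟩).2
  · have h7 := (hdt t htI y hy hz0).mono (Icc_subset_Icc_right ht.2 : Icc 0 t ⊆ Icc 0 T)
    exact deriv_nonneg_right_end ht0 h7 (fun s hs => by rw [hz0]; exact hle s hs y hy)

/-- LINEAR MAXIMUM PRINCIPLE on `[0,T] × [-1,1]` (upper bound). -/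
theorem maxp {T C G M : ℝ} (hC : 0 ≤ C) (hG : 0 ≤ G) (hM : 0 ≤ M) (f f1 f2 ft : ℝ → ℝ → ℝ)
    (hF : ContinuousOn (fun p : ℝ × ℝ => f p.1 p.2) (Icc 0 T ×ˢ Icc (-1) 1))
    (h0 : ∀ y ∈ Icc (-1 : ℝ) 1, f 0 y ≤ M)
    (hd1 : ∀ t ∈ Ioc 0 T, ∀ y ∈ Icc (-1 : ℝ) 1, HasDerivWithinAt (f t) (f1 t y) (Icc (-1) 1) y)
    (hd2 : ∀ t ∈ Ioc 0 T, ∀ y ∈ Ioo (-1 : ℝ) 1, HasDerivAt (f1 t) (f2 t y) y)
    (hdt : ∀ t ∈ Ioc 0 T, ∀ y ∈ Icc (-1 : ℝ) 1,
      HasDerivWithinAt (fun s => f s y) (ft t y) (Icc 0 T) t)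
    (a b c g : ℝ → ℝ → ℝ)
    (heq : ∀ t ∈ Ioc 0 T, ∀ y ∈ Icc (-1 : ℝ) 1,
      ft t y = a t y * ((1 - y ^ 2) * f2 t y) + b t y * f1 t y + c t y * f t y + g t y)
    (ha : ∀ t ∈ Ioc 0 T, ∀ y ∈ Icc (-1 : ℝ) 1, 0 ≤ a t y)
    (hb1 : ∀ t ∈ Ioc 0 T, b t 1 ≤ 0) (hb2 : ∀ t ∈ Ioc 0 T, 0 ≤ b t (-1))
    (hc : ∀ t ∈ Ioc 0 T, ∀ y ∈ Icc (-1 : ℝ) 1, c t y ≤ C)
    (hg : ∀ t ∈ Ioc 0 T, ∀ y ∈ Icc (-1 : ℝ) 1, g t y ≤ G) :
    ∀ t ∈ Icc 0 T, ∀ y ∈ Icc (-1 : ℝ) 1, f t y ≤ (M + G) * Real.exp ((C + 1) * t) := by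
  intro t ht y hy
  refine le_of_forall_pos_lt_add fun ε hε => ?_
  -- the barrier
  obtain ⟨ε', hε', hεε⟩ : ∃ ε' > 0, ε' * Real.exp ((C + 1) * t) < ε :=
    ⟨ε / (2 * Real.exp ((C + 1) * t)), by positivity, by
      have := Real.exp_pos ((C + 1) * t)
      field_simp
      linarith⟩
  have key := touch (T := T) (a := -1) (b := 1) (by norm_num)
    (fun t y => f t y - (M + G + ε') * Real.exp ((C + 1) * t)) f1 f2
    (fun t y => ft t y - (M + G + ε') * (Real.exp ((C + 1) * t) * (C + 1))) ?_ ?_ ?_ ?_ ?_ ?_ t ht y hy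
  · linarith
  · refine hF.sub ?_
    exact (by fun_prop : Continuous (fun p : ℝ × ℝ => (M + G + ε') * Real.exp ((C + 1) * p.1))).continuousOn
  · intro y hy
    have := h0 y hy
    simp only [mul_zero, Real.exp_zero, mul_one]
    linarith
  · intro t ht y hy _
    exact (hd1 t ht y hy).sub_const _
  · intro t ht y hy _
    exact hd2 t ht y hy
  · intro t ht y hy _
    refine (hdt t ht y hy).sub (HasDerivAt.hasDerivWithinAt ?_)
    have h := ((hasDerivAt_id t).const_mul (C + 1)).exp.const_mul (M + G + ε')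
    simpa using h
  · intro t ht y hy _ hz h1 h2 h3 h4
    have hE : 1 ≤ Real.exp ((C + 1) * t) := Real.one_le_exp (by nlinarith [ht.1])
    have hf : f t y = (M + G + ε') * Real.exp ((C + 1) * t) := by
      linarith
    have hfp : M + G + ε' ≤ f t y := by
      rw [hf]; nlinarith
    have hcf : c t y * f t y ≤ C * f t y := mul_le_mul_of_nonneg_right (hc t ht y hy) (by linarith)
    have hgg := hg t ht y hy
    have hdiff : a t y * ((1 - y ^ 2) * f2 t y) + b t y * f1 t y ≤ 0 := by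
      rcases hy.2.eq_or_lt with h | h
      · subst h
        have h5 := h2 (by norm_num)
        have h6 := mul_nonpos_of_nonpos_of_nonneg (hb1 t ht) h5
        simp only [one_pow, sub_self, zero_mul, mul_zero, zero_add]
        exact h6
      · rcases hy.1.eq_or_lt with h' | h'
        · subst h'
          have h5 := h1 (by norm_num)
          have h6 := mul_nonpos_of_nonneg_of_nonpos (hb2 t ht) h5
          norm_num
          exact h6
        · have h5 : f1 t y = 0 := le_antisymm (h1 h) (h2 h')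
          rw [h5, mul_zero, add_zero]
          exact mul_nonpos_of_nonneg_of_nonpos (ha t ht y hy)
            (mul_nonpos_of_nonneg_of_nonpos (by nlinarith) (h3 h' h))
    have h7 := heq t ht y hy
    have h8 : (M + G + ε') * (Real.exp ((C + 1) * t) * (C + 1)) = (C + 1) * f t y := by
      rw [hf]; ring
    rw [h8, h7] at h4
    nlinarith

end Pool.Agent.RFq
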