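import Pool.Agent.RFq.Defs
import Pool.Agent.RFq.Mxp
import Pool.Agent.MP_ae1fc5_gt.Gauge

/-! MP_ae1fc5_gt, Q1: the equations of `V_y`, `V_yy`, `v`, `Q = V^3 V_yy` on the closed rectangle
(helper75) -/

open scoped ContDiff
open Set

noncomputable section

namespace Pool.Agent.RFq

open Pool.Agent.MP_ae1fc5_gt Pool.Agent.MP_ae1fc5_gt.Gauge

/-- first derivative of `rhs` -/
def rhs1 (V V1 V2 V3 J y : ℝ) : ℝ :=
  2 * V * V1 * ((1 - y ^ 2) * V2 - 3 * y * V1) + V ^ 2 * ((1 - y ^ 2) * V3 - 5 * y * V2 - 3 * V1)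
    - V1 ^ 3 * (1 - y ^ 2) + 2 * y * V * V1 ^ 2 - 2 * V * (1 - y ^ 2) * V1 * V2
    + (6 * V ^ 2 - 2) * V1 - (V - y * V1 + (1 - y ^ 2) * V2) * J
    - (y * V + (1 - y ^ 2) * V1) * V1 ^ 2

/-- second derivative of `rhs` -/
def rhs2 (V V1 V2 V3 V4 J y : ℝ) : ℝ :=
  2 * (V1 ^ 2 + V * V2) * ((1 - y ^ 2) * V2 - 3 * y * V1)
    + 2 * V * V1 * ((1 - y ^ 2) * V3 - 5 * y * V2 - 3 * V1)
    + 2 * V * V1 * ((1 - y ^ 2) * V3 - 5 * y * V2 - 3 * V1)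
    + V ^ 2 * ((1 - y ^ 2) * V4 - 7 * y * V3 - 8 * V2)
    - 3 * V1 ^ 2 * V2 * (1 - y ^ 2) + 2 * y * V1 ^ 3
    + 2 * V * V1 ^ 2 + 2 * y * V1 ^ 3 + 4 * y * V * V1 * V2
    - 2 * V1 ^ 2 * (1 - y ^ 2) * V2 + 4 * y * V * V1 * V2 - 2 * V * (1 - y ^ 2) * V2 ^ 2
    - 2 * V * (1 - y ^ 2) * V1 * V3
    + 12 * V * V1 ^ 2 + (6 * V ^ 2 - 2) * V2
    - ((1 - y ^ 2) * V3 - 3 * y * V2) * J - (V - y * V1 + (1 - y ^ 2) * V2) * V1 ^ 2
    - (V - y * V1 + (1 - y ^ 2) * V2) * V1 ^ 2 - 2 * (y * V + (1 - y ^ 2) * V1) * V1 * V2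

theorem uI1 : UniqueDiffOn ℝ I1 := uniqueDiffOn_Icc (by norm_num)

/-- `1 - y^2` -/
theorem hs_der {J : Set ℝ} (y : ℝ) : HasDerivWithinAt (fun z : ℝ => 1 - z ^ 2) (-2 * y) J y := by
  have h := (((hasDerivAt_id' y).hasDerivWithinAt (s := J)).fun_pow 2).const_sub 1
  refine h.congr_deriv ?_
  simp

section

variable {T : ℝ} {F G : ℕ → ℝ → ℝ → ℝ} {J : ℝ → ℝ → ℝ} (S : Sol T F G J)

include S

theorem Sol.G1 {t y : ℝ} (ht : t ∈ Icc 0 T) (hy : y ∈ I1) :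
    G 1 t y = rhs1 (F 0 t y) (F 1 t y) (F 2 t y) (F 3 t y) (J t y) y := by
  have hV := S.dF 0 t ht y hy
  have hV1 := S.dF 1 t ht y hy
  have hV2 := S.dF 2 t ht y hy
  have hJ' := S.dJ t ht y hy
  have hid := (hasDerivAt_id' y).hasDerivWithinAt (s := I1)
  have hs := hs_der (J := I1) y
  have h := (((((hV.fun_pow 2).fun_mul ((hs.fun_mul hV2).fun_sub
    ((hid.const_mul 3).fun_mul hV1))).fun_sub ((hV.fun_mul hs).fun_mul (hV1.fun_pow 2))).fun_add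
    ((hV.const_mul 2).fun_mul ((hV.fun_pow 2).sub_const 1))).fun_sub
    (((hid.fun_mul hV).fun_add (hs.fun_mul hV1)).fun_mul hJ'))
  have h2 := HasDerivWithinAt.congr_deriv
    (f := fun z => rhs (F 0 t z) (F 1 t z) (F 2 t z) (J t z) z)
    (g' := rhs1 (F 0 t y) (F 1 t y) (F 2 t y) (F 3 t y) (J t y) y) h
    (by simp only [rhs1, Nat.cast_ofNat]; ring)
  exact unique_deriv uI1 hy (S.dG 0 t ht y hy) (h2.congr_of_mem (fun z hz => S.G0 t ht z hz) hy)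

theorem Sol.G2 {t y : ℝ} (ht : t ∈ Icc 0 T) (hy : y ∈ I1) :
    G 2 t y = rhs2 (F 0 t y) (F 1 t y) (F 2 t y) (F 3 t y) (F 4 t y) (J t y) y := by
  have hV := S.dF 0 t ht y hy
  have hV1 := S.dF 1 t ht y hy
  have hV2 := S.dF 2 t ht y hy
  have hV3 := S.dF 3 t ht y hy
  have hJ' := S.dJ t ht y hy
  have hid := (hasDerivAt_id' y).hasDerivWithinAt (s := I1)
  have hs := hs_der (J := I1) y
  have h := (((((((((hV.const_mul 2).fun_mul hV1).fun_mul ((hs.fun_mul hV2).fun_sub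
      ((hid.const_mul 3).fun_mul hV1))).fun_add
    ((hV.fun_pow 2).fun_mul (((hs.fun_mul hV3).fun_sub ((hid.const_mul 5).fun_mul hV2)).fun_sub
      (hV1.const_mul 3)))).fun_sub
    ((hV1.fun_pow 3).fun_mul hs)).fun_add
    (((hid.const_mul 2).fun_mul hV).fun_mul (hV1.fun_pow 2))).fun_sub
    ((((hV.const_mul 2).fun_mul hs).fun_mul hV1).fun_mul hV2)).fun_add
    ((((hV.fun_pow 2).const_mul 6).sub_const 2).fun_mul hV1)).fun_sub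
    (((hV.fun_sub (hid.fun_mul hV1)).fun_add (hs.fun_mul hV2)).fun_mul hJ')).fun_sub
    (((hid.fun_mul hV).fun_add (hs.fun_mul hV1)).fun_mul (hV1.fun_pow 2))
  have h2 := HasDerivWithinAt.congr_deriv
    (f := fun z => rhs1 (F 0 t z) (F 1 t z) (F 2 t z) (F 3 t z) (J t z) z)
    (g' := rhs2 (F 0 t y) (F 1 t y) (F 2 t y) (F 3 t y) (F 4 t y) (J t y) y) h
    (by simp only [rhs2, Nat.cast_ofNat]; ring)
  exact unique_deriv uI1 hy (S.dG 1 t ht y hy) (h2.congr_of_mem (fun z hz => S.G1 ht hz) hy)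

end

/-- `v`, the tangential curvature -/
def vv (F : ℕ → ℝ → ℝ → ℝ) (t y : ℝ) : ℝ :=
  F 0 t y ^ 2 - 2 * y * F 0 t y * F 1 t y - (1 - y ^ 2) * F 1 t y ^ 2

/-- `P = y V + (1-y^2) V_y` -/
def PP (F : ℕ → ℝ → ℝ → ℝ) (t y : ℝ) : ℝ := y * F 0 t y + (1 - y ^ 2) * F 1 t y

/-- `v_y` -/
def v1 (F : ℕ → ℝ → ℝ → ℝ) (t y : ℝ) : ℝ := -2 * PP F t y * F 2 t y

/-- `v_yy` -/
def v2 (F : ℕ → ℝ → ℝ → ℝ) (t y : ℝ) : ℝ :=
  -2 * ((F 0 t y - y * F 1 t y + (1 - y ^ 2) * F 2 t y) * F 2 t y + PP F t y * F 3 t y)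

/-- `Q = V^3 V_yy` -/
def Q0 (F : ℕ → ℝ → ℝ → ℝ) (t y : ℝ) : ℝ := F 0 t y ^ 3 * F 2 t y

/-- `Q_y` -/
def Q1 (F : ℕ → ℝ → ℝ → ℝ) (t y : ℝ) : ℝ :=
  3 * F 0 t y ^ 2 * F 1 t y * F 2 t y + F 0 t y ^ 3 * F 3 t y

/-- `Q_yy` -/
def Q2 (F : ℕ → ℝ → ℝ → ℝ) (t y : ℝ) : ℝ :=
  6 * F 0 t y * F 1 t y ^ 2 * F 2 t y + 3 * F 0 t y ^ 2 * F 2 t y ^ 2
    + 6 * F 0 t y ^ 2 * F 1 t y * F 3 t y + F 0 t y ^ 3 * F 4 t y

theorem V_sub_P (F : ℕ → ℝ → ℝ → ℝ) (t y : ℝ) :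
    F 0 t y ^ 2 - PP F t y ^ 2 = (1 - y ^ 2) * vv F t y := by
  unfold PP vv; ring

section

variable {T : ℝ} {F G : ℕ → ℝ → ℝ → ℝ} {J : ℝ → ℝ → ℝ} (S : Sol T F G J)

include S

theorem Sol.dP {t y : ℝ} (ht : t ∈ Icc 0 T) (hy : y ∈ I1) :
    HasDerivWithinAt (PP F t) (F 0 t y - y * F 1 t y + (1 - y ^ 2) * F 2 t y) I1 y := by
  have hV := S.dF 0 t ht y hy
  have hV1 := S.dF 1 t ht y hy
  have hid := (hasDerivAt_id' y).hasDerivWithinAt (s := I1)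
  have hs := hs_der (J := I1) y
  exact HasDerivWithinAt.congr_deriv (f := PP F t) ((hid.fun_mul hV).fun_add (hs.fun_mul hV1))
    (by ring)

theorem Sol.dv {t y : ℝ} (ht : t ∈ Icc 0 T) (hy : y ∈ I1) :
    HasDerivWithinAt (vv F t) (v1 F t y) I1 y := by
  have hV := S.dF 0 t ht y hy
  have hV1 := S.dF 1 t ht y hy
  have hid := (hasDerivAt_id' y).hasDerivWithinAt (s := I1)
  have hs := hs_der (J := I1) y
  refine HasDerivWithinAt.congr_deriv (f := vv F t) (((hV.fun_pow 2).fun_sub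
    (((hid.const_mul 2).fun_mul hV).fun_mul hV1)).fun_sub (hs.fun_mul (hV1.fun_pow 2))) ?_
  simp only [v1, PP, Nat.cast_ofNat]
  ring

theorem Sol.dv1 {t y : ℝ} (ht : t ∈ Icc 0 T) (hy : y ∈ I1) :
    HasDerivWithinAt (v1 F t) (v2 F t y) I1 y := by
  have hV2 := S.dF 2 t ht y hy
  refine HasDerivWithinAt.congr_deriv (f := v1 F t) (((S.dP ht hy).const_mul (-2)).fun_mul hV2) ?_
  simp only [v2]
  ring

theorem Sol.dQ {t y : ℝ} (ht : t ∈ Icc 0 T) (hy : y ∈ I1) :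
    HasDerivWithinAt (Q0 F t) (Q1 F t y) I1 y := by
  have hV := S.dF 0 t ht y hy
  have hV2 := S.dF 2 t ht y hy
  refine HasDerivWithinAt.congr_deriv (f := Q0 F t) ((hV.fun_pow 3).fun_mul hV2) ?_
  simp only [Q1, Nat.cast_ofNat]

theorem Sol.dQ1 {t y : ℝ} (ht : t ∈ Icc 0 T) (hy : y ∈ I1) :
    HasDerivWithinAt (Q1 F t) (Q2 F t y) I1 y := by
  have hV := S.dF 0 t ht y hy
  have hV1 := S.dF 1 t ht y hy
  have hV2 := S.dF 2 t ht y hy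
  have hV3 := S.dF 3 t ht y hy
  refine HasDerivWithinAt.congr_deriv (f := Q1 F t)
    (((((hV.fun_pow 2).const_mul 3).fun_mul hV1).fun_mul hV2).fun_add
    ((hV.fun_pow 3).fun_mul hV3)) ?_
  simp only [Q2, Nat.cast_ofNat]
  ring

/-- (I5) -/
theorem Sol.t_v {t y : ℝ} (ht : t ∈ Icc 0 T) (hy : y ∈ I1) :
    HasDerivWithinAt (fun s => vv F s y)
      (F 0 t y ^ 2 * ((1 - y ^ 2) * v2 F t y - 5 * y * v1 F t y)
        - (1 - y ^ 2) * (2 * F 0 t y * F 1 t y + J t y) * v1 F t y + 2 * vv F t y ^ 2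
        + 2 * (vv F t y + F 0 t y * (1 - y ^ 2) * F 2 t y) ^ 2 - 4 * vv F t y) (Icc 0 T) t := by
  have hV := S.dt 0 t ht y hy
  have hV1 := S.dt 1 t ht y hy
  rw [S.G0 t ht y hy] at hV
  rw [S.G1 ht hy] at hV1
  refine HasDerivWithinAt.congr_deriv (f := fun s => vv F s y) (((hV.fun_pow 2).fun_sub
    ((hV.const_mul (2 * y)).fun_mul hV1)).fun_sub ((hV1.fun_pow 2).const_mul (1 - y ^ 2))) ?_
  simp only [v1, v2, vv, PP, rhs, rhs1, Nat.cast_ofNat]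
  ring

/-- (I4) -/
theorem Sol.t_Q {t y : ℝ} (ht : t ∈ Icc 0 T) (hy : y ∈ I1) :
    HasDerivWithinAt (fun s => Q0 F s y)
      (F 0 t y ^ 2 * ((1 - y ^ 2) * Q2 F t y - 7 * y * Q1 F t y)
        - (1 - y ^ 2) * (4 * F 0 t y * F 1 t y + J t y) * Q1 F t y
        + (4 * vv F t y - 8) * Q0 F t y) (Icc 0 T) t := by
  have hV := S.dt 0 t ht y hy
  have hV2 := S.dt 2 t ht y hy
  rw [S.G0 t ht y hy] at hV
  rw [S.G2 ht hy] at hV2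
  refine HasDerivWithinAt.congr_deriv (f := fun s => Q0 F s y) ((hV.fun_pow 3).fun_mul hV2) ?_
  simp only [Q0, Q1, Q2, vv, rhs, rhs2, Nat.cast_ofNat]
  ring

theorem Sol.cv : ContinuousOn (fun p : ℝ × ℝ => vv F p.1 p.2) (Icc 0 T ×ˢ I1) := by
  have h0 := S.cF 0
  have h1 := S.cF 1
  unfold vv
  fun_prop

theorem Sol.cQ : ContinuousOn (fun p : ℝ × ℝ => Q0 F p.1 p.2) (Icc 0 T ×ˢ I1) := by
  have h0 := S.cF 0
  have h2 := S.cF 2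
  unfold Q0
  fun_prop

end

end Pool.Agent.RFq
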