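import Pool.Agent.RFq.LePos

/-!
# MP_ae1fc5_gt, Q1, local existence: Schur bounds
-/

set_option autoImplicit false

open scoped Real ContDiff
open Set

noncomputable section

namespace Pool.Agent.RFq

open Pool.Agent.MP_ae1fc5_gt Pool.Agent.MP_ae1fc5_gt.Pde

-- BEGIN a1
/-- (a1, size 1) Schur test. PROOF. For every `t > 0`: `b k * e p ≤ (t * b k ^ 2 + e p ^ 2 / t) / 2`, sum, optimise `t`
(or Cauchy-Schwarz for the double sum of `√κ b * √κ e`). Note `n2 B 0 b = √(∑ b k ^ 2)` (`n2_sq`). -/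
theorem schur (B D : ℕ) (κ : ℕ → ℕ → ℝ) (R : ℝ) (hκ : ∀ k p, 0 ≤ κ k p) (b e : ℕ → ℝ)
    (hb : ∀ k, 0 ≤ b k) (he : ∀ k, 0 ≤ e k)
    (h1 : ∀ k < B, ∑ p ∈ Finset.range D, κ k p ≤ R) (h2 : ∀ p < D, ∑ k ∈ Finset.range B, κ k p ≤ R) :
    ∑ k ∈ Finset.range B, ∑ p ∈ Finset.range D, κ k p * (b k * e p) ≤
      R * (n2 B 0 b * n2 D 0 e) := by
  rcases Nat.eq_zero_or_pos B with h0 | h0
  · subst h0
    simp [n2]
  have hR : 0 ≤ R := le_trans (Finset.sum_nonneg fun p _ => hκ 0 p) (h1 0 h0)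
  have hcs := Real.sum_mul_le_sqrt_mul_sqrt (Finset.range B ×ˢ Finset.range D)
    (fun q => √(κ q.1 q.2) * b q.1) (fun q => √(κ q.1 q.2) * e q.2)
  have e0 : ∑ q ∈ Finset.range B ×ˢ Finset.range D,
      (√(κ q.1 q.2) * b q.1) * (√(κ q.1 q.2) * e q.2) =
      ∑ k ∈ Finset.range B, ∑ p ∈ Finset.range D, κ k p * (b k * e p) := by
    rw [Finset.sum_product]
    refine Finset.sum_congr rfl fun k _ => Finset.sum_congr rfl fun p _ => ?_
    have := Real.mul_self_sqrt (hκ k p)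
    calc √(κ k p) * b k * (√(κ k p) * e p) = (√(κ k p) * √(κ k p)) * (b k * e p) := by ring
      _ = κ k p * (b k * e p) := by rw [this]
  have e1 : ∑ q ∈ Finset.range B ×ˢ Finset.range D, (√(κ q.1 q.2) * b q.1) ^ 2 ≤
      R * n2 B 0 b ^ 2 := by
    rw [Finset.sum_product, n2_sq, Finset.mul_sum]
    refine Finset.sum_le_sum fun k hk => ?_
    have h3 := h1 k (Finset.mem_range.mp hk)
    calc ∑ p ∈ Finset.range D, (√(κ k p) * b k) ^ 2
        = (∑ p ∈ Finset.range D, κ k p) * b k ^ 2 := by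
          rw [Finset.sum_mul]
          refine Finset.sum_congr rfl fun p _ => ?_
          rw [mul_pow, Real.sq_sqrt (hκ k p)]
      _ ≤ R * b k ^ 2 := mul_le_mul_of_nonneg_right h3 (sq_nonneg _)
      _ = R * (wt k ^ (2 * 0) * b k ^ 2) := by simp
  have e2 : ∑ q ∈ Finset.range B ×ˢ Finset.range D, (√(κ q.1 q.2) * e q.2) ^ 2 ≤
      R * n2 D 0 e ^ 2 := by
    rw [Finset.sum_product_right, n2_sq, Finset.mul_sum]
    refine Finset.sum_le_sum fun p hp => ?_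
    have h3 := h2 p (Finset.mem_range.mp hp)
    calc ∑ k ∈ Finset.range B, (√(κ k p) * e p) ^ 2
        = (∑ k ∈ Finset.range B, κ k p) * e p ^ 2 := by
          rw [Finset.sum_mul]
          refine Finset.sum_congr rfl fun k _ => ?_
          rw [mul_pow, Real.sq_sqrt (hκ k p)]
      _ ≤ R * e p ^ 2 := mul_le_mul_of_nonneg_right h3 (sq_nonneg _)
      _ = R * (wt p ^ (2 * 0) * e p ^ 2) := by simp
  rw [e0] at hcs
  refine hcs.trans ?_
  have s1 : √(∑ q ∈ Finset.range B ×ˢ Finset.range D, (√(κ q.1 q.2) * b q.1) ^ 2) ≤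
      √R * n2 B 0 b := by
    refine (Real.sqrt_le_sqrt e1).trans (le_of_eq ?_)
    rw [Real.sqrt_mul hR, Real.sqrt_sq (n2_nonneg _ _ _)]
  have s2 : √(∑ q ∈ Finset.range B ×ˢ Finset.range D, (√(κ q.1 q.2) * e q.2) ^ 2) ≤
      √R * n2 D 0 e := by
    refine (Real.sqrt_le_sqrt e2).trans (le_of_eq ?_)
    rw [Real.sqrt_mul hR, Real.sqrt_sq (n2_nonneg _ _ _)]
  refine (mul_le_mul s1 s2 (Real.sqrt_nonneg _)
    (mul_nonneg (Real.sqrt_nonneg _) (n2_nonneg _ _ _))).trans (le_of_eq ?_)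
  calc √R * n2 B 0 b * (√R * n2 D 0 e) = (√R * √R) * (n2 B 0 b * n2 D 0 e) := by ring
    _ = R * (n2 B 0 b * n2 D 0 e) := by rw [Real.mul_self_sqrt hR]
-- END a1

-- BEGIN a2
/-- (a2, size 1) `chi` is symmetric in its three arguments. -/
theorem chi_rot (m n k : ℕ) : chi m n k = chi m k n := by
  unfold chi
  by_cases h : k ≤ m + n ∧ m ≤ n + k ∧ n ≤ m + k
  · rw [if_pos h, if_pos (by omega)]
  · rw [if_neg h, if_neg (by omega)]

/-- (a2, size 1) PROOF. `schur` for every `l` with `κ = chi l`, `R = wt l` (`ArrBd.sum_chi_le`, `chi_rot`, `ArrBd.chi_comm`). -/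
theorem tri (A B D : ℕ) (a b e : ℕ → ℝ) (ha : ∀ k, 0 ≤ a k) (hb : ∀ k, 0 ≤ b k) (he : ∀ k, 0 ≤ e k) :
    ∑ l ∈ Finset.range A, ∑ k ∈ Finset.range B, ∑ p ∈ Finset.range D,
      chi l k p * (a l * (b k * e p)) ≤ n1 A 1 a * (n2 B 0 b * n2 D 0 e) := by
  unfold n1
  rw [Finset.sum_mul]
  refine Finset.sum_le_sum fun l _ => ?_
  have hs := schur B D (fun k p => chi l k p) (wt l) (fun k p => ArrBd.chi_nonneg l k p) b e hb he
    (fun k _ => by unfold wt; exact ArrBd.sum_chi_le l k (Finset.range D))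
    (fun p _ => by
      unfold wt
      have h := ArrBd.sum_chi_le l p (Finset.range B)
      calc ∑ k ∈ Finset.range B, chi l k p = ∑ k ∈ Finset.range B, chi l p k :=
            Finset.sum_congr rfl fun k _ => chi_rot l k p
        _ ≤ _ := h)
  have e1 : ∑ k ∈ Finset.range B, ∑ p ∈ Finset.range D, chi l k p * (a l * (b k * e p)) =
      a l * ∑ k ∈ Finset.range B, ∑ p ∈ Finset.range D, chi l k p * (b k * e p) := by
    rw [Finset.mul_sum]
    refine Finset.sum_congr rfl fun k _ => ?_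
    rw [Finset.mul_sum]
    refine Finset.sum_congr rfl fun p _ => ?_
    ring
  rw [e1, abs_of_nonneg (ha l), pow_one]
  calc a l * ∑ k ∈ Finset.range B, ∑ p ∈ Finset.range D, chi l k p * (b k * e p)
      ≤ a l * (wt l * (n2 B 0 b * n2 D 0 e)) := mul_le_mul_of_nonneg_left hs (ha l)
    _ = wt l * a l * (n2 B 0 b * n2 D 0 e) := by ring
-- END a2

-- BEGIN a3
private theorem a3_aux (m n M : ℕ) (h : n ≤ m) :
    ∑ p ∈ Finset.range M, wt p * chi m n p ≤ wt m * wt n := by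
  have h1 : ∀ p ∈ Finset.range M, wt p * chi m n p ≤
      (if p ∈ Finset.Ico (m - n) (m + n + 1) then wt p else 0) := by
    intro p _
    unfold chi
    by_cases hp : p ≤ m + n ∧ m ≤ n + p ∧ n ≤ m + p
    · rw [if_pos hp, if_pos (Finset.mem_Ico.mpr ⟨by omega, by omega⟩), mul_one]
    · rw [if_neg hp, mul_zero]
      split_ifs
      · exact (wt_pos p).le
      · exact le_rfl
  have h2 : ∑ p ∈ Finset.range M, (if p ∈ Finset.Ico (m - n) (m + n + 1) then wt p else 0) ≤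
      ∑ p ∈ Finset.Ico (m - n) (m + n + 1), wt p := by
    rw [← Finset.sum_filter]
    refine Finset.sum_le_sum_of_subset_of_nonneg ?_ (fun p _ _ => (wt_pos p).le)
    intro p hp
    exact (Finset.mem_filter.mp hp).2
  have h3 : ∀ a d : ℕ, ∑ p ∈ Finset.Ico a (a + d), wt p = ((a + d : ℕ) : ℝ) ^ 2 - (a : ℝ) ^ 2 := by
    intro a d
    induction d with
    | zero => simp
    | succ d ih =>
      rw [← Nat.add_assoc, Finset.sum_Ico_succ_top (Nat.le_add_right a d), ih]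
      unfold wt
      push_cast
      ring
  have h4 : ∑ p ∈ Finset.Ico (m - n) (m + n + 1), wt p = wt m * wt n := by
    obtain ⟨d, rfl⟩ := Nat.exists_eq_add_of_le h
    have e1 : n + d - n = d := by omega
    have e2 : n + d + n + 1 = d + (2 * n + 1) := by ring
    rw [e1, e2, h3]
    unfold wt
    push_cast
    ring
  exact ((Finset.sum_le_sum h1).trans h2).trans h4.le

/-- (a3, size 1) the sum of `2 p + 1` over `|m - n| ≤ p ≤ m + n` is `(2 m + 1) (2 n + 1)`. PROOF.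
`wt p = (p + 1) ^ 2 - p ^ 2` telescopes over `Finset.Ico`, WLOG `n ≤ m` by `ArrBd.chi_comm`. -/
theorem sum_wt_chi (m n M : ℕ) : ∑ p ∈ Finset.range M, wt p * chi m n p ≤ wt m * wt n := by
  rcases le_total n m with h | h
  · exact a3_aux m n M h
  · have h1 := a3_aux n m M h
    rw [mul_comm (wt m)]
    refine le_trans (le_of_eq ?_) h1
    exact Finset.sum_congr rfl fun p _ => by rw [ArrBd.chi_comm]

private theorem a3_nn (N : ℕ) (a b : ℕ → ℝ) (ha : ∀ k, 0 ≤ a k) (hb : ∀ k, 0 ≤ b k) (p : ℕ) :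
    0 ≤ bil chi N a b p :=
  Finset.sum_nonneg fun m _ => Finset.sum_nonneg fun n _ =>
    mul_nonneg (mul_nonneg (ArrBd.chi_nonneg m n p) (ha m)) (hb n)

private theorem a3_exp (N M : ℕ) (a b e : ℕ → ℝ) :
    ∑ p ∈ Finset.range M, bil chi N a b p * e p =
      ∑ m ∈ Finset.range N, ∑ n ∈ Finset.range N, ∑ p ∈ Finset.range M,
        chi m n p * (a m * (b n * e p)) := by
  have h1 : ∀ p ∈ Finset.range M, bil chi N a b p * e p =
      ∑ m ∈ Finset.range N, ∑ n ∈ Finset.range N, chi m n p * (a m * (b n * e p)) := by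
    intro p _
    unfold bil
    rw [Finset.sum_mul]
    refine Finset.sum_congr rfl fun m _ => ?_
    rw [Finset.sum_mul]
    refine Finset.sum_congr rfl fun n _ => ?_
    ring
  rw [Finset.sum_congr rfl h1, Finset.sum_comm]
  refine Finset.sum_congr rfl fun m _ => ?_
  rw [Finset.sum_comm]

/-- (a3, size 1) PROOF. `e = bil chi N a b ≥ 0`, `∑ p, e p * e p ≤ n1 N 1 a * (n2 N 0 b * n2 M 0 e)` by `tri`, divide by `n2 M 0 e`. -/
theorem bil_n2 (N M : ℕ) (a b : ℕ → ℝ) (ha : ∀ k, 0 ≤ a k) (hb : ∀ k, 0 ≤ b k) :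
    n2 M 0 (bil chi N a b) ≤ n1 N 1 a * n2 N 0 b := by
  have h1 := tri N N M a b (bil chi N a b) ha hb (a3_nn N a b ha hb)
  rw [← a3_exp] at h1
  have h2 := n2_sq M 0 (bil chi N a b)
  have h3 : ∑ p ∈ Finset.range M, bil chi N a b p * bil chi N a b p =
      n2 M 0 (bil chi N a b) ^ 2 := by
    rw [h2]
    refine Finset.sum_congr rfl fun p _ => ?_
    rw [Nat.mul_zero, pow_zero, one_mul, sq]
  rw [h3] at h1
  have h4 := n2_nonneg M 0 (bil chi N a b)
  rcases h4.eq_or_lt with h5 | h5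
  · rw [← h5]
    exact mul_nonneg (n1_nonneg _ _ _) (n2_nonneg _ _ _)
  · refine le_of_mul_le_mul_right ?_ h5
    calc n2 M 0 (bil chi N a b) * n2 M 0 (bil chi N a b) = n2 M 0 (bil chi N a b) ^ 2 := by ring
      _ ≤ n1 N 1 a * (n2 N 0 b * n2 M 0 (bil chi N a b)) := h1
      _ = n1 N 1 a * n2 N 0 b * n2 M 0 (bil chi N a b) := by ring

/-- (a3, size 1) PROOF. exchange the sums, `sum_wt_chi`. -/
theorem bil_n1 (N M : ℕ) (a b : ℕ → ℝ) (ha : ∀ k, 0 ≤ a k) (hb : ∀ k, 0 ≤ b k) :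
    n1 M 1 (bil chi N a b) ≤ n1 N 1 a * n1 N 1 b := by
  have h1 : n1 M 1 (bil chi N a b) = ∑ p ∈ Finset.range M, bil chi N a b p * wt p := by
    unfold n1
    refine Finset.sum_congr rfl fun p _ => ?_
    rw [pow_one, abs_of_nonneg (a3_nn N a b ha hb p), mul_comm]
  rw [h1, a3_exp]
  unfold n1
  rw [Finset.sum_mul]
  refine Finset.sum_le_sum fun m _ => ?_
  rw [Finset.mul_sum]
  refine Finset.sum_le_sum fun n _ => ?_
  have h2 : ∑ p ∈ Finset.range M, chi m n p * (a m * (b n * wt p)) =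
      (a m * b n) * ∑ p ∈ Finset.range M, wt p * chi m n p := by
    rw [Finset.mul_sum]
    exact Finset.sum_congr rfl fun p _ => by ring
  rw [h2, pow_one, pow_one, abs_of_nonneg (ha m), abs_of_nonneg (hb n)]
  calc (a m * b n) * ∑ p ∈ Finset.range M, wt p * chi m n p
      ≤ (a m * b n) * (wt m * wt n) :=
        mul_le_mul_of_nonneg_left (sum_wt_chi m n M) (mul_nonneg (ha m) (hb n))
    _ = wt m * a m * (wt n * b n) := by ring

/-- (a3, size 1) PROOF. `tri` with the roles permuted (`chi_rot`, `ArrBd.chi_comm`). -/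
theorem bil_tri (N M : ℕ) (a b e : ℕ → ℝ) (ha : ∀ k, 0 ≤ a k) (hb : ∀ k, 0 ≤ b k)
    (he : ∀ k, 0 ≤ e k) :
    ∑ p ∈ Finset.range M, bil chi N a b p * e p ≤ n2 N 0 a * n2 N 0 b * n1 M 1 e := by
  have h1 := tri M N N e a b he ha hb
  have h2 : ∑ p ∈ Finset.range M, bil chi N a b p * e p =
      ∑ l ∈ Finset.range M, ∑ k ∈ Finset.range N, ∑ p ∈ Finset.range N,
        chi l k p * (e l * (a k * b p)) := by
    refine Finset.sum_congr rfl fun l _ => ?_
    unfold bil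
    rw [Finset.sum_mul]
    refine Finset.sum_congr rfl fun k _ => ?_
    rw [Finset.sum_mul]
    refine Finset.sum_congr rfl fun p _ => ?_
    rw [chi_rot k p l, ArrBd.chi_comm k l p]
    ring
  rw [h2]
  refine h1.trans (le_of_eq ?_)
  ring
-- END a3

-- BEGIN a4
private theorem a4_chi_nonneg (m n k : ℕ) : 0 ≤ chi m n k := by
  unfold chi; split_ifs <;> norm_num

private theorem a4_bil_nonneg (N : ℕ) (a b : ℕ → ℝ) (ha : ∀ k, 0 ≤ a k) (hb : ∀ k, 0 ≤ b k)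
    (p : ℕ) : 0 ≤ bil chi N a b p :=
  Finset.sum_nonneg fun m _ => Finset.sum_nonneg fun n _ =>
    mul_nonneg (mul_nonneg (a4_chi_nonneg m n p) (ha m)) (hb n)

/-- (a4, size 1) -/
theorem bil_comm (N : ℕ) (a b : ℕ → ℝ) (p : ℕ) : bil chi N a b p = bil chi N b a p := by
  unfold bil
  rw [Finset.sum_comm]
  refine Finset.sum_congr rfl fun m _ => Finset.sum_congr rfl fun n _ => ?_
  rw [ArrBd.chi_comm]
  ring

/-- (a4, size 1) `n2_cauchy` and `bil_n2`. -/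
theorem q1 (N : ℕ) (a b c d : ℕ → ℝ) (ha : ∀ k, 0 ≤ a k) (hb : ∀ k, 0 ≤ b k) (hc : ∀ k, 0 ≤ c k)
    (hd : ∀ k, 0 ≤ d k) :
    ∑ p ∈ Finset.range (2 * N), bil chi N a b p * bil chi N c d p ≤
      (n1 N 1 a * n2 N 0 b) * (n1 N 1 c * n2 N 0 d) := by
  refine (n2_cauchy (2 * N) (bil chi N a b) (bil chi N c d)).trans ?_
  exact mul_le_mul (bil_n2 N (2 * N) a b ha hb) (bil_n2 N (2 * N) c d hc hd)
    (n2_nonneg _ _ _) (mul_nonneg (n1_nonneg _ _ _) (n2_nonneg _ _ _))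

/-- (a4, size 1) `bil_tri` and `bil_n1`. -/
theorem q2 (N : ℕ) (a b c d : ℕ → ℝ) (ha : ∀ k, 0 ≤ a k) (hb : ∀ k, 0 ≤ b k) (hc : ∀ k, 0 ≤ c k)
    (hd : ∀ k, 0 ≤ d k) :
    ∑ p ∈ Finset.range (2 * N), bil chi N a b p * bil chi N c d p ≤
      (n2 N 0 a * n2 N 0 b) * (n1 N 1 c * n1 N 1 d) := by
  refine (bil_tri N (2 * N) a b (bil chi N c d) ha hb (a4_bil_nonneg N c d hc hd)).trans ?_
  exact mul_le_mul_of_nonneg_left (bil_n1 N (2 * N) c d hc hd)
    (mul_nonneg (n2_nonneg _ _ _) (n2_nonneg _ _ _))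
-- END a4

-- BEGIN a5
private theorem a5_ind (D c : ℕ) (P : ℕ → Prop) [DecidablePred P] (h : ∀ i, P i → i = c) :
    ∑ i ∈ Finset.range D, (if P i then (1 : ℝ) else 0) ≤ 1 := by
  have h1 : ∑ i ∈ Finset.range D, (if P i then (1 : ℝ) else 0) ≤
      ∑ i ∈ Finset.range D, (if i = c then (1 : ℝ) else 0) := by
    refine Finset.sum_le_sum fun i _ => ?_
    by_cases hi : P i
    · rw [if_pos hi, if_pos (h i hi)]
    · rw [if_neg hi]
      split_ifs <;> norm_num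
  refine h1.trans ?_
  rw [Finset.sum_ite_eq']
  split_ifs <;> norm_num

private theorem a5_shift (D : ℕ) (f : ℕ → ℝ) (hf : ∀ i, 0 ≤ f i) (M : ℝ)
    (h : ∑ i ∈ Finset.range D, f i ≤ M) (h0 : f 0 ≤ 1) :
    ∑ i ∈ Finset.range D, f (i - 1) ≤ 1 + M := by
  rcases D with _ | D
  · simp at h ⊢
    linarith
  · rw [Finset.sum_range_succ']
    simp only [Nat.add_sub_cancel, Nat.zero_sub]
    rw [Finset.sum_range_succ] at h
    have := hf D
    linarith

/-- (a5, size 1) -/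
theorem th_nonneg (l p k : ℕ) : 0 ≤ th l p k := by
  unfold th
  have h0 := ArrBd.chi_nonneg l p k
  have h1 := ArrBd.chi_nonneg l (p - 1) k
  have h3 : (0 : ℝ) ≤ (if k = p + l then 1 else 0) := by split_ifs <;> norm_num
  have h4 : (0 : ℝ) ≤ (if l < p ∧ k + l + 1 = p then 1 else 0) := by split_ifs <;> norm_num
  have h5 : (0 : ℝ) ≤ (if p ≤ l ∧ k + p = l then 1 else 0) := by split_ifs <;> norm_num
  linarith

/-- (a5, size 1) PROOF. `ArrBd.abs_sc_le`, unfold `ArrBd.scb`, `1 ≤ wt l`. -/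
theorem sc_le_th (l p k : ℕ) : |sc l p k| ≤ wt l * th l p k := by
  refine (ArrBd.abs_sc_le l p k).trans ?_
  unfold ArrBd.scb th
  have h0 := ArrBd.chi_nonneg l p k
  have h1 := ArrBd.chi_nonneg l (p - 1) k
  have h3 : (0 : ℝ) ≤ (if k = p + l then 1 else 0) := by split_ifs <;> norm_num
  have h4 : (0 : ℝ) ≤ (if l < p ∧ k + l + 1 = p then 1 else 0) := by split_ifs <;> norm_num
  have h5 : (0 : ℝ) ≤ (if p ≤ l ∧ k + p = l then 1 else 0) := by split_ifs <;> norm_num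
  have hw := one_le_wt l
  have hw2 : (2 * (l : ℝ) + 1) = wt l := rfl
  rw [hw2]
  nlinarith [mul_nonneg (sub_nonneg.2 hw) h0, mul_nonneg (sub_nonneg.2 hw) h1,
    mul_nonneg (by linarith : 0 ≤ wt l) h3, mul_nonneg (by linarith : 0 ≤ wt l) h4,
    mul_nonneg (by linarith : 0 ≤ wt l) h5]

/-- (a5, size 1) -/
theorem th_supp (l p k : ℕ) (h : l + p < k) : th l p k = 0 := by
  unfold th chi
  rw [if_neg (by omega), if_neg (by omega), if_neg (by omega), if_neg (by omega),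
    if_neg (by omega)]
  norm_num

/-- (a5, size 2) PROOF. `chi`: `ArrBd.sum_chi_le` (`chi_rot`, `ArrBd.chi_comm`), for `p - 1` split off `p = 0`; the three indicators: at most one
nonzero term each. Bound `2 * wt + 4 ≤ 6 * wt`. -/
theorem th_sum_p (D l k : ℕ) : ∑ p ∈ Finset.range D, th l p k ≤ 6 * wt l := by
  unfold th
  simp only [Finset.sum_add_distrib]
  have h1 : ∑ p ∈ Finset.range D, chi l p k ≤ wt l := by
    have : ∀ p, chi l p k = chi l k p := fun p => chi_rot l p k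
    simp only [this]
    exact ArrBd.sum_chi_le l k _
  have h2 : ∑ p ∈ Finset.range D, chi l (p - 1) k ≤ 1 + wt l :=
    a5_shift D (fun p => chi l p k) (fun p => ArrBd.chi_nonneg l p k) _ h1
      (ArrBd.chi_le_one l 0 k)
  have h3 := a5_ind D (k - l) (fun p => k = p + l) (fun p hp => by omega)
  have h4 := a5_ind D (k + l + 1) (fun p => l < p ∧ k + l + 1 = p) (fun p hp => by omega)
  have h5 := a5_ind D (l - k) (fun p => p ≤ l ∧ k + p = l) (fun p hp => by omega)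
  have hw := one_le_wt l
  linarith

theorem th_sum_k (D l p : ℕ) : ∑ k ∈ Finset.range D, th l p k ≤ 6 * wt l := by
  unfold th
  simp only [Finset.sum_add_distrib]
  have h1 : ∑ k ∈ Finset.range D, chi l p k ≤ wt l := ArrBd.sum_chi_le l p _
  have h2 : ∑ k ∈ Finset.range D, chi l (p - 1) k ≤ wt l := ArrBd.sum_chi_le l (p - 1) _
  have h3 := a5_ind D (p + l) (fun k => k = p + l) (fun k hk => hk)
  have h4 := a5_ind D (p - l - 1) (fun k => l < p ∧ k + l + 1 = p) (fun k hk => by omega)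
  have h5 := a5_ind D (l - p) (fun k => p ≤ l ∧ k + p = l) (fun k hk => by omega)
  have hw := one_le_wt l
  linarith

theorem th_sum_k' (D l p : ℕ) : ∑ k ∈ Finset.range D, th l p k ≤ 6 * wt p := by
  unfold th
  simp only [Finset.sum_add_distrib]
  have h1 : ∑ k ∈ Finset.range D, chi l p k ≤ wt p := ArrBd.sum_chi_le' l p _
  have h2 : ∑ k ∈ Finset.range D, chi l (p - 1) k ≤ wt p := by
    refine (ArrBd.sum_chi_le' l (p - 1) _).trans ?_
    unfold wt
    have : ((p - 1 : ℕ) : ℝ) ≤ p := by exact_mod_cast Nat.sub_le p 1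
    linarith
  have h3 := a5_ind D (p + l) (fun k => k = p + l) (fun k hk => hk)
  have h4 := a5_ind D (p - l - 1) (fun k => l < p ∧ k + l + 1 = p) (fun k hk => by omega)
  have h5 := a5_ind D (l - p) (fun k => p ≤ l ∧ k + p = l) (fun k hk => by omega)
  have hw := one_le_wt p
  linarith

theorem th_sum_l (D p k : ℕ) : ∑ l ∈ Finset.range D, th l p k ≤ 6 * wt p := by
  unfold th
  simp only [Finset.sum_add_distrib]
  have e : ∀ q l, chi l q k = chi q k l := fun q l => by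
    rw [ArrBd.chi_comm l q k, chi_rot q l k]
  have h1 : ∑ l ∈ Finset.range D, chi l p k ≤ wt p := by
    simp only [e p]
    exact ArrBd.sum_chi_le p k _
  have h2 : ∑ l ∈ Finset.range D, chi l (p - 1) k ≤ wt p := by
    simp only [e (p - 1)]
    refine (ArrBd.sum_chi_le (p - 1) k _).trans ?_
    unfold wt
    have : ((p - 1 : ℕ) : ℝ) ≤ p := by exact_mod_cast Nat.sub_le p 1
    linarith
  have h3 := a5_ind D (k - p) (fun l => k = p + l) (fun l hl => by omega)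
  have h4 := a5_ind D (p - k - 1) (fun l => l < p ∧ k + l + 1 = p) (fun l hl => by omega)
  have h5 := a5_ind D (k + p) (fun l => p ≤ l ∧ k + p = l) (fun l hl => by omega)
  have hw := one_le_wt p
  linarith
-- END a5

-- BEGIN a6
private theorem a6_n1 (A : ℕ) (a : ℕ → ℝ) (ha : ∀ k, 0 ≤ a k) :
    ∑ l ∈ Finset.range A, a l * (6 * wt l) = 6 * n1 A 1 a := by
  unfold n1
  rw [Finset.mul_sum]
  refine Finset.sum_congr rfl fun l _ => ?_
  rw [abs_of_nonneg (ha l), pow_one]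
  ring

/-- (a6, size 1) as `tri`, with `schur`, `th_sum_p`, `th_sum_k`. -/
theorem th1 (A B D : ℕ) (a b c : ℕ → ℝ) (ha : ∀ k, 0 ≤ a k) (hb : ∀ k, 0 ≤ b k) (hc : ∀ k, 0 ≤ c k) :
    ∑ l ∈ Finset.range A, ∑ k ∈ Finset.range B, ∑ p ∈ Finset.range D,
      th l p k * (a l * (b k * c p)) ≤ 6 * (n1 A 1 a * (n2 B 0 b * n2 D 0 c)) := by
  have h : ∀ l ∈ Finset.range A, (∑ k ∈ Finset.range B, ∑ p ∈ Finset.range D,
      th l p k * (a l * (b k * c p))) ≤ a l * (6 * wt l) * (n2 B 0 b * n2 D 0 c) := by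
    intro l _
    have h1 := schur B D (fun k p => th l p k) (6 * wt l) (fun k p => th_nonneg l p k) b c hb hc
      (fun k _ => th_sum_p D l k) (fun p _ => th_sum_k B l p)
    calc (∑ k ∈ Finset.range B, ∑ p ∈ Finset.range D, th l p k * (a l * (b k * c p)))
        = a l * ∑ k ∈ Finset.range B, ∑ p ∈ Finset.range D, th l p k * (b k * c p) := by
          rw [Finset.mul_sum]
          refine Finset.sum_congr rfl fun k _ => ?_
          rw [Finset.mul_sum]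
          refine Finset.sum_congr rfl fun p _ => ?_
          ring
      _ ≤ a l * (6 * wt l * (n2 B 0 b * n2 D 0 c)) := mul_le_mul_of_nonneg_left h1 (ha l)
      _ = _ := by ring
  refine (Finset.sum_le_sum h).trans (le_of_eq ?_)
  rw [← Finset.sum_mul, a6_n1 A a ha]
  ring

/-- (a6, size 1) the same for fixed `p`: `schur` in `(l, k)`, `th_sum_l`, `th_sum_k'`. -/
theorem th2 (A B D : ℕ) (a b c : ℕ → ℝ) (ha : ∀ k, 0 ≤ a k) (hb : ∀ k, 0 ≤ b k) (hc : ∀ k, 0 ≤ c k) :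
    ∑ l ∈ Finset.range A, ∑ k ∈ Finset.range B, ∑ p ∈ Finset.range D,
      th l p k * (a l * (b k * c p)) ≤ 6 * (n2 A 0 a * (n2 B 0 b * n1 D 1 c)) := by
  have h : ∀ p ∈ Finset.range D, (∑ l ∈ Finset.range A, ∑ k ∈ Finset.range B,
      th l p k * (a l * (b k * c p))) ≤ c p * (6 * wt p) * (n2 A 0 a * n2 B 0 b) := by
    intro p _
    have h1 := schur A B (fun l k => th l p k) (6 * wt p) (fun l k => th_nonneg l p k) a b ha hb
      (fun l _ => th_sum_k' B l p) (fun k _ => th_sum_l A p k)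
    calc (∑ l ∈ Finset.range A, ∑ k ∈ Finset.range B, th l p k * (a l * (b k * c p)))
        = c p * ∑ l ∈ Finset.range A, ∑ k ∈ Finset.range B, th l p k * (a l * b k) := by
          rw [Finset.mul_sum]
          refine Finset.sum_congr rfl fun l _ => ?_
          rw [Finset.mul_sum]
          refine Finset.sum_congr rfl fun k _ => ?_
          ring
      _ ≤ c p * (6 * wt p * (n2 A 0 a * n2 B 0 b)) := mul_le_mul_of_nonneg_left h1 (hc p)
      _ = _ := by ring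
  have e : ∑ l ∈ Finset.range A, ∑ k ∈ Finset.range B, ∑ p ∈ Finset.range D,
      th l p k * (a l * (b k * c p)) = ∑ p ∈ Finset.range D, ∑ l ∈ Finset.range A,
        ∑ k ∈ Finset.range B, th l p k * (a l * (b k * c p)) := by
    calc ∑ l ∈ Finset.range A, ∑ k ∈ Finset.range B, ∑ p ∈ Finset.range D,
          th l p k * (a l * (b k * c p))
        = ∑ l ∈ Finset.range A, ∑ p ∈ Finset.range D, ∑ k ∈ Finset.range B,
          th l p k * (a l * (b k * c p)) := Finset.sum_congr rfl fun l _ => Finset.sum_comm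
      _ = _ := Finset.sum_comm
  rw [e]
  refine (Finset.sum_le_sum h).trans (le_of_eq ?_)
  rw [← Finset.sum_mul, a6_n1 D c hc]
  ring
-- END a6

-- BEGIN a7
/-- (a7, size 1) -/
theorem wt2 (j : ℕ) (u v : ℝ) (hu : 0 ≤ u) (hv : 0 ≤ v) : (u + v) ^ j ≤ 2 ^ j * (u ^ j + v ^ j) := by
  have h0 : 0 ≤ u ^ j := pow_nonneg hu j
  have h1 : 0 ≤ v ^ j := pow_nonneg hv j
  rcases le_total u v with h | h
  · calc (u + v) ^ j ≤ (2 * v) ^ j := pow_le_pow_left₀ (by positivity) (by linarith) j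
      _ = 2 ^ j * v ^ j := mul_pow _ _ _
      _ ≤ 2 ^ j * (u ^ j + v ^ j) := mul_le_mul_of_nonneg_left (by linarith) (by positivity)
  · calc (u + v) ^ j ≤ (2 * u) ^ j := pow_le_pow_left₀ (by positivity) (by linarith) j
      _ = 2 ^ j * u ^ j := mul_pow _ _ _
      _ ≤ 2 ^ j * (u ^ j + v ^ j) := mul_le_mul_of_nonneg_left (by linarith) (by positivity)

/-- (a7, size 1) -/
theorem wt3 (j : ℕ) (u v w : ℝ) (hu : 0 ≤ u) (hv : 0 ≤ v) (hw : 0 ≤ w) :
    (u + v + w) ^ j ≤ 3 ^ j * (u ^ j + v ^ j + w ^ j) := by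
  have h0 : 0 ≤ u ^ j := pow_nonneg hu j
  have h1 : 0 ≤ v ^ j := pow_nonneg hv j
  have h2 : 0 ≤ w ^ j := pow_nonneg hw j
  have key : ∀ m : ℝ, 0 ≤ m → u ≤ m → v ≤ m → w ≤ m → m ^ j ≤ u ^ j + v ^ j + w ^ j →
      (u + v + w) ^ j ≤ 3 ^ j * (u ^ j + v ^ j + w ^ j) := by
    intro m hm h3 h4 h5 h6
    calc (u + v + w) ^ j ≤ (3 * m) ^ j := pow_le_pow_left₀ (by positivity) (by linarith) j
      _ = 3 ^ j * m ^ j := mul_pow _ _ _
      _ ≤ 3 ^ j * (u ^ j + v ^ j + w ^ j) := mul_le_mul_of_nonneg_left h6 (by positivity)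
  rcases le_total u v with h | h
  · rcases le_total v w with h' | h'
    · exact key w hw (h.trans h') h' le_rfl (by linarith)
    · exact key v hv h le_rfl h' (by linarith)
  · rcases le_total u w with h' | h'
    · exact key w hw h' (h.trans h') le_rfl (by linarith)
    · exact key u hu le_rfl h h' (by linarith)

private theorem a7_pow (i : ℕ) (a b : ℝ) (hb : 0 ≤ b) (hab : b ≤ a) :
    a ^ (i + 1) - b ^ (i + 1) ≤ ((i : ℝ) + 1) * a ^ i * (a - b) := by
  have ha : 0 ≤ a := hb.trans hab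
  induction i with
  | zero => simp
  | succ i ih =>
    have h1 : b ^ (i + 1) ≤ a ^ (i + 1) := pow_le_pow_left₀ hb hab _
    have h2 : a * (a ^ (i + 1) - b ^ (i + 1)) ≤ a * (((i : ℝ) + 1) * a ^ i * (a - b)) :=
      mul_le_mul_of_nonneg_left ih ha
    have h3 : b ^ (i + 1) * (a - b) ≤ a ^ (i + 1) * (a - b) :=
      mul_le_mul_of_nonneg_right h1 (by linarith)
    have e1 : a ^ (i + 1 + 1) - b ^ (i + 1 + 1) =
        a * (a ^ (i + 1) - b ^ (i + 1)) + b ^ (i + 1) * (a - b) := by ring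
    have e2 : ((((i + 1 : ℕ) : ℝ)) + 1) * a ^ (i + 1) * (a - b) =
        a * (((i : ℝ) + 1) * a ^ i * (a - b)) + a ^ (i + 1) * (a - b) := by
      push_cast; ring
    rw [e1, e2]
    linarith

private theorem a7_aux (i : ℕ) (a b d : ℝ) (hb : 1 ≤ b) (hd : 1 ≤ d) (hab : b ≤ a) (h : a - b ≤ d) :
    a ^ 2 * b ^ 2 * (a ^ (i + 1) - b ^ (i + 1)) ^ 2 ≤
      (((i : ℝ) + 1) ^ 2 * 2 ^ i) * (a ^ (i + 2) * b ^ (i + 2) * d ^ 2 + a ^ (i + 2) * b ^ 2 * d ^ (i + 2)) := by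
  have hb0 : 0 ≤ b := by linarith
  have ha0 : 0 ≤ a := by linarith
  have hd0 : 0 ≤ d := by linarith
  have h1 := a7_pow i a b hb0 hab
  have h2 : 0 ≤ a ^ (i + 1) - b ^ (i + 1) := sub_nonneg.2 (pow_le_pow_left₀ hb0 hab _)
  have h3 : a ^ (i + 1) - b ^ (i + 1) ≤ ((i : ℝ) + 1) * a ^ i * d :=
    h1.trans (mul_le_mul_of_nonneg_left h (by positivity))
  have h4 : (a ^ (i + 1) - b ^ (i + 1)) ^ 2 ≤ (((i : ℝ) + 1) * a ^ i * d) ^ 2 :=
    pow_le_pow_left₀ h2 h3 2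
  have h5 : a ^ i ≤ 2 ^ i * (b ^ i + d ^ i) :=
    (pow_le_pow_left₀ ha0 (by linarith : a ≤ b + d) i).trans (wt2 i b d hb0 hd0)
  calc a ^ 2 * b ^ 2 * (a ^ (i + 1) - b ^ (i + 1)) ^ 2
      ≤ a ^ 2 * b ^ 2 * (((i : ℝ) + 1) * a ^ i * d) ^ 2 :=
        mul_le_mul_of_nonneg_left h4 (by positivity)
    _ = (((i : ℝ) + 1) ^ 2 * (a ^ (i + 2) * b ^ 2 * d ^ 2)) * a ^ i := by ring
    _ ≤ (((i : ℝ) + 1) ^ 2 * (a ^ (i + 2) * b ^ 2 * d ^ 2)) * (2 ^ i * (b ^ i + d ^ i)) :=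
        mul_le_mul_of_nonneg_left h5 (by positivity)
    _ = (((i : ℝ) + 1) ^ 2 * 2 ^ i) * (a ^ (i + 2) * b ^ (i + 2) * d ^ 2 + a ^ (i + 2) * b ^ 2 * d ^ (i + 2)) := by
        ring

/-- (a7, size 2) PROOF. `j ≤ 1`: the left side is 0. `j = i + 2`: `|a ^ (i+1) - b ^ (i+1)| ≤ (i+1) * |a - b| * (a + b) ^ i`, WLOG `b ≤ a` (the
right side is symmetric), `(a + b) ^ (2 i) ≤ (2 a) ^ (2 i)`, so the left side is `≤ (i+1)^2 4^i * a ^ (i + 2) * a ^ i * b ^ 2 * d ^ 2` and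
`a ^ i ≤ (b + d) ^ i ≤ 2 ^ i * (b ^ i + d ^ i)`. -/
theorem wt1 (j : ℕ) : ∃ C ≥ 0, ∀ a b d : ℝ, 1 ≤ a → 1 ≤ b → 1 ≤ d → |a - b| ≤ d →
    a ^ 2 * b ^ 2 * (a ^ (j - 1) - b ^ (j - 1)) ^ 2 ≤
      C * (a ^ j * b ^ j * d ^ 2 + a ^ j * b ^ 2 * d ^ j + b ^ j * a ^ 2 * d ^ j) := by
  rcases j with _ | _ | i
  · exact ⟨0, le_rfl, fun a b d _ _ _ _ => by simp⟩
  · exact ⟨0, le_rfl, fun a b d _ _ _ _ => by simp⟩
  · refine ⟨((i : ℝ) + 1) ^ 2 * 2 ^ i, by positivity, fun a b d ha hb hd h => ?_⟩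
    have ha0 : 0 ≤ a := by linarith
    have hb0 : 0 ≤ b := by linarith
    have hd0 : 0 ≤ d := by linarith
    have e0 : i + 1 + 1 - 1 = i + 1 := rfl
    rw [e0]
    have hC : 0 ≤ ((i : ℝ) + 1) ^ 2 * 2 ^ i := by positivity
    rcases le_total b a with hab | hab
    · have h1 := a7_aux i a b d hb hd hab ((le_abs_self _).trans h)
      have h2 : 0 ≤ b ^ (i + 2) * a ^ 2 * d ^ (i + 2) := by positivity
      refine h1.trans (mul_le_mul_of_nonneg_left ?_ hC)
      show a ^ (i + 2) * b ^ (i + 2) * d ^ 2 + a ^ (i + 2) * b ^ 2 * d ^ (i + 2) ≤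
        a ^ (i + 2) * b ^ (i + 2) * d ^ 2 + a ^ (i + 2) * b ^ 2 * d ^ (i + 2) +
          b ^ (i + 2) * a ^ 2 * d ^ (i + 2)
      linarith
    · have h1 := a7_aux i b a d ha hd hab (((le_abs_self _).trans (abs_sub_comm b a).le).trans h)
      have h2 : 0 ≤ a ^ (i + 2) * b ^ 2 * d ^ (i + 2) := by positivity
      have e1 : a ^ 2 * b ^ 2 * (a ^ (i + 1) - b ^ (i + 1)) ^ 2 =
          b ^ 2 * a ^ 2 * (b ^ (i + 1) - a ^ (i + 1)) ^ 2 := by ring
      rw [e1]
      refine h1.trans (mul_le_mul_of_nonneg_left ?_ hC)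
      show b ^ (i + 2) * a ^ (i + 2) * d ^ 2 + b ^ (i + 2) * a ^ 2 * d ^ (i + 2) ≤
        a ^ (i + 2) * b ^ (i + 2) * d ^ 2 + a ^ (i + 2) * b ^ 2 * d ^ (i + 2) +
          b ^ (i + 2) * a ^ 2 * d ^ (i + 2)
      have e2 : b ^ (i + 2) * a ^ (i + 2) * d ^ 2 = a ^ (i + 2) * b ^ (i + 2) * d ^ 2 := by ring
      rw [e2]
      linarith
-- END a7

end Pool.Agent.RFq
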