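import Pool.Agent.RFq.LeA

/-!
# MP_ae1fc5_gt, Q1, local existence: the energy inequality
-/

set_option autoImplicit false

open scoped Real ContDiff
open Set

noncomputable section

namespace Pool.Agent.RFq

open Pool.Agent.MP_ae1fc5_gt Pool.Agent.MP_ae1fc5_gt.Pde

-- BEGIN b1
private theorem b1_prod (N : ℕ) (x u v : ℕ → ℝ) (p : ℕ) :
    bil chi N x (fun k => u k * x k) p * bil chi N x (fun k => v k * x k) p =
      ∑ l ∈ Finset.range N, ∑ k ∈ Finset.range N, ∑ m ∈ Finset.range N, ∑ n ∈ Finset.range N,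
        chi l k p * chi m n p * (x l * x k * x m * x n) * (u k * v n) := by
  unfold bil
  rw [Finset.sum_mul]
  refine Finset.sum_congr rfl fun l _ => ?_
  rw [Finset.sum_mul]
  refine Finset.sum_congr rfl fun k _ => ?_
  rw [Finset.mul_sum]
  refine Finset.sum_congr rfl fun m _ => ?_
  rw [Finset.mul_sum]
  refine Finset.sum_congr rfl fun n _ => ?_
  ring

/-- (b1, size 2) Symmetrisation. PROOF. Both sides are sums over `p, l, k, m, n` of `chi l k p * chi m n p * (x l * x k * x m * x n)` times a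
weight: left `wt k ^ (2 j) * wt n ^ 2`; exchange `(l, k) ↔ (m, n)` and take the mean of the two forms;
`(wt k ^ (2 j) * wt n ^ 2 + wt n ^ (2 j) * wt k ^ 2) / 2 = wt k ^ (j+1) * wt n ^ (j+1) + wt k ^ 2 * wt n ^ 2 * (wt k ^ (j-1) - wt n ^ (j-1)) ^ 2 / 2`
(`j = i + 1`). -/
theorem sym (j : ℕ) (hj : 1 ≤ j) (N : ℕ) (x : ℕ → ℝ) :
    ∑ p ∈ Finset.range (2 * N), bil chi N x (fun k => wt k ^ (2 * j) * x k) p *
        bil chi N x (fun k => wt k ^ 2 * x k) p =
      ∑ p ∈ Finset.range (2 * N), bil chi N x (fun k => wt k ^ (j + 1) * x k) p ^ 2 +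
      (1 / 2) * ∑ p ∈ Finset.range (2 * N), ∑ l ∈ Finset.range N, ∑ k ∈ Finset.range N,
        ∑ m ∈ Finset.range N, ∑ n ∈ Finset.range N, chi l k p * chi m n p *
          (x l * x k * x m * x n) *
          (wt k ^ 2 * wt n ^ 2 * (wt k ^ (j - 1) - wt n ^ (j - 1)) ^ 2) := by
  obtain ⟨i, rfl⟩ : ∃ i, j = i + 1 := ⟨j - 1, by omega⟩
  rw [Finset.mul_sum, ← Finset.sum_add_distrib]
  refine Finset.sum_congr rfl fun p _ => ?_
  have h1 := b1_prod N x (fun k => wt k ^ (2 * (i + 1))) (fun k => wt k ^ 2) p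
  have h2 := b1_prod N x (fun k => wt k ^ 2) (fun k => wt k ^ (2 * (i + 1))) p
  have h3 := b1_prod N x (fun k => wt k ^ (i + 1 + 1)) (fun k => wt k ^ (i + 1 + 1)) p
  have h4 : bil chi N x (fun k => wt k ^ (2 * (i + 1)) * x k) p *
        bil chi N x (fun k => wt k ^ 2 * x k) p =
      (1 / 2) * (bil chi N x (fun k => wt k ^ (2 * (i + 1)) * x k) p *
        bil chi N x (fun k => wt k ^ 2 * x k) p +
        bil chi N x (fun k => wt k ^ 2 * x k) p *
          bil chi N x (fun k => wt k ^ (2 * (i + 1)) * x k) p) := by ring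
  rw [h4, pow_two (bil chi N x (fun k => wt k ^ (i + 1 + 1) * x k) p), h1, h2, h3]
  rw [← Finset.sum_add_distrib, Finset.mul_sum, Finset.mul_sum, ← Finset.sum_add_distrib]
  refine Finset.sum_congr rfl fun l _ => ?_
  rw [← Finset.sum_add_distrib, Finset.mul_sum, Finset.mul_sum, ← Finset.sum_add_distrib]
  refine Finset.sum_congr rfl fun k _ => ?_
  rw [← Finset.sum_add_distrib, Finset.mul_sum, Finset.mul_sum, ← Finset.sum_add_distrib]
  refine Finset.sum_congr rfl fun m _ => ?_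
  rw [← Finset.sum_add_distrib, Finset.mul_sum, Finset.mul_sum, ← Finset.sum_add_distrib]
  refine Finset.sum_congr rfl fun n _ => ?_
  have e : i + 1 - 1 = i := by omega
  rw [e]
  ring
-- END b1

-- BEGIN b2
private theorem b2_prod (N : ℕ) (a b c d : ℕ → ℝ) (p : ℕ) :
    bil chi N a b p * bil chi N c d p =
      ∑ l ∈ Finset.range N, ∑ k ∈ Finset.range N, ∑ m ∈ Finset.range N, ∑ n ∈ Finset.range N,
        chi l k p * chi m n p * (a l * b k * c m * d n) := by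
  unfold bil
  rw [Finset.sum_mul]
  refine Finset.sum_congr rfl fun l _ => ?_
  rw [Finset.sum_mul]
  refine Finset.sum_congr rfl fun k _ => ?_
  rw [Finset.mul_sum]
  refine Finset.sum_congr rfl fun m _ => ?_
  rw [Finset.mul_sum]
  refine Finset.sum_congr rfl fun n _ => ?_
  ring

private theorem b2_chi_nonneg (m n k : ℕ) : 0 ≤ chi m n k := by
  unfold chi; split_ifs <;> norm_num

private theorem b2_gap (l k m n p : ℕ) (h1 : chi l k p ≠ 0) (h2 : chi m n p ≠ 0) :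
    |wt k - wt n| ≤ wt l + wt m := by
  have h3 : p ≤ l + k ∧ l ≤ k + p ∧ k ≤ l + p := by
    by_contra h
    exact h1 (by unfold chi; rw [if_neg h])
  have h4 : p ≤ m + n ∧ m ≤ n + p ∧ n ≤ m + p := by
    by_contra h
    exact h2 (by unfold chi; rw [if_neg h])
  have h5 : (k : ℝ) ≤ n + l + m := by
    have : k ≤ n + l + m := by omega
    exact_mod_cast this
  have h6 : (n : ℝ) ≤ k + l + m := by
    have : n ≤ k + l + m := by omega
    exact_mod_cast this
  unfold wt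
  rw [abs_le]
  constructor <;> linarith

private theorem b2_term (j : ℕ) (C0 : ℝ) (hC0 : 0 ≤ C0)
    (hw : ∀ a b d : ℝ, 1 ≤ a → 1 ≤ b → 1 ≤ d → |a - b| ≤ d →
      a ^ 2 * b ^ 2 * (a ^ (j - 1) - b ^ (j - 1)) ^ 2 ≤
        C0 * (a ^ j * b ^ j * d ^ 2 + a ^ j * b ^ 2 * d ^ j + b ^ j * a ^ 2 * d ^ j))
    (l k m n p : ℕ) (h1 : chi l k p ≠ 0) (h2 : chi m n p ≠ 0) :
    wt k ^ 2 * wt n ^ 2 * (wt k ^ (j - 1) - wt n ^ (j - 1)) ^ 2 ≤
      (C0 * (4 + 2 ^ j)) * (wt l ^ 2 * wt k ^ j * wt m ^ 0 * wt n ^ j +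
        wt l ^ 0 * wt k ^ j * wt m ^ 2 * wt n ^ j + wt l ^ j * wt k ^ j * wt m ^ 0 * wt n ^ 2 +
        wt l ^ 0 * wt k ^ j * wt m ^ j * wt n ^ 2 + wt l ^ j * wt k ^ 2 * wt m ^ 0 * wt n ^ j +
        wt l ^ 0 * wt k ^ 2 * wt m ^ j * wt n ^ j) := by
  have hl := wt_pos l
  have hk := wt_pos k
  have hm := wt_pos m
  have hn := wt_pos n
  have h3 := hw (wt k) (wt n) (wt l + wt m) (one_le_wt k) (one_le_wt n)
    (by linarith [one_le_wt l, one_le_wt m]) (b2_gap l k m n p h1 h2)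
  have h4 := wt2 2 (wt l) (wt m) hl.le hm.le
  have h5 := wt2 j (wt l) (wt m) hl.le hm.le
  obtain ⟨L2, hL2⟩ : ∃ t, t = wt l ^ 2 := ⟨_, rfl⟩
  obtain ⟨M2, hM2⟩ : ∃ t, t = wt m ^ 2 := ⟨_, rfl⟩
  obtain ⟨Lj, hLj⟩ : ∃ t, t = wt l ^ j := ⟨_, rfl⟩
  obtain ⟨Mj, hMj⟩ : ∃ t, t = wt m ^ j := ⟨_, rfl⟩
  obtain ⟨Kj, hKj⟩ : ∃ t, t = wt k ^ j := ⟨_, rfl⟩
  obtain ⟨Nj, hNj⟩ : ∃ t, t = wt n ^ j := ⟨_, rfl⟩
  obtain ⟨K2, hK2⟩ : ∃ t, t = wt k ^ 2 := ⟨_, rfl⟩
  obtain ⟨N2, hN2⟩ : ∃ t, t = wt n ^ 2 := ⟨_, rfl⟩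
  obtain ⟨T, hT⟩ : ∃ t : ℝ, t = 2 ^ j := ⟨_, rfl⟩
  have pL2 : 0 ≤ L2 := by rw [hL2]; positivity
  have pM2 : 0 ≤ M2 := by rw [hM2]; positivity
  have pLj : 0 ≤ Lj := by rw [hLj]; positivity
  have pMj : 0 ≤ Mj := by rw [hMj]; positivity
  have pKj : 0 ≤ Kj := by rw [hKj]; positivity
  have pNj : 0 ≤ Nj := by rw [hNj]; positivity
  have pK2 : 0 ≤ K2 := by rw [hK2]; positivity
  have pN2 : 0 ≤ N2 := by rw [hN2]; positivity
  have pT : 0 ≤ T := by rw [hT]; positivity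
  rw [← hL2, ← hM2] at h4
  rw [← hLj, ← hMj, ← hT] at h5
  rw [← hKj, ← hNj, ← hK2, ← hN2] at h3
  rw [← hL2, ← hM2, ← hLj, ← hMj, ← hKj, ← hNj, ← hK2, ← hN2, ← hT, pow_zero, pow_zero]
  refine h3.trans ?_
  rw [mul_assoc C0]
  refine mul_le_mul_of_nonneg_left ?_ hC0
  have h6 : Kj * Nj * (wt l + wt m) ^ 2 ≤ Kj * Nj * (2 ^ 2 * (L2 + M2)) :=
    mul_le_mul_of_nonneg_left h4 (mul_nonneg pKj pNj)
  have h7 : Kj * N2 * (wt l + wt m) ^ j ≤ Kj * N2 * (T * (Lj + Mj)) :=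
    mul_le_mul_of_nonneg_left h5 (mul_nonneg pKj pN2)
  have h8 : Nj * K2 * (wt l + wt m) ^ j ≤ Nj * K2 * (T * (Lj + Mj)) :=
    mul_le_mul_of_nonneg_left h5 (mul_nonneg pNj pK2)
  have e1 : 0 ≤ T * (L2 * Kj * 1 * Nj + 1 * Kj * M2 * Nj) := by positivity
  have e2 : 0 ≤ 4 * (Lj * Kj * 1 * N2 + 1 * Kj * Mj * N2 + Lj * K2 * 1 * Nj + 1 * K2 * Mj * Nj) := by
    positivity
  calc Kj * Nj * (wt l + wt m) ^ 2 + Kj * N2 * (wt l + wt m) ^ j + Nj * K2 * (wt l + wt m) ^ j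
      ≤ Kj * Nj * (2 ^ 2 * (L2 + M2)) + Kj * N2 * (T * (Lj + Mj)) + Nj * K2 * (T * (Lj + Mj)) := by
        linarith
    _ ≤ Kj * Nj * (2 ^ 2 * (L2 + M2)) + Kj * N2 * (T * (Lj + Mj)) + Nj * K2 * (T * (Lj + Mj)) +
        T * (L2 * Kj * 1 * Nj + 1 * Kj * M2 * Nj) +
        4 * (Lj * Kj * 1 * N2 + 1 * Kj * Mj * N2 + Lj * K2 * 1 * Nj + 1 * K2 * Mj * Nj) := by
        linarith
    _ = _ := by ring

private theorem b2_q1 (N : ℕ) (x : ℕ → ℝ) (j i i' : ℕ) (hi : i ≤ 2) (hi' : i' ≤ 2) :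
    ∑ p ∈ Finset.range (2 * N), bil chi N (fun n => wt n ^ i * |x n|) (fun n => wt n ^ j * |x n|) p *
      bil chi N (fun n => wt n ^ i' * |x n|) (fun n => wt n ^ j * |x n|) p ≤
      n1 N 3 x ^ 2 * n2 N j x ^ 2 := by
  have hnn : ∀ (s : ℕ) (k : ℕ), 0 ≤ wt k ^ s * |x k| := fun s k =>
    mul_nonneg (pow_nonneg (wt_pos k).le s) (abs_nonneg _)
  have h := q1 N (fun n => wt n ^ i * |x n|) (fun n => wt n ^ j * |x n|)
    (fun n => wt n ^ i' * |x n|) (fun n => wt n ^ j * |x n|) (hnn i) (hnn j) (hnn i') (hnn j)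
  refine h.trans ?_
  have e1 : ∀ s : ℕ, n1 N s (fun n => |x n|) = n1 N s x := fun s => by
    unfold n1
    simp
  have e2 : ∀ s : ℕ, n2 N s (fun n => |x n|) = n2 N s x := fun s => by
    unfold n2
    simp
  rw [n1_mul N 1 i (fun n => |x n|), n1_mul N 1 i' (fun n => |x n|), n2_mul N 0 j (fun n => |x n|),
    e1, e1, e2, zero_add]
  have h1 := n1_mono N (show 1 + i ≤ 3 by omega) x
  have h2 := n1_mono N (show 1 + i' ≤ 3 by omega) x
  have h3 := n2_nonneg N j x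
  calc n1 N (1 + i) x * n2 N j x * (n1 N (1 + i') x * n2 N j x)
      ≤ n1 N 3 x * n2 N j x * (n1 N 3 x * n2 N j x) := by
        refine mul_le_mul (mul_le_mul_of_nonneg_right h1 h3) (mul_le_mul_of_nonneg_right h2 h3)
          (mul_nonneg (n1_nonneg _ _ _) h3) (mul_nonneg (n1_nonneg _ _ _) h3)
    _ = _ := by ring

private theorem b2_q2 (N : ℕ) (x : ℕ → ℝ) (j i i' : ℕ) (hi : i ≤ 2) (hi' : i' ≤ 2) :
    ∑ p ∈ Finset.range (2 * N), bil chi N (fun n => wt n ^ j * |x n|) (fun n => wt n ^ j * |x n|) p *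
      bil chi N (fun n => wt n ^ i * |x n|) (fun n => wt n ^ i' * |x n|) p ≤
      n1 N 3 x ^ 2 * n2 N j x ^ 2 := by
  have hnn : ∀ (s : ℕ) (k : ℕ), 0 ≤ wt k ^ s * |x k| := fun s k =>
    mul_nonneg (pow_nonneg (wt_pos k).le s) (abs_nonneg _)
  have h := q2 N (fun n => wt n ^ j * |x n|) (fun n => wt n ^ j * |x n|)
    (fun n => wt n ^ i * |x n|) (fun n => wt n ^ i' * |x n|) (hnn j) (hnn j) (hnn i) (hnn i')
  refine h.trans ?_
  have e1 : ∀ s : ℕ, n1 N s (fun n => |x n|) = n1 N s x := fun s => by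
    unfold n1
    simp
  have e2 : ∀ s : ℕ, n2 N s (fun n => |x n|) = n2 N s x := fun s => by
    unfold n2
    simp
  rw [n1_mul N 1 i (fun n => |x n|), n1_mul N 1 i' (fun n => |x n|), n2_mul N 0 j (fun n => |x n|),
    e1, e1, e2, zero_add]
  have h1 := n1_mono N (show 1 + i ≤ 3 by omega) x
  have h2 := n1_mono N (show 1 + i' ≤ 3 by omega) x
  have h3 := n2_nonneg N j x
  calc n2 N j x * n2 N j x * (n1 N (1 + i) x * n1 N (1 + i') x)
      ≤ n2 N j x * n2 N j x * (n1 N 3 x * n1 N 3 x) := by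
        refine mul_le_mul_of_nonneg_left ?_ (mul_nonneg h3 h3)
        exact mul_le_mul h1 h2 (n1_nonneg _ _ _) (n1_nonneg _ _ _)
    _ = _ := by ring

/-- (b2, size 3) The symmetrised error. PROOF. On the support `|wt k - wt n| ≤ wt l + wt m =: d` (`|k - p| ≤ l`, `|n - p| ≤ m`), so `wt1` and
`d ^ 2 ≤ 4 (wt l ^ 2 + wt m ^ 2)`, `d ^ j ≤ 2 ^ j (wt l ^ j + wt m ^ j)` (`wt2`) give six sums, each `∑ p, bil .. p * bil .. p` with
`a = wt ^ i * |x|`: weights (l,k,m,n) = (2,j,0,j), (0,j,2,j), (j,j,0,2), (0,j,j,2), (j,2,0,j), (0,2,j,j). `q1` (with `bil_comm`) for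
(2,j,0,j), (0,j,2,j), (0,j,j,2), (j,2,0,j), `q2` for (j,j,0,2), (0,2,j,j); `n2 N 0 (wt ^ j |x|) = n2 N j x`, `n1 N 1 (wt ^ 2 |x|) = n1 N 3 x`
(`n2_mul`, `n1_mul`), `n1 N 1 x ≤ n1 N 3 x` (`n1_mono`). -/
theorem err (j : ℕ) : ∃ C : ℝ, 0 ≤ C ∧ ∀ (N : ℕ) (x : ℕ → ℝ),
    ∑ p ∈ Finset.range (2 * N), ∑ l ∈ Finset.range N, ∑ k ∈ Finset.range N,
        ∑ m ∈ Finset.range N, ∑ n ∈ Finset.range N, chi l k p * chi m n p *
          (|x l| * |x k| * |x m| * |x n|) *
          (wt k ^ 2 * wt n ^ 2 * (wt k ^ (j - 1) - wt n ^ (j - 1)) ^ 2) ≤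
      C * n1 N 3 x ^ 2 * n2 N j x ^ 2 := by
  obtain ⟨C0, hC0, hw⟩ := wt1 j
  have hC0' : 0 ≤ C0 := hC0
  refine ⟨6 * (C0 * (4 + 2 ^ j)), by positivity, fun N x => ?_⟩
  obtain ⟨C1, hC1⟩ : ∃ t : ℝ, t = C0 * (4 + 2 ^ j) := ⟨_, rfl⟩
  have hC1' : 0 ≤ C1 := by rw [hC1]; positivity
  obtain ⟨a, ha⟩ : ∃ a : ℕ → ℕ → ℝ, a = fun i n => wt n ^ i * |x n| := ⟨_, rfl⟩
  have hterm : ∀ p ∈ Finset.range (2 * N), (∑ l ∈ Finset.range N, ∑ k ∈ Finset.range N,
        ∑ m ∈ Finset.range N, ∑ n ∈ Finset.range N, chi l k p * chi m n p *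
          (|x l| * |x k| * |x m| * |x n|) *
          (wt k ^ 2 * wt n ^ 2 * (wt k ^ (j - 1) - wt n ^ (j - 1)) ^ 2)) ≤
      C1 * (bil chi N (a 2) (a j) p * bil chi N (a 0) (a j) p +
        bil chi N (a 0) (a j) p * bil chi N (a 2) (a j) p +
        bil chi N (a j) (a j) p * bil chi N (a 0) (a 2) p +
        bil chi N (a 0) (a j) p * bil chi N (a j) (a 2) p +
        bil chi N (a j) (a 2) p * bil chi N (a 0) (a j) p +
        bil chi N (a 0) (a 2) p * bil chi N (a j) (a j) p) := by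
    intro p _
    simp only [b2_prod, ← Finset.sum_add_distrib]
    rw [Finset.mul_sum]
    refine Finset.sum_le_sum fun l _ => ?_
    rw [Finset.mul_sum]
    refine Finset.sum_le_sum fun k _ => ?_
    rw [Finset.mul_sum]
    refine Finset.sum_le_sum fun m _ => ?_
    rw [Finset.mul_sum]
    refine Finset.sum_le_sum fun n _ => ?_
    rcases eq_or_ne (chi l k p) 0 with h1 | h1
    · rw [h1]
      simp
    rcases eq_or_ne (chi m n p) 0 with h2 | h2
    · rw [h2]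
      simp
    have h3 := b2_term j C0 hC0' hw l k m n p h1 h2
    rw [← hC1] at h3
    have h4 : 0 ≤ chi l k p * chi m n p * (|x l| * |x k| * |x m| * |x n|) :=
      mul_nonneg (mul_nonneg (b2_chi_nonneg _ _ _) (b2_chi_nonneg _ _ _)) (by positivity)
    refine (mul_le_mul_of_nonneg_left h3 h4).trans (le_of_eq ?_)
    rw [ha]
    ring
  refine (Finset.sum_le_sum hterm).trans ?_
  rw [← Finset.mul_sum]
  simp only [Finset.sum_add_distrib]
  have s1 := b2_q1 N x j 2 0 (by norm_num) (by norm_num)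
  have s2 := b2_q1 N x j 0 2 (by norm_num) (by norm_num)
  have s3 := b2_q2 N x j 0 2 (by norm_num) (by norm_num)
  have t4 : ∑ p ∈ Finset.range (2 * N), bil chi N (a 0) (a j) p * bil chi N (a j) (a 2) p =
      ∑ p ∈ Finset.range (2 * N), bil chi N (a 0) (a j) p * bil chi N (a 2) (a j) p :=
    Finset.sum_congr rfl fun p _ => by rw [bil_comm N (a j) (a 2)]
  have t5 : ∑ p ∈ Finset.range (2 * N), bil chi N (a j) (a 2) p * bil chi N (a 0) (a j) p =
      ∑ p ∈ Finset.range (2 * N), bil chi N (a 2) (a j) p * bil chi N (a 0) (a j) p :=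
    Finset.sum_congr rfl fun p _ => by rw [bil_comm N (a j) (a 2)]
  have t6 : ∑ p ∈ Finset.range (2 * N), bil chi N (a 0) (a 2) p * bil chi N (a j) (a j) p =
      ∑ p ∈ Finset.range (2 * N), bil chi N (a j) (a j) p * bil chi N (a 0) (a 2) p :=
    Finset.sum_congr rfl fun p _ => mul_comm _ _
  rw [t4, t5, t6, ha]
  calc _ ≤ C1 * (n1 N 3 x ^ 2 * n2 N j x ^ 2 + n1 N 3 x ^ 2 * n2 N j x ^ 2 +
        n1 N 3 x ^ 2 * n2 N j x ^ 2 + n1 N 3 x ^ 2 * n2 N j x ^ 2 + n1 N 3 x ^ 2 * n2 N j x ^ 2 +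
        n1 N 3 x ^ 2 * n2 N j x ^ 2) := mul_le_mul_of_nonneg_left (by linarith) hC1'
    _ = _ := by rw [hC1]; ring
-- END b2

-- BEGIN b3
/-- (b3, size 1) The principal part. PROOF. `sym`, `err`, `bil_pos` with `u = wt ^ (j+1) * x` (`∑ u ^ 2 = n2 N (j+1) x ^ 2`). -/
theorem prin (j : ℕ) (hj : 1 ≤ j) : ∃ C : ℝ, 0 ≤ C ∧ ∀ (N : ℕ) (x : ℕ → ℝ) (c : ℝ), 0 ≤ c →
    (∀ y ∈ I1, c ≤ ∑ n ∈ Finset.range N, x n * cU (2 * n) y) →
    c ^ 2 * n2 N (j + 1) x ^ 2 - C * n1 N 3 x ^ 2 * n2 N j x ^ 2 ≤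
      ∑ p ∈ Finset.range (2 * N), bil chi N x (fun k => wt k ^ (2 * j) * x k) p *
        bil chi N x (fun k => wt k ^ 2 * x k) p := by
  obtain ⟨C, hC, hE⟩ := err j
  refine ⟨C, hC, fun N x c hc h => ?_⟩
  rw [sym j hj N x]
  have h1 := bil_pos N x (fun k => wt k ^ (j + 1) * x k) c hc h
  have h2 : ∑ k ∈ Finset.range N, (wt k ^ (j + 1) * x k) ^ 2 = n2 N (j + 1) x ^ 2 := by
    rw [n2_sq]
    exact Finset.sum_congr rfl fun k _ => by ring
  rw [h2] at h1
  have h3 := hE N x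
  have h4 : -(∑ p ∈ Finset.range (2 * N), ∑ l ∈ Finset.range N, ∑ k ∈ Finset.range N,
        ∑ m ∈ Finset.range N, ∑ n ∈ Finset.range N, chi l k p * chi m n p *
          (|x l| * |x k| * |x m| * |x n|) *
          (wt k ^ 2 * wt n ^ 2 * (wt k ^ (j - 1) - wt n ^ (j - 1)) ^ 2)) ≤
      ∑ p ∈ Finset.range (2 * N), ∑ l ∈ Finset.range N, ∑ k ∈ Finset.range N,
        ∑ m ∈ Finset.range N, ∑ n ∈ Finset.range N, chi l k p * chi m n p *
          (x l * x k * x m * x n) *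
          (wt k ^ 2 * wt n ^ 2 * (wt k ^ (j - 1) - wt n ^ (j - 1)) ^ 2) := by
    simp only [← Finset.sum_neg_distrib]
    refine Finset.sum_le_sum fun p _ => Finset.sum_le_sum fun l _ => Finset.sum_le_sum fun k _ =>
      Finset.sum_le_sum fun m _ => Finset.sum_le_sum fun n _ => ?_
    have h5 := ArrBd.chi_nonneg l k p
    have h6 := ArrBd.chi_nonneg m n p
    have h7 : 0 ≤ wt k ^ 2 * wt n ^ 2 * (wt k ^ (j - 1) - wt n ^ (j - 1)) ^ 2 := by positivity
    have h8 : -(|x l| * |x k| * |x m| * |x n|) ≤ x l * x k * x m * x n := by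
      have h9 := neg_abs_le (x l * x k * x m * x n)
      rwa [abs_mul, abs_mul, abs_mul] at h9
    have h9 := mul_le_mul_of_nonneg_left h8 (mul_nonneg h5 h6)
    have h10 := mul_le_mul_of_nonneg_right h9 h7
    linarith
  have h5 : 0 ≤ C * n1 N 3 x ^ 2 * n2 N j x ^ 2 := by positivity
  linarith
-- END b3

-- BEGIN b4
/-- (b4, size 1) PROOF. `ArrBd.abs_gap`, `ArrBd.yj_le`, `ArrBd.yj_nonneg`, `ArrBd.jc_le`, `ArrBd.jc_nonneg`, `sc_le_th`, `chi ≤ th`, `chi` is
0 or 1; `3 ≤ 3 * (wt l * wt m * wt n)`. -/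
theorem Br_le (l m n k : ℕ) : |Br l m n k| ≤
    6 * (wt l * wt m * wt n) * ∑ p ∈ Finset.range (m + n + 1), th l p k * chi m n p := by
  have hl := one_le_wt l
  have hM : 1 ≤ wt m * wt n := one_le_mul_of_one_le_of_one_le (one_le_wt m) (one_le_wt n)
  have hlM : wt m * wt n ≤ wt l * (wt m * wt n) := le_mul_of_one_le_left (by linarith) hl
  have e : Br l m n k = ∑ p ∈ Finset.range (m + n + 1),
      (chi l p k * (chi m n p * (3 - (lam m + lam n - lam p) / 2) - yj m n p) -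
        sc l p k * jc m n p) := by
    unfold Br
    rw [← Finset.sum_sub_distrib]
  rw [e, Finset.mul_sum]
  refine (Finset.abs_sum_le_sum_abs _ _).trans (Finset.sum_le_sum fun p _ => ?_)
  have c0 := ArrBd.chi_nonneg l p k
  have c1 := ArrBd.chi_nonneg m n p
  have ht := th_nonneg l p k
  have hth : chi l p k ≤ th l p k := by
    unfold th
    have h1 := ArrBd.chi_nonneg l (p - 1) k
    have h3 : (0 : ℝ) ≤ (if k = p + l then 1 else 0) := by split_ifs <;> norm_num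
    have h4 : (0 : ℝ) ≤ (if l < p ∧ k + l + 1 = p then 1 else 0) := by split_ifs <;> norm_num
    have h5 : (0 : ℝ) ≤ (if p ≤ l ∧ k + p = l then 1 else 0) := by split_ifs <;> norm_num
    linarith
  have hy0 := ArrBd.yj_nonneg m n p
  have hy1 : yj m n p ≤ wt m * wt n * chi m n p := ArrBd.yj_le m n p
  have hj0 := ArrBd.jc_nonneg m n p
  have hj1 : jc m n p ≤ wt m * wt n * chi m n p := ArrBd.jc_le m n p
  have hs := sc_le_th l p k
  have t1 : |chi m n p * (3 - (lam m + lam n - lam p) / 2) - yj m n p| ≤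
      chi m n p * (3 + 2 * (wt m * wt n)) := by
    by_cases hc : p ≤ m + n ∧ m ≤ n + p ∧ n ≤ m + p
    · have hg : |(lam m + lam n - lam p) / 2| ≤ wt m * wt n := ArrBd.abs_gap m n p hc.1 hc.2.1 hc.2.2
      have h1 : chi m n p = 1 := by unfold chi; rw [if_pos hc]
      rw [h1] at hy1 ⊢
      have h2 := abs_le.1 hg
      rw [abs_le]
      constructor <;> linarith
    · have h1 : chi m n p = 0 := by unfold chi; rw [if_neg hc]
      rw [h1] at hy1 ⊢
      have h2 : yj m n p = 0 := le_antisymm (by linarith) hy0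
      rw [h2]
      simp
  have t2 : |chi l p k * (chi m n p * (3 - (lam m + lam n - lam p) / 2) - yj m n p)| ≤
      th l p k * (chi m n p * (3 + 2 * (wt m * wt n))) := by
    rw [abs_mul, abs_of_nonneg c0]
    exact mul_le_mul hth t1 (abs_nonneg _) ht
  have t3 : |sc l p k * jc m n p| ≤ (wt l * th l p k) * (wt m * wt n * chi m n p) := by
    rw [abs_mul, abs_of_nonneg hj0]
    exact mul_le_mul hs hj1 hj0 (mul_nonneg (by linarith) ht)
  refine (abs_sub _ _).trans ((add_le_add t2 t3).trans ?_)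
  have hc : 0 ≤ th l p k * chi m n p := mul_nonneg ht c1
  have hfin : 3 + 2 * (wt m * wt n) + wt l * (wt m * wt n) ≤ 6 * (wt l * wt m * wt n) := by
    have : wt l * wt m * wt n = wt l * (wt m * wt n) := by ring
    rw [this]
    linarith
  calc th l p k * (chi m n p * (3 + 2 * (wt m * wt n))) +
        wt l * th l p k * (wt m * wt n * chi m n p)
      = (3 + 2 * (wt m * wt n) + wt l * (wt m * wt n)) * (th l p k * chi m n p) := by ring
    _ ≤ 6 * (wt l * wt m * wt n) * (th l p k * chi m n p) := mul_le_mul_of_nonneg_right hfin hc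
-- END b4

-- BEGIN b5
private theorem b5_chi (m n p : ℕ) : 0 ≤ chi m n p := by
  unfold chi
  split_ifs <;> norm_num

private theorem b5_reorder (N : ℕ) (a b u v : ℕ → ℝ) :
    ∑ k ∈ Finset.range N, ∑ l ∈ Finset.range N, ∑ m ∈ Finset.range N, ∑ n ∈ Finset.range N,
      ∑ p ∈ Finset.range (2 * N), th l p k * chi m n p * (b k * (a l * (u m * v n))) =
    ∑ l ∈ Finset.range N, ∑ k ∈ Finset.range N, ∑ p ∈ Finset.range (2 * N),
      th l p k * (a l * (b k * bil chi N u v p)) := by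
  rw [Finset.sum_comm]
  refine Finset.sum_congr rfl fun l _ => Finset.sum_congr rfl fun k _ => ?_
  have e : ∀ p, th l p k * (a l * (b k * bil chi N u v p)) =
      ∑ m ∈ Finset.range N, ∑ n ∈ Finset.range N,
        th l p k * chi m n p * (b k * (a l * (u m * v n))) := by
    intro p
    unfold bil
    simp only [Finset.mul_sum]
    refine Finset.sum_congr rfl fun m _ => Finset.sum_congr rfl fun n _ => ?_
    ring
  simp only [e]
  symm
  rw [Finset.sum_comm]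
  refine Finset.sum_congr rfl fun m _ => ?_
  rw [Finset.sum_comm]

private theorem b5_pt (j k l m n p : ℕ) :
    th l p k * chi m n p * wt k ^ j ≤
      th l p k * chi m n p * (3 ^ j * (wt l ^ j + wt m ^ j + wt n ^ j)) := by
  have h0 : 0 ≤ th l p k * chi m n p := mul_nonneg (th_nonneg l p k) (b5_chi m n p)
  by_cases h1 : l + p < k
  · rw [th_supp l p k h1]; simp
  by_cases h2 : m + n < p
  · rw [ArrId.chi_top m n p h2]; simp
  refine mul_le_mul_of_nonneg_left ?_ h0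
  have h3 : wt k ≤ wt l + wt m + wt n := by
    unfold wt
    have h4 : k ≤ l + m + n := by omega
    have h5 : (k : ℝ) ≤ l + m + n := by exact_mod_cast h4
    linarith
  exact (pow_le_pow_left₀ (wt_pos k).le h3 j).trans
    (wt3 j _ _ _ (wt_pos l).le (wt_pos m).le (wt_pos n).le)

private theorem b5_n1 (N j : ℕ) (x : ℕ → ℝ) :
    n1 N 1 (fun n => wt n ^ j * |x n|) = n1 N (j + 1) x := by
  rw [n1_mul N 1 j (fun n => |x n|), add_comm 1 j]
  unfold n1
  simp

private theorem b5_n2 (N j : ℕ) (x : ℕ → ℝ) :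
    n2 N 0 (fun n => wt n ^ j * |x n|) = n2 N j x := by
  rw [n2_mul N 0 j (fun n => |x n|), zero_add]
  unfold n2
  simp

/-- (b5, size 3) The remainder. PROOF. `Br_le`, enlarge the sum over `p` to `range (2 N)`. On the support `k ≤ l + p` (`th_supp`) and `p ≤ m + n`
(`ArrId.chi_top`), so `wt k ≤ wt l + wt m + wt n`, `wt k ^ j ≤ 3 ^ j * (wt l ^ j + wt m ^ j + wt n ^ j)` (`wt3`). Three sums
`∑ l k p, th l p k * (a l * (b k * c p))` with `b = wt ^ j |x|`: (l) `a = wt ^ (j+1) |x|`, `c = bil chi N (wt |x|) (wt |x|)`: `th2`, `bil_n1`;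
(m) `a = wt |x|`, `c = bil chi N (wt ^ (j+1) |x|) (wt |x|)`: `th1`, `bil_n2` (`bil_comm`); (n) the same. -/
theorem rem (j : ℕ) : ∃ C : ℝ, 0 ≤ C ∧ ∀ (N : ℕ) (x : ℕ → ℝ),
    |∑ k ∈ Finset.range N, ∑ l ∈ Finset.range N, ∑ m ∈ Finset.range N, ∑ n ∈ Finset.range N,
        wt k ^ (2 * j) * (x k * (Br l m n k * (x l * (x m * x n))))| ≤
      C * n1 N 3 x ^ 2 * (n2 N j x * n2 N (j + 1) x) := by
  refine ⟨108 * 3 ^ j, by positivity, fun N x => ?_⟩
  have hX : ∀ i : ℕ, ∀ n : ℕ, 0 ≤ (fun n => wt n ^ i * |x n|) n := fun i n =>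
    mul_nonneg (pow_nonneg (wt_pos n).le _) (abs_nonneg _)
  obtain ⟨b, hb⟩ : ∃ b : ℕ → ℝ, b = fun n => wt n ^ j * |x n| := ⟨_, rfl⟩
  obtain ⟨u, hu⟩ : ∃ u : ℕ → ℝ, u = fun n => wt n ^ 1 * |x n| := ⟨_, rfl⟩
  obtain ⟨v, hv⟩ : ∃ v : ℕ → ℝ, v = fun n => wt n ^ (j + 1) * |x n| := ⟨_, rfl⟩
  have b0 : ∀ n, 0 ≤ b n := hb ▸ hX j
  have u0 : ∀ n, 0 ≤ u n := hu ▸ hX 1
  have v0 : ∀ n, 0 ≤ v n := hv ▸ hX (j + 1)
  have nb : n2 N 0 b = n2 N j x := by rw [hb, b5_n2]
  have nv : n2 N 0 v = n2 N (j + 1) x := by rw [hv, b5_n2]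
  have nu : n1 N 1 u ≤ n1 N 3 x := by
    rw [hu, b5_n1]
    exact n1_mono N (by norm_num) x
  have P0 := n1_nonneg N 3 x
  have P1 := n2_nonneg N j x
  have P2 := n2_nonneg N (j + 1) x
  have bn : ∀ (f g : ℕ → ℝ), (∀ n, 0 ≤ f n) → (∀ n, 0 ≤ g n) → ∀ p, 0 ≤ bil chi N f g p := by
    intro f g hf hg p
    unfold bil
    exact Finset.sum_nonneg fun m _ => Finset.sum_nonneg fun n _ =>
      mul_nonneg (mul_nonneg (b5_chi m n p) (hf m)) (hg n)
  -- the three sums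
  have s1 : ∑ l ∈ Finset.range N, ∑ k ∈ Finset.range N, ∑ p ∈ Finset.range (2 * N),
      th l p k * (v l * (b k * bil chi N u u p)) ≤
      6 * (n1 N 3 x ^ 2 * (n2 N j x * n2 N (j + 1) x)) := by
    refine (th2 N N (2 * N) v b (bil chi N u u) v0 b0 (bn u u u0 u0)).trans ?_
    have h1 := bil_n1 N (2 * N) u u u0 u0
    have h2 : n1 (2 * N) 1 (bil chi N u u) ≤ n1 N 3 x ^ 2 := by
      refine h1.trans ?_
      rw [sq]
      exact mul_le_mul nu nu (n1_nonneg _ _ _) P0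
    rw [nb, nv]
    have h3 : n2 N (j + 1) x * (n2 N j x * n1 (2 * N) 1 (bil chi N u u)) ≤
        n2 N (j + 1) x * (n2 N j x * n1 N 3 x ^ 2) := by gcongr
    linarith
  have hbv : n2 (2 * N) 0 (bil chi N u v) ≤ n1 N 3 x * n2 N (j + 1) x := by
    refine (bil_n2 N (2 * N) u v u0 v0).trans ?_
    rw [nv]
    exact mul_le_mul_of_nonneg_right nu P2
  have s2 : ∑ l ∈ Finset.range N, ∑ k ∈ Finset.range N, ∑ p ∈ Finset.range (2 * N),
      th l p k * (u l * (b k * bil chi N u v p)) ≤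
      6 * (n1 N 3 x ^ 2 * (n2 N j x * n2 N (j + 1) x)) := by
    refine (th1 N N (2 * N) u b (bil chi N u v) u0 b0 (bn u v u0 v0)).trans ?_
    rw [nb]
    have h3 : n1 N 1 u * (n2 N j x * n2 (2 * N) 0 (bil chi N u v)) ≤
        n1 N 3 x * (n2 N j x * (n1 N 3 x * n2 N (j + 1) x)) :=
      mul_le_mul nu (mul_le_mul_of_nonneg_left hbv P1) (mul_nonneg P1 (n2_nonneg _ _ _)) P0
    linarith
  have s3 : ∑ l ∈ Finset.range N, ∑ k ∈ Finset.range N, ∑ p ∈ Finset.range (2 * N),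
      th l p k * (u l * (b k * bil chi N v u p)) ≤
      6 * (n1 N 3 x ^ 2 * (n2 N j x * n2 N (j + 1) x)) := by
    refine le_trans (le_of_eq ?_) s2
    refine Finset.sum_congr rfl fun l _ => Finset.sum_congr rfl fun k _ =>
      Finset.sum_congr rfl fun p _ => ?_
    rw [bil_comm N v u p]
  -- the pointwise bound
  have hpt : ∀ k l m n, m < N → n < N →
      |wt k ^ (2 * j) * (x k * (Br l m n k * (x l * (x m * x n))))| ≤
      ∑ p ∈ Finset.range (2 * N), (6 * 3 ^ j) *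
        (th l p k * chi m n p * (b k * (v l * (u m * u n))) +
          th l p k * chi m n p * (b k * (u l * (v m * u n))) +
          th l p k * chi m n p * (b k * (u l * (u m * v n)))) := by
    intro k l m n hm hn
    have hB : |Br l m n k| ≤ 6 * (wt l * wt m * wt n) *
        ∑ p ∈ Finset.range (2 * N), th l p k * chi m n p := by
      refine (Br_le l m n k).trans (mul_le_mul_of_nonneg_left ?_ ?_)
      · exact Finset.sum_le_sum_of_subset_of_nonneg
          (Finset.range_subset_range.2 (by omega))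
          fun p _ _ => mul_nonneg (th_nonneg l p k) (b5_chi m n p)
      · have := wt_pos l
        have := wt_pos m
        have := wt_pos n
        positivity
    have w0 := (wt_pos k).le
    have w1 := (wt_pos l).le
    have w2 := (wt_pos m).le
    have w3 := (wt_pos n).le
    calc |wt k ^ (2 * j) * (x k * (Br l m n k * (x l * (x m * x n))))|
        = |Br l m n k| * (wt k ^ (2 * j) * (|x k| * (|x l| * (|x m| * |x n|)))) := by
          simp only [abs_mul, abs_of_nonneg (pow_nonneg w0 (2 * j))]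
          ring
      _ ≤ (6 * (wt l * wt m * wt n) * ∑ p ∈ Finset.range (2 * N), th l p k * chi m n p) *
          (wt k ^ (2 * j) * (|x k| * (|x l| * (|x m| * |x n|)))) :=
          mul_le_mul_of_nonneg_right hB (by positivity)
      _ = ∑ p ∈ Finset.range (2 * N), (th l p k * chi m n p * wt k ^ j) *
          (6 * (wt l * wt m * wt n) * (wt k ^ j * (|x k| * (|x l| * (|x m| * |x n|))))) := by
          rw [mul_assoc, mul_comm (∑ p ∈ Finset.range (2 * N), th l p k * chi m n p),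
            ← mul_assoc, Finset.mul_sum]
          refine Finset.sum_congr rfl fun p _ => ?_
          rw [two_mul j, pow_add]
          ring
      _ ≤ ∑ p ∈ Finset.range (2 * N),
          (th l p k * chi m n p * (3 ^ j * (wt l ^ j + wt m ^ j + wt n ^ j))) *
          (6 * (wt l * wt m * wt n) * (wt k ^ j * (|x k| * (|x l| * (|x m| * |x n|))))) :=
          Finset.sum_le_sum fun p _ => mul_le_mul_of_nonneg_right (b5_pt j k l m n p)
            (by positivity)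
      _ = _ := by
          refine Finset.sum_congr rfl fun p _ => ?_
          rw [hb, hu, hv]
          ring
  have tot : |∑ k ∈ Finset.range N, ∑ l ∈ Finset.range N, ∑ m ∈ Finset.range N,
      ∑ n ∈ Finset.range N, wt k ^ (2 * j) * (x k * (Br l m n k * (x l * (x m * x n))))| ≤
      ∑ k ∈ Finset.range N, ∑ l ∈ Finset.range N, ∑ m ∈ Finset.range N, ∑ n ∈ Finset.range N,
        ∑ p ∈ Finset.range (2 * N), (6 * 3 ^ j) *
        (th l p k * chi m n p * (b k * (v l * (u m * u n))) +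
          th l p k * chi m n p * (b k * (u l * (v m * u n))) +
          th l p k * chi m n p * (b k * (u l * (u m * v n)))) := by
    refine (Finset.abs_sum_le_sum_abs _ _).trans (Finset.sum_le_sum fun k _ => ?_)
    refine (Finset.abs_sum_le_sum_abs _ _).trans (Finset.sum_le_sum fun l _ => ?_)
    refine (Finset.abs_sum_le_sum_abs _ _).trans (Finset.sum_le_sum fun m hm => ?_)
    refine (Finset.abs_sum_le_sum_abs _ _).trans (Finset.sum_le_sum fun n hn => ?_)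
    exact hpt k l m n (Finset.mem_range.mp hm) (Finset.mem_range.mp hn)
  refine tot.trans ?_
  simp only [← Finset.mul_sum, Finset.sum_add_distrib]
  rw [b5_reorder N v b u u, b5_reorder N u b v u, b5_reorder N u b u v]
  have h3 : (0 : ℝ) < 3 ^ j := by positivity
  calc _ ≤ 6 * 3 ^ j * (6 * (n1 N 3 x ^ 2 * (n2 N j x * n2 N (j + 1) x)) +
        6 * (n1 N 3 x ^ 2 * (n2 N j x * n2 N (j + 1) x)) +
        6 * (n1 N 3 x ^ 2 * (n2 N j x * n2 N (j + 1) x))) := by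
        apply mul_le_mul_of_nonneg_left _ (by positivity)
        linarith
    _ = _ := by ring
-- END b5

-- BEGIN b6
private theorem b6_tq (N l m n k : ℕ) (hm : m < N) (hn : n < N) :
    tq l m n k = -∑ p ∈ Finset.range (2 * N), chi l k p * chi m n p * wt n ^ 2 + Br l m n k := by
  have e : ∑ p ∈ Finset.range (2 * N), chi l k p * chi m n p * wt n ^ 2 =
      ∑ p ∈ Finset.range (m + n + 1), chi l p k * chi m n p * wt n ^ 2 := by
    symm
    have h1 : ∀ p, chi l p k = chi l k p := fun p => chi_rot l p k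
    simp only [h1]
    refine Finset.sum_subset (Finset.range_subset_range.2 (by omega)) fun p _ hp => ?_
    rw [Finset.mem_range, not_lt] at hp
    rw [ArrId.chi_top m n p (by omega)]
    ring
  rw [e]
  unfold tq Br cq
  rw [← Finset.sum_neg_distrib]
  have e2 : ∑ p ∈ Finset.range (m + n + 1), chi l p k *
      (chi m n p * (2 - lam n - (lam m + lam n - lam p) / 2) - yj m n p) =
      ∑ p ∈ Finset.range (m + n + 1), -(chi l p k * chi m n p * wt n ^ 2) +
      ∑ p ∈ Finset.range (m + n + 1),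
        chi l p k * (chi m n p * (3 - (lam m + lam n - lam p) / 2) - yj m n p) := by
    rw [← Finset.sum_add_distrib]
    refine Finset.sum_congr rfl fun p _ => ?_
    rw [← lam_wt n]
    ring
  rw [e2]
  ring

private theorem b6_swap (N M : ℕ) (F : ℕ → ℕ → ℕ → ℕ → ℕ → ℝ) :
    ∑ k ∈ Finset.range N, ∑ l ∈ Finset.range N, ∑ m ∈ Finset.range N, ∑ n ∈ Finset.range N,
      ∑ p ∈ Finset.range M, F k l m n p =
    ∑ p ∈ Finset.range M, ∑ l ∈ Finset.range N, ∑ k ∈ Finset.range N, ∑ m ∈ Finset.range N,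
      ∑ n ∈ Finset.range N, F k l m n p := by
  calc ∑ k ∈ Finset.range N, ∑ l ∈ Finset.range N, ∑ m ∈ Finset.range N, ∑ n ∈ Finset.range N,
        ∑ p ∈ Finset.range M, F k l m n p
      = ∑ l ∈ Finset.range N, ∑ k ∈ Finset.range N, ∑ m ∈ Finset.range N, ∑ n ∈ Finset.range N,
        ∑ p ∈ Finset.range M, F k l m n p := Finset.sum_comm
    _ = ∑ l ∈ Finset.range N, ∑ k ∈ Finset.range N, ∑ m ∈ Finset.range N, ∑ p ∈ Finset.range M,
        ∑ n ∈ Finset.range N, F k l m n p :=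
        Finset.sum_congr rfl fun l _ => Finset.sum_congr rfl fun k _ =>
          Finset.sum_congr rfl fun m _ => Finset.sum_comm
    _ = ∑ l ∈ Finset.range N, ∑ k ∈ Finset.range N, ∑ p ∈ Finset.range M, ∑ m ∈ Finset.range N,
        ∑ n ∈ Finset.range N, F k l m n p :=
        Finset.sum_congr rfl fun l _ => Finset.sum_congr rfl fun k _ => Finset.sum_comm
    _ = ∑ l ∈ Finset.range N, ∑ p ∈ Finset.range M, ∑ k ∈ Finset.range N, ∑ m ∈ Finset.range N,
        ∑ n ∈ Finset.range N, F k l m n p :=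
        Finset.sum_congr rfl fun l _ => Finset.sum_comm
    _ = _ := Finset.sum_comm

/-- (b6, size 2) PROOF. `tq l m n k = - ∑ p ∈ range (m+n+1), chi l p k * chi m n p * wt n ^ 2 + Br l m n k` (unfold `tq`, `cq`, `Br`;
`lam n = wt n ^ 2 - 1`), for `m, n < N` the first sum runs over `range (2 N)` (`ArrId.chi_top`), `chi l p k = chi l k p` (`chi_rot`); then reorder. -/
theorem split (j N : ℕ) (x : ℕ → ℝ) :
    ∑ k ∈ Finset.range N, wt k ^ (2 * j) * (x k * Dn N x k) =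
      -∑ p ∈ Finset.range (2 * N), bil chi N x (fun k => wt k ^ (2 * j) * x k) p *
        bil chi N x (fun k => wt k ^ 2 * x k) p +
      (∑ k ∈ Finset.range N, ∑ l ∈ Finset.range N, ∑ m ∈ Finset.range N, ∑ n ∈ Finset.range N,
        wt k ^ (2 * j) * (x k * (Br l m n k * (x l * (x m * x n))))) - 2 * n2 N j x ^ 2 := by
  have h1 : ∀ k, wt k ^ (2 * j) * (x k * Dn N x k) =
      ∑ l ∈ Finset.range N, ∑ m ∈ Finset.range N, ∑ n ∈ Finset.range N,
        wt k ^ (2 * j) * (x k * (tq l m n k * (x l * (x m * x n)))) -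
      2 * (wt k ^ (2 * j) * x k ^ 2) := by
    intro k
    unfold Dn
    simp only [← Finset.mul_sum]
    ring
  have h2 : ∀ k, ∑ l ∈ Finset.range N, ∑ m ∈ Finset.range N, ∑ n ∈ Finset.range N,
        wt k ^ (2 * j) * (x k * (tq l m n k * (x l * (x m * x n)))) =
      (∑ l ∈ Finset.range N, ∑ m ∈ Finset.range N, ∑ n ∈ Finset.range N,
        ∑ p ∈ Finset.range (2 * N), -((chi l k p * x l * (wt k ^ (2 * j) * x k)) *
          (chi m n p * x m * (wt n ^ 2 * x n)))) +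
      ∑ l ∈ Finset.range N, ∑ m ∈ Finset.range N, ∑ n ∈ Finset.range N,
        wt k ^ (2 * j) * (x k * (Br l m n k * (x l * (x m * x n)))) := by
    intro k
    rw [← Finset.sum_add_distrib]
    refine Finset.sum_congr rfl fun l _ => ?_
    rw [← Finset.sum_add_distrib]
    refine Finset.sum_congr rfl fun m hm => ?_
    rw [← Finset.sum_add_distrib]
    refine Finset.sum_congr rfl fun n hn => ?_
    rw [b6_tq N l m n k (Finset.mem_range.mp hm) (Finset.mem_range.mp hn), add_mul, mul_add,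
      mul_add]
    congr 1
    rw [← Finset.sum_neg_distrib, Finset.sum_mul, Finset.mul_sum, Finset.mul_sum]
    refine Finset.sum_congr rfl fun p _ => ?_
    ring
  have h3 : ∑ k ∈ Finset.range N, ∑ l ∈ Finset.range N, ∑ m ∈ Finset.range N,
      ∑ n ∈ Finset.range N, ∑ p ∈ Finset.range (2 * N),
        -((chi l k p * x l * (wt k ^ (2 * j) * x k)) * (chi m n p * x m * (wt n ^ 2 * x n))) =
      -∑ p ∈ Finset.range (2 * N), bil chi N x (fun k => wt k ^ (2 * j) * x k) p *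
        bil chi N x (fun k => wt k ^ 2 * x k) p := by
    have h4 : ∀ p, bil chi N x (fun k => wt k ^ (2 * j) * x k) p *
        bil chi N x (fun k => wt k ^ 2 * x k) p =
        ∑ l ∈ Finset.range N, ∑ k ∈ Finset.range N, ∑ m ∈ Finset.range N, ∑ n ∈ Finset.range N,
          (chi l k p * x l * (wt k ^ (2 * j) * x k)) * (chi m n p * x m * (wt n ^ 2 * x n)) := by
      intro p
      unfold bil
      rw [Finset.sum_mul]
      refine Finset.sum_congr rfl fun l _ => ?_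
      rw [Finset.sum_mul]
      refine Finset.sum_congr rfl fun k _ => ?_
      rw [Finset.mul_sum]
      refine Finset.sum_congr rfl fun m _ => ?_
      rw [Finset.mul_sum]
    rw [b6_swap N (2 * N) (fun k l m n p =>
      -((chi l k p * x l * (wt k ^ (2 * j) * x k)) * (chi m n p * x m * (wt n ^ 2 * x n))))]
    simp only [h4, Finset.sum_neg_distrib]
  simp only [h1, h2]
  rw [Finset.sum_sub_distrib, Finset.sum_add_distrib, h3, ← Finset.mul_sum, n2_sq]

/-- (b6, size 1) THE ENERGY INEQUALITY. PROOF. `split`, `prin`, `rem`, and `-c² b² + C₂ K² a b ≤ C₂² K⁴ a² / (4 c²)`. -/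
theorem energy (j : ℕ) (hj : 1 ≤ j) : ∃ C : ℝ, 0 ≤ C ∧ ∀ (N : ℕ) (x : ℕ → ℝ) (c : ℝ), 0 < c →
    (∀ y ∈ I1, c ≤ ∑ n ∈ Finset.range N, x n * cU (2 * n) y) →
    ∑ k ∈ Finset.range N, wt k ^ (2 * j) * (x k * Dn N x k) ≤
      C * (n1 N 3 x ^ 2 + n1 N 3 x ^ 4 / c ^ 2) * n2 N j x ^ 2 := by
  obtain ⟨C1, hC1, h1⟩ := prin j hj
  obtain ⟨C2, hC2, h2⟩ := rem j
  refine ⟨C1 + C2 ^ 2, by positivity, fun N x c hc hx => ?_⟩
  have p1 := h1 N x c hc.le hx
  have p2 := (abs_le.1 (h2 N x)).2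
  rw [split]
  obtain ⟨K, hK⟩ : ∃ K, K = n1 N 3 x := ⟨_, rfl⟩
  obtain ⟨a, ha⟩ : ∃ a, a = n2 N j x := ⟨_, rfl⟩
  obtain ⟨b, hb⟩ : ∃ b, b = n2 N (j + 1) x := ⟨_, rfl⟩
  rw [← hK, ← ha, ← hb] at p1 p2
  rw [← hK, ← ha]
  have key : -(c ^ 2 * b ^ 2) + C2 * K ^ 2 * (a * b) ≤ C2 ^ 2 * (K ^ 4 / c ^ 2) * a ^ 2 := by
    have e : C2 ^ 2 * (K ^ 4 / c ^ 2) * a ^ 2 = (C2 * K ^ 2 * a / c) ^ 2 := by
      field_simp
    rw [e]
    have e2 : C2 * K ^ 2 * (a * b) = (C2 * K ^ 2 * a / c) * (c * b) := by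
      field_simp
    rw [e2]
    nlinarith [sq_nonneg (C2 * K ^ 2 * a / c - c * b), sq_nonneg (C2 * K ^ 2 * a / c),
      sq_nonneg (c * b)]
  have g1 : 0 ≤ C1 * (K ^ 4 / c ^ 2) * a ^ 2 := by positivity
  have g2 : 0 ≤ C2 ^ 2 * K ^ 2 * a ^ 2 := by positivity
  have g3 : 0 ≤ a ^ 2 := sq_nonneg a
  have e3 : (C1 + C2 ^ 2) * (K ^ 2 + K ^ 4 / c ^ 2) * a ^ 2 =
      C1 * K ^ 2 * a ^ 2 + C1 * (K ^ 4 / c ^ 2) * a ^ 2 + C2 ^ 2 * K ^ 2 * a ^ 2 +
        C2 ^ 2 * (K ^ 4 / c ^ 2) * a ^ 2 := by ring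
  rw [e3]
  linarith
-- END b6

-- BEGIN b7
private theorem b7_prod (N : ℕ) (f g h : ℕ → ℝ) (C : ℝ) :
    ∑ l ∈ Finset.range N, ∑ m ∈ Finset.range N, ∑ n ∈ Finset.range N, C * (f l * (g m * h n)) =
      C * ((∑ l ∈ Finset.range N, f l) * ((∑ m ∈ Finset.range N, g m) *
        (∑ n ∈ Finset.range N, h n))) := by
  rw [Finset.sum_mul_sum (Finset.range N) (Finset.range N) g h, Finset.sum_mul, Finset.mul_sum]
  refine Finset.sum_congr rfl fun l _ => ?_
  rw [Finset.mul_sum, Finset.mul_sum]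
  refine Finset.sum_congr rfl fun m _ => ?_
  rw [Finset.mul_sum, Finset.mul_sum]

/-- (b7, size 2) PROOF. `tq_bound` with `Ω = R = 1` (`om 1 1 n = wt n + 1 ≤ 2 wt n`, `wt k ≤ om' 1 1 k`) gives
`∑ k ∈ range K, wt k * |tq l m n k| ≤ C (wt l ^ 2 + wt m ^ 2 + wt n ^ 2) * (wt l * wt m * wt n)`; and `wt k ^ (i-1) ≤ 3 ^ (i-1) (..)` (`wt3`) on the
support `k ≤ l + m + n` (`ArrId.tq_support`). -/
theorem tq_wt (i : ℕ) (hi : 1 ≤ i) : ∃ C : ℝ, 0 ≤ C ∧ ∀ (K l m n : ℕ),
    ∑ k ∈ Finset.range K, wt k ^ i * |tq l m n k| ≤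
      C * (wt l ^ (i + 2) * (wt m ^ (i + 2) * wt n ^ (i + 2))) := by
  obtain ⟨C, hC, hb⟩ := tq_bound
  obtain ⟨j, rfl⟩ : ∃ j, i = j + 1 := ⟨i - 1, by omega⟩
  refine ⟨3 ^ j * (24 * C), by positivity, fun K l m n => ?_⟩
  have ha1 := one_le_wt l
  have hb1 := one_le_wt m
  have hc1 := one_le_wt n
  have h0 := hb 1 1 le_rfl le_rfl l m n K
  have hom : ∀ q : ℕ, om 1 1 q ≤ 2 * wt q := by
    intro q
    have := one_le_wt q
    unfold om
    unfold wt at this ⊢
    rw [one_pow, mul_one]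
    linarith
  have hom0 : ∀ q : ℕ, 0 ≤ om 1 1 q := fun q => ArrBd.om_nonneg le_rfl le_rfl q
  have hom' : ∀ q : ℕ, wt q ≤ om' 1 1 q := by
    intro q
    unfold om' om wt
    rw [one_pow, mul_one]
    split_ifs <;> linarith
  have hl := lam_wt l
  have hm := lam_wt m
  have hn := lam_wt n
  set a := wt l with ha
  set b := wt m with hb'
  set c := wt n with hc
  have hab1 : 1 ≤ a * b := one_le_mul_of_one_le_of_one_le ha1 hb1
  have hP1 : 1 ≤ a * b * c := one_le_mul_of_one_le_of_one_le hab1 hc1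
  have haP : a ≤ a * b * c := by
    have h1 : 1 ≤ b * c := one_le_mul_of_one_le_of_one_le hb1 hc1
    nlinarith
  have hbP : b ≤ a * b * c := by
    have h1 : 1 ≤ a * c := one_le_mul_of_one_le_of_one_le ha1 hc1
    nlinarith
  have hcP : c ≤ a * b * c := by nlinarith
  have hP0 : 0 ≤ a * b * c := by linarith
  have hlam : lam l + lam m + lam n + 1 ≤ 3 * (a * b * c) ^ 2 := by
    have h1 : a ^ 2 ≤ (a * b * c) ^ 2 := pow_le_pow_left₀ (by linarith) haP 2
    have h2 : b ^ 2 ≤ (a * b * c) ^ 2 := pow_le_pow_left₀ (by linarith) hbP 2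
    have h3 : c ^ 2 ≤ (a * b * c) ^ 2 := pow_le_pow_left₀ (by linarith) hcP 2
    linarith
  have hlam0 : 0 ≤ lam l + lam m + lam n + 1 := by
    have := ArrBd.lam_nonneg l
    have := ArrBd.lam_nonneg m
    have := ArrBd.lam_nonneg n
    linarith
  have hprod : om 1 1 l * om 1 1 m * om 1 1 n ≤ 8 * (a * b * c) := by
    have h1 : om 1 1 l * om 1 1 m ≤ (2 * a) * (2 * b) :=
      mul_le_mul (hom l) (hom m) (hom0 m) (by linarith)
    have h2 : om 1 1 l * om 1 1 m * om 1 1 n ≤ (2 * a) * (2 * b) * (2 * c) :=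
      mul_le_mul h1 (hom n) (hom0 n) (by positivity)
    linarith
  have hS : ∑ k ∈ Finset.range K, om' 1 1 k * |tq l m n k| ≤ 24 * C * (a * b * c) ^ 3 := by
    refine h0.trans ?_
    have h1 : (lam l + lam m + lam n + 1) * (om 1 1 l * om 1 1 m * om 1 1 n) ≤
        (3 * (a * b * c) ^ 2) * (8 * (a * b * c)) :=
      mul_le_mul hlam hprod (mul_nonneg (mul_nonneg (hom0 l) (hom0 m)) (hom0 n)) (by positivity)
    have h2 := mul_le_mul_of_nonneg_left h1 (by linarith : (0 : ℝ) ≤ C)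
    calc C * (lam l + lam m + lam n + 1) * om 1 1 l * om 1 1 m * om 1 1 n
        = C * ((lam l + lam m + lam n + 1) * (om 1 1 l * om 1 1 m * om 1 1 n)) := by ring
      _ ≤ C * ((3 * (a * b * c) ^ 2) * (8 * (a * b * c))) := h2
      _ = 24 * C * (a * b * c) ^ 3 := by ring
  have hterm : ∀ k ∈ Finset.range K, wt k ^ (j + 1) * |tq l m n k| ≤
      (3 ^ j * (a * b * c) ^ j) * (om' 1 1 k * |tq l m n k|) := by
    intro k _
    by_cases hk : l + m + n < k
    · rw [tq_support l m n k hk]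
      simp
    · have hk1 : wt k ≤ 3 * (a * b * c) := by
        have h1 : (k : ℝ) ≤ l + m + n := by exact_mod_cast (not_lt.mp hk)
        have h2 : wt k ≤ a + b + c := by
          rw [ha, hb', hc]
          unfold wt
          linarith
        linarith
      have hk2 : wt k ^ j ≤ 3 ^ j * (a * b * c) ^ j := by
        rw [← mul_pow]
        exact pow_le_pow_left₀ (wt_pos k).le hk1 j
      have hk3 : wt k * |tq l m n k| ≤ om' 1 1 k * |tq l m n k| :=
        mul_le_mul_of_nonneg_right (hom' k) (abs_nonneg _)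
      calc wt k ^ (j + 1) * |tq l m n k| = wt k ^ j * (wt k * |tq l m n k|) := by ring
        _ ≤ (3 ^ j * (a * b * c) ^ j) * (om' 1 1 k * |tq l m n k|) :=
          mul_le_mul hk2 hk3 (mul_nonneg (wt_pos k).le (abs_nonneg _)) (by positivity)
  calc ∑ k ∈ Finset.range K, wt k ^ (j + 1) * |tq l m n k|
      ≤ ∑ k ∈ Finset.range K, (3 ^ j * (a * b * c) ^ j) * (om' 1 1 k * |tq l m n k|) :=
        Finset.sum_le_sum hterm
    _ = (3 ^ j * (a * b * c) ^ j) * ∑ k ∈ Finset.range K, om' 1 1 k * |tq l m n k| := by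
        rw [Finset.mul_sum]
    _ ≤ (3 ^ j * (a * b * c) ^ j) * (24 * C * (a * b * c) ^ 3) :=
        mul_le_mul_of_nonneg_left hS (by positivity)
    _ = 3 ^ j * (24 * C) * (a ^ (j + 1 + 2) * (b ^ (j + 1 + 2) * c ^ (j + 1 + 2))) := by ring

/-- (b7, size 1) PROOF. `tq_wt`, exchange the sums. -/
theorem Dn_le (i : ℕ) (hi : 1 ≤ i) : ∃ C : ℝ, 0 ≤ C ∧ ∀ (N : ℕ) (x : ℕ → ℝ),
    n1 N i (Dn N x) ≤ C * n1 N (i + 2) x ^ 3 + 2 * n1 N i x := by
  obtain ⟨C, hC, hb⟩ := tq_wt i hi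
  refine ⟨C, hC, fun N x => ?_⟩
  have h1 : ∀ k ∈ Finset.range N, wt k ^ i * |Dn N x k| ≤
      (∑ l ∈ Finset.range N, ∑ m ∈ Finset.range N, ∑ n ∈ Finset.range N,
        (wt k ^ i * |tq l m n k|) * (|x l| * (|x m| * |x n|))) + 2 * (wt k ^ i * |x k|) := by
    intro k _
    have hw : 0 ≤ wt k ^ i := pow_nonneg (wt_pos k).le i
    have h2 : |∑ l ∈ Finset.range N, ∑ m ∈ Finset.range N, ∑ n ∈ Finset.range N,
        tq l m n k * (x l * (x m * x n))| ≤
        ∑ l ∈ Finset.range N, ∑ m ∈ Finset.range N, ∑ n ∈ Finset.range N,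
          |tq l m n k| * (|x l| * (|x m| * |x n|)) := by
      refine (Finset.abs_sum_le_sum_abs _ _).trans (Finset.sum_le_sum fun l _ => ?_)
      refine (Finset.abs_sum_le_sum_abs _ _).trans (Finset.sum_le_sum fun m _ => ?_)
      refine (Finset.abs_sum_le_sum_abs _ _).trans (Finset.sum_le_sum fun n _ => ?_)
      rw [abs_mul, abs_mul, abs_mul]
    have h3 : |Dn N x k| ≤ (∑ l ∈ Finset.range N, ∑ m ∈ Finset.range N, ∑ n ∈ Finset.range N,
          |tq l m n k| * (|x l| * (|x m| * |x n|))) + 2 * |x k| := by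
      unfold Dn
      refine (abs_sub _ _).trans ?_
      rw [abs_mul, abs_of_pos (by norm_num : (0 : ℝ) < 2)]
      linarith
    refine (mul_le_mul_of_nonneg_left h3 hw).trans (le_of_eq ?_)
    rw [mul_add, Finset.mul_sum]
    congr 1
    · refine Finset.sum_congr rfl fun l _ => ?_
      rw [Finset.mul_sum]
      refine Finset.sum_congr rfl fun m _ => ?_
      rw [Finset.mul_sum]
      refine Finset.sum_congr rfl fun n _ => ?_
      ring
    · ring
  have h4 : ∑ k ∈ Finset.range N, ∑ l ∈ Finset.range N, ∑ m ∈ Finset.range N,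
      ∑ n ∈ Finset.range N, (wt k ^ i * |tq l m n k|) * (|x l| * (|x m| * |x n|)) ≤
      C * n1 N (i + 2) x ^ 3 := by
    have h5 : ∑ k ∈ Finset.range N, ∑ l ∈ Finset.range N, ∑ m ∈ Finset.range N,
        ∑ n ∈ Finset.range N, (wt k ^ i * |tq l m n k|) * (|x l| * (|x m| * |x n|)) =
        ∑ l ∈ Finset.range N, ∑ m ∈ Finset.range N, ∑ n ∈ Finset.range N,
          (∑ k ∈ Finset.range N, wt k ^ i * |tq l m n k|) * (|x l| * (|x m| * |x n|)) := by
      rw [Finset.sum_comm]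
      refine Finset.sum_congr rfl fun l _ => ?_
      rw [Finset.sum_comm]
      refine Finset.sum_congr rfl fun m _ => ?_
      rw [Finset.sum_comm]
      refine Finset.sum_congr rfl fun n _ => ?_
      rw [Finset.sum_mul]
    rw [h5]
    have h6 : ∑ l ∈ Finset.range N, ∑ m ∈ Finset.range N, ∑ n ∈ Finset.range N,
          (∑ k ∈ Finset.range N, wt k ^ i * |tq l m n k|) * (|x l| * (|x m| * |x n|)) ≤
        ∑ l ∈ Finset.range N, ∑ m ∈ Finset.range N, ∑ n ∈ Finset.range N,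
          C * ((wt l ^ (i + 2) * |x l|) * ((wt m ^ (i + 2) * |x m|) *
            (wt n ^ (i + 2) * |x n|))) := by
      refine Finset.sum_le_sum fun l _ => Finset.sum_le_sum fun m _ =>
        Finset.sum_le_sum fun n _ => ?_
      refine (mul_le_mul_of_nonneg_right (hb N l m n) (by positivity)).trans (le_of_eq ?_)
      ring
    refine h6.trans (le_of_eq ?_)
    rw [b7_prod]
    unfold n1
    ring
  have h7 : n1 N i (Dn N x) ≤ ∑ k ∈ Finset.range N,
      ((∑ l ∈ Finset.range N, ∑ m ∈ Finset.range N, ∑ n ∈ Finset.range N,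
        (wt k ^ i * |tq l m n k|) * (|x l| * (|x m| * |x n|))) + 2 * (wt k ^ i * |x k|)) := by
    unfold n1
    exact Finset.sum_le_sum h1
  rw [Finset.sum_add_distrib, ← Finset.mul_sum] at h7
  unfold n1 at h4 h7 ⊢
  linarith
-- END b7

-- BEGIN b8
private theorem b8_prod (N : ℕ) (f g h : ℕ → ℝ) (C : ℝ) :
    ∑ l ∈ Finset.range N, ∑ m ∈ Finset.range N, ∑ n ∈ Finset.range N, C * (f l * (g m * h n)) =
      C * ((∑ l ∈ Finset.range N, f l) * ((∑ m ∈ Finset.range N, g m) *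
        (∑ n ∈ Finset.range N, h n))) := by
  rw [Finset.sum_mul_sum (Finset.range N) (Finset.range N) g h, Finset.sum_mul, Finset.mul_sum]
  refine Finset.sum_congr rfl fun l _ => ?_
  rw [Finset.mul_sum, Finset.mul_sum]
  refine Finset.sum_congr rfl fun m _ => ?_
  rw [Finset.mul_sum, Finset.mul_sum]

/-- (b8, size 2) PROOF. `|x l x m x n - z l z m z n| ≤ |x l - z l| |x m| |x n| + |z l| |x m - z m| |x n| + |z l| |z m| |x n - z n|`, `tq_wt 1`
(one term `k` of the sum, `1 ≤ wt k`): `|tq l m n k| ≤ C wt l ^ 3 wt m ^ 3 wt n ^ 3`; `|x k - z k| ≤ n1 N 3 (x - z)`. -/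
theorem Dn_lip : ∃ C : ℝ, 0 ≤ C ∧ ∀ (N : ℕ) (x z : ℕ → ℝ) (B : ℝ) (k : ℕ), 1 ≤ B →
    n1 N 3 x ≤ B → n1 N 3 z ≤ B → k < N →
    |Dn N x k - Dn N z k| ≤ C * B ^ 2 * n1 N 3 (fun n => x n - z n) := by
  obtain ⟨C, hC, hb⟩ := tq_wt 1 le_rfl
  refine ⟨3 * C + 2, by positivity, fun N x z B k hB hx hz hk => ?_⟩
  have htq : ∀ l m n : ℕ, |tq l m n k| ≤ C * (wt l ^ 3 * (wt m ^ 3 * wt n ^ 3)) := by
    intro l m n
    have h1 := hb (k + 1) l m n
    have h2 : wt k ^ 1 * |tq l m n k| ≤ ∑ q ∈ Finset.range (k + 1), wt q ^ 1 * |tq l m n q| :=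
      Finset.single_le_sum (f := fun q => wt q ^ 1 * |tq l m n q|)
        (fun q _ => mul_nonneg (pow_nonneg (wt_pos q).le _) (abs_nonneg _))
        (Finset.mem_range.mpr (Nat.lt_succ_self k))
    have h3 : |tq l m n k| ≤ wt k ^ 1 * |tq l m n k| := by
      rw [pow_one]
      exact le_mul_of_one_le_left (abs_nonneg _) (one_le_wt k)
    exact h3.trans (h2.trans h1)
  have hd0 : 0 ≤ n1 N 3 (fun n => x n - z n) := n1_nonneg _ _ _
  have hx0 : 0 ≤ n1 N 3 x := n1_nonneg _ _ _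
  have hz0 : 0 ≤ n1 N 3 z := n1_nonneg _ _ _
  have hkd : |x k - z k| ≤ n1 N 3 (fun n => x n - z n) := by
    have h1 : wt k ^ 3 * |x k - z k| ≤ n1 N 3 (fun n => x n - z n) :=
      Finset.single_le_sum (f := fun q => wt q ^ 3 * |x q - z q|)
        (fun q _ => mul_nonneg (pow_nonneg (wt_pos q).le _) (abs_nonneg _))
        (Finset.mem_range.mpr hk)
    have h2 : |x k - z k| ≤ wt k ^ 3 * |x k - z k| :=
      le_mul_of_one_le_left (abs_nonneg _) (one_le_pow₀ (one_le_wt k))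
    exact h2.trans h1
  have hdiff : ∀ l m n : ℕ, |x l * (x m * x n) - z l * (z m * z n)| ≤
      |x l - z l| * (|x m| * |x n|) + |z l| * (|x m - z m| * |x n|) +
        |z l| * (|z m| * |x n - z n|) := by
    intro l m n
    have h1 : x l * (x m * x n) - z l * (z m * z n) =
        (x l - z l) * (x m * x n) + z l * ((x m - z m) * x n) + z l * (z m * (x n - z n)) := by
      ring
    rw [h1]
    refine (abs_add_le _ _).trans ?_
    refine (add_le_add_left (abs_add_le _ _) _).trans ?_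
    simp only [abs_mul]
    exact le_refl _
  have hmain : |∑ l ∈ Finset.range N, ∑ m ∈ Finset.range N, ∑ n ∈ Finset.range N,
      (tq l m n k * (x l * (x m * x n)) - tq l m n k * (z l * (z m * z n)))| ≤
      ∑ l ∈ Finset.range N, ∑ m ∈ Finset.range N, ∑ n ∈ Finset.range N,
        (C * ((wt l ^ 3 * |x l - z l|) * ((wt m ^ 3 * |x m|) * (wt n ^ 3 * |x n|))) +
         C * ((wt l ^ 3 * |z l|) * ((wt m ^ 3 * |x m - z m|) * (wt n ^ 3 * |x n|))) +
         C * ((wt l ^ 3 * |z l|) * ((wt m ^ 3 * |z m|) * (wt n ^ 3 * |x n - z n|)))) := by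
    refine (Finset.abs_sum_le_sum_abs _ _).trans (Finset.sum_le_sum fun l _ => ?_)
    refine (Finset.abs_sum_le_sum_abs _ _).trans (Finset.sum_le_sum fun m _ => ?_)
    refine (Finset.abs_sum_le_sum_abs _ _).trans (Finset.sum_le_sum fun n _ => ?_)
    rw [← mul_sub, abs_mul]
    have h1 := mul_le_mul (htq l m n) (hdiff l m n) (abs_nonneg _)
      (mul_nonneg hC (mul_nonneg (pow_nonneg (wt_pos l).le 3)
        (mul_nonneg (pow_nonneg (wt_pos m).le 3) (pow_nonneg (wt_pos n).le 3))))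
    refine h1.trans (le_of_eq ?_)
    ring
  have hsum : ∑ l ∈ Finset.range N, ∑ m ∈ Finset.range N, ∑ n ∈ Finset.range N,
        (C * ((wt l ^ 3 * |x l - z l|) * ((wt m ^ 3 * |x m|) * (wt n ^ 3 * |x n|))) +
         C * ((wt l ^ 3 * |z l|) * ((wt m ^ 3 * |x m - z m|) * (wt n ^ 3 * |x n|))) +
         C * ((wt l ^ 3 * |z l|) * ((wt m ^ 3 * |z m|) * (wt n ^ 3 * |x n - z n|)))) =
      C * (n1 N 3 (fun n => x n - z n) * (n1 N 3 x * n1 N 3 x)) +
      C * (n1 N 3 z * (n1 N 3 (fun n => x n - z n) * n1 N 3 x)) +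
      C * (n1 N 3 z * (n1 N 3 z * n1 N 3 (fun n => x n - z n))) := by
    simp only [Finset.sum_add_distrib]
    rw [b8_prod, b8_prod, b8_prod]
    rfl
  have hD : Dn N x k - Dn N z k = (∑ l ∈ Finset.range N, ∑ m ∈ Finset.range N,
      ∑ n ∈ Finset.range N,
      (tq l m n k * (x l * (x m * x n)) - tq l m n k * (z l * (z m * z n)))) -
        2 * (x k - z k) := by
    unfold Dn
    simp only [Finset.sum_sub_distrib]
    ring
  rw [hD]
  refine (abs_sub _ _).trans ?_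
  rw [hsum] at hmain
  have h2 : |2 * (x k - z k)| ≤ 2 * n1 N 3 (fun n => x n - z n) := by
    rw [abs_mul, abs_of_pos (by norm_num : (0 : ℝ) < 2)]
    linarith
  set d := n1 N 3 (fun n => x n - z n) with hd
  set X := n1 N 3 x with hX
  set Z := n1 N 3 z with hZ
  have hB0 : 0 ≤ B := by linarith
  have e1 : d * (X * X) ≤ d * (B * B) :=
    mul_le_mul_of_nonneg_left (mul_le_mul hx hx hx0 hB0) hd0
  have e2 : Z * (d * X) ≤ B * (d * B) :=
    mul_le_mul hz (mul_le_mul_of_nonneg_left hx hd0) (mul_nonneg hd0 hx0) hB0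
  have e3 : Z * (Z * d) ≤ B * (B * d) :=
    mul_le_mul hz (mul_le_mul_of_nonneg_right hz hd0) (mul_nonneg hz0 hd0) hB0
  have e4 : d ≤ B ^ 2 * d := le_mul_of_one_le_left hd0 (one_le_pow₀ hB)
  have f1 := mul_le_mul_of_nonneg_left e1 hC
  have f2 := mul_le_mul_of_nonneg_left e2 hC
  have f3 := mul_le_mul_of_nonneg_left e3 hC
  calc _ ≤ C * (d * (B * B)) + C * (B * (d * B)) + C * (B * (B * d)) + 2 * (B ^ 2 * d) := by
        linarith
    _ = (3 * C + 2) * B ^ 2 * d := by ring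
-- END b8

end Pool.Agent.RFq
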