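import Pool.Agent.RFq.LeB

/-!
# MP_ae1fc5_gt, Q1, local existence: the Galerkin approximations
-/

set_option autoImplicit false

open scoped Real ContDiff
open Set

noncomputable section

namespace Pool.Agent.RFq

open Pool.Agent.MP_ae1fc5_gt Pool.Agent.MP_ae1fc5_gt.Pde

-- BEGIN c1
private theorem c1_congr (N : ℕ) (u v : ℕ → ℝ) (h : ∀ n < N, u n = v n) (k : ℕ) (hk : k < N) :
    Dn N u k = Dn N v k := by
  unfold Dn
  rw [h k hk]
  congr 1
  refine Finset.sum_congr rfl fun l hl => Finset.sum_congr rfl fun m hm =>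
    Finset.sum_congr rfl fun n hn => ?_
  rw [h l (Finset.mem_range.1 hl), h m (Finset.mem_range.1 hm), h n (Finset.mem_range.1 hn)]

/-- (c1, size 3) The truncated and clamped system has a solution on every interval. PROOF. On `Fin N → ℝ` the vector field
`z ↦ (Dn N (clamp z))` is bounded and Lipschitz (polynomial of the 1-Lipschitz bounded map clamp); Picard-Lindelöf
(`IsPicardLindelof.exists_eq_forall_mem_Icc_hasDerivWithinAt₀`) on `Icc 0 T` with a large ball. -/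
theorem galerkin_ode (N : ℕ) (K T : ℝ) (hK : 0 ≤ K) (hT : 0 < T) (a : ℕ → ℝ) :
    ∃ x : ℕ → ℝ → ℝ, (∀ k < N, x k 0 = a k) ∧ (∀ k, N ≤ k → ∀ t, x k t = 0) ∧
      ∀ k < N, ∀ t ∈ Icc 0 T,
        HasDerivWithinAt (x k) (Dn N (fun n => max (-K) (min K (x n t))) k) (Icc 0 T) t := by
  obtain ⟨e, he⟩ : ∃ e : (Fin N → ℝ) → ℕ → ℝ, e = fun z n => if h : n < N then z ⟨n, h⟩ else 0 :=
    ⟨_, rfl⟩
  have heC : ∀ n, ContDiff ℝ 1 (fun z => e z n) := by
    intro n
    rw [he]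
    by_cases h : n < N
    · simp only [h, dif_pos]
      exact contDiff_apply ℝ ℝ (⟨n, h⟩ : Fin N)
    · simp only [h, dif_neg, not_false_eq_true]
      exact contDiff_const
  obtain ⟨g, hg⟩ : ∃ g : (Fin N → ℝ) → (Fin N → ℝ), g = fun z (k : Fin N) => Dn N (e z) k.1 := ⟨_, rfl⟩
  have hgC : ContDiff ℝ 1 g := by
    rw [hg]
    refine contDiff_pi.2 fun k => ?_
    unfold Dn
    refine ContDiff.sub ?_ (contDiff_const.mul (heC k))
    refine ContDiff.sum fun l _ => ContDiff.sum fun m _ => ContDiff.sum fun n _ => ?_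
    exact contDiff_const.mul ((heC l).mul ((heC m).mul (heC n)))
  obtain ⟨φ, hφ1, hφ2, hφ3⟩ : ∃ φ : (Fin N → ℝ) → ℝ,
      (∀ x ∈ Metric.closedBall (0 : Fin N → ℝ) (K + 1), φ x = 1) ∧
      HasCompactSupport φ ∧ ContDiff ℝ 1 φ := by
    let b' : ContDiffBump (0 : Fin N → ℝ) := ⟨K + 1, K + 2, by linarith, by linarith⟩
    exact ⟨b', fun x hx => b'.one_of_mem_closedBall hx, b'.hasCompactSupport, b'.contDiff⟩
  obtain ⟨g', hg'⟩ : ∃ g' : (Fin N → ℝ) → (Fin N → ℝ), g' = fun x => φ x • g x := ⟨_, rfl⟩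
  have hgC' : ContDiff ℝ 1 g' := by rw [hg']; exact hφ3.smul hgC
  have hgS : HasCompactSupport g' := by rw [hg']; exact hφ2.smul_right
  obtain ⟨C, hC⟩ := hgC'.lipschitzWith_of_hasCompactSupport hgS (by norm_num)
  obtain ⟨L, hL⟩ : ∃ L : NNReal, ∀ x, ‖g' x‖ ≤ L := by
    obtain ⟨B, hB⟩ := hgS.exists_bound_of_continuous hgC'.continuous
    exact ⟨⟨max B 0, le_max_right _ _⟩, fun x => (hB x).trans (le_max_left _ _)⟩
  obtain ⟨c, hc⟩ : ∃ c : (Fin N → ℝ) → (Fin N → ℝ), c = fun z k => max (-K) (min K (z k)) :=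
    ⟨_, rfl⟩
  have hcL : LipschitzWith 1 c := by
    rw [hc]
    refine LipschitzWith.of_dist_le_mul fun z w => ?_
    rw [NNReal.coe_one, one_mul, dist_pi_le_iff dist_nonneg]
    intro k
    rw [Real.dist_eq]
    refine (abs_max_sub_max_le_max _ _ _ _).trans ?_
    rw [sub_self, abs_zero, max_eq_right (abs_nonneg _)]
    refine (abs_min_sub_min_le_max _ _ _ _).trans ?_
    rw [sub_self, abs_zero, max_eq_right (abs_nonneg _), ← Real.dist_eq]
    exact dist_le_pi_dist z w k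
  have hpl : IsPicardLindelof (fun _ : ℝ => fun z => g' (c z)) (tmin := 0) (tmax := T)
      ⟨0, le_refl 0, hT.le⟩ (fun k : Fin N => a k) (L * ⟨T, hT.le⟩) 0 L (C * 1) := by
    refine ⟨fun t _ => (hC.comp hcL).lipschitzOnWith, fun x _ => continuousOn_const,
      fun t _ x _ => hL (c x), ?_⟩
    simp only [sub_zero, sub_self, max_eq_left hT.le, NNReal.coe_zero]
    exact le_of_eq rfl
  obtain ⟨x, hx0, hx⟩ := hpl.exists_eq_forall_mem_Icc_hasDerivWithinAt₀
  simp only at hx0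
  refine ⟨fun k t => if h : k < N then x t ⟨k, h⟩ else 0, fun k hk => ?_, fun k hk t => ?_,
    fun k hk t ht => ?_⟩
  · simp only [hk, dif_pos]
    rw [hx0]
  · simp only [not_lt.2 hk, dif_neg, not_false_eq_true]
  · simp only [hk, dif_pos]
    have h1 := (hasDerivWithinAt_pi.1 (hx t ht)) ⟨k, hk⟩
    have h2 : g' (c (x t)) ⟨k, hk⟩ = Dn N (e (c (x t))) k := by
      have h3 : φ (c (x t)) = 1 := by
        refine hφ1 _ ?_
        rw [mem_closedBall_zero_iff, pi_norm_le_iff_of_nonneg (by linarith)]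
        intro i
        rw [hc, Real.norm_eq_abs, abs_le]
        exact ⟨by linarith [le_max_left (-K) (min K (x t i))],
          (max_le (by linarith) (min_le_left _ _)).trans (by linarith)⟩
      rw [hg']
      simp only [h3, one_smul]
      rw [hg]
    rw [h2, c1_congr N (e (c (x t))) (fun n => max (-K) (min K (if h : n < N then x t ⟨n, h⟩ else 0)))
      (fun n hn => by rw [he, hc]; simp only [hn, dif_pos]) k hk] at h1
    exact h1
-- END c1

-- BEGIN c2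
/-- (c2, size 1) Bootstrap. PROOF. Otherwise the first zero `t₀ = sInf {t ∈ Icc 0 T | 0 ≤ φ t}` has `φ ≤ 0` on `[0, t₀]` and `0 ≤ φ t₀`. -/
theorem boot (T : ℝ) (φ : ℝ → ℝ) (hφ : ContinuousOn φ (Icc 0 T)) (h0 : φ 0 < 0)
    (h : ∀ t ∈ Icc 0 T, (∀ s ∈ Icc 0 t, φ s ≤ 0) → φ t < 0) : ∀ t ∈ Icc 0 T, φ t < 0 := by
  intro t1 ht1
  by_contra hcon
  rw [not_lt] at hcon
  have hsub : ∀ s ∈ Icc (0 : ℝ) T, Icc 0 s ⊆ Icc 0 T := fun s hs => Icc_subset_Icc_right hs.2
  have hzero : ∀ s ∈ Icc (0 : ℝ) T, 0 ≤ φ s → ∃ r ∈ Icc 0 s, φ r = 0 := by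
    intro s hs hs0
    obtain ⟨r, hr, hr0⟩ := intermediate_value_Icc hs.1 (hφ.mono (hsub s hs)) ⟨h0.le, hs0⟩
    exact ⟨r, hr, hr0⟩
  set S := {t | t ∈ Icc (0 : ℝ) T ∧ φ t = 0} with hS
  have hne : S.Nonempty := by
    obtain ⟨r, hr, hr0⟩ := hzero t1 ht1 hcon
    exact ⟨r, hsub t1 ht1 hr, hr0⟩
  have hcl : IsClosed S := by
    have h1 : S = Icc 0 T ∩ φ ⁻¹' {0} := by
      ext t
      rfl
    rw [h1]
    exact hφ.preimage_isClosed_of_isClosed isClosed_Icc isClosed_singleton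
  have hbdd : BddBelow S := ⟨0, fun t ht => ht.1.1⟩
  obtain ⟨ht0, hz⟩ : sInf S ∈ S := hcl.csInf_mem hne hbdd
  have hle : ∀ s ∈ Icc 0 (sInf S), φ s ≤ 0 := by
    intro s hs
    by_contra hs0
    rw [not_le] at hs0
    have hsT : s ∈ Icc 0 T := hsub _ ht0 hs
    obtain ⟨r, hr, hr0⟩ := hzero s hsT hs0.le
    have h2 : sInf S ≤ r := csInf_le hbdd ⟨hsub s hsT hr, hr0⟩
    have h3 : s = r := le_antisymm (hs.2.trans h2) hr.2
    rw [h3, hr0] at hs0
    exact lt_irrefl _ hs0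
  have h4 := h _ ht0 hle
  rw [hz] at h4
  exact lt_irrefl _ h4

/-- (c2, size 1) Gronwall. PROOF. `t ↦ f t * exp (-K t)` is antitone on `Icc 0 T` (derivative `≤ 0`). -/
theorem gron (T K : ℝ) (f f' : ℝ → ℝ) (hd : ∀ t ∈ Icc 0 T, HasDerivWithinAt f (f' t) (Icc 0 T) t)
    (hle : ∀ t ∈ Icc 0 T, f' t ≤ K * f t) : ∀ t ∈ Icc 0 T, f t ≤ f 0 * Real.exp (K * t) := by
  intro t ht
  have he : ∀ s : ℝ, HasDerivAt (fun s => Real.exp (-(K * s))) (Real.exp (-(K * s)) * -K) s := by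
    intro s
    have h1 : HasDerivAt (fun s : ℝ => -(K * s)) (-(K * 1)) s := ((hasDerivAt_id s).const_mul K).neg
    rw [mul_one] at h1
    exact h1.exp
  have hF : ∀ s ∈ Icc 0 T, HasDerivWithinAt (fun s => f s * Real.exp (-(K * s)))
      (f' s * Real.exp (-(K * s)) + f s * (Real.exp (-(K * s)) * -K)) (Icc 0 T) s := fun s hs =>
    (hd s hs).mul (he s).hasDerivWithinAt
  have hI : ∀ s ∈ interior (Icc (0 : ℝ) T), HasDerivAt (fun s => f s * Real.exp (-(K * s)))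
      (f' s * Real.exp (-(K * s)) + f s * (Real.exp (-(K * s)) * -K)) s := by
    intro s hs
    rw [interior_Icc] at hs
    exact (hF s (Ioo_subset_Icc_self hs)).hasDerivAt (Icc_mem_nhds hs.1 hs.2)
  have hanti : AntitoneOn (fun s => f s * Real.exp (-(K * s))) (Icc 0 T) := by
    apply antitoneOn_of_deriv_nonpos (convex_Icc 0 T) (fun s hs => (hF s hs).continuousWithinAt)
    · intro s hs
      exact (hI s hs).differentiableAt.differentiableWithinAt
    · intro s hs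
      rw [(hI s hs).deriv]
      have h1 : s ∈ Icc 0 T := interior_subset hs
      have h2 := hle s h1
      have h3 := Real.exp_pos (-(K * s))
      nlinarith
  have h0 : (0 : ℝ) ∈ Icc 0 T := ⟨le_rfl, ht.1.trans ht.2⟩
  have h1 : f t * Real.exp (-(K * t)) ≤ f 0 * Real.exp (-(K * 0)) := hanti h0 ht ht.1
  rw [mul_zero, neg_zero, Real.exp_zero, mul_one] at h1
  calc f t = f t * Real.exp (-(K * t)) * Real.exp (K * t) := by
        rw [mul_assoc, ← Real.exp_add, neg_add_cancel, Real.exp_zero, mul_one]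
    _ ≤ f 0 * Real.exp (K * t) := mul_le_mul_of_nonneg_right h1 (Real.exp_pos _).le
-- END c2

-- BEGIN c3
/-- (c3, size 1) -/
theorem n2_deriv (N j : ℕ) (T : ℝ) (x g : ℕ → ℝ → ℝ) (t : ℝ)
    (hd : ∀ k < N, HasDerivWithinAt (x k) (g k t) (Icc 0 T) t) :
    HasDerivWithinAt (fun s => n2 N j (fun n => x n s) ^ 2)
      (2 * ∑ k ∈ Finset.range N, wt k ^ (2 * j) * (x k t * g k t)) (Icc 0 T) t := by
  have e : (fun s => n2 N j (fun n => x n s) ^ 2) =
      fun s => ∑ n ∈ Finset.range N, wt n ^ (2 * j) * x n s ^ 2 := by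
    funext s
    exact n2_sq _ _ _
  rw [e, Finset.mul_sum]
  refine HasDerivWithinAt.fun_sum fun k hk => ?_
  have h := ((hd k (Finset.mem_range.mp hk)).pow 2).const_mul (wt k ^ (2 * j))
  refine h.congr_deriv ?_
  simp only [Nat.cast_ofNat, Nat.add_one_sub_one, pow_one]
  ring

/-- (c3, size 1) -/
theorem abs_le_n2 (N j k : ℕ) (hk : k < N) (x : ℕ → ℝ) : wt k ^ j * |x k| ≤ n2 N j x := by
  have h0 : 0 ≤ wt k ^ j := pow_nonneg (wt_pos k).le _
  refine abs_le_of_sq_le_sq' ?_ (n2_nonneg _ _ _) |>.2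
  rw [n2_sq, mul_pow, sq_abs, ← pow_mul, Nat.mul_comm j 2]
  exact Finset.single_le_sum (f := fun n => wt n ^ (2 * j) * x n ^ 2)
    (fun n _ => mul_nonneg (pow_nonneg (wt_pos n).le _) (sq_nonneg _)) (Finset.mem_range.mpr hk)

/-- (c3, size 2) PROOF. fix `s, t`, `σ k = sign (x k t - x k s)`; `h r = ∑ k < N, wt k ^ i * (σ k * x k r)` has derivative at most `D` in absolute
value, and `h t - h s = n1 N i (x t - x s)`; mean value inequality on the convex set `Icc 0 T`. -/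
theorem n1_lip (N i : ℕ) (T D : ℝ) (x g : ℕ → ℝ → ℝ)
    (hd : ∀ k < N, ∀ t ∈ Icc 0 T, HasDerivWithinAt (x k) (g k t) (Icc 0 T) t)
    (hD : ∀ t ∈ Icc 0 T, n1 N i (fun k => g k t) ≤ D) :
    ∀ s ∈ Icc 0 T, ∀ t ∈ Icc 0 T, n1 N i (fun n => x n t - x n s) ≤ D * |t - s| := by
  intro s hs t ht
  set σ : ℕ → ℝ := fun k => SignType.sign (x k t - x k s) with hσ
  have hσ1 : ∀ k, |σ k| ≤ 1 := by
    intro k
    rcases lt_trichotomy (x k t - x k s) 0 with h | h | h
    · simp [hσ, h]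
    · simp [hσ, h]
    · simp [hσ, h]
  have hder : ∀ r ∈ Icc 0 T, HasDerivWithinAt
      (fun r => ∑ k ∈ Finset.range N, wt k ^ i * (σ k * x k r))
      (∑ k ∈ Finset.range N, wt k ^ i * (σ k * g k r)) (Icc 0 T) r := by
    intro r hr
    refine HasDerivWithinAt.fun_sum fun k hk => ?_
    exact ((hd k (Finset.mem_range.mp hk) r hr).const_mul (σ k)).const_mul (wt k ^ i)
  have hbd : ∀ r ∈ Icc 0 T, ‖∑ k ∈ Finset.range N, wt k ^ i * (σ k * g k r)‖ ≤ D := by
    intro r hr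
    refine le_trans ?_ (hD r hr)
    rw [Real.norm_eq_abs]
    refine (Finset.abs_sum_le_sum_abs _ _).trans ?_
    unfold n1
    refine Finset.sum_le_sum fun k _ => ?_
    rw [abs_mul, abs_of_nonneg (pow_nonneg (wt_pos k).le i), abs_mul]
    refine mul_le_mul_of_nonneg_left ?_ (pow_nonneg (wt_pos k).le i)
    calc |σ k| * |g k r| ≤ 1 * |g k r| := mul_le_mul_of_nonneg_right (hσ1 k) (abs_nonneg _)
      _ = |g k r| := one_mul _
  have h := (convex_Icc (0 : ℝ) T).norm_image_sub_le_of_norm_hasDerivWithin_le hder hbd hs ht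
  rw [Real.norm_eq_abs, Real.norm_eq_abs] at h
  refine le_trans (le_of_eq ?_) ((le_abs_self _).trans h)
  rw [← Finset.sum_sub_distrib]
  unfold n1
  refine Finset.sum_congr rfl fun k _ => ?_
  have hs' : σ k * (x k t - x k s) = |x k t - x k s| := sign_mul_self _
  rw [← hs']
  ring

/-- (c3, size 1) PROOF. `cU_bound` with `r = 1`: `|cU (2 n) y| ≤ 2 n + 1 = wt n`. -/
theorem sum_cU_sub (N : ℕ) (x z : ℕ → ℝ) (y : ℝ) (hy : y ∈ I1) :
    |∑ n ∈ Finset.range N, x n * cU (2 * n) y - ∑ n ∈ Finset.range N, z n * cU (2 * n) y| ≤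
      n1 N 1 (fun n => x n - z n) := by
  rw [← Finset.sum_sub_distrib]
  refine (Finset.abs_sum_le_sum_abs _ _).trans ?_
  unfold n1
  refine Finset.sum_le_sum fun n _ => ?_
  have h1 : |cU (2 * n) y| ≤ wt n := by
    have h := cU_bound (r := 1) le_rfl (y := y) (by
      have : |y| ≤ 1 := abs_le.mpr hy
      norm_num
      exact this) (2 * n)
    have e : (((2 * n : ℕ) : ℝ) + 1) * 1 ^ (2 * n) = wt n := by
      unfold wt
      push_cast
      ring
    rw [e] at h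
    exact h
  rw [← sub_mul, abs_mul, pow_one, mul_comm]
  exact mul_le_mul_of_nonneg_right h1 (abs_nonneg _)
-- END c3

-- BEGIN c4
theorem c4_Dn_congr (N k : ℕ) (x z : ℕ → ℝ) (h : ∀ n < N, x n = z n) (hk : x k = z k) :
    Dn N x k = Dn N z k := by
  unfold Dn
  rw [hk]
  congr 1
  refine Finset.sum_congr rfl fun l hl => Finset.sum_congr rfl fun m hm =>
    Finset.sum_congr rfl fun n hn => ?_
  rw [h l (Finset.mem_range.1 hl), h m (Finset.mem_range.1 hm), h n (Finset.mem_range.1 hn)]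

/-- (c4, size 3) A priori bound for the clamped system. PROOF. `boot` with
`φ t = max (n2 N 4 (x t) ^ 2 - 4 * A ^ 2) (n1 N 1 (x t - a) - c)`. If `φ ≤ 0` on `[0, t]`: `|x k s| ≤ n2 N 4 (x s) ≤ 2 A` (`abs_le_n2`), so the clamp
is the identity and the derivative of `x k` at `s` is `Dn N (x s) k`; `∑ x n s cU ≥ 2 c - c` (`sum_cU_sub`); `K = n1 N 3 (x s) ≤ 2 n2 N 4 (x s) ≤ 4 A`
(`n1_le_n2`); `energy 4` with `c`, `n2_deriv`, `gron` on `[0, t]` (restrict): `n2 N 4 (x t) ^ 2 ≤ A ^ 2 exp (L t) < 4 A ^ 2`, and `n1_lip` with `Dn_le 1`: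
`n1 N 1 (x t - a) ≤ t * (C (4 A) ^ 3 + 8 A) < c`. -/
theorem apri (A c : ℝ) (hA : 0 < A) (hc : 0 < c) : ∃ τ : ℝ, 0 < τ ∧
    ∀ (N : ℕ) (a : ℕ → ℝ) (x : ℕ → ℝ → ℝ), n2 N 4 a ≤ A →
      (∀ y ∈ I1, 2 * c ≤ ∑ n ∈ Finset.range N, a n * cU (2 * n) y) → (∀ k < N, x k 0 = a k) →
      (∀ k < N, ∀ t ∈ Icc 0 τ, HasDerivWithinAt (x k)
        (Dn N (fun n => max (-(2 * A)) (min (2 * A) (x n t))) k) (Icc 0 τ) t) →
      ∀ t ∈ Icc 0 τ, n2 N 4 (fun n => x n t) ≤ 2 * A ∧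
        (∀ y ∈ I1, c ≤ ∑ n ∈ Finset.range N, x n t * cU (2 * n) y) := by
  obtain ⟨C, hC0, hC⟩ := energy 4 (by norm_num)
  obtain ⟨D, hD0, hD⟩ := Dn_le 1 le_rfl
  obtain ⟨L, hL⟩ : ∃ L, L = 2 * (C * ((4 * A) ^ 2 + (4 * A) ^ 4 / c ^ 2)) := ⟨_, rfl⟩
  have hL0 : 0 ≤ L := by rw [hL]; positivity
  obtain ⟨E, hE⟩ : ∃ E, E = D * (4 * A) ^ 3 + 8 * A := ⟨_, rfl⟩
  have hE0 : 0 ≤ E := by rw [hE]; positivity
  obtain ⟨τ, hτdef⟩ : ∃ τ, τ = min (1 / (L + 1)) (c / (2 * (E + 1))) := ⟨_, rfl⟩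
  have hτ : 0 < τ := by rw [hτdef]; positivity
  have hLτ : L * τ ≤ 1 := by
    have h1 : τ ≤ 1 / (L + 1) := by rw [hτdef]; exact min_le_left _ _
    have h2 : L * τ ≤ L * (1 / (L + 1)) := mul_le_mul_of_nonneg_left h1 hL0
    have h3 : L * (1 / (L + 1)) ≤ 1 := by
      rw [mul_one_div, div_le_one (by positivity)]; linarith
    linarith
  have hEτ : E * τ < c := by
    have h1 : τ ≤ c / (2 * (E + 1)) := by rw [hτdef]; exact min_le_right _ _
    have h2 : E * τ ≤ E * (c / (2 * (E + 1))) := mul_le_mul_of_nonneg_left h1 hE0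
    have h3 : E * (c / (2 * (E + 1))) < c := by
      rw [← mul_div_assoc, div_lt_iff₀ (by positivity)]
      nlinarith
    linarith
  refine ⟨τ, hτ, fun N a x ha hpos h0 hd => ?_⟩
  have hz : (0 : ℝ) ∈ Icc 0 τ := ⟨le_rfl, hτ.le⟩
  -- consequences of the bound on an initial interval
  have key : ∀ s ∈ Icc 0 τ, n2 N 4 (fun n => x n s) ≤ 2 * A →
      n1 N 1 (fun n => x n s - a n) ≤ c →
      (∀ k < N, HasDerivWithinAt (x k) (Dn N (fun n => x n s) k) (Icc 0 τ) s) ∧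
      (∀ y ∈ I1, c ≤ ∑ n ∈ Finset.range N, x n s * cU (2 * n) y) := by
    intro s hs h2 h1
    constructor
    · intro k hk
      have hcl : ∀ n < N, max (-(2 * A)) (min (2 * A) (x n s)) = x n s := by
        intro n hn
        have e1 := abs_le_n2 N 4 n hn (fun n => x n s)
        have e2 : |x n s| ≤ wt n ^ 4 * |x n s| :=
          le_mul_of_one_le_left (abs_nonneg _) (one_le_pow₀ (one_le_wt n))
        have e3 := (e2.trans e1).trans h2
        rw [abs_le] at e3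
        rw [min_eq_right e3.2, max_eq_right e3.1]
      have h3 := hd k hk s hs
      rw [c4_Dn_congr N k (fun n => max (-(2 * A)) (min (2 * A) (x n s))) (fun n => x n s)
        hcl (hcl k hk)] at h3
      exact h3
    · intro y hy
      have h3 := sum_cU_sub N (fun n => x n s) a y hy
      have h4 := hpos y hy
      have h5 := neg_abs_le (∑ n ∈ Finset.range N, x n s * cU (2 * n) y -
        ∑ n ∈ Finset.range N, a n * cU (2 * n) y)
      linarith
  have hcx : ∀ k < N, ContinuousOn (x k) (Icc 0 τ) := fun k hk t ht =>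
    (hd k hk t ht).continuousWithinAt
  have hφ := boot τ (fun t => max (n2 N 4 (fun n => x n t) ^ 2 - 4 * A ^ 2)
    (n1 N 1 (fun n => x n t - a n) - c)) ?_ ?_ ?_
  · intro t ht
    have h1 := hφ t ht
    rw [max_lt_iff] at h1
    have h2 : n2 N 4 (fun n => x n t) ≤ 2 * A := by
      refine (abs_le_of_sq_le_sq' ?_ (by positivity)).2
      nlinarith [h1.1]
    exact ⟨h2, (key t ht h2 (by linarith [h1.2])).2⟩
  · apply ContinuousOn.sup
    · apply ContinuousOn.sub _ continuousOn_const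
      simp only [n2_sq]
      exact continuousOn_finsetSum _ fun k hk =>
        continuousOn_const.mul ((hcx k (Finset.mem_range.1 hk)).pow 2)
    · apply ContinuousOn.sub _ continuousOn_const
      unfold n1
      exact continuousOn_finsetSum _ fun k hk =>
        continuousOn_const.mul (((hcx k (Finset.mem_range.1 hk)).sub continuousOn_const).abs)
  · have e1 : n2 N 4 (fun n => x n 0) = n2 N 4 a := n2_congr N 4 _ _ (fun n hn => h0 n hn)
    have e2 : n1 N 1 (fun n => x n 0 - a n) = 0 := by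
      unfold n1
      refine Finset.sum_eq_zero fun k hk => ?_
      simp only [h0 k (Finset.mem_range.1 hk), sub_self, abs_zero, mul_zero]
    show max (n2 N 4 (fun n => x n 0) ^ 2 - 4 * A ^ 2) (n1 N 1 (fun n => x n 0 - a n) - c) < 0
    rw [e1, e2, max_lt_iff]
    have e3 := n2_nonneg N 4 a
    constructor
    · nlinarith
    · linarith
  · intro t ht hs
    have hst : ∀ s ∈ Icc 0 t, s ∈ Icc 0 τ := fun s hs' => ⟨hs'.1, hs'.2.trans ht.2⟩
    have hsub : Icc 0 t ⊆ Icc 0 τ := fun s hs' => hst s hs'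
    have hb : ∀ s ∈ Icc 0 t, n2 N 4 (fun n => x n s) ≤ 2 * A ∧
        n1 N 1 (fun n => x n s - a n) ≤ c := by
      intro s hs'
      have h1 := hs s hs'
      rw [max_le_iff] at h1
      refine ⟨(abs_le_of_sq_le_sq' ?_ (by positivity)).2, by linarith [h1.2]⟩
      nlinarith [h1.1]
    have hk : ∀ s ∈ Icc 0 t, (∀ k < N, HasDerivWithinAt (x k) (Dn N (fun n => x n s) k)
        (Icc 0 t) s) ∧ (∀ y ∈ I1, c ≤ ∑ n ∈ Finset.range N, x n s * cU (2 * n) y) := by
      intro s hs'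
      obtain ⟨h1, h2⟩ := key s (hst s hs') (hb s hs').1 (hb s hs').2
      exact ⟨fun k hk => (h1 k hk).mono hsub, h2⟩
    have hn3 : ∀ s ∈ Icc 0 t, n1 N 3 (fun n => x n s) ≤ 4 * A := by
      intro s hs'
      have h1 := n1_le_n2 N 3 (fun n => x n s)
      have h2 := (hb s hs').1
      linarith
    have hg := gron t L (fun s => n2 N 4 (fun n => x n s) ^ 2)
      (fun s => 2 * ∑ k ∈ Finset.range N, wt k ^ (2 * 4) * (x k s * Dn N (fun n => x n s) k))
      (fun s hs' => n2_deriv N 4 t x (fun k s => Dn N (fun n => x n s) k) s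
        (fun k hk' => (hk s hs').1 k hk'))
      (fun s hs' => by
        have h1 := hC N (fun n => x n s) c hc (hk s hs').2
        have h2 := hn3 s hs'
        have h3 := n1_nonneg N 3 (fun n => x n s)
        have h5 : n1 N 3 (fun n => x n s) ^ 2 + n1 N 3 (fun n => x n s) ^ 4 / c ^ 2 ≤
            (4 * A) ^ 2 + (4 * A) ^ 4 / c ^ 2 := by gcongr
        have h6 : C * (n1 N 3 (fun n => x n s) ^ 2 + n1 N 3 (fun n => x n s) ^ 4 / c ^ 2) *
            n2 N 4 (fun n => x n s) ^ 2 ≤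
            C * ((4 * A) ^ 2 + (4 * A) ^ 4 / c ^ 2) * n2 N 4 (fun n => x n s) ^ 2 := by
          gcongr
        rw [hL]
        show 2 * ∑ k ∈ Finset.range N, wt k ^ (2 * 4) * (x k s * Dn N (fun n => x n s) k) ≤
          2 * (C * ((4 * A) ^ 2 + (4 * A) ^ 4 / c ^ 2)) * n2 N 4 (fun n => x n s) ^ 2
        linarith) t ⟨ht.1, le_rfl⟩
    have h7 : n2 N 4 (fun n => x n 0) = n2 N 4 a := n2_congr N 4 _ _ (fun n hn => h0 n hn)
    simp only [h7] at hg
    have h8 : Real.exp (L * t) ≤ Real.exp 1 := by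
      apply Real.exp_le_exp.2
      have := mul_le_mul_of_nonneg_left ht.2 hL0
      linarith
    have h9 := Real.exp_one_lt_d9
    have h10 := n2_nonneg N 4 a
    have h11 : n2 N 4 a ^ 2 ≤ A ^ 2 := pow_le_pow_left₀ h10 ha 2
    have h12 : n2 N 4 (fun n => x n t) ^ 2 < 4 * A ^ 2 := by
      have hA2 : 0 < A ^ 2 := by positivity
      calc n2 N 4 (fun n => x n t) ^ 2 ≤ n2 N 4 a ^ 2 * Real.exp (L * t) := hg
        _ ≤ A ^ 2 * 3 := by
            apply mul_le_mul h11 _ (Real.exp_pos _).le hA2.le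
            linarith
        _ < 4 * A ^ 2 := by linarith
    have hlip := n1_lip N 1 t E x (fun k s => Dn N (fun n => x n s) k)
      (fun k hk' s hs' => (hk s hs').1 k hk')
      (fun s hs' => by
        have h1 := hD N (fun n => x n s)
        have h2 := hn3 s hs'
        have h3 := n1_nonneg N 3 (fun n => x n s)
        have h4 : n1 N 1 (fun n => x n s) ≤ n1 N 3 (fun n => x n s) :=
          n1_mono N (by norm_num) _
        have h5 : D * n1 N (1 + 2) (fun n => x n s) ^ 3 ≤ D * (4 * A) ^ 3 := by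
          have : n1 N (1 + 2) (fun n => x n s) ^ 3 ≤ (4 * A) ^ 3 :=
            pow_le_pow_left₀ h3 h2 3
          exact mul_le_mul_of_nonneg_left this hD0
        rw [hE]
        show n1 N 1 (Dn N (fun n => x n s)) ≤ D * (4 * A) ^ 3 + 8 * A
        linarith)
      0 ⟨le_rfl, ht.1⟩ t ⟨ht.1, le_rfl⟩
    have h13 : n1 N 1 (fun n => x n t - x n 0) = n1 N 1 (fun n => x n t - a n) := by
      unfold n1
      refine Finset.sum_congr rfl fun k hk' => ?_
      simp only [h0 k (Finset.mem_range.1 hk')]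
    rw [h13, sub_zero, abs_of_nonneg ht.1] at hlip
    have h14 : E * t ≤ E * τ := mul_le_mul_of_nonneg_left ht.2 hE0
    show max (n2 N 4 (fun n => x n t) ^ 2 - 4 * A ^ 2) (n1 N 1 (fun n => x n t - a n) - c) < 0
    rw [max_lt_iff]
    constructor <;> linarith
-- END c4

-- BEGIN c5
private theorem c5_congr (N : ℕ) (x z : ℕ → ℝ) (h : ∀ n < N, x n = z n) (k : ℕ) (hk : k < N) :
    Dn N x k = Dn N z k := by
  unfold Dn
  rw [h k hk]
  congr 1
  refine Finset.sum_congr rfl fun l hl => Finset.sum_congr rfl fun m hm =>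
    Finset.sum_congr rfl fun n hn => ?_
  rw [h l (Finset.mem_range.mp hl), h m (Finset.mem_range.mp hm), h n (Finset.mem_range.mp hn)]

/-- (c5, size 2) The Galerkin approximations with all bounds. PROOF. `galerkin_ode` with `K = 2 A`, `T = τ` of `apri`; the clamp is inactive
(`abs_le_n2` with `j = 4`, `1 ≤ wt k`), so `Dn` of the clamp is `Dn` (it only sees indices `< N`); then `energy j`, `n2_deriv`, `gron` on `[0, τ]`:
`n2 N j (x t) ^ 2 ≤ n2 N j a ^ 2 * exp (L τ)`, `M j = exp (L τ)` (`≥ 1`). -/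
theorem galerkin (A c : ℝ) (hA : 0 < A) (hc : 0 < c) : ∃ τ : ℝ, 0 < τ ∧ ∃ M : ℕ → ℝ,
    (∀ j, 0 ≤ M j) ∧ ∀ (N : ℕ) (a : ℕ → ℝ), n2 N 4 a ≤ A →
      (∀ y ∈ I1, 2 * c ≤ ∑ n ∈ Finset.range N, a n * cU (2 * n) y) →
      ∃ x : ℕ → ℝ → ℝ, (∀ k < N, x k 0 = a k) ∧ (∀ k, N ≤ k → ∀ t, x k t = 0) ∧
        (∀ k < N, ∀ t ∈ Icc 0 τ,
          HasDerivWithinAt (x k) (Dn N (fun n => x n t) k) (Icc 0 τ) t) ∧
        (∀ j, 1 ≤ j → ∀ t ∈ Icc 0 τ, n2 N j (fun n => x n t) ≤ M j * n2 N j a) ∧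
        (∀ t ∈ Icc 0 τ, ∀ y ∈ I1, c ≤ ∑ n ∈ Finset.range N, x n t * cU (2 * n) y) := by
  obtain ⟨τ, hτ, hap⟩ := apri A c hA hc
  have hen : ∀ j : ℕ, ∃ C : ℝ, 0 ≤ C ∧ (1 ≤ j → ∀ (N : ℕ) (x : ℕ → ℝ) (c : ℝ), 0 < c →
      (∀ y ∈ I1, c ≤ ∑ n ∈ Finset.range N, x n * cU (2 * n) y) →
      ∑ k ∈ Finset.range N, wt k ^ (2 * j) * (x k * Dn N x k) ≤
        C * (n1 N 3 x ^ 2 + n1 N 3 x ^ 4 / c ^ 2) * n2 N j x ^ 2) := by
    intro j
    by_cases hj : 1 ≤ j
    · obtain ⟨C, hC, h⟩ := energy j hj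
      exact ⟨C, hC, fun _ => h⟩
    · exact ⟨0, le_rfl, fun h => absurd h hj⟩
  choose C hC hE using hen
  obtain ⟨P, hP⟩ : ∃ P, P = 4 * A := ⟨_, rfl⟩
  have hP0 : 0 ≤ P := by rw [hP]; linarith
  refine ⟨τ, hτ, fun j => Real.exp (2 * (C j * (P ^ 2 + P ^ 4 / c ^ 2)) * τ),
    fun j => (Real.exp_pos _).le, fun N a ha hp => ?_⟩
  obtain ⟨x, hx0, hxN, hxd⟩ := galerkin_ode N (2 * A) τ (by linarith) hτ a
  have hap' := hap N a x ha hp hx0 hxd
  have hcl : ∀ t ∈ Icc 0 τ, ∀ k < N, max (-(2 * A)) (min (2 * A) (x k t)) = x k t := by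
    intro t ht k hk
    have h1 := abs_le_n2 N 4 k hk (fun n => x n t)
    have h2 := (hap' t ht).1
    have h3 : |x k t| ≤ wt k ^ 4 * |x k t| :=
      le_mul_of_one_le_left (abs_nonneg _) (one_le_pow₀ (one_le_wt k))
    have h4 : |x k t| ≤ 2 * A := h3.trans (h1.trans h2)
    rw [abs_le] at h4
    rw [min_eq_right h4.2, max_eq_right h4.1]
  have hd : ∀ k < N, ∀ t ∈ Icc 0 τ,
      HasDerivWithinAt (x k) (Dn N (fun n => x n t) k) (Icc 0 τ) t := by
    intro k hk t ht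
    have h1 := hxd k hk t ht
    rwa [c5_congr N _ (fun n => x n t) (fun n hn => hcl t ht n hn) k hk] at h1
  refine ⟨x, hx0, hxN, hd, ?_, fun t ht y hy => (hap' t ht).2 y hy⟩
  intro j hj t ht
  have hn1 : ∀ t ∈ Icc 0 τ, n1 N 3 (fun n => x n t) ≤ P := by
    intro t ht
    have h1 := n1_le_n2 N 3 (fun n => x n t)
    have h2 := (hap' t ht).1
    rw [hP]
    linarith
  have hg := gron τ (2 * (C j * (P ^ 2 + P ^ 4 / c ^ 2))) (fun t => n2 N j (fun n => x n t) ^ 2)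
    (fun t => 2 * ∑ k ∈ Finset.range N, wt k ^ (2 * j) * (x k t * Dn N (fun n => x n t) k))
    (fun t ht => n2_deriv N j τ x (fun k t => Dn N (fun n => x n t) k) t
      (fun k hk => hd k hk t ht))
    (fun t ht => by
      have h1 := hE j hj N (fun n => x n t) c hc (hap' t ht).2
      have h2 := hn1 t ht
      have h3 := n1_nonneg N 3 (fun n => x n t)
      have h4 : n1 N 3 (fun n => x n t) ^ 2 ≤ P ^ 2 := pow_le_pow_left₀ h3 h2 2
      have h5 : n1 N 3 (fun n => x n t) ^ 4 ≤ P ^ 4 := pow_le_pow_left₀ h3 h2 4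
      have h6 : n1 N 3 (fun n => x n t) ^ 4 / c ^ 2 ≤ P ^ 4 / c ^ 2 :=
        div_le_div_of_nonneg_right h5 (by positivity)
      have h7 : C j * (n1 N 3 (fun n => x n t) ^ 2 + n1 N 3 (fun n => x n t) ^ 4 / c ^ 2) ≤
          C j * (P ^ 2 + P ^ 4 / c ^ 2) := mul_le_mul_of_nonneg_left (by linarith) (hC j)
      have h8 := mul_le_mul_of_nonneg_right h7 (sq_nonneg (n2 N j (fun n => x n t)))
      linarith) t ht
  have h0 : n2 N j (fun n => x n 0) = n2 N j a := n2_congr N j _ _ hx0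
  simp only [h0] at hg
  have hL : 0 ≤ 2 * (C j * (P ^ 2 + P ^ 4 / c ^ 2)) := by
    have := hC j
    positivity
  have h1 : Real.exp (2 * (C j * (P ^ 2 + P ^ 4 / c ^ 2)) * t) ≤
      Real.exp (2 * (C j * (P ^ 2 + P ^ 4 / c ^ 2)) * τ) :=
    Real.exp_le_exp.mpr (mul_le_mul_of_nonneg_left ht.2 hL)
  have h2 : 1 ≤ Real.exp (2 * (C j * (P ^ 2 + P ^ 4 / c ^ 2)) * τ) :=
    Real.one_le_exp (mul_nonneg hL hτ.le)
  set Ex := Real.exp (2 * (C j * (P ^ 2 + P ^ 4 / c ^ 2)) * τ) with hEx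
  have h3 : n2 N j (fun n => x n t) ^ 2 ≤ (Ex * n2 N j a) ^ 2 := by
    calc n2 N j (fun n => x n t) ^ 2
        ≤ n2 N j a ^ 2 * Real.exp (2 * (C j * (P ^ 2 + P ^ 4 / c ^ 2)) * t) := hg
      _ ≤ n2 N j a ^ 2 * Ex := mul_le_mul_of_nonneg_left h1 (sq_nonneg _)
      _ ≤ n2 N j a ^ 2 * (Ex * Ex) := by
          refine mul_le_mul_of_nonneg_left ?_ (sq_nonneg _)
          exact le_mul_of_one_le_left (by linarith) h2
      _ = (Ex * n2 N j a) ^ 2 := by ring
  have h4 : 0 ≤ Ex * n2 N j a := mul_nonneg (by linarith) (n2_nonneg _ _ _)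
  exact (pow_le_pow_iff_left₀ (n2_nonneg _ _ _) h4 (by norm_num)).mp h3
-- END c5

end Pool.Agent.RFq
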