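import Pool.Agent.RFq.N0
import Pool.Agent.MP_ae1fc5_gt.ArrBd
import Pool.Agent.MP_ae1fc5_gt.ArrId

/-!
# MP_ae1fc5_gt, Q1, local existence (section 3): definitions
-/

set_option autoImplicit false

open scoped Real ContDiff
open Set

noncomputable section

namespace Pool.Agent.RFq

open Pool.Agent.MP_ae1fc5_gt Pool.Agent.MP_ae1fc5_gt.Pde

/-- truncated vector field -/
def Dn (N : ℕ) (x : ℕ → ℝ) (k : ℕ) : ℝ :=
  (∑ l ∈ Finset.range N, ∑ m ∈ Finset.range N, ∑ n ∈ Finset.range N,
    tq l m n k * (x l * (x m * x n))) - 2 * x k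

/-- a kernel which dominates `sc` -/
def th (l p k : ℕ) : ℝ :=
  chi l p k + chi l (p - 1) k + (if k = p + l then 1 else 0) +
    (if l < p ∧ k + l + 1 = p then 1 else 0) + (if p ≤ l ∧ k + p = l then 1 else 0)

/-- the part of `tq` of first order -/
def Br (l m n k : ℕ) : ℝ :=
  ∑ p ∈ Finset.range (m + n + 1),
    chi l p k * (chi m n p * (3 - (lam m + lam n - lam p) / 2) - yj m n p)
  - ∑ p ∈ Finset.range (m + n + 1), sc l p k * jc m n p

end Pool.Agent.RFq
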