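import Pool.Agent.RFq.LeDefs

/-!
# MP_ae1fc5_gt, Q1, local existence: Parseval and positivity (proved)
-/

set_option autoImplicit false

open scoped Real ContDiff
open Set

noncomputable section

namespace Pool.Agent.RFq

open Pool.Agent.MP_ae1fc5_gt Pool.Agent.MP_ae1fc5_gt.Pde

private theorem ps_cos_int (j : ℤ) (hj : j ≠ 0) : ∫ θ in (0 : ℝ)..π, Real.cos ((j : ℝ) * θ) = 0 := by
  have hj' : (j : ℝ) ≠ 0 := by exact_mod_cast hj
  rw [intervalIntegral.integral_comp_mul_left (fun x => Real.cos x) hj', integral_cos]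
  simp [Real.sin_int_mul_pi]

theorem ps_orth (m n : ℕ) : ∫ θ in (0 : ℝ)..π, Real.sin ((2 * m + 1) * θ) * Real.sin ((2 * n + 1) * θ)
    = if m = n then π / 2 else 0 := by
  have h1 : ∀ θ : ℝ, Real.sin ((2 * m + 1) * θ) * Real.sin ((2 * n + 1) * θ) =
      (1 / 2) * Real.cos (((2 * ((m : ℤ) - n) : ℤ) : ℝ) * θ)
        - (1 / 2) * Real.cos (((2 * ((m : ℤ) + n + 1) : ℤ) : ℝ) * θ) := by
    intro θ
    have e1 : ((2 * ((m : ℤ) - n) : ℤ) : ℝ) * θ = (2 * m + 1) * θ - (2 * n + 1) * θ := by
      push_cast; ring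
    have e2 : ((2 * ((m : ℤ) + n + 1) : ℤ) : ℝ) * θ = (2 * m + 1) * θ + (2 * n + 1) * θ := by
      push_cast; ring
    rw [e1, e2, Real.cos_sub, Real.cos_add]
    ring
  simp_rw [h1]
  have hint : ∀ j : ℤ, IntervalIntegrable (fun θ : ℝ => (1 / 2) * Real.cos ((j : ℝ) * θ))
      MeasureTheory.volume 0 π := by
    intro j
    apply Continuous.intervalIntegrable
    fun_prop
  rw [intervalIntegral.integral_sub (hint _) (hint _), intervalIntegral.integral_const_mul,
    intervalIntegral.integral_const_mul, ps_cos_int (2 * ((m : ℤ) + n + 1)) (by omega)]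
  split_ifs with h
  · subst h
    simp
    ring
  · rw [ps_cos_int (2 * ((m : ℤ) - n)) (by omega)]
    ring

/-- Parseval for finite sine sums. -/
theorem parseval (N : ℕ) (a : ℕ → ℝ) :
    ∫ θ in (0 : ℝ)..π, (∑ k ∈ Finset.range N, a k * Real.sin ((2 * k + 1) * θ)) ^ 2
      = π / 2 * ∑ k ∈ Finset.range N, a k ^ 2 := by
  have h1 : ∀ θ : ℝ, (∑ k ∈ Finset.range N, a k * Real.sin ((2 * k + 1) * θ)) ^ 2 =
      ∑ m ∈ Finset.range N, ∑ n ∈ Finset.range N,
        (a m * a n) * (Real.sin ((2 * m + 1) * θ) * Real.sin ((2 * n + 1) * θ)) := by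
    intro θ
    rw [sq, Finset.sum_mul_sum]
    refine Finset.sum_congr rfl fun m _ => Finset.sum_congr rfl fun n _ => ?_
    ring
  simp_rw [h1]
  rw [intervalIntegral.integral_finsetSum]
  · rw [Finset.mul_sum]
    refine Finset.sum_congr rfl fun m hm => ?_
    rw [intervalIntegral.integral_finsetSum]
    · simp_rw [intervalIntegral.integral_const_mul, ps_orth]
      simp only [mul_ite, mul_zero, Finset.sum_ite_eq, hm, if_true]
      ring
    · intro n _
      apply Continuous.intervalIntegrable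
      fun_prop
  · intro m _
    apply Continuous.intervalIntegrable
    fun_prop

theorem cU_sin (k : ℕ) (θ : ℝ) : cU (2 * k) (Real.cos θ) * Real.sin θ =
    Real.sin ((2 * k + 1) * θ) := by
  have := Polynomial.Chebyshev.U_real_cos θ ((2 * k : ℕ) : ℤ)
  unfold cU
  rw [this]
  push_cast
  ring_nf

theorem bil_sum (N : ℕ) (x u : ℕ → ℝ) (y : ℝ) :
    ∑ k ∈ Finset.range (2 * N), bil chi N x u k * cU (2 * k) y =
      (∑ n ∈ Finset.range N, x n * cU (2 * n) y) * ∑ n ∈ Finset.range N, u n * cU (2 * n) y := by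
  have e : ∀ m ∈ Finset.range N, ∀ n ∈ Finset.range N,
      ∑ k ∈ Finset.range (2 * N), chi m n k * cU (2 * k) y = cU (2 * m) y * cU (2 * n) y := by
    intro m hm n hn
    rw [Finset.mem_range] at hm hn
    simp only [ArrId.cU_even]
    exact ArrId.sum_chi_aux m n y _ (by omega)
  unfold bil
  rw [Finset.sum_mul_sum]
  simp_rw [Finset.sum_mul]
  rw [Finset.sum_comm]
  refine Finset.sum_congr rfl fun m hm => ?_
  rw [Finset.sum_comm]
  refine Finset.sum_congr rfl fun n hn => ?_
  calc ∑ k ∈ Finset.range (2 * N), chi m n k * x m * u n * cU (2 * k) y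
      = (x m * u n) * ∑ k ∈ Finset.range (2 * N), chi m n k * cU (2 * k) y := by
        rw [Finset.mul_sum]
        refine Finset.sum_congr rfl fun k _ => ?_
        ring
    _ = x m * cU (2 * m) y * (u n * cU (2 * n) y) := by
        rw [e m hm n hn]; ring

/-- positivity -/
theorem bil_pos (N : ℕ) (x u : ℕ → ℝ) (c : ℝ) (hc : 0 ≤ c)
    (h : ∀ y ∈ I1, c ≤ ∑ n ∈ Finset.range N, x n * cU (2 * n) y) :
    c ^ 2 * ∑ k ∈ Finset.range N, u k ^ 2 ≤ ∑ k ∈ Finset.range (2 * N), bil chi N x u k ^ 2 := by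
  have h1 := parseval N u
  have h2 := parseval (2 * N) (bil chi N x u)
  have h3 : ∀ θ : ℝ, ∑ k ∈ Finset.range (2 * N), bil chi N x u k * Real.sin ((2 * k + 1) * θ) =
      (∑ n ∈ Finset.range N, x n * cU (2 * n) (Real.cos θ)) *
        ∑ n ∈ Finset.range N, u n * Real.sin ((2 * n + 1) * θ) := by
    intro θ
    have h4 := bil_sum N x u (Real.cos θ)
    have h5 := congrArg (fun z => z * Real.sin θ) h4
    simp only [Finset.sum_mul] at h5
    rw [Finset.sum_mul]
    calc ∑ k ∈ Finset.range (2 * N), bil chi N x u k * Real.sin ((2 * k + 1) * θ)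
        = ∑ k ∈ Finset.range (2 * N), bil chi N x u k * cU (2 * k) (Real.cos θ) * Real.sin θ := by
          refine Finset.sum_congr rfl fun k _ => ?_
          rw [mul_assoc, cU_sin]
      _ = _ := by
          rw [h5]
          refine Finset.sum_congr rfl fun m _ => ?_
          rw [mul_assoc, mul_assoc, mul_assoc]
          congr 2
          rw [Finset.sum_mul]
          refine Finset.sum_congr rfl fun k _ => ?_
          rw [mul_assoc, cU_sin]
  have h6 : c ^ 2 * ∫ θ in (0 : ℝ)..π, (∑ k ∈ Finset.range N, u k * Real.sin ((2 * k + 1) * θ)) ^ 2 ≤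
      ∫ θ in (0 : ℝ)..π,
        (∑ k ∈ Finset.range (2 * N), bil chi N x u k * Real.sin ((2 * k + 1) * θ)) ^ 2 := by
    rw [← intervalIntegral.integral_const_mul]
    apply intervalIntegral.integral_mono_on Real.pi_pos.le
    · apply Continuous.intervalIntegrable
      fun_prop
    · apply Continuous.intervalIntegrable
      fun_prop
    · intro θ _
      rw [h3 θ, mul_pow]
      have h7 := h (Real.cos θ) ⟨Real.neg_one_le_cos θ, Real.cos_le_one θ⟩
      exact mul_le_mul_of_nonneg_right (pow_le_pow_left₀ hc h7 2) (sq_nonneg _)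
  rw [h1, h2] at h6
  have hpi := Real.pi_pos
  have h8 : (π / 2) * (c ^ 2 * ∑ k ∈ Finset.range N, u k ^ 2) ≤
      (π / 2) * ∑ k ∈ Finset.range (2 * N), bil chi N x u k ^ 2 := by linarith
  exact le_of_mul_le_mul_left h8 (by positivity)

end Pool.Agent.RFq
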