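import Pool.Agent.RFq.SerA

/-!
# MP_ae1fc5_gt, R17: series on the closed interval, part B (solutions from the coefficients)
-/

open scoped Quaternion ContDiff Matrix
open Set

noncomputable section

namespace Pool.Agent.RFq

open Pool.Agent.MP_ae1fc5_gt Pool.Agent.MP_ae1fc5_gt.Pde

namespace Ser1

theorem hasSum_congr' {ι : Type*} {f g : ι → ℝ} {a : ℝ} (h : ∀ i, f i = g i) (hf : HasSum f a) :
    HasSum g a := by
  have : f = g := funext h
  rwa [← this]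

theorem abs_le_one {y : ℝ} (hy : y ∈ I1) : |y| ≤ ((1 : ℝ) + 1 / 1) / 2 := by
  have h : |y| ≤ 1 := abs_le.2 ⟨hy.1, hy.2⟩
  norm_num
  exact h

theorem dU_le (j k : ℕ) {y : ℝ} (hy : y ∈ I1) : |dU j (2 * k) y| ≤ wt k ^ (2 * j + 1) := by
  have h := dU_bound2 1 le_rfl y (abs_le_one hy) j k
  simpa [wt] using h

theorem term_le {Λ : ℝ} {d : ℕ → ℝ → ℝ} {B : ℕ → ℝ} (hB : ∀ k, ∀ s ∈ Icc 0 Λ, |d k s| ≤ B k)
    (j k : ℕ) {t : ℝ} (ht : t ∈ Icc 0 Λ) {y : ℝ} (hy : y ∈ I1) :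
    |d k t * dU j (2 * k) y| ≤ wt k ^ (2 * j + 1) * B k := by
  rw [abs_mul, mul_comm]
  exact mul_le_mul (dU_le j k hy) (hB k t ht) (abs_nonneg _) (pow_nonneg (wt_pos' k).le _)

section series

variable {Λ : ℝ} {d : ℕ → ℝ → ℝ} {B : ℕ → ℝ} (hB : ∀ k, ∀ s ∈ Icc 0 Λ, |d k s| ≤ B k)
  (hs : ∀ j : ℕ, Summable (fun k : ℕ => wt k ^ j * B k))

include hB hs

theorem ser_summable1 (j : ℕ) {t : ℝ} (ht : t ∈ Icc 0 Λ) {y : ℝ} (hy : y ∈ I1) :
    Summable (fun k => d k t * dU j (2 * k) y) :=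
  Summable.of_norm_bounded (hs (2 * j + 1)) (fun k => by
    rw [Real.norm_eq_abs]; exact term_le hB j k ht hy)

theorem ser_deriv1 (j : ℕ) {t : ℝ} (ht : t ∈ Icc 0 Λ) {y : ℝ} (hy : y ∈ I1) :
    HasDerivWithinAt (Ser d j t) (Ser d (j + 1) t y) I1 y := by
  have h0 : (0 : ℝ) ∈ I1 := by constructor <;> norm_num
  exact (tsum_deriv (-1) 1 (by norm_num) (fun k z => d k t * dU j (2 * k) z)
    (fun k z => d k t * dU (j + 1) (2 * k) z) (fun k => wt k ^ (2 * (j + 1) + 1) * B k)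
    (hs (2 * (j + 1) + 1))
    (fun k z _ => ((dU_hasDerivAt j (2 * k) z).const_mul (d k t)).hasDerivWithinAt)
    (fun k => (continuous_const.mul (dU_continuous (j + 1) (2 * k))).continuousOn)
    (fun k z hz => term_le hB (j + 1) k ht hz) 0 h0 (ser_summable1 hB hs j ht h0) y hy).2

theorem ser_cont1 (hd : ∀ k, ContinuousOn (d k) (Icc 0 Λ)) (j : ℕ) :
    ContinuousOn (fun p : ℝ × ℝ => Ser d j p.1 p.2) (Icc 0 Λ ×ˢ I1) := by
  unfold Ser
  refine continuousOn_tsum (fun k => ?_) (hs (2 * j + 1)) (fun k p hp => ?_)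
  · apply ContinuousOn.mul
    · exact (hd k).comp continuousOn_fst (fun p hp => hp.1)
    · exact (dU_continuous j (2 * k)).comp_continuousOn continuousOn_snd
  · rw [Real.norm_eq_abs]
    exact term_le hB j k hp.1 hp.2

/-- The primitive of the square of the first derivative as a double series. -/
theorem hasSum_J1 {t : ℝ} (ht : t ∈ Icc 0 Λ) {y : ℝ} (hy : y ∈ I1) :
    HasSum (fun p : ℕ × ℕ => d p.1 t * d p.2 t * Jpol p.1 p.2 y)
      (∫ z in (0 : ℝ)..y, Ser d 1 t z * Ser d 1 t z) := by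
  have h0 : (0 : ℝ) ∈ I1 := by constructor <;> norm_num
  have hB0 : ∀ k, 0 ≤ B k := fun k => (abs_nonneg _).trans (hB k t ht)
  obtain ⟨e, he⟩ : ∃ e : ℕ → ℝ, e = fun k => wt k ^ (2 * 1 + 1) * B k := ⟨_, rfl⟩
  have hes : Summable e := by rw [he]; exact hs (2 * 1 + 1)
  have he0 : ∀ k, 0 ≤ e k := fun k => by
    rw [he]; exact mul_nonneg (pow_nonneg (wt_pos' k).le _) (hB0 k)
  have hprod : Summable (fun p : ℕ × ℕ => e p.1 * e p.2) := hes.mul_of_nonneg hes he0 he0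
  have hder : ∀ p : ℕ × ℕ, ∀ z ∈ Icc (-1 : ℝ) 1,
      HasDerivWithinAt (fun z => d p.1 t * d p.2 t * Jpol p.1 p.2 z)
        ((d p.1 t * dU 1 (2 * p.1) z) * (d p.2 t * dU 1 (2 * p.2) z)) (Icc (-1) 1) z := by
    intro p z _
    have h := (Jpol_deriv p.1 p.2 z).const_mul (d p.1 t * d p.2 t)
    rw [deriv_cU, deriv_cU] at h
    have e : (d p.1 t * dU 1 (2 * p.1) z) * (d p.2 t * dU 1 (2 * p.2) z) =
        d p.1 t * d p.2 t * (dU 1 (2 * p.1) z * dU 1 (2 * p.2) z) := by ring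
    rw [e]
    exact h.hasDerivWithinAt
  have hbd : ∀ p : ℕ × ℕ, ∀ z ∈ Icc (-1 : ℝ) 1,
      |(d p.1 t * dU 1 (2 * p.1) z) * (d p.2 t * dU 1 (2 * p.2) z)| ≤ e p.1 * e p.2 := by
    intro p z hz
    rw [abs_mul, he]
    exact mul_le_mul (term_le hB 1 p.1 ht hz) (term_le hB 1 p.2 ht hz) (abs_nonneg _)
      (mul_nonneg (pow_nonneg (wt_pos' _).le _) (hB0 _))
  have hsum0 : Summable (fun p : ℕ × ℕ => d p.1 t * d p.2 t * Jpol p.1 p.2 0) := by
    simp only [Jpol_zero, mul_zero]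
    exact summable_zero
  have hT := tsum_deriv (-1) 1 (by norm_num)
    (fun (p : ℕ × ℕ) z => d p.1 t * d p.2 t * Jpol p.1 p.2 z)
    (fun p z => (d p.1 t * dU 1 (2 * p.1) z) * (d p.2 t * dU 1 (2 * p.2) z)) _ hprod hder
    (fun p => ((continuous_const.mul (dU_continuous 1 (2 * p.1))).mul
      (continuous_const.mul (dU_continuous 1 (2 * p.2)))).continuousOn) hbd 0 h0 hsum0
  have hD : ∀ z ∈ I1, HasDerivWithinAt
      (fun z => ∑' p : ℕ × ℕ, d p.1 t * d p.2 t * Jpol p.1 p.2 z)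
      (Ser d 1 t z * Ser d 1 t z) I1 z := by
    intro z hz
    have h := (hT z hz).2
    have h1 : HasSum (fun k => d k t * dU 1 (2 * k) z) (Ser d 1 t z) :=
      (ser_summable1 hB hs 1 ht hz).hasSum
    rw [(hasSum_mul h1 h1).tsum_eq] at h
    exact h
  have hcont : ContinuousOn (fun z => Ser d 1 t z * Ser d 1 t z) I1 := by
    have h1 : ContinuousOn (Ser d 1 t) I1 := fun z hz =>
      (ser_deriv1 hB hs 1 ht hz).continuousWithinAt
    exact h1.mul h1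
  have hint := eq_integral hcont hD hy
  rw [hint]
  simp only [Jpol_zero, mul_zero, tsum_zero, sub_zero]
  exact (hT y hy).1.hasSum

end series

/-- Exchange of summations, polynomial weights. -/
theorem fubini1 {ι : Type*} (β : ι → ℕ → ℝ) (X e : ι → ℝ)
    (D : ι → ℕ) (hβ : ∀ i k, D i ≤ k → β i k = 0) (he : Summable e)
    (hb : ∀ i k, |β i k * X i| * wt k ^ 3 ≤ e i) (u : ℕ → ℝ)
    (hu : ∀ k : ℕ, |u k| ≤ wt k) :
    Summable (fun k => (∑' i, β i k * X i) * u k) ∧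
    Summable (fun i => X i * ∑ k ∈ Finset.range (D i), β i k * u k) ∧
    ∑' k, (∑' i, β i k * X i) * u k = ∑' i, X i * ∑ k ∈ Finset.range (D i), β i k * u k := by
  have hg : Summable (fun k : ℕ => (wt k ^ 2)⁻¹) := by
    have h1 : Summable (fun k : ℕ => (((k : ℝ) + 1) ^ 2)⁻¹) := by
      have h2 := (summable_nat_add_iff (f := fun k : ℕ => ((k : ℝ) ^ 2)⁻¹) 1).2
        (Real.summable_nat_pow_inv.2 (by norm_num))
      refine (summable_congr fun k => ?_).1 h2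
      push_cast
      rfl
    refine Summable.of_nonneg_of_le (fun k => by have := wt_pos' k; positivity) (fun k => ?_) h1
    apply inv_anti₀ (by positivity)
    apply pow_le_pow_left₀ (by positivity)
    unfold wt
    have : (0 : ℝ) ≤ k := Nat.cast_nonneg k
    linarith
  have he0 : ∀ i, 0 ≤ e i := fun i =>
    (mul_nonneg (abs_nonneg (β i 0 * X i)) (pow_nonneg (wt_pos' 0).le 3)).trans (hb i 0)
  have hprod : Summable (fun p : ι × ℕ => e p.1 * (wt p.2 ^ 2)⁻¹) :=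
    he.mul_of_nonneg hg he0 (fun k => by have := wt_pos' k; positivity)
  have hf : Summable (Function.uncurry (fun (i : ι) (k : ℕ) => β i k * X i * u k)) := by
    refine Summable.of_norm_bounded hprod (fun p => ?_)
    obtain ⟨i, k⟩ := p
    simp only [Function.uncurry, norm_mul, Real.norm_eq_abs]
    rw [← abs_mul]
    have h1 := hb i k
    have h2 := hu k
    have hw := wt_pos' k
    have h3 : |β i k * X i| ≤ e i / wt k ^ 3 := by
      rw [le_div_iff₀ (by positivity)]; exact h1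
    calc |β i k * X i| * |u k| ≤ (e i / wt k ^ 3) * wt k :=
          mul_le_mul h3 h2 (abs_nonneg _) (div_nonneg (he0 i) (by positivity))
      _ = e i * (wt k ^ 2)⁻¹ := by
        field_simp
  have e1 : (fun k => (∑' i, β i k * X i) * u k) = fun k => ∑' i, β i k * X i * u k := by
    funext k; rw [tsum_mul_right]
  have e2 : (fun i => X i * ∑ k ∈ Finset.range (D i), β i k * u k) =
      fun i => ∑' k, β i k * X i * u k := by
    funext i
    rw [tsum_eq_sum (s := Finset.range (D i)), Finset.mul_sum]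
    · apply Finset.sum_congr rfl
      intro k _; ring
    · intro k hk
      rw [Finset.mem_range, not_lt] at hk
      rw [hβ i k hk]; ring
  rw [e1, e2]
  refine ⟨?_, ?_, ?_⟩
  · exact hf.prod_symm.prod
  · exact hf.prod
  · exact hf.tsum_comm

/-- The kernel `tq` with polynomial weights. -/
theorem tq_le : ∃ C, 0 ≤ C ∧ ∀ q : ℕ, ∀ l m n k, |tq l m n k| * wt k ^ q ≤
    C * (wt l ^ (q + 3) * (wt m ^ (q + 3) * wt n ^ (q + 3))) := by
  obtain ⟨C, hC⟩ := tq_bound'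
  have hC0 : 0 ≤ C := by
    have := (abs_nonneg _).trans (hC 0 0 0 0)
    simp [lam] at this
    exact this
  refine ⟨C, hC0, fun q l m n k => ?_⟩
  have hl := one_le_wt' l
  have hm := one_le_wt' m
  have hn := one_le_wt' n
  have hk0 := wt_pos' k
  by_cases h : l + m + n < k
  · rw [tq_support l m n k h]
    simp only [abs_zero, zero_mul]
    positivity
  · push Not at h
    have h1 : wt k ≤ wt l * (wt m * wt n) := by
      have h2 : wt k ≤ wt l + wt m + wt n - 2 := by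
        unfold wt
        have : (k : ℝ) ≤ l + m + n := by exact_mod_cast h
        linarith
      nlinarith [mul_nonneg (sub_nonneg.2 hm) (sub_nonneg.2 hn),
        mul_nonneg (sub_nonneg.2 hl) (sub_nonneg.2 (one_le_mul_of_one_le_of_one_le hm hn))]
    have h2 : lam l + lam m + lam n + 1 ≤ wt l ^ 2 * (wt m ^ 2 * wt n ^ 2) := by
      unfold wt
      rw [← lam_add_one, ← lam_add_one, ← lam_add_one]
      have a := Pde.lam_nonneg l
      have b := Pde.lam_nonneg m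
      have c := Pde.lam_nonneg n
      nlinarith [mul_nonneg b c, mul_nonneg a b, mul_nonneg a c, mul_nonneg a (mul_nonneg b c)]
    calc |tq l m n k| * wt k ^ q
        ≤ (C * (lam l + lam m + lam n + 1) * (2 * l + 1) * (2 * m + 1) * (2 * n + 1)) *
          (wt l * (wt m * wt n)) ^ q := by
          apply mul_le_mul (hC l m n k) (pow_le_pow_left₀ hk0.le h1 q) (by positivity)
          exact (abs_nonneg _).trans (hC l m n k)
      _ = (C * (wt l * (wt m * wt n)) * (wt l * (wt m * wt n)) ^ q) *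
            (lam l + lam m + lam n + 1) := by
          simp only [wt]
          ring
      _ ≤ (C * (wt l * (wt m * wt n)) * (wt l * (wt m * wt n)) ^ q) *
            (wt l ^ 2 * (wt m ^ 2 * wt n ^ 2)) := by
          apply mul_le_mul_of_nonneg_left h2
          have := wt_pos' l
          have := wt_pos' m
          have := wt_pos' n
          positivity
      _ = _ := by ring

/-- The nonlinear identity on the closed interval. -/
theorem key1 {Λ : ℝ} {x : ℕ → ℝ → ℝ} {A : ℕ → ℝ}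
    (hA : ∀ k, ∀ s ∈ Icc 0 Λ, |x k s| ≤ A k)
    (hs : ∀ j : ℕ, Summable (fun k : ℕ => wt k ^ j * A k))
    {t : ℝ} (ht : t ∈ Icc 0 Λ) {y : ℝ} (hy : y ∈ I1) :
    Ser (fun k s => Dv (fun m => x m s) k) 0 t y =
      rhs (Ser x 0 t y) (Ser x 1 t y) (Ser x 2 t y)
      (∫ z in (0 : ℝ)..y, Ser x 1 t z * Ser x 1 t z) y := by
  have hA0 : ∀ k, 0 ≤ A k := fun k => (abs_nonneg _).trans (hA k t ht)
  have h0 : HasSum (fun k => x k t * cU (2 * k) y) (Ser x 0 t y) :=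
    (ser_summable1 hA hs 0 ht hy).hasSum
  have h1 : HasSum (fun k => x k t * dU 1 (2 * k) y) (Ser x 1 t y) :=
    (ser_summable1 hA hs 1 ht hy).hasSum
  have h2 : HasSum (fun k => x k t * dU 2 (2 * k) y) (Ser x 2 t y) :=
    (ser_summable1 hA hs 2 ht hy).hasSum
  have hJ := hasSum_J1 hA hs ht hy
  set w := Ser x 0 t y with hw
  set w1 := Ser x 1 t y with hw1
  set w2 := Ser x 2 t y with hw2
  set J := ∫ z in (0 : ℝ)..y, Ser x 1 t z * Ser x 1 t z with hJdef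
  have hL : HasSum (fun k => lam k * (x k t * cU (2 * k) y))
      (-((1 - y ^ 2) * w2 - 3 * y * w1)) := by
    have h := ((h2.mul_left (1 - y ^ 2)).sub (h1.mul_left (3 * y))).neg
    refine hasSum_congr' (fun k => ?_) h
    have hl := laplace_cU k y
    rw [deriv_deriv_cU, deriv_cU] at hl
    linear_combination (-(x k t)) * hl
  have hQ' : HasSum (fun p : ℕ × ℕ => x p.1 t * x p.2 t *
      ((2 - lam p.2) * (cU (2 * p.1) y * cU (2 * p.2) y)
        - (1 - y ^ 2) * (dU 1 (2 * p.1) y * dU 1 (2 * p.2) y) - y * Jpol p.1 p.2 y))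
      (2 * (w * w) - w * -((1 - y ^ 2) * w2 - 3 * y * w1) - (1 - y ^ 2) * (w1 * w1)
        - y * J) := by
    have h := ((((hasSum_mul h0 h0).mul_left 2).sub (hasSum_mul h0 hL)).sub
      ((hasSum_mul h1 h1).mul_left (1 - y ^ 2))).sub (hJ.mul_left y)
    refine hasSum_congr' (fun p => ?_) h
    ring
  have hT : HasSum (fun p : ℕ × ℕ × ℕ => x p.1 t * (x p.2.1 t * x p.2.2 t) *
      ∑ k ∈ Finset.range (p.1 + p.2.1 + p.2.2 + 1), tq p.1 p.2.1 p.2.2 k * cU (2 * k) y)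
      (w * (2 * (w * w) - w * -((1 - y ^ 2) * w2 - 3 * y * w1) - (1 - y ^ 2) * (w1 * w1)
        - y * J) - (1 - y ^ 2) * (w1 * J)) := by
    have h := (hasSum_mul h0 hQ').sub ((hasSum_mul h1 hJ).mul_left (1 - y ^ 2))
    refine hasSum_congr' (fun p => ?_) h
    rw [sum_tq, deriv_cU, deriv_cU, deriv_cU]
    ring
  -- exchange of the sums
  have hu : ∀ k : ℕ, |cU (2 * k) y| ≤ wt k := by
    intro k
    have := dU_le 0 k hy
    simpa [dU_zero] using this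
  obtain ⟨C, hC0, hC⟩ := tq_le
  set E : ℕ → ℝ := fun k : ℕ => wt k ^ 6 * A k with hEdef
  have hE : Summable E := hs 6
  have hE0 : ∀ k, 0 ≤ E k := fun k => mul_nonneg (pow_nonneg (wt_pos' k).le _) (hA0 k)
  have hE2 : Summable (fun p : ℕ × ℕ => E p.1 * E p.2) := hE.mul_of_nonneg hE hE0 hE0
  have hE3 : Summable (fun p : ℕ × ℕ × ℕ => E p.1 * (E p.2.1 * E p.2.2)) :=
    hE.mul_of_nonneg hE2 hE0 (fun p => mul_nonneg (hE0 _) (hE0 _))
  have hF3 := fubini1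
    (fun (p : ℕ × ℕ × ℕ) k => tq p.1 p.2.1 p.2.2 k)
    (fun p => x p.1 t * (x p.2.1 t * x p.2.2 t)) (fun p => C * (E p.1 * (E p.2.1 * E p.2.2)))
    (fun p => p.1 + p.2.1 + p.2.2 + 1)
    (fun p k hk => tq_support p.1 p.2.1 p.2.2 k (by omega)) (hE3.mul_left C)
    (fun p k => by
      rw [abs_mul, abs_mul, abs_mul]
      have a1 := hC 3 p.1 p.2.1 p.2.2 k
      have a2 : |x p.1 t| * (|x p.2.1 t| * |x p.2.2 t|) ≤ A p.1 * (A p.2.1 * A p.2.2) :=
        mul_le_mul (hA _ t ht) (mul_le_mul (hA _ t ht) (hA _ t ht) (abs_nonneg _) (hA0 _))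
          (by positivity) (hA0 _)
      have a3 : 0 ≤ |tq p.1 p.2.1 p.2.2 k| * wt k ^ 3 :=
        mul_nonneg (abs_nonneg _) (pow_nonneg (wt_pos' k).le _)
      calc |tq p.1 p.2.1 p.2.2 k| * (|x p.1 t| * (|x p.2.1 t| * |x p.2.2 t|)) * wt k ^ 3
          = (|tq p.1 p.2.1 p.2.2 k| * wt k ^ 3) * (|x p.1 t| * (|x p.2.1 t| * |x p.2.2 t|)) := by
            ring
        _ ≤ _ := mul_le_mul a1 a2 (by positivity) (a3.trans a1)
        _ = C * (E p.1 * (E p.2.1 * E p.2.2)) := by simp only [hEdef]; ring)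
    (fun k => cU (2 * k) y) hu
  have hN3 : HasSum (fun k => (∑' p : ℕ × ℕ × ℕ, tq p.1 p.2.1 p.2.2 k *
      (x p.1 t * (x p.2.1 t * x p.2.2 t))) * cU (2 * k) y)
      (w * (2 * (w * w) - w * -((1 - y ^ 2) * w2 - 3 * y * w1) - (1 - y ^ 2) * (w1 * w1)
        - y * J) - (1 - y ^ 2) * (w1 * J)) := by
    have h := hF3.1.hasSum
    rw [hF3.2.2, hT.tsum_eq] at h
    exact h
  have hfin : HasSum (fun k => Dv (fun m => x m t) k * dU 0 (2 * k) y)
      ((w * (2 * (w * w) - w * -((1 - y ^ 2) * w2 - 3 * y * w1)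
          - (1 - y ^ 2) * (w1 * w1) - y * J) - (1 - y ^ 2) * (w1 * J)) - 2 * w) := by
    have h := hN3.sub (h0.mul_left 2)
    refine hasSum_congr' (fun k => ?_) h
    rw [dU_zero]
    unfold Dv
    ring
  unfold Ser
  rw [hfin.tsum_eq]
  unfold rhs
  ring

/-- A dominating sequence. -/
theorem exists_dom {Λ : ℝ} {x : ℕ → ℝ → ℝ} (hΛ : 0 ≤ Λ)
    (dec : ∀ m : ℕ, ∃ C : ℝ, ∀ n, ∀ t ∈ Icc 0 Λ, wt n ^ m * |x n t| ≤ C) :
    ∃ A : ℕ → ℝ, (∀ k, ∀ s ∈ Icc 0 Λ, |x k s| ≤ A k) ∧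
      ∀ j : ℕ, Summable (fun k : ℕ => wt k ^ j * A k) := by
  obtain ⟨C0, hC0⟩ := dec 0
  have hbdd : ∀ k, BddAbove (range fun s : Icc 0 Λ => |x k s|) := fun k =>
    ⟨C0, by rintro _ ⟨s, rfl⟩; simpa using hC0 k s s.2⟩
  have : Nonempty (Icc 0 Λ) := ⟨⟨0, le_rfl, hΛ⟩⟩
  refine ⟨fun k => ⨆ s : Icc 0 Λ, |x k s|, fun k s hs => ?_, fun j => ?_⟩
  · exact le_ciSup (hbdd k) ⟨s, hs⟩
  · obtain ⟨C, hC⟩ := dec (j + 2)
    have hg : Summable (fun k : ℕ => (wt k ^ 2)⁻¹) := by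
      have h1 : Summable (fun k : ℕ => (((k : ℝ) + 1) ^ 2)⁻¹) := by
        have h2 := (summable_nat_add_iff (f := fun k : ℕ => ((k : ℝ) ^ 2)⁻¹) 1).2
          (Real.summable_nat_pow_inv.2 (by norm_num))
        refine (summable_congr fun k => ?_).1 h2
        push_cast
        rfl
      refine Summable.of_nonneg_of_le (fun k => by have := wt_pos' k; positivity)
        (fun k => ?_) h1
      apply inv_anti₀ (by positivity)
      apply pow_le_pow_left₀ (by positivity)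
      unfold wt
      have : (0 : ℝ) ≤ k := Nat.cast_nonneg k
      linarith
    refine Summable.of_nonneg_of_le (fun k => ?_) (fun k => ?_) (hg.mul_left C)
    · exact mul_nonneg (pow_nonneg (wt_pos' k).le _) (Real.iSup_nonneg fun _ => abs_nonneg _)
    · have hw := wt_pos' k
      have h1 : (⨆ s : Icc 0 Λ, |x k s|) ≤ C / wt k ^ (j + 2) := by
        apply ciSup_le
        intro s
        rw [le_div_iff₀ (by positivity), mul_comm]
        exact hC k s s.2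
      calc wt k ^ j * (⨆ s : Icc 0 Λ, |x k s|) ≤ wt k ^ j * (C / wt k ^ (j + 2)) :=
            mul_le_mul_of_nonneg_left h1 (by positivity)
        _ = C * (wt k ^ 2)⁻¹ := by
            rw [pow_add]
            field_simp

theorem even_cU (k : ℕ) (y : ℝ) : cU (2 * k) (-y) = cU (2 * k) y := by
  unfold cU
  rw [Polynomial.Chebyshev.U_eval_neg ℝ (2 * k) y]
  simp

/-- size of the cubic terms -/
theorem cub_summable {A : ℕ → ℝ} (hA0 : ∀ k, 0 ≤ A k) (C : ℝ)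
    (hs : ∀ j : ℕ, Summable (fun k : ℕ => wt k ^ j * A k)) (q : ℕ) :
    Summable (fun p : ℕ × ℕ × ℕ =>
      C * ((wt p.1 ^ (q + 3) * A p.1) * ((wt p.2.1 ^ (q + 3) * A p.2.1) *
        (wt p.2.2 ^ (q + 3) * A p.2.2)))) := by
  have hE0 : ∀ k, 0 ≤ wt k ^ (q + 3) * A k := fun k =>
    mul_nonneg (pow_nonneg (wt_pos' k).le _) (hA0 k)
  exact ((hs (q + 3)).mul_of_nonneg ((hs (q + 3)).mul_of_nonneg (hs (q + 3)) hE0 hE0) hE0
    (fun p => mul_nonneg (hE0 _) (hE0 _))).mul_left C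

theorem cub_le {Λ : ℝ} {x : ℕ → ℝ → ℝ} {A : ℕ → ℝ}
    (hA : ∀ k, ∀ s ∈ Icc 0 Λ, |x k s| ≤ A k) {C : ℝ}
    (hC : ∀ q : ℕ, ∀ l m n k, |tq l m n k| * wt k ^ q ≤
      C * (wt l ^ (q + 3) * (wt m ^ (q + 3) * wt n ^ (q + 3)))) (q k : ℕ) :
    ∀ s ∈ Icc 0 Λ, ∀ p : ℕ × ℕ × ℕ,
      |tq p.1 p.2.1 p.2.2 k * (x p.1 s * (x p.2.1 s * x p.2.2 s))| * wt k ^ q ≤
        C * ((wt p.1 ^ (q + 3) * A p.1) * ((wt p.2.1 ^ (q + 3) * A p.2.1) *
        (wt p.2.2 ^ (q + 3) * A p.2.2))) := by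
  intro s hs p
  have hA0 : ∀ k, 0 ≤ A k := fun k => (abs_nonneg _).trans (hA k s hs)
  rw [abs_mul, abs_mul, abs_mul]
  have a1 := hC q p.1 p.2.1 p.2.2 k
  have a2 : |x p.1 s| * (|x p.2.1 s| * |x p.2.2 s|) ≤ A p.1 * (A p.2.1 * A p.2.2) :=
    mul_le_mul (hA _ s hs) (mul_le_mul (hA _ s hs) (hA _ s hs) (abs_nonneg _) (hA0 _))
      (by positivity) (hA0 _)
  have a3 : 0 ≤ |tq p.1 p.2.1 p.2.2 k| * wt k ^ q :=
    mul_nonneg (abs_nonneg _) (pow_nonneg (wt_pos' k).le _)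
  calc |tq p.1 p.2.1 p.2.2 k| * (|x p.1 s| * (|x p.2.1 s| * |x p.2.2 s|)) * wt k ^ q
      = (|tq p.1 p.2.1 p.2.2 k| * wt k ^ q) * (|x p.1 s| * (|x p.2.1 s| * |x p.2.2 s|)) := by
        ring
    _ ≤ _ := mul_le_mul a1 a2 (by positivity) (a3.trans a1)
    _ = _ := by ring

/-- The right-hand side is continuous in time. -/
theorem dv_cont {Λ : ℝ} {x : ℕ → ℝ → ℝ} {A : ℕ → ℝ} (hΛ : 0 ≤ Λ)
    (hA : ∀ k, ∀ s ∈ Icc 0 Λ, |x k s| ≤ A k)
    (hs : ∀ j : ℕ, Summable (fun k : ℕ => wt k ^ j * A k))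
    (hxc : ∀ k, ContinuousOn (x k) (Icc 0 Λ)) (k : ℕ) :
    ContinuousOn (fun s => Dv (fun m => x m s) k) (Icc 0 Λ) := by
  obtain ⟨C, hC0, hC⟩ := tq_le
  have hA0 : ∀ k, 0 ≤ A k := fun k => (abs_nonneg _).trans (hA k 0 ⟨le_rfl, hΛ⟩)
  unfold Dv
  apply ContinuousOn.sub
  · refine continuousOn_tsum (fun p => ?_) (cub_summable hA0 C hs 0) (fun p s hs => ?_)
    · exact continuousOn_const.mul ((hxc _).mul ((hxc _).mul (hxc _)))
    · rw [Real.norm_eq_abs]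
      have := cub_le hA hC 0 k s hs p
      rwa [pow_zero, mul_one] at this
  · exact continuousOn_const.mul (hxc k)

/-- The right-hand side decays rapidly. -/
theorem dv_dec {Λ : ℝ} {x : ℕ → ℝ → ℝ} (hΛ : 0 ≤ Λ)
    (dec : ∀ m : ℕ, ∃ C : ℝ, ∀ n, ∀ t ∈ Icc 0 Λ, wt n ^ m * |x n t| ≤ C) :
    ∀ m : ℕ, ∃ C' : ℝ, ∀ n, ∀ t ∈ Icc 0 Λ, wt n ^ m * |Dv (fun m => x m t) n| ≤ C' := by
  obtain ⟨A, hA, hs⟩ := exists_dom hΛ dec
  have hA0 : ∀ k, 0 ≤ A k := fun k => (abs_nonneg _).trans (hA k 0 ⟨le_rfl, hΛ⟩)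
  obtain ⟨C, hC0, hC⟩ := tq_le
  intro q
  obtain ⟨Cq, hCq⟩ := dec q
  refine ⟨(∑' p : ℕ × ℕ × ℕ, C * ((wt p.1 ^ (q + 3) * A p.1) * ((wt p.2.1 ^ (q + 3) * A p.2.1) *
      (wt p.2.2 ^ (q + 3) * A p.2.2)))) + 2 * Cq, fun n t ht => ?_⟩
  have hw := wt_pos' n
  have h1 : |∑' p : ℕ × ℕ × ℕ, tq p.1 p.2.1 p.2.2 n * (x p.1 t * (x p.2.1 t * x p.2.2 t))| ≤
      (∑' p : ℕ × ℕ × ℕ, C * ((wt p.1 ^ (q + 3) * A p.1) * ((wt p.2.1 ^ (q + 3) * A p.2.1) *
      (wt p.2.2 ^ (q + 3) * A p.2.2)))) / wt n ^ q := by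
    rw [← tsum_div_const, ← Real.norm_eq_abs]
    exact tsum_of_norm_bounded ((cub_summable hA0 C hs q).div_const _).hasSum (fun p => by
      rw [Real.norm_eq_abs, le_div_iff₀ (by positivity)]
      exact cub_le hA hC q n t ht p)
  rw [le_div_iff₀ (by positivity)] at h1
  have h2 := hCq n t ht
  have h3 : |Dv (fun m => x m t) n| ≤
      |∑' p : ℕ × ℕ × ℕ, tq p.1 p.2.1 p.2.2 n * (x p.1 t * (x p.2.1 t * x p.2.2 t))|
      + 2 * |x n t| := by
    unfold Dv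
    refine (abs_sub _ _).trans ?_
    rw [abs_mul, abs_two]
  calc wt n ^ q * |Dv (fun m => x m t) n| ≤ wt n ^ q *
        (|∑' p : ℕ × ℕ × ℕ, tq p.1 p.2.1 p.2.2 n * (x p.1 t * (x p.2.1 t * x p.2.2 t))|
        + 2 * |x n t|) := mul_le_mul_of_nonneg_left h3 (by positivity)
    _ ≤ _ := by
        have e : wt n ^ q *
          (|∑' p : ℕ × ℕ × ℕ, tq p.1 p.2.1 p.2.2 n * (x p.1 t * (x p.2.1 t * x p.2.2 t))|
          + 2 * |x n t|) =
          |∑' p : ℕ × ℕ × ℕ, tq p.1 p.2.1 p.2.2 n * (x p.1 t * (x p.2.1 t * x p.2.2 t))|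
          * wt n ^ q + 2 * (wt n ^ q * |x n t|) := by ring
        rw [e]
        linarith

end Ser1

end Pool.Agent.RFq
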