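import Pool.Agent.RFq.N0
import Pool.Agent.RFq.SerB
import Pool.Agent.MP_ae1fc5_gt.Pde

/-!
# R17, section 4: series of Chebyshev polynomials with rapidly decaying coefficients on `[-1,1]`

The old versions (open interval, geometric weights) are in `MP_ae1fc5_gt/PdeC.lean`, `Pde.lean`;
here `r = 1` (note `dU_bound2` with `r = 1`: `|dU j (2n) y| <= (2n+1)^(2j+1)` on `I1`) and
derivatives are `HasDerivWithinAt` on `I1`.
-/

open scoped Quaternion ContDiff Matrix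
open Set

noncomputable section

namespace Pool.Agent.RFq

open Pool.Agent.MP_ae1fc5_gt Pool.Agent.MP_ae1fc5_gt.Pde

/-- Rapid decay, uniformly on `[0,Λ]`. -/
def RDec (Λ : ℝ) (d : ℕ → ℝ → ℝ) : Prop :=
  ∀ m : ℕ, ∃ C : ℝ, ∀ n, ∀ t ∈ Icc 0 Λ, wt n ^ m * |d n t| ≤ C

/-- The time derivatives of the coefficients. -/
def Dx (x : ℕ → ℝ → ℝ) (n : ℕ) (t : ℝ) : ℝ := Dv (fun m => x m t) n

/-- row s1. From `RDec`: a summable majorant for all weights (`B k = C / wt k ^ 2 / wt k ^ j`,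
use one constant for `m = 2 + j`; `1 / wt k ^ 2` is summable). -/
theorem s1 (Λ : ℝ) (d : ℕ → ℝ → ℝ) (hd : RDec Λ d) (j : ℕ) :
    ∃ B : ℕ → ℝ, Summable (fun k => wt k ^ j * B k) ∧
      ∀ k, ∀ t ∈ Icc 0 Λ, |d k t| ≤ B k := by
  by_cases hΛ : 0 ≤ Λ
  · obtain ⟨A, hA, hs⟩ := Ser1.exists_dom hΛ hd
    exact ⟨A, hs j, hA⟩
  · refine ⟨fun _ => 0, by simpa using summable_zero, fun k t ht => ?_⟩
    exact absurd (ht.1.trans ht.2) hΛ

/-- row s2. Termwise differentiation in `y` on `I1` (old: `ser_hasDerivAt`). The terms are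
polynomials and the bound `|dU j (2k) y| <= wt k ^ (2j+1)` holds on `I1`; use
`hasDerivWithinAt_tsum`-style lemmas or: write `Ser d j t y - Ser d j t y0 = int_{y0}^y Ser d (j+1) t`
(termwise integration, `hasSum_integral_of_summable_norm`) and differentiate the integral of a
continuous function within `I1`. -/
theorem s2 (Λ : ℝ) (d : ℕ → ℝ → ℝ) (hd : RDec Λ d) :
    (∀ j, ∀ t ∈ Icc 0 Λ, ∀ y ∈ I1, Summable (fun k => d k t * dU j (2 * k) y)) ∧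
    (∀ j, ∀ t ∈ Icc 0 Λ, ∀ y ∈ I1, HasDerivWithinAt (Ser d j t) (Ser d (j + 1) t y) I1 y) := by
  constructor
  · intro j t ht y hy
    obtain ⟨A, hA, hs⟩ := Ser1.exists_dom (ht.1.trans ht.2) hd
    exact Ser1.ser_summable1 hA hs j ht hy
  · intro j t ht y hy
    obtain ⟨A, hA, hs⟩ := Ser1.exists_dom (ht.1.trans ht.2) hd
    exact Ser1.ser_deriv1 hA hs j ht hy

/-- row s3. Joint continuity and boundedness (old: `ser_continuousOn`). -/
theorem s3 (Λ : ℝ) (d : ℕ → ℝ → ℝ) (hd : RDec Λ d) (hc : ∀ n, ContinuousOn (d n) (Icc 0 Λ))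
    (j : ℕ) : ContinuousOn (fun p : ℝ × ℝ => Ser d j p.1 p.2) (Icc 0 Λ ×ˢ I1) ∧
      ∃ C, ∀ t ∈ Icc 0 Λ, ∀ y ∈ I1, |Ser d j t y| ≤ C := by
  by_cases hΛ : 0 ≤ Λ
  · obtain ⟨A, hA, hs⟩ := Ser1.exists_dom hΛ hd
    refine ⟨Ser1.ser_cont1 hA hs hc j, ∑' k, wt k ^ (2 * j + 1) * A k, fun t ht y hy => ?_⟩
    rw [← Real.norm_eq_abs]
    exact tsum_of_norm_bounded (hs (2 * j + 1)).hasSum (fun k => by
      rw [Real.norm_eq_abs]
      exact Ser1.term_le hA j k ht hy)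
  · rw [Icc_eq_empty hΛ]
    simp

/-- row s4. Termwise differentiation in time (apply `hasDerivWithinAt_series` of `PdeB.lean`). -/
theorem s4 (Λ : ℝ) (hΛ : 0 < Λ) (x D : ℕ → ℝ → ℝ) (hx : RDec Λ x) (hD : RDec Λ D)
    (hc : ∀ n, ContinuousOn (D n) (Icc 0 Λ))
    (ho : ∀ n, ∀ t ∈ Icc 0 Λ, HasDerivWithinAt (x n) (D n t) (Icc 0 Λ) t) (j : ℕ) :
    ∀ t ∈ Icc 0 Λ, ∀ y ∈ I1,
      HasDerivWithinAt (fun s => Ser x j s y) (Ser D j t y) (Icc 0 Λ) t := by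
  obtain ⟨A, hA, hs⟩ := Ser1.exists_dom hΛ.le hx
  obtain ⟨B, hB, hsB⟩ := Ser1.exists_dom hΛ.le hD
  have z0 : (0 : ℝ) ∈ Icc 0 Λ := ⟨le_rfl, hΛ.le⟩
  have hA0 : ∀ k, 0 ≤ A k := fun k => (abs_nonneg _).trans (hA k 0 z0)
  have hB0 : ∀ k, 0 ≤ B k := fun k => (abs_nonneg _).trans (hB k 0 z0)
  intro t ht y hy
  refine hasDerivWithinAt_series Λ hΛ x D (fun k => dU j (2 * k) y) A B hc ho hA hB ?_ ?_ t ht
  · refine Summable.of_nonneg_of_le (fun k => mul_nonneg (abs_nonneg _) (hA0 k)) (fun k => ?_)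
      (hs (2 * j + 1))
    exact mul_le_mul_of_nonneg_right (Ser1.dU_le j k hy) (hA0 k)
  · refine Summable.of_nonneg_of_le (fun k => mul_nonneg (abs_nonneg _) (hB0 k)) (fun k => ?_)
      (hsB (2 * j + 1))
    exact mul_le_mul_of_nonneg_right (Ser1.dU_le j k hy) (hB0 k)

/-- row s5. Size of the coefficients `tq`: from `abs_tq_le` / `tq_bound'` (or `tq_bound''` with
`ρ = 1` together with `tq l m n k = 0` for `l + m + n < k`). -/
theorem s5 (j : ℕ) : ∃ C, 0 ≤ C ∧ ∀ l m n k, wt k ^ j * |tq l m n k| ≤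
    C * (wt l ^ (j + 3) * (wt m ^ (j + 3) * wt n ^ (j + 3))) := by
  obtain ⟨C, hC0, hC⟩ := Ser1.tq_le
  refine ⟨C, hC0, fun l m n k => ?_⟩
  rw [mul_comm]
  exact hC j l m n k

/-- row s6. `Dx` decays rapidly and is continuous in time (uses s1, s5 and
`continuousOn_tsum`; see `hb3`, `hcN`, `hNb` in the proof of `coef_to_pde`). -/
theorem s6 (Λ : ℝ) (x : ℕ → ℝ → ℝ) (hx : RDec Λ x) :
    RDec Λ (Dx x) ∧ ((∀ n, ContinuousOn (x n) (Icc 0 Λ)) →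
      ∀ n, ContinuousOn (Dx x n) (Icc 0 Λ)) := by
  by_cases hΛ : 0 ≤ Λ
  · refine ⟨Ser1.dv_dec hΛ hx, fun hc n => ?_⟩
    obtain ⟨A, hA, hs⟩ := Ser1.exists_dom hΛ hx
    exact Ser1.dv_cont hΛ hA hs hc n
  · refine ⟨fun m => ⟨0, fun n t ht => absurd (ht.1.trans ht.2) hΛ⟩, fun _ n => ?_⟩
    rw [Icc_eq_empty hΛ]
    exact continuousOn_empty _

/-- row s7. The integral of the square of the first derivative as a double series
(old: `hasSum_J`). -/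
theorem s7 (Λ : ℝ) (x : ℕ → ℝ → ℝ) (hx : RDec Λ x) (t : ℝ) (ht : t ∈ Icc 0 Λ) (y : ℝ)
    (hy : y ∈ I1) :
    HasDerivWithinAt (fun y => ∫ z in (0 : ℝ)..y, Ser x 1 t z ^ 2) (Ser x 1 t y ^ 2) I1 y ∧
    HasSum (fun p : ℕ × ℕ => x p.1 t * x p.2 t * Jpol p.1 p.2 y)
      (∫ z in (0 : ℝ)..y, Ser x 1 t z ^ 2) := by
  obtain ⟨A, hA, hs⟩ := Ser1.exists_dom (ht.1.trans ht.2) hx
  have zJ : (0 : ℝ) ∈ I1 := by constructor <;> norm_num
  have h1 : ContinuousOn (Ser x 1 t) I1 := fun z hz =>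
    (Ser1.ser_deriv1 hA hs 1 ht hz).continuousWithinAt
  refine ⟨PartialsAux.hasDerivWithinAt_integral (convex_Icc _ _) zJ _ (h1.pow 2) hy, ?_⟩
  have h2 := Ser1.hasSum_J1 hA hs ht hy
  simp only [sq]
  exact h2

/-- row s8. The nonlinear identity (old: `key`, without the summand `1 +`; here only the cubic
coefficients `tq` occur: `rhs V = cubic form - 2 V`). Exchange of summations: `fubini` of
`PdeC.lean` in the form with `|u k| <= wt k`, `|β i k X i| wt k ^ 3 <= e i` (write your own, all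
sums are absolutely convergent by s1, s5). -/
theorem s8 (Λ : ℝ) (x : ℕ → ℝ → ℝ) (hx : RDec Λ x) (t : ℝ) (ht : t ∈ Icc 0 Λ) (y : ℝ)
    (hy : y ∈ I1) :
    Ser (Dx x) 0 t y = rhs (Ser x 0 t y) (Ser x 1 t y) (Ser x 2 t y)
      (∫ z in (0 : ℝ)..y, Ser x 1 t z ^ 2) y := by
  obtain ⟨A, hA, hs⟩ := Ser1.exists_dom (ht.1.trans ht.2) hx
  have h := Ser1.key1 hA hs ht hy
  simp only [sq]
  exact h

end Pool.Agent.RFq
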