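import Pool.Agent.RFq.Defs

/-!
# MP_ae1fc5_gt, R17: series on the closed interval, part A (calculus)
-/

open scoped Quaternion ContDiff Matrix
open Set

noncomputable section

namespace Pool.Agent.RFq

open Pool.Agent.MP_ae1fc5_gt Pool.Agent.MP_ae1fc5_gt.Pde

namespace Ser1

theorem wt_pos' (n : ℕ) : 0 < wt n := by unfold wt; positivity

theorem one_le_wt' (n : ℕ) : 1 ≤ wt n := by
  unfold wt
  have : (0 : ℝ) ≤ n := Nat.cast_nonneg n
  linarith

/-- Termwise differentiation on a closed interval. -/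
theorem tsum_deriv {ι : Type*} (a b : ℝ) (hab : a < b) (f f' : ι → ℝ → ℝ) (u : ι → ℝ)
    (hu : Summable u)
    (hf : ∀ k, ∀ y ∈ Icc a b, HasDerivWithinAt (f k) (f' k y) (Icc a b) y)
    (hf' : ∀ k, ContinuousOn (f' k) (Icc a b))
    (hb : ∀ k, ∀ y ∈ Icc a b, |f' k y| ≤ u k)
    (y0 : ℝ) (hy0 : y0 ∈ Icc a b) (hs : Summable (fun k => f k y0)) :
    ∀ y ∈ Icc a b, Summable (fun k => f k y) ∧
      HasDerivWithinAt (fun y => ∑' k, f k y) (∑' k, f' k y) (Icc a b) y := by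
  -- extend to the whole line
  have hX : ∀ k, ∃ X : ℝ → ℝ, (∀ s ∈ Icc a b, X s = f k s) ∧
      ∀ s, HasDerivAt X (IccExtend hab.le ((Icc a b).domRestrict (f' k)) s) s := by
    intro k
    have hc : Continuous (IccExtend hab.le ((Icc a b).domRestrict (f' k))) :=
      (hf' k).domRestrict.Icc_extend'
    refine ⟨fun s => f k a + ∫ r in a..s, IccExtend hab.le ((Icc a b).domRestrict (f' k)) r,
      ?_, ?_⟩
    · intro s hs
      have h1 : ∫ r in a..s, IccExtend hab.le ((Icc a b).domRestrict (f' k)) r =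
          f k s - f k a := by
        apply intervalIntegral.integral_eq_sub_of_hasDeriv_right
        · rw [uIcc_of_le hs.1]
          exact fun r hr => ((hf k r ⟨hr.1, hr.2.trans hs.2⟩).continuousWithinAt).mono
            (Icc_subset_Icc le_rfl hs.2)
        · rw [min_eq_left hs.1, max_eq_right hs.1]
          intro r hr
          have hr' : r ∈ Icc a b := ⟨hr.1.le, hr.2.le.trans hs.2⟩
          rw [IccExtend_of_mem hab.le _ hr']
          have h2 := hf k r hr'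
          have h3 : HasDerivAt (f k) (f' k r) r :=
            h2.hasDerivAt (Icc_mem_nhds hr.1 (hr.2.trans_le hs.2))
          exact h3.hasDerivWithinAt
        · exact hc.intervalIntegrable _ _
      show f k a + ∫ r in a..s, IccExtend hab.le ((Icc a b).domRestrict (f' k)) r = f k s
      rw [h1]; ring
    · intro s
      have := intervalIntegral.integral_hasDerivAt_right (hc.intervalIntegrable a s)
        (hc.stronglyMeasurableAtFilter _ _) hc.continuousAt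
      exact this.const_add _
  choose X hX1 hX2 using hX
  have hbd : ∀ k s, ‖IccExtend hab.le ((Icc a b).domRestrict (f' k)) s‖ ≤ u k := by
    intro k s
    rw [Real.norm_eq_abs]
    exact hb k _ (projIcc a b hab.le s).2
  have hs0 : Summable (fun k => X k y0) := by
    refine (summable_congr fun k => ?_).1 hs
    rw [hX1 k y0 hy0]
  intro y hy
  have h1 : HasDerivAt (fun s => ∑' k, X k s)
      (∑' k, IccExtend hab.le ((Icc a b).domRestrict (f' k)) y) y :=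
    hasDerivAt_tsum (𝕜 := ℝ) (u := u) (y₀ := y0) hu hX2 hbd hs0 y
  have h0 : Summable (fun k => X k y) :=
    summable_of_summable_hasDerivAt (𝕜 := ℝ) (u := u) (y₀ := y0) hu hX2 hbd hs0 y
  have h2 : (∑' k, IccExtend hab.le ((Icc a b).domRestrict (f' k)) y) = ∑' k, f' k y := by
    congr 1; funext k
    rw [IccExtend_of_mem hab.le _ hy]
    rfl
  rw [h2] at h1
  refine ⟨(summable_congr fun k => ?_).1 h0, h1.hasDerivWithinAt.congr (fun s hs => ?_) ?_⟩
  · rw [hX1 k y hy]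
  · congr 1; funext k; rw [hX1 k s hs]
  · congr 1; funext k; rw [hX1 k y hy]

/-- Functions on an interval with the same derivative and the same value at `0`. -/
theorem eq_integral {g h : ℝ → ℝ} (hh : ContinuousOn h I1)
    (hg : ∀ y ∈ I1, HasDerivWithinAt g (h y) I1 y) {y : ℝ} (hy : y ∈ I1) :
    ∫ z in (0 : ℝ)..y, h z = g y - g 0 := by
  have h0 : (0 : ℝ) ∈ I1 := by constructor <;> norm_num
  have c1 : Convex ℝ I1 := convex_Icc _ _
  have hd : ∀ y ∈ I1, HasDerivWithinAt (fun y => g y - ∫ z in (0 : ℝ)..y, h z) 0 I1 y := by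
    intro y hy
    have h1 := (hg y hy).sub (PartialsAux.hasDerivWithinAt_integral c1 h0 h hh hy)
    refine h1.congr_deriv (by ring)
  have hc := c1.norm_image_sub_le_of_norm_hasDerivWithin_le (C := 0) hd
    (fun x _ => by simp) h0 hy
  simp only [zero_mul, norm_le_zero_iff] at hc
  rw [intervalIntegral.integral_same] at hc
  linarith

/-- Polynomial expressions are differentiable, closed interval version. -/
theorem polyC_deriv {F : ℕ → ℝ → ℝ → ℝ} {J : ℝ → ℝ → ℝ} {I K : Set ℝ}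
    (hF : ∀ j, ∀ t ∈ I, ∀ y ∈ K, HasDerivWithinAt (F j t) (F (j + 1) t y) K y)
    (hJ : ∀ t ∈ I, ∀ y ∈ K, HasDerivWithinAt (J t) (F 1 t y * F 1 t y) K y)
    {P : ℝ → ℝ → ℝ} (hP : PolyC F J P) :
    ∃ P', PolyC F J P' ∧ ∀ t ∈ I, ∀ y ∈ K, HasDerivWithinAt (P t) (P' t y) K y := by
  induction hP with
  | cst c => exact ⟨fun _ _ => 0, PolyC.cst 0, fun t _ y _ => hasDerivWithinAt_const y K c⟩
  | var => exact ⟨fun _ _ => 1, PolyC.cst 1, fun t _ y _ => hasDerivWithinAt_id y K⟩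
  | fn j => exact ⟨F (j + 1), PolyC.fn (j + 1), hF j⟩
  | jn => exact ⟨fun t y => F 1 t y * F 1 t y, PolyC.mul (PolyC.fn 1) (PolyC.fn 1), hJ⟩
  | add hP hQ ihP ihQ =>
    obtain ⟨P', hP', hP''⟩ := ihP
    obtain ⟨Q', hQ', hQ''⟩ := ihQ
    exact ⟨_, PolyC.add hP' hQ', fun t ht y hy => (hP'' t ht y hy).add (hQ'' t ht y hy)⟩
  | @mul P Q hP hQ ihP ihQ =>
    obtain ⟨P', hP', hP''⟩ := ihP
    obtain ⟨Q', hQ', hQ''⟩ := ihQ
    exact ⟨_, PolyC.add (PolyC.mul hP' hQ) (PolyC.mul hP hQ'), fun t ht y hy =>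
      (hP'' t ht y hy).mul (hQ'' t ht y hy)⟩

/-- Bootstrapping: all the functions are smooth, closed interval version. -/
theorem bootstrap1 {I K : Set ℝ} (hI : Convex ℝ I) (hK : Convex ℝ K)
    (hI' : (interior I).Nonempty) (hK' : (interior K).Nonempty) (h0 : (0 : ℝ) ∈ K)
    (F G : ℕ → ℝ → ℝ → ℝ) (J P : ℝ → ℝ → ℝ)
    (hcont : ∀ j, ContinuousOn (fun p : ℝ × ℝ => F j p.1 p.2) (I ×ˢ K))
    (hFy : ∀ j, ∀ t ∈ I, ∀ y ∈ K, HasDerivWithinAt (F j t) (F (j + 1) t y) K y)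
    (hFt : ∀ j, ∀ t ∈ I, ∀ y ∈ K, HasDerivWithinAt (fun s => F j s y) (G j t y) I t)
    (hGy : ∀ j, ∀ t ∈ I, ∀ y ∈ K, HasDerivWithinAt (G j t) (G (j + 1) t y) K y)
    (hJ : ∀ t ∈ I, ∀ y ∈ K, HasDerivWithinAt (J t) (F 1 t y * F 1 t y) K y)
    (hJi : ∀ t ∈ I, ∀ y ∈ K, J t y = ∫ z in (0 : ℝ)..y, F 1 t z * F 1 t z)
    (hP : PolyC F J P)
    (hGP : ∀ t ∈ I, ∀ y ∈ K, G 0 t y = P t y) :
    ∀ n : ℕ, ∀ j, ContDiffOn ℝ n (fun p : ℝ × ℝ => F j p.1 p.2) (I ×ˢ K) := by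
  -- every `G j` is a polynomial expression
  have hGj : ∀ j, ∃ Pj, PolyC F J Pj ∧ ∀ t ∈ I, ∀ y ∈ K, G j t y = Pj t y := by
    intro j
    induction j with
    | zero => exact ⟨P, hP, hGP⟩
    | succ j ih =>
      obtain ⟨Pj, hPj, hPj'⟩ := ih
      obtain ⟨Q, hQ, hQ'⟩ := polyC_deriv hFy hJ hPj
      refine ⟨Q, hQ, fun t ht y hy => ?_⟩
      have h1 := hGy j t ht y hy
      have h2 := hQ' t ht y hy
      have h3 : HasDerivWithinAt (G j t) (Q t y) K y :=
        h2.congr (fun z hz => hPj' t ht z hz) (hPj' t ht y hy)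
      have hu : UniqueDiffWithinAt ℝ K y := (uniqueDiffOn_convex hK hK') y hy
      rw [← h1.derivWithin hu, ← h3.derivWithin hu]
  intro n
  induction n with
  | zero =>
    intro j
    have := hcont j
    simpa using this
  | succ n ih =>
    have hJn : ContDiffOn ℝ n (fun p : ℝ × ℝ => J p.1 p.2) (I ×ˢ K) :=
      (contDiffOn_integral_snd n hI hK hI' hK' h0 (fun t z => F 1 t z * F 1 t z)
        ((ih 1).mul (ih 1))).congr (fun p hp => hJi p.1 hp.1 p.2 hp.2)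
    intro j
    obtain ⟨Pj, hPj, hPj'⟩ := hGj j
    have h1 : ContDiffOn ℝ n (fun p : ℝ × ℝ => G j p.1 p.2) (I ×ˢ K) :=
      (hPj.contDiffOn n ih hJn).congr (fun p hp => hPj' p.1 hp.1 p.2 hp.2)
    exact contDiffOn_of_partials n hI hK hI' hK' (F j) (G j) (F (j + 1))
      (hFt j) (hFy j) h1 (ih (j + 1))

end Ser1

open Ser1 in
/-- The primitive in a solution is the integral. -/
theorem Sol.J_eq {Λ : ℝ} {F G : ℕ → ℝ → ℝ → ℝ} {J : ℝ → ℝ → ℝ} (h : Sol Λ F G J) :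
    ∀ t ∈ Icc 0 Λ, ∀ y ∈ I1, J t y = ∫ z in (0 : ℝ)..y, F 1 t z * F 1 t z := by
  intro t ht y hy
  have hc : ContinuousOn (fun z => F 1 t z * F 1 t z) I1 := by
    have h1 : ContinuousOn (F 1 t) I1 := fun z hz => (h.dF 1 t ht z hz).continuousWithinAt
    exact h1.mul h1
  rw [eq_integral hc (g := J t) (fun z hz => (h.dJ t ht z hz).congr_deriv (by ring)) hy,
    h.J0 t ht]
  ring

open Ser1 in
/-- Solutions with all derivatives are smooth solutions. -/
theorem sol_smooth {Λ : ℝ} (hΛ : 0 < Λ) {F G : ℕ → ℝ → ℝ → ℝ} {J : ℝ → ℝ → ℝ}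
    (h : Sol Λ F G J) :
    ∀ n : ℕ, ∀ j, ContDiffOn ℝ n (fun p : ℝ × ℝ => F j p.1 p.2) (Icc 0 Λ ×ˢ I1) := by
  have pV : PolyC F J (F 0) := PolyC.fn 0
  have pS : PolyC F J (fun _ y => 1 + (-1) * (y * y)) :=
    PolyC.add (PolyC.cst 1) (PolyC.mul (PolyC.cst (-1)) (PolyC.mul PolyC.var PolyC.var))
  have pL : PolyC F J
      (fun t y => (1 + (-1) * (y * y)) * F 2 t y + ((-3) * y) * F 1 t y) :=
    PolyC.add (PolyC.mul pS (PolyC.fn 2)) (PolyC.mul (PolyC.mul (PolyC.cst (-3)) PolyC.var)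
      (PolyC.fn 1))
  have p1 := PolyC.mul (PolyC.mul pV pV) pL
  have p2 := PolyC.mul (PolyC.cst (-1)) (PolyC.mul pV (PolyC.mul pS
    (PolyC.mul (PolyC.fn (F := F) (J := J) 1) (PolyC.fn 1))))
  have p3 := PolyC.mul (PolyC.mul (PolyC.cst 2) pV)
    (PolyC.add (PolyC.mul pV pV) (PolyC.cst (-1)))
  have p4 := PolyC.mul (PolyC.mul (PolyC.cst (-1)) (PolyC.add (PolyC.mul PolyC.var pV)
    (PolyC.mul pS (PolyC.fn 1)))) PolyC.jn
  have pP := PolyC.add (PolyC.add (PolyC.add p1 p2) p3) p4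
  refine bootstrap1 (convex_Icc 0 Λ) (convex_Icc (-1) 1) ?_ ?_ ⟨by norm_num, by norm_num⟩
    F G J _ h.cF h.dF h.dt h.dG ?_ h.J_eq pP ?_
  · rw [interior_Icc]; exact nonempty_Ioo.2 hΛ
  · rw [interior_Icc]; exact nonempty_Ioo.2 (by norm_num)
  · intro t ht y hy
    exact (h.dJ t ht y hy).congr_deriv (by ring)
  · intro t ht y hy
    rw [h.G0 t ht y hy]
    simp only [rhs]
    ring

theorem sol_isSol1 {Λ : ℝ} (hΛ : 0 < Λ) {F G : ℕ → ℝ → ℝ → ℝ} {J : ℝ → ℝ → ℝ}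
    (h : Sol Λ F G J) : IsSol1 Λ (F 0) := by
  have u1 : UniqueDiffOn ℝ I1 := uniqueDiffOn_Icc (by norm_num)
  have e1 : ∀ t ∈ Icc 0 Λ, ∀ y ∈ I1, derivWithin (F 0 t) I1 y = F 1 t y :=
    fun t ht y hy => (h.dF 0 t ht y hy).derivWithin (u1 y hy)
  have e2 : ∀ t ∈ Icc 0 Λ, ∀ y ∈ I1, derivWithin (derivWithin (F 0 t) I1) I1 y = F 2 t y := by
    intro t ht y hy
    rw [derivWithin_congr (fun x hx => e1 t ht x hx) (e1 t ht y hy)]
    exact (h.dF 1 t ht y hy).derivWithin (u1 y hy)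
  have zJ : (0 : ℝ) ∈ I1 := by constructor <;> norm_num
  refine ⟨contDiffOn_infty.2 fun n => sol_smooth hΛ h n 0, h.pos, fun t ht y hy => ?_⟩
  have e3 : (∫ z in (0 : ℝ)..y, derivWithin (F 0 t) I1 z ^ 2) = J t y := by
    rw [h.J_eq t ht y hy]
    refine intervalIntegral.integral_congr fun z hz => ?_
    have hsub : uIcc 0 y ⊆ I1 := (ordConnected_Icc).uIcc_subset zJ hy
    simp only [e1 t ht z (hsub hz)]
    ring
  rw [e1 t ht y hy, e2 t ht y hy, e3, ← h.G0 t ht y hy]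
  exact h.dt 0 t ht y hy

end Pool.Agent.RFq
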